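import Mathlib

/-!
# Complemented ideals of Banach algebras
-/

namespace Pool.Agent.R302.ComplIdealDef

/-- A subalgebra `J` of `A` carries the norm of `A`. -/
instance {A : Type*} [NonUnitalNormedRing A] [NormedSpace ℂ A]
    [IsScalarTower ℂ A A] [SMulCommClass ℂ A A] (J : NonUnitalSubalgebra ℂ A) :
    NormedSpace ℂ J where
  norm_smul_le c x := norm_smul_le c (x : A)

/-- A complemented ideal of the Banach algebra `A`: a closed two-sided ideal `J` of `A` (given as a
non-unital subalgebra absorbing products with elements of `A`) for which there is a bounded linear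
projection `P` of `A` onto `J`. -/
structure IsComplementedIdeal {A : Type*} [NonUnitalNormedRing A] [NormedSpace ℂ A]
    [IsScalarTower ℂ A A] [SMulCommClass ℂ A A] (J : NonUnitalSubalgebra ℂ A) : Prop where
  closed : IsClosed (J : Set A)
  mul_mem_left : ∀ a x : A, x ∈ J → a * x ∈ J
  mul_mem_right : ∀ a x : A, x ∈ J → x * a ∈ J
  complemented : ∃ P : A →L[ℂ] A, (∀ a, P a ∈ J) ∧ ∀ x ∈ J, P x = x

end Pool.Agent.R302.ComplIdealDef
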