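import Mathlib
import Pool.Agent.W70.BA.Main

open Set Filter Topology ComplexConjugate

namespace Pool.Agent.R302.CountGen

open Pool.Agent.W70

/-- the slice algebra on the ball -/
abbrev BB : Type := Pool.Agent.W70.BA.A

/-- continuous functions on the sphere -/
abbrev CS : Type := C(Pool.Agent.W70.BA.S, ℂ)

instance : Nonempty Pool.Agent.W70.BA.S := ⟨⟨(1, 0), by simp [Pool.Agent.W70.BA.S]⟩⟩

/-- the countable index set: finite binary words -/
abbrev J : Type := List Bool

/-- bounded families of continuous functions on the sphere -/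
abbrev EE : Type := lp (fun _ : J => CS) ⊤

open Pool.Agent.W70.BA (res ev0 cz cb)

/-- evaluation of a family at an index -/
noncomputable def co (j : J) : EE →+* CS where
  toFun x := (x : J → CS) j
  map_one' := by rw [lp.infty_coeFn_one]; rfl
  map_mul' x y := by rw [lp.infty_coeFn_mul]; rfl
  map_zero' := rfl
  map_add' x y := rfl

lemma co_smul (j : J) (c : ℂ) (x : EE) : co j (c • x) = c • co j x := rfl

lemma co_algebraMap (j : J) (c : ℂ) : co j (algebraMap ℂ EE c) = algebraMap ℂ CS c := by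
  rw [Algebra.algebraMap_eq_smul_one, co_smul, map_one, Algebra.algebraMap_eq_smul_one]

lemma norm_co_le (j : J) (x : EE) : ‖co j x‖ ≤ ‖x‖ := lp.norm_apply_le_norm (by simp) x j

noncomputable def mk (x : J → CS) (C : ℝ) (h : ∀ j, ‖x j‖ ≤ C) : EE :=
  ⟨x, memℓp_infty ⟨C, by rintro _ ⟨j, rfl⟩; exact h j⟩⟩

lemma co_mk (x : J → CS) (C : ℝ) (h : ∀ j, ‖x j‖ ≤ C) (j : J) : co j (mk x C h) = x j := rfl

lemma ext' {x y : EE} (h : ∀ j, co j x = co j y) : x = y := lp.ext (funext h)

lemma norm_res (f : BB) : ‖res f‖ = ‖f‖ := by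
  have := Pool.Agent.W70.BA.res_isometry.dist_eq f 0
  rwa [map_zero, dist_zero_right, dist_zero_right] at this

/-- The algebra: bounded families whose distance to the slice algebra tends to zero. -/
noncomputable def AA : Subalgebra ℂ EE where
  carrier := {x | ∀ ε : ℝ, 0 < ε → ∀ᶠ j in cofinite, ∃ g : BB, ‖co j x - res g‖ < ε}
  mul_mem' := fun {x y} hx hy ε hε => by
    set M : ℝ := ‖x‖ + ‖y‖ + 1 with hM
    have hM0 : 0 < M := by positivity
    set η : ℝ := min 1 (ε / (2 * M)) with hη
    have hη0 : 0 < η := lt_min one_pos (by positivity)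
    filter_upwards [hx η hη0, hy η hη0] with j ⟨g, hg⟩ ⟨h, hh⟩
    refine ⟨g * h, ?_⟩
    rw [map_mul, map_mul]
    have e : co j x * co j y - res g * res h =
        co j x * (co j y - res h) + (co j x - res g) * res h := by ring
    rw [e]
    have h1 : ‖res h‖ ≤ ‖y‖ + 1 := by
      have h2 : res h = co j y - (co j y - res h) := by ring
      rw [h2]
      refine (norm_sub_le _ _).trans ?_
      have := norm_co_le j y
      have h3 : ‖co j y - res h‖ < 1 := hh.trans_le (min_le_left _ _)
      linarith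
    have h4 : ‖co j x‖ ≤ ‖x‖ := norm_co_le j x
    have h5 : η ≤ ε / (2 * M) := min_le_right _ _
    calc ‖co j x * (co j y - res h) + (co j x - res g) * res h‖
        ≤ ‖co j x * (co j y - res h)‖ + ‖(co j x - res g) * res h‖ := norm_add_le _ _
      _ ≤ ‖co j x‖ * ‖co j y - res h‖ + ‖co j x - res g‖ * ‖res h‖ :=
          add_le_add (norm_mul_le _ _) (norm_mul_le _ _)
      _ ≤ ‖x‖ * η + η * (‖y‖ + 1) := by
          gcongr
      _ = M * η := by rw [hM]; ring
      _ ≤ M * (ε / (2 * M)) := by gcongr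
      _ = ε / 2 := by field_simp
      _ < ε := half_lt_self hε
  add_mem' := fun {x y} hx hy ε hε => by
    filter_upwards [hx (ε / 2) (half_pos hε), hy (ε / 2) (half_pos hε)] with j ⟨g, hg⟩ ⟨h, hh⟩
    refine ⟨g + h, ?_⟩
    rw [map_add, map_add]
    have e : co j x + co j y - (res g + res h) = (co j x - res g) + (co j y - res h) := by ring
    rw [e]
    refine (norm_add_le _ _).trans_lt ?_
    linarith
  algebraMap_mem' := fun r ε hε => Eventually.of_forall fun j =>
    ⟨algebraMap ℂ BB r, by rw [co_algebraMap, AlgHom.commutes, sub_self, norm_zero]; exact hε⟩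

lemma mem_AA {x : EE} : x ∈ AA ↔
    ∀ ε : ℝ, 0 < ε → ∀ᶠ j in cofinite, ∃ g : BB, ‖co j x - res g‖ < ε := Iff.rfl

lemma isClosed_AA : IsClosed (AA : Set EE) := by
  rw [← isSeqClosed_iff_isClosed]
  intro u x hu hx
  show x ∈ AA
  rw [mem_AA]
  intro ε hε
  obtain ⟨n, hn⟩ := (Metric.tendsto_atTop.mp hx) (ε / 2) (half_pos hε)
  have h1 := hn n le_rfl
  have h2 : u n ∈ AA := hu n
  filter_upwards [mem_AA.mp h2 (ε / 2) (half_pos hε)] with j ⟨g, hg⟩
  refine ⟨g, ?_⟩
  have e : co j x - res g = (co j (u n) - res g) - co j (u n - x) := by rw [map_sub]; ring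
  rw [e]
  refine (norm_sub_le _ _).trans_lt ?_
  have h3 := norm_co_le j (u n - x)
  rw [dist_eq_norm] at h1
  linarith

noncomputable instance : CompleteSpace AA := isClosed_AA.completeSpace_coe

/-- point evaluations -/
noncomputable def evl (j : J) (s : Pool.Agent.W70.BA.S) : AA →ₐ[ℂ] ℂ where
  toFun x := co j x.1 s
  map_one' := by
    show co j (1 : EE) s = 1
    rw [map_one]; rfl
  map_mul' x y := by
    show co j (x.1 * y.1) s = _
    rw [map_mul]; rfl
  map_zero' := rfl
  map_add' x y := rfl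
  commutes' r := by
    show co j (algebraMap ℂ EE r) s = _
    rw [co_algebraMap]; rfl

lemma evl_apply (j : J) (s : Pool.Agent.W70.BA.S) (x : AA) : evl j s x = co j x.1 s := rfl

/-- the dense sequence in the sphere -/
noncomputable def ds : ℕ → Pool.Agent.W70.BA.S := TopologicalSpace.denseSeq _

lemma isUnit_BB (g : BB) (hg : ∀ s, res g s ≠ 0) : IsUnit g := by
  refine Pool.Agent.W70.BA.isUnit_of_ne g fun x hx => ?_
  obtain ⟨y, hyS, hy⟩ := Pool.Agent.W70.BA.exists_zero_S g x hx
  exact hg ⟨y.1, hyS⟩ hy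

/-- inverses -/
lemma isUnit_AA (y : AA) {c : ℝ} (hc : 0 < c) (hy : ∀ j s, c ≤ ‖co j y.1 s‖) : IsUnit y := by
  have hne : ∀ j s, co j y.1 s ≠ 0 := fun j s h0 => by
    have := hy j s
    rw [h0, norm_zero] at this
    linarith
  let w : J → CS := fun j => ⟨fun s => (co j y.1 s)⁻¹, (co j y.1).continuous.inv₀ (hne j)⟩
  have hw : ∀ j s, w j s = (co j y.1 s)⁻¹ := fun j s => rfl
  have hwn : ∀ j, ‖w j‖ ≤ c⁻¹ := fun j => by
    rw [ContinuousMap.norm_le _ (by positivity)]
    intro s
    rw [hw, norm_inv]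
    exact inv_anti₀ hc (hy j s)
  have hmem : mk w c⁻¹ hwn ∈ AA := by
    rw [mem_AA]
    intro ε hε
    set η : ℝ := min (c / 2) (ε * c ^ 2 / 4) with hη
    have hη0 : 0 < η := lt_min (by positivity) (by positivity)
    filter_upwards [mem_AA.mp y.2 η hη0] with j ⟨g, hg⟩
    have hgs : ∀ s, c / 2 ≤ ‖res g s‖ := fun s => by
      have h1 : ‖co j y.1 s - res g s‖ < c / 2 :=
        lt_of_le_of_lt (ContinuousMap.norm_coe_le_norm (co j y.1 - res g) s)
          (hg.trans_le (min_le_left _ _))
      have h2 := hy j s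
      have h3 := norm_sub_norm_le (co j y.1 s) (res g s)
      linarith
    obtain ⟨u, hu⟩ := isUnit_BB g fun s h0 => by
      have := hgs s
      rw [h0, norm_zero] at this
      linarith
    refine ⟨((u⁻¹ : BBˣ) : BB), ?_⟩
    rw [co_mk]
    have hinv : ∀ s, res ((u⁻¹ : BBˣ) : BB) s = (res g s)⁻¹ := fun s => by
      have h1 : res g * res ((u⁻¹ : BBˣ) : BB) = 1 := by
        rw [← map_mul, ← hu, u.mul_inv, map_one]
      have h2 : res g s * res ((u⁻¹ : BBˣ) : BB) s = 1 := by
        have := congrArg (fun f : CS => f s) h1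
        exact this
      exact eq_inv_of_mul_eq_one_right h2
    refine lt_of_le_of_lt (b := ε / 2) ?_ (half_lt_self hε)
    rw [ContinuousMap.norm_le _ (by positivity)]
    intro s
    show ‖w j s - res ((u⁻¹ : BBˣ) : BB) s‖ ≤ ε / 2
    rw [hw, hinv]
    have hgne : res g s ≠ 0 := fun h0 => by
      have := hgs s
      rw [h0, norm_zero] at this
      linarith
    have e : (co j y.1 s)⁻¹ - (res g s)⁻¹ =
        -((co j y.1 s - res g s) * ((co j y.1 s)⁻¹ * (res g s)⁻¹)) := by
      have := hne j s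
      field_simp
      ring
    rw [e, norm_neg, norm_mul, norm_mul, norm_inv, norm_inv]
    have h1 : ‖co j y.1 s - res g s‖ ≤ ε * c ^ 2 / 4 :=
      (ContinuousMap.norm_coe_le_norm (co j y.1 - res g) s).trans
        (hg.le.trans (min_le_right _ _))
    have h2 : ‖co j y.1 s‖⁻¹ ≤ c⁻¹ := inv_anti₀ hc (hy j s)
    have h3 : ‖res g s‖⁻¹ ≤ (c / 2)⁻¹ := inv_anti₀ (by positivity) (hgs s)
    calc ‖co j y.1 s - res g s‖ * (‖co j y.1 s‖⁻¹ * ‖res g s‖⁻¹)
        ≤ (ε * c ^ 2 / 4) * (c⁻¹ * (c / 2)⁻¹) := by gcongr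
      _ = ε / 2 := by field_simp; norm_num
  refine IsUnit.of_mul_eq_one (⟨mk w c⁻¹ hwn, hmem⟩ : AA) ?_
  apply Subtype.ext
  apply ext'
  intro j
  show co j (y.1 * mk w c⁻¹ hwn) = co j 1
  rw [map_mul, map_one, co_mk]
  ext s
  show co j y.1 s * w j s = 1
  rw [hw]
  exact mul_inv_cancel₀ (hne j s)

lemma spec_closed {E : Type} [NormedCommRing E] [NormedAlgebra ℂ E] [CompleteSpace E]
    (T : Subalgebra ℂ E) (h : IsClosed (T : Set E)) (x : T) : IsClosed (spectrum ℂ x) := by
  have : CompleteSpace T := h.completeSpace_coe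
  exact spectrum.isClosed x

/-- The spectrum is the closure of the values of countably many characters. -/
theorem spectrum_eq (x : AA) :
    spectrum ℂ x = closure (Set.range fun p : J × ℕ => evl p.1 (ds p.2) x) := by
  apply Set.Subset.antisymm
  · intro z hz
    by_contra hcl
    rw [Metric.mem_closure_range_iff] at hcl
    push Not at hcl
    obtain ⟨c, hc, h⟩ := hcl
    have h1 : ∀ j s, c ≤ ‖z - co j x.1 s‖ := by
      intro j s
      have hdense : DenseRange ds := TopologicalSpace.denseRange_denseSeq _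
      have hcl : IsClosed {s : Pool.Agent.W70.BA.S | c ≤ ‖z - co j x.1 s‖} :=
        isClosed_le continuous_const (continuous_const.sub (co j x.1).continuous).norm
      have : ∀ s, s ∈ {s : Pool.Agent.W70.BA.S | c ≤ ‖z - co j x.1 s‖} := by
        intro s
        refine hdense.induction_on (p := fun s => s ∈ {s | c ≤ ‖z - co j x.1 s‖}) s hcl ?_
        intro n
        have h2 := h (j, n)
        rw [dist_eq_norm] at h2
        exact h2
      exact this s
    rw [spectrum.mem_iff] at hz
    apply hz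
    refine isUnit_AA _ hc fun j s => ?_
    have e : co j (algebraMap ℂ AA z - x).1 s = z - co j x.1 s := by
      show co j (algebraMap ℂ EE z - x.1) s = _
      rw [map_sub, co_algebraMap]
      rfl
    rw [e]
    exact h1 j s
  · refine closure_minimal ?_ (spec_closed AA isClosed_AA x)
    rintro _ ⟨p, rfl⟩
    show evl p.1 (ds p.2) x ∈ spectrum ℂ x
    rw [spectrum.mem_iff]
    intro hu
    have h1 := hu.map (evl p.1 (ds p.2))
    rw [map_sub, AlgHom.commutes] at h1
    have h2 : algebraMap ℂ ℂ (evl p.1 (ds p.2) x) - evl p.1 (ds p.2) x = 0 := sub_self _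
    rw [h2] at h1
    exact not_isUnit_zero h1

/-! ### Idempotents and the two coordinate functions -/

open Classical in
/-- the indicator idempotents -/
noncomputable def ind (T : Set J) : AA := ⟨mk (fun j => if j ∈ T then 1 else 0) 1 (fun j => by
  split_ifs
  · rw [norm_one]
  · rw [norm_zero]; exact zero_le_one), by
  rw [mem_AA]
  intro ε hε
  refine Eventually.of_forall fun j => ?_
  rw [co_mk]
  split_ifs
  · exact ⟨1, by rw [map_one, sub_self, norm_zero]; exact hε⟩
  · exact ⟨0, by rw [map_zero, sub_self, norm_zero]; exact hε⟩⟩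

open Classical in
lemma co_ind (T : Set J) (j : J) : co j (ind T).1 = if j ∈ T then 1 else 0 := rfl

/-- constant families -/
noncomputable def cst (g : BB) : AA := ⟨mk (fun _ => res g) ‖res g‖ (fun _ => le_rfl), by
  rw [mem_AA]
  intro ε hε
  exact Eventually.of_forall fun j => ⟨g, by rw [co_mk, sub_self, norm_zero]; exact hε⟩⟩

lemma co_cst (g : BB) (j : J) : co j (cst g).1 = res g := rfl

open Classical in
/-- finitely supported families -/
noncomputable def fs (f : CS) (F : Set J) (hF : F.Finite) : AA :=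
  ⟨mk (fun j => if j ∈ F then f else 0) ‖f‖ (fun j => by
    split_ifs
    · exact le_rfl
    · rw [norm_zero]; exact norm_nonneg _), by
  rw [mem_AA]
  intro ε hε
  have : ∀ᶠ j in cofinite, j ∉ F := hF.compl_mem_cofinite
  filter_upwards [this] with j hj
  refine ⟨0, ?_⟩
  rw [co_mk, if_neg hj, map_zero, sub_zero, norm_zero]
  exact hε⟩

open Classical in
lemma co_fs (f : CS) (F : Set J) (hF : F.Finite) (j : J) :
    co j (fs f F hF).1 = if j ∈ F then f else 0 := rfl

lemma extA {x y : AA} (h : ∀ j, co j x.1 = co j y.1) : x = y := Subtype.ext (ext' h)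

lemma coA_mul (x y : AA) (j : J) : co j (x * y).1 = co j x.1 * co j y.1 := by
  show co j (x.1 * y.1) = _
  rw [map_mul]

lemma coA_add (x y : AA) (j : J) : co j (x + y).1 = co j x.1 + co j y.1 := by
  show co j (x.1 + y.1) = _
  rw [map_add]

lemma coA_sub (x y : AA) (j : J) : co j (x - y).1 = co j x.1 - co j y.1 := by
  show co j (x.1 - y.1) = _
  rw [map_sub]

lemma coA_one (j : J) : co j (1 : AA).1 = 1 := by
  show co j (1 : EE) = 1
  rw [map_one]

lemma sphere_id : res cz * star (res cz) + res cb * star (res cb) = 1 := by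
  apply ContinuousMap.ext
  intro s
  have hs : ‖s.1.1‖ ^ 2 + s.1.2 ^ 2 = 1 := s.2
  show s.1.1 * conj s.1.1 + (s.1.2 : ℂ) * conj (s.1.2 : ℂ) = 1
  rw [Complex.mul_conj, Complex.normSq_eq_norm_sq, Complex.conj_ofReal]
  exact_mod_cast (by rw [← hs]; ring : ‖s.1.1‖ ^ 2 + s.1.2 * s.1.2 = 1)

lemma norm_star_res_cz : ‖star (res cz)‖ ≤ 1 := by
  rw [norm_star, ContinuousMap.norm_le _ zero_le_one]
  intro s
  have hs : ‖s.1.1‖ ^ 2 + s.1.2 ^ 2 = 1 := s.2
  show ‖s.1.1‖ ≤ 1
  nlinarith [sq_nonneg s.1.2, norm_nonneg s.1.1]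

lemma norm_star_res_cb : ‖star (res cb)‖ ≤ 1 := by
  rw [norm_star, ContinuousMap.norm_le _ zero_le_one]
  intro s
  have hs : ‖s.1.1‖ ^ 2 + s.1.2 ^ 2 = 1 := s.2
  show ‖(s.1.2 : ℂ)‖ ≤ 1
  rw [Complex.norm_real, Real.norm_eq_abs]
  nlinarith [sq_nonneg ‖s.1.1‖, abs_nonneg s.1.2, sq_abs s.1.2]

lemma norm_fs_le (f : CS) (F : Set J) (hF : F.Finite) (hf : ‖f‖ ≤ 1) : ‖fs f F hF‖ ≤ 1 := by
  show ‖(fs f F hF).1‖ ≤ 1
  refine lp.norm_le_of_forall_le zero_le_one fun j => ?_
  have : (fs f F hF).1 j = co j (fs f F hF).1 := rfl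
  rw [this, co_fs]
  split_ifs
  · exact hf
  · rw [norm_zero]; exact zero_le_one

open WeakDual in
lemma char_norm_le (φ : characterSpace ℂ AA) (x : AA) : ‖φ x‖ ≤ ‖x‖ := by
  have hone : NormOneClass AA := ⟨by
    show ‖(1 : EE)‖ = 1
    exact norm_one⟩
  exact AlgHom.norm_apply_le_self (CharacterSpace.toAlgHom φ) x

/-- the open sets -/
def V (T : Set J) : Set (WeakDual.characterSpace ℂ AA) :=
  {φ | 1 / 2 < ‖φ (ind T)‖ ∧ ‖φ (cst cz)‖ < 1 / 4 ∧ ‖φ (cst cb)‖ < 1 / 4}

lemma cont_eval (x : AA) : Continuous fun φ : WeakDual.characterSpace ℂ AA => φ x :=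
  (WeakDual.eval_continuous x).comp continuous_subtype_val

lemma isOpen_V (T : Set J) : IsOpen (V T) := by
  refine (isOpen_lt continuous_const (cont_eval _).norm).inter
    ((isOpen_lt (cont_eval _).norm continuous_const).inter
      (isOpen_lt (cont_eval _).norm continuous_const))

lemma char_map_mul (φ : WeakDual.characterSpace ℂ AA) (x y : AA) : φ (x * y) = φ x * φ y :=
  map_mul (WeakDual.CharacterSpace.toAlgHom φ) x y

lemma char_map_add (φ : WeakDual.characterSpace ℂ AA) (x y : AA) : φ (x + y) = φ x + φ y :=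
  map_add (WeakDual.CharacterSpace.toAlgHom φ) x y

lemma ind_one_of (φ : WeakDual.characterSpace ℂ AA) (T : Set J) (h : 1 / 2 < ‖φ (ind T)‖) :
    φ (ind T) = 1 := by
  classical
  have h1 : ind T * ind T = ind T := extA fun j => by
    rw [coA_mul, co_ind]; split_ifs <;> simp
  have h2 : φ (ind T) * φ (ind T) = φ (ind T) := by rw [← char_map_mul, h1]
  have h3 : φ (ind T) * (φ (ind T) - 1) = 0 := by linear_combination h2
  rcases mul_eq_zero.mp h3 with h4 | h4
  · rw [h4, norm_zero] at h; norm_num at h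
  · exact sub_eq_zero.mp h4

lemma V_disjoint {T T' : Set J} (hF : (T ∩ T').Finite) : Disjoint (V T) (V T') := by
  classical
  rw [Set.disjoint_left]
  rintro φ ⟨h1, h2, h3⟩ ⟨h4, -, -⟩
  have e1 := ind_one_of φ T h1
  have e2 := ind_one_of φ T' h4
  have h5 : ind T * ind T' = cst cz * fs (star (res cz)) (T ∩ T') hF +
      cst cb * fs (star (res cb)) (T ∩ T') hF := extA fun j => by
    rw [coA_mul, coA_add, coA_mul, coA_mul, co_ind, co_ind, co_cst, co_cst, co_fs, co_fs]
    by_cases ha : j ∈ T <;> by_cases hb : j ∈ T'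
    · simp only [ha, hb, Set.mem_inter_iff, and_self, if_true, mul_one]
      exact sphere_id.symm
    · simp [ha, hb]
    · simp [ha, hb]
    · simp [ha, hb]
  have h6 := congrArg φ h5
  rw [char_map_mul, e1, e2, char_map_add, char_map_mul, char_map_mul, one_mul] at h6
  have h7 : (1 : ℝ) ≤ 1 / 4 + 1 / 4 := by
    calc (1 : ℝ) = ‖(1 : ℂ)‖ := norm_one.symm
      _ = ‖φ (cst cz) * φ (fs (star (res cz)) (T ∩ T') hF) +
          φ (cst cb) * φ (fs (star (res cb)) (T ∩ T') hF)‖ := by rw [← h6]
      _ ≤ ‖φ (cst cz)‖ * ‖φ (fs (star (res cz)) (T ∩ T') hF)‖ +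
          ‖φ (cst cb)‖ * ‖φ (fs (star (res cb)) (T ∩ T') hF)‖ := by
            refine (norm_add_le _ _).trans ?_
            rw [norm_mul, norm_mul]
      _ ≤ 1 / 4 * 1 + 1 / 4 * 1 := by
            have a1 := (char_norm_le φ _).trans (norm_fs_le _ (T ∩ T') hF norm_star_res_cz)
            have a2 := (char_norm_le φ _).trans (norm_fs_le _ (T ∩ T') hF norm_star_res_cb)
            gcongr
      _ = _ := by norm_num
  norm_num at h7

lemma V_nonempty {T : Set J} (hT : T.Infinite) : (V T).Nonempty := by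
  classical
  set I : Ideal AA := Ideal.span {1 - ind T, cst cz, cst cb} with hI
  have hne : I ≠ ⊤ := by
    rw [Ideal.ne_top_iff_one]
    intro h1
    rw [hI, Ideal.mem_span_insert] at h1
    obtain ⟨u, z, hz, h2⟩ := h1
    rw [Ideal.mem_span_pair] at hz
    obtain ⟨v, w, hvw⟩ := hz
    have hev := (mem_AA.mp v.2 (1 / 4) (by norm_num)).and (mem_AA.mp w.2 (1 / 4) (by norm_num))
    obtain ⟨j, hjT, ⟨v', hv'⟩, ⟨w', hw'⟩⟩ : ∃ j ∈ T, (∃ g : BB, ‖co j v.1 - res g‖ < 1 / 4) ∧
        ∃ g : BB, ‖co j w.1 - res g‖ < 1 / 4 := by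
      obtain ⟨j, hj1, hj2⟩ := (hT.sdiff (Filter.eventually_cofinite.mp hev)).nonempty
      refine ⟨j, hj1, ?_⟩
      by_contra hcon
      exact hj2 hcon
    have h3 : (1 : CS) = co j v.1 * res cz + co j w.1 * res cb := by
      have h4 : co j (1 : AA).1 = co j (u * (1 - ind T) + z).1 :=
        congrArg (fun x : AA => co j x.1) h2
      rw [coA_one, coA_add, coA_mul, coA_sub, coA_one, co_ind, if_pos hjT, sub_self, mul_zero,
        zero_add, ← hvw, coA_add, coA_mul, coA_mul, co_cst, co_cst] at h4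
      exact h4
    have h5 : ‖(1 : BB) - v' * cz - w' * cb‖ ≤ 1 / 2 := by
      rw [← norm_res, map_sub, map_sub, map_one, map_mul, map_mul]
      have e : (1 : CS) - res v' * res cz - res w' * res cb =
          (co j v.1 - res v') * res cz + (co j w.1 - res w') * res cb := by
        rw [h3]; ring
      rw [e]
      have n1 : ‖res cz‖ ≤ 1 := by rw [← norm_star]; exact norm_star_res_cz
      have n2 : ‖res cb‖ ≤ 1 := by rw [← norm_star]; exact norm_star_res_cb
      calc _ ≤ ‖(co j v.1 - res v') * res cz‖ + ‖(co j w.1 - res w') * res cb‖ := norm_add_le _ _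
        _ ≤ ‖co j v.1 - res v'‖ * ‖res cz‖ + ‖co j w.1 - res w'‖ * ‖res cb‖ :=
          add_le_add (norm_mul_le _ _) (norm_mul_le _ _)
        _ ≤ 1 / 4 * 1 + 1 / 4 * 1 := by gcongr
        _ = _ := by norm_num
    have h6 : ev0 ((1 : BB) - v' * cz - w' * cb) = 1 := by
      rw [map_sub, map_sub, map_one, map_mul, map_mul, Pool.Agent.W70.BA.ev0_cz,
        Pool.Agent.W70.BA.ev0_cb]
      ring
    have h7 : ‖ev0 ((1 : BB) - v' * cz - w' * cb)‖ ≤ ‖(1 : BB) - v' * cz - w' * cb‖ :=
      ContinuousMap.norm_coe_le_norm ((1 : BB) - v' * cz - w' * cb).1 _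
    rw [h6, norm_one] at h7
    linarith
  obtain ⟨M, hM, hIM⟩ := Ideal.exists_le_maximal I hne
  let φ : WeakDual.characterSpace ℂ AA := Ideal.toCharacterSpace M
  have hz : ∀ x ∈ I, φ x = 0 := fun x hx =>
    Ideal.toCharacterSpace_apply_eq_zero_of_mem M (hIM hx)
  have m1 : (1 : AA) - ind T ∈ I := Ideal.subset_span (by simp)
  have m2 : cst cz ∈ I := Ideal.subset_span (by simp)
  have m3 : cst cb ∈ I := Ideal.subset_span (by simp)
  refine ⟨φ, ?_, ?_, ?_⟩
  · have h1 := hz _ m1
    have h2 : φ (1 - ind T) = 1 - φ (ind T) := by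
      have := map_sub (WeakDual.CharacterSpace.toAlgHom φ) 1 (ind T)
      rw [map_one] at this
      exact this
    rw [h2] at h1
    have h3 : φ (ind T) = 1 := (sub_eq_zero.mp h1).symm
    rw [h3, norm_one]; norm_num
  · rw [hz _ m2, norm_zero]; norm_num
  · rw [hz _ m3, norm_zero]; norm_num

/-! ### The almost disjoint family of branches -/

/-- the branch of the binary tree determined by `f` -/
def br (f : ℕ → Bool) : Set J := Set.range fun n => (List.range n).map f

lemma br_infinite (f : ℕ → Bool) : (br f).Infinite := by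
  apply Set.infinite_range_of_injective
  intro m n h
  have := congrArg List.length h
  simpa using this

lemma br_inter {f g : ℕ → Bool} (h : f ≠ g) : (br f ∩ br g).Finite := by
  obtain ⟨k, hk⟩ := Function.ne_iff.mp h
  refine (Set.finite_range fun n : Fin (k + 1) => (List.range n).map f).subset ?_
  rintro l ⟨⟨m, rfl⟩, ⟨n, hn⟩⟩
  simp only at hn
  have hlen : n = m := by
    have := congrArg List.length hn
    simpa using this
  subst hlen
  have hle : n ≤ k := by
    by_contra hcon
    push Not at hcon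
    have h1 : g k = f k := by
      have h2 := congrArg (fun l : List Bool => l[k]?) hn
      simpa [hcon] using h2
    exact hk h1.symm
  exact ⟨⟨n, by omega⟩, rfl⟩

theorem not_separable : ¬ TopologicalSpace.SeparableSpace (WeakDual.characterSpace ℂ AA) := by
  intro hsep
  have h1 : (Set.univ : Set (ℕ → Bool)).PairwiseDisjoint fun f => V (br f) := by
    intro f _ g _ hfg
    exact V_disjoint (br_inter hfg)
  have h2 := h1.countable_of_isOpen (fun f _ => isOpen_V _) (fun f _ => V_nonempty (br_infinite f))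
  rw [Set.countable_univ_iff] at h2
  obtain ⟨g, hg⟩ := exists_surjective_nat (ℕ → Bool)
  obtain ⟨n, hn⟩ := hg fun n => !(g n n)
  have := congrFun hn n
  simp at this

end Pool.Agent.R302.CountGen
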