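import Mathlib

namespace Pool.Agent.R302.OpenMult

universe u

/-- Lebesgue covering dimension at most `n`: every finite open cover has a finite open
refinement such that no point lies in more than `n + 1` of its members. -/
def CovDimLE (n : ℕ) (X : Type u) [TopologicalSpace X] : Prop :=
  ∀ (m : ℕ) (U : Fin m → Set X), (∀ i, IsOpen (U i)) → (⋃ i, U i) = Set.univ →
    ∃ (k : ℕ) (V : Fin k → Set X), (∀ j, IsOpen (V j)) ∧ (⋃ j, V j) = Set.univ ∧
      (∀ j, ∃ i, V j ⊆ U i) ∧ ∀ s : Finset (Fin k), n + 1 < s.card → (⋂ j ∈ s, V j) = ∅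

end Pool.Agent.R302.OpenMult
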