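import Mathlib

open ComplexConjugate

namespace Pool.Agent.R302.JB

universe u v

/-- The structure of a complex normed Jordan algebra on a complex normed space `V`: a commutative
bilinear submultiplicative product satisfying the Jordan identity. -/
structure NormedJordan (V : Type u) [NormedAddCommGroup V] [NormedSpace ℂ V] where
  /-- the product `a ∘ b` -/
  mul : V →ₗ[ℂ] V →ₗ[ℂ] V
  mul_comm : ∀ a b, mul a b = mul b a
  jordan : ∀ a b, mul (mul a b) (mul a a) = mul a (mul b (mul a a))
  norm_mul_le : ∀ a b, ‖mul a b‖ ≤ ‖a‖ * ‖b‖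

/-- The structure of a JB*-algebra on a complex normed space `V` (to be used for a complete `V`):
a normed Jordan algebra with an algebra involution such that `‖U_a (a*)‖ = ‖a‖ ^ 3`, where
`U_a b = 2 (a ∘ b) ∘ a - (a ∘ a) ∘ b`. -/
structure JBStar (V : Type u) [NormedAddCommGroup V] [NormedSpace ℂ V] extends
    NormedJordan V where
  /-- the involution -/
  star : V → V
  star_star : ∀ a, star (star a) = a
  star_add : ∀ a b, star (a + b) = star a + star b
  star_smul : ∀ (c : ℂ) (a : V), star (c • a) = conj c • star a
  star_mul : ∀ a b, star (mul a b) = mul (star b) (star a)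
  norm_U : ∀ a, ‖(2 : ℂ) • mul (mul a (star a)) a - mul (mul a a) (star a)‖ = ‖a‖ ^ 3

variable {V : Type u} [NormedAddCommGroup V] [NormedSpace ℂ V]
variable {W : Type v} [NormedAddCommGroup W] [NormedSpace ℂ W]

/-- The multipliers of `A` in a normed Jordan algebra `B` into which `A` is embedded by `i`: the
set `M` of the `x` in `B` with `x ∘ A ⊆ A`. -/
def Mult (B : NormedJordan W) (i : V →ₗᵢ[ℂ] W) : Set W :=
  {x | ∀ a : V, ∃ b : V, B.mul x (i a) = i b}

/-- The J-strict topology on `M`: the topology generated by the seminorms `y ↦ ‖a ∘ y‖`, `a` in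
`A`, that is, the coarsest topology for which all the maps `y ↦ a ∘ y` are continuous for the norm
topology of `B`. -/
def jstrict (B : NormedJordan W) (i : V →ₗᵢ[ℂ] W) : TopologicalSpace (Mult B i) :=
  TopologicalSpace.induced (fun (y : Mult B i) (a : V) => B.mul (i a) (y : W)) inferInstance

end Pool.Agent.R302.JB
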