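import Pool.Agent.R302.JBDef

open ComplexConjugate

namespace Pool.Agent.R302.JB

universe u v

variable {V : Type u} [NormedAddCommGroup V] [NormedSpace ℂ V]
variable {W : Type v} [NormedAddCommGroup W] [NormedSpace ℂ W]

/-- The linearized Jordan identity. -/
lemma lin (B : NormedJordan W) (a b c y : W) :
    B.mul a (B.mul (B.mul b c) y) - B.mul (B.mul b c) (B.mul a y) +
    (B.mul b (B.mul (B.mul c a) y) - B.mul (B.mul c a) (B.mul b y)) +
    (B.mul c (B.mul (B.mul a b) y) - B.mul (B.mul a b) (B.mul c y)) = 0 := by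
  let inst : NonUnitalNonAssocCommRing W :=
    { (inferInstance : AddCommGroup W) with
      mul := fun x y => B.mul x y
      left_distrib := fun a b c => map_add _ _ _
      right_distrib := fun a b c => by
        show B.mul (a + b) c = B.mul a c + B.mul b c
        rw [map_add, LinearMap.add_apply]
      zero_mul := fun a => by
        show B.mul 0 a = 0
        rw [map_zero, LinearMap.zero_apply]
      mul_zero := fun a => map_zero _
      mul_comm := B.mul_comm }
  have : IsCommJordan W := ⟨B.jordan⟩
  have h := two_nsmul_lie_lmul_lmul_add_add_eq_zero a b c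
  have h1 := congrArg (fun f : AddMonoid.End W => f y) h
  have h2 : (2 : ℕ) • (B.mul a (B.mul (B.mul b c) y) - B.mul (B.mul b c) (B.mul a y) +
    (B.mul b (B.mul (B.mul c a) y) - B.mul (B.mul c a) (B.mul b y)) +
    (B.mul c (B.mul (B.mul a b) y) - B.mul (B.mul a b) (B.mul c y))) = 0 := h1
  have h3 : (2 : ℂ) • (B.mul a (B.mul (B.mul b c) y) - B.mul (B.mul b c) (B.mul a y) +
    (B.mul b (B.mul (B.mul c a) y) - B.mul (B.mul c a) (B.mul b y)) +
    (B.mul c (B.mul (B.mul a b) y) - B.mul (B.mul a b) (B.mul c y))) = 0 := by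
    rw [← h2, ← Nat.cast_smul_eq_nsmul ℂ]; norm_num
  exact (smul_eq_zero.mp h3).resolve_left two_ne_zero

/-- The formula for `(b ∘ c) ∘ (x ∘ y)`. -/
lemma formula (B : NormedJordan W) (b c x y : W) :
    B.mul (B.mul b c) (B.mul x y) = B.mul x (B.mul (B.mul b c) y) +
      B.mul b (B.mul (B.mul c x) y) - B.mul (B.mul c x) (B.mul b y) +
      B.mul c (B.mul (B.mul x b) y) - B.mul (B.mul x b) (B.mul c y) := by
  have h := lin B x b c y
  rw [← sub_eq_zero]
  rw [← neg_eq_zero, ← h]
  abel

/-! ### Powers -/

/-- `pw B h n = h ^ (n + 1)` -/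
def pw (B : NormedJordan W) (h : W) : ℕ → W
  | 0 => h
  | n + 1 => B.mul h (pw B h n)

lemma op_formula (B : NormedJordan W) (h : W) (n : ℕ) :
    B.mul (pw B h (n + 2)) = (2 : ℂ) • (B.mul (pw B h (n + 1)) * B.mul h) +
      B.mul (B.mul h h) * B.mul (pw B h n) - B.mul (pw B h n) * B.mul h * B.mul h -
      B.mul h * B.mul h * B.mul (pw B h n) := by
  refine LinearMap.ext fun c => ?_
  have h1 := lin B (pw B h n) h c h
  simp only [LinearMap.sub_apply, LinearMap.add_apply, LinearMap.smul_apply, Module.End.mul_apply]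
  have e1 : pw B h (n + 1) = B.mul h (pw B h n) := rfl
  have e2 : pw B h (n + 2) = B.mul h (B.mul h (pw B h n)) := rfl
  rw [e1, e2]
  set p := pw B h n with hp
  -- commutativity normal forms
  have c1 : B.mul (B.mul h c) h = B.mul h (B.mul h c) := B.mul_comm _ _
  have c2 : B.mul (B.mul h c) (B.mul p h) = B.mul (B.mul h p) (B.mul h c) := by
    rw [B.mul_comm (B.mul h c), B.mul_comm p h]
  have c3 : B.mul (B.mul c p) h = B.mul h (B.mul p c) := by
    rw [B.mul_comm (B.mul c p), B.mul_comm c p]
  have c4 : B.mul (B.mul c p) (B.mul h h) = B.mul (B.mul h h) (B.mul p c) := by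
    rw [B.mul_comm (B.mul c p), B.mul_comm c p]
  have c5 : B.mul c (B.mul (B.mul p h) h) = B.mul (B.mul h (B.mul h p)) c := by
    rw [B.mul_comm c, B.mul_comm (B.mul p h) h, B.mul_comm p h]
  have c6 : B.mul (B.mul p h) (B.mul c h) = B.mul (B.mul h p) (B.mul h c) := by
    rw [B.mul_comm p h, B.mul_comm c h]
  rw [c1, c2, c3, c4, c5, c6] at h1
  rw [two_smul, ← sub_eq_zero, ← h1]
  abel

lemma comm_ops (B : NormedJordan W) (h : W) : ∀ n,
    Commute (B.mul (pw B h n)) (B.mul h) ∧ Commute (B.mul (pw B h n)) (B.mul (B.mul h h)) := by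
  have h0 : Commute (B.mul h) (B.mul (B.mul h h)) := by
    refine LinearMap.ext fun c => ?_
    simp only [Module.End.mul_apply]
    have := B.jordan h c
    rw [B.mul_comm (B.mul h h) (B.mul h c), this, B.mul_comm c (B.mul h h)]
  have key : ∀ n, (Commute (B.mul (pw B h n)) (B.mul h) ∧
      Commute (B.mul (pw B h n)) (B.mul (B.mul h h))) ∧
      (Commute (B.mul (pw B h (n + 1))) (B.mul h) ∧
      Commute (B.mul (pw B h (n + 1))) (B.mul (B.mul h h))) := by
    intro n
    induction n with
    | zero => exact ⟨⟨Commute.refl _, h0⟩, ⟨h0.symm, Commute.refl _⟩⟩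
    | succ n ih =>
      obtain ⟨⟨a1, a2⟩, ⟨b1, b2⟩⟩ := ih
      refine ⟨⟨b1, b2⟩, ?_⟩
      rw [op_formula B h n]
      constructor
      · refine Commute.sub_left (Commute.sub_left (Commute.add_left ?_ ?_) ?_) ?_
        · exact (b1.mul_left (Commute.refl _)).smul_left _
        · exact h0.symm.mul_left a1
        · exact (a1.mul_left (Commute.refl _)).mul_left (Commute.refl _)
        · exact ((Commute.refl _).mul_left (Commute.refl _)).mul_left a1
      · refine Commute.sub_left (Commute.sub_left (Commute.add_left ?_ ?_) ?_) ?_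
        · exact (b2.mul_left h0).smul_left _
        · exact (Commute.refl _).mul_left a2
        · exact (a2.mul_left h0).mul_left h0
        · exact (h0.mul_left h0).mul_left a2
  exact fun n => (key n).1

lemma pw_mul (B : NormedJordan W) (h : W) (m n : ℕ) :
    B.mul (pw B h m) (pw B h n) = pw B h (m + n + 1) := by
  induction m with
  | zero => rw [zero_add]; rfl
  | succ m ih =>
    have h1 := LinearMap.congr_fun (comm_ops B h n).1 (pw B h m)
    simp only [Module.End.mul_apply] at h1
    have e : pw B h (m + 1) = B.mul h (pw B h m) := rfl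
    rw [B.mul_comm, e, h1, B.mul_comm (pw B h n), ih]
    have : m + 1 + n + 1 = (m + n + 1) + 1 := by ring
    rw [this]; rfl

/-! ### The closed subalgebra generated by a self-adjoint element -/

lemma cont_mul (B : NormedJordan W) : Continuous (Function.uncurry fun x y => B.mul x y) := by
  let M := LinearMap.mkContinuous₂ B.mul 1 (fun x y => by rw [one_mul]; exact B.norm_mul_le x y)
  have h := M.continuous₂
  exact h

/-- the closed linear span of the powers -/
def CSp (B : NormedJordan W) (h : W) : Submodule ℂ W :=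
  (Submodule.span ℂ (Set.range (pw B h))).topologicalClosure

lemma mul_mem_span (B : NormedJordan W) (h : W) {x y : W}
    (hx : x ∈ Submodule.span ℂ (Set.range (pw B h))) (hy : y ∈ Submodule.span ℂ (Set.range (pw B h))) :
    B.mul x y ∈ Submodule.span ℂ (Set.range (pw B h)) := by
  induction hx using Submodule.span_induction with
  | mem x hx =>
    obtain ⟨m, rfl⟩ := hx
    induction hy using Submodule.span_induction with
    | mem y hy =>
      obtain ⟨n, rfl⟩ := hy
      rw [pw_mul]
      exact Submodule.subset_span ⟨_, rfl⟩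
    | zero => rw [map_zero]; exact Submodule.zero_mem _
    | add y z _ _ h1 h2 => rw [map_add]; exact Submodule.add_mem _ h1 h2
    | smul c y _ h1 => rw [map_smul]; exact Submodule.smul_mem _ _ h1
  | zero => rw [map_zero, LinearMap.zero_apply]; exact Submodule.zero_mem _
  | add x z _ _ h1 h2 => rw [map_add, LinearMap.add_apply]; exact Submodule.add_mem _ h1 h2
  | smul c x _ h1 => rw [map_smul, LinearMap.smul_apply]; exact Submodule.smul_mem _ _ h1

lemma mul_mem_CSp (B : NormedJordan W) (h : W) {x y : W} (hx : x ∈ CSp B h) (hy : y ∈ CSp B h) :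
    B.mul x y ∈ CSp B h :=
  map_mem_closure₂ (f := fun x y => B.mul x y) (cont_mul B) hx hy fun _ ha _ hb => mul_mem_span B h ha hb

lemma assoc_span (B : NormedJordan W) (h : W) {x y z : W}
    (hx : x ∈ Submodule.span ℂ (Set.range (pw B h))) (hy : y ∈ Submodule.span ℂ (Set.range (pw B h)))
    (hz : z ∈ Submodule.span ℂ (Set.range (pw B h))) :
    B.mul (B.mul x y) z = B.mul x (B.mul y z) := by
  induction hx using Submodule.span_induction with
  | mem x hx =>
    obtain ⟨m, rfl⟩ := hx
    induction hy using Submodule.span_induction with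
    | mem y hy =>
      obtain ⟨n, rfl⟩ := hy
      induction hz using Submodule.span_induction with
      | mem z hz =>
        obtain ⟨k, rfl⟩ := hz
        rw [pw_mul, pw_mul, pw_mul, pw_mul]
        congr 1; ring
      | zero => simp only [map_zero]
      | add y z _ _ h1 h2 => rw [map_add, h1, h2, map_add, map_add]
      | smul c y _ h1 => rw [map_smul, h1, map_smul, map_smul]
    | zero => simp only [map_zero, LinearMap.zero_apply]
    | add y z _ _ h1 h2 => simp only [map_add, LinearMap.add_apply, h1, h2]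
    | smul c y _ h1 => simp only [map_smul, LinearMap.smul_apply, h1]
  | zero => simp only [map_zero, LinearMap.zero_apply]
  | add x z _ _ h1 h2 => simp only [map_add, LinearMap.add_apply, h1, h2]
  | smul c x _ h1 => simp only [map_smul, LinearMap.smul_apply, h1]

lemma assoc_CSp (B : NormedJordan W) (h : W) {x y z : W} (hx : x ∈ CSp B h) (hy : y ∈ CSp B h)
    (hz : z ∈ CSp B h) : B.mul (B.mul x y) z = B.mul x (B.mul y z) := by
  have hc := cont_mul B
  have hF : Continuous fun p : W × W × W =>
      B.mul (B.mul p.1 p.2.1) p.2.2 - B.mul p.1 (B.mul p.2.1 p.2.2) := by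
    refine Continuous.sub ?_ ?_
    · have h1 : Continuous fun p : W × W × W => (B.mul p.1 p.2.1, p.2.2) :=
        (hc.comp (continuous_fst.prodMk (continuous_fst.comp continuous_snd))).prodMk
          (continuous_snd.comp continuous_snd)
      exact hc.comp h1
    · have h1 : Continuous fun p : W × W × W => (p.1, B.mul p.2.1 p.2.2) :=
        continuous_fst.prodMk (hc.comp continuous_snd)
      exact hc.comp h1
  have hclosed : IsClosed {p : W × W × W |
      B.mul (B.mul p.1 p.2.1) p.2.2 - B.mul p.1 (B.mul p.2.1 p.2.2) = 0} :=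
    isClosed_eq hF continuous_const
  set S : Set W := (Submodule.span ℂ (Set.range (pw B h)) : Set W) with hS
  have hsub : S ×ˢ S ×ˢ S ⊆ {p : W × W × W |
      B.mul (B.mul p.1 p.2.1) p.2.2 - B.mul p.1 (B.mul p.2.1 p.2.2) = 0} := by
    rintro ⟨a, b, c⟩ ⟨ha, hb, hc⟩
    exact sub_eq_zero.mpr (assoc_span B h ha hb hc)
  have hcl := closure_minimal hsub hclosed
  rw [closure_prod_eq, closure_prod_eq] at hcl
  have : ((x, y, z) : W × W × W) ∈ closure S ×ˢ closure S ×ˢ closure S := ⟨hx, hy, hz⟩
  exact sub_eq_zero.mp (hcl this)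

variable (A : JBStar V)

lemma star_neg (a : V) : A.star (-a) = -A.star a := by
  have := A.star_smul (-1) a
  simpa using this

lemma star_zero : A.star 0 = 0 := by
  have := A.star_smul 0 0
  simpa using this

lemma star_sub (a b : V) : A.star (a - b) = A.star a - A.star b := by
  rw [sub_eq_add_neg, A.star_add, star_neg, ← sub_eq_add_neg]

lemma norm_le_star (a : V) : ‖a‖ ≤ 3 * ‖A.star a‖ := by
  by_cases ha : a = 0
  · subst ha; rw [star_zero]; simp
  have hpos : 0 < ‖a‖ := norm_pos_iff.mpr ha
  have h1 := A.norm_U a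
  have h2 : ‖(2 : ℂ) • A.mul (A.mul a (A.star a)) a - A.mul (A.mul a a) (A.star a)‖ ≤
      3 * ‖A.star a‖ * ‖a‖ ^ 2 := by
    refine (norm_sub_le _ _).trans ?_
    rw [norm_smul, Complex.norm_ofNat]
    have e1 := A.norm_mul_le (A.mul a (A.star a)) a
    have e2 := A.norm_mul_le a (A.star a)
    have e3 := A.norm_mul_le (A.mul a a) (A.star a)
    have e4 := A.norm_mul_le a a
    have n1 := norm_nonneg (A.star a)
    have e5 : ‖A.mul (A.mul a (A.star a)) a‖ ≤ (‖a‖ * ‖A.star a‖) * ‖a‖ :=
      e1.trans (mul_le_mul_of_nonneg_right e2 hpos.le)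
    have e6 : ‖A.mul (A.mul a a) (A.star a)‖ ≤ (‖a‖ * ‖a‖) * ‖A.star a‖ :=
      e3.trans (mul_le_mul_of_nonneg_right e4 n1)
    nlinarith
  rw [h1] at h2
  have h3 : ‖a‖ * ‖a‖ ^ 2 ≤ 3 * ‖A.star a‖ * ‖a‖ ^ 2 := by
    calc ‖a‖ * ‖a‖ ^ 2 = ‖a‖ ^ 3 := by ring
      _ ≤ _ := h2
  exact le_of_mul_le_mul_right h3 (by positivity)

lemma star_le (a : V) : ‖A.star a‖ ≤ 3 * ‖a‖ := by
  have := norm_le_star A (A.star a)
  rwa [A.star_star] at this

lemma cont_star : Continuous A.star := by
  have : LipschitzWith 3 A.star := LipschitzWith.of_dist_le_mul fun x y => by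
    rw [dist_eq_norm, dist_eq_norm, ← star_sub]
    exact star_le A (x - y)
  exact this.continuous

lemma star_pw {h : V} (hh : A.star h = h) (n : ℕ) :
    A.star (pw A.toNormedJordan h n) = pw A.toNormedJordan h n := by
  induction n with
  | zero => exact hh
  | succ n ih =>
    show A.star (A.mul h (pw A.toNormedJordan h n)) = A.mul h (pw A.toNormedJordan h n)
    rw [A.star_mul, ih, hh, A.mul_comm]

lemma star_mem_span {h : V} (hh : A.star h = h) {x : V}
    (hx : x ∈ Submodule.span ℂ (Set.range (pw A.toNormedJordan h))) :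
    A.star x ∈ Submodule.span ℂ (Set.range (pw A.toNormedJordan h)) := by
  induction hx using Submodule.span_induction with
  | mem x hx =>
    obtain ⟨n, rfl⟩ := hx
    rw [star_pw A hh]
    exact Submodule.subset_span ⟨_, rfl⟩
  | zero => rw [star_zero]; exact Submodule.zero_mem _
  | add x y _ _ h1 h2 => rw [A.star_add]; exact Submodule.add_mem _ h1 h2
  | smul c x _ h1 => rw [A.star_smul]; exact Submodule.smul_mem _ _ h1

lemma star_mem {h : V} (hh : A.star h = h) {x : V} (hx : x ∈ CSp A.toNormedJordan h) :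
    A.star x ∈ CSp A.toNormedJordan h :=
  map_mem_closure (cont_star A) hx fun _ ha => star_mem_span A hh ha

/-- the C*-algebra generated by a self-adjoint element, as a type -/
def CT (A : JBStar V) (h : {h : V // A.star h = h}) : Type u := CSp A.toNormedJordan h.1

namespace CT

variable {A} {h : {h : V // A.star h = h}}

instance : NormedAddCommGroup (CT A h) :=
  inferInstanceAs (NormedAddCommGroup (CSp A.toNormedJordan h.1))

noncomputable instance : NormedSpace ℂ (CT A h) := inferInstanceAs (NormedSpace ℂ (CSp A.toNormedJordan h.1))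

instance [CompleteSpace V] : CompleteSpace (CT A h) := by
  have h1 : IsClosed (CSp A.toNormedJordan h.1 : Set V) := Submodule.isClosed_topologicalClosure _
  exact h1.completeSpace_coe

/-- the inclusion -/
def val (x : CT A h) : V := x.1

lemma val_mem (x : CT A h) : x.val ∈ CSp A.toNormedJordan h.1 := x.2

lemma ext_val {x y : CT A h} (e : x.val = y.val) : x = y := Subtype.ext e

lemma val_add (x y : CT A h) : (x + y).val = x.val + y.val := rfl
lemma val_smul (c : ℂ) (x : CT A h) : (c • x).val = c • x.val := rfl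
lemma val_zero : (0 : CT A h).val = 0 := rfl
lemma norm_val (x : CT A h) : ‖x.val‖ = ‖x‖ := rfl

instance : NonUnitalNormedRing (CT A h) :=
  { (inferInstance : NormedAddCommGroup (CT A h)) with
    mul := fun x y => ⟨A.mul x.val y.val, mul_mem_CSp _ _ x.val_mem y.val_mem⟩
    left_distrib := fun a b c => Subtype.ext (map_add _ _ _)
    right_distrib := fun a b c => Subtype.ext (by
      show A.mul (a.val + b.val) c.val = A.mul a.val c.val + A.mul b.val c.val
      rw [map_add, LinearMap.add_apply])
    zero_mul := fun a => Subtype.ext (by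
      show A.mul 0 a.val = 0
      rw [map_zero, LinearMap.zero_apply])
    mul_zero := fun a => Subtype.ext (by
      show A.mul a.val 0 = 0
      rw [map_zero])
    mul_assoc := fun a b c => Subtype.ext (assoc_CSp _ _ a.val_mem b.val_mem c.val_mem)
    norm_mul_le := fun a b => A.norm_mul_le a.val b.val }

lemma val_mul (x y : CT A h) : (x * y).val = A.mul x.val y.val := rfl

instance : StarRing (CT A h) where
  star := fun x => ⟨A.star x.val, star_mem A h.2 x.val_mem⟩
  star_involutive := fun _ => Subtype.ext (A.star_star _)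
  star_mul := fun _ _ => Subtype.ext (A.star_mul _ _)
  star_add := fun _ _ => Subtype.ext (A.star_add _ _)

lemma val_star (x : CT A h) : (star x).val = A.star x.val := rfl

lemma mul_comm' (x y : CT A h) : x * y = y * x := ext_val (A.mul_comm _ _)

instance : CStarRing (CT A h) where
  norm_mul_self_le := fun x => by
    by_cases hx : x = 0
    · subst hx; simp
    have hpos : 0 < ‖x‖ := norm_pos_iff.mpr hx
    have h1 := A.norm_U x.val
    have h2 : (2 : ℂ) • A.mul (A.mul x.val (A.star x.val)) x.val -
        A.mul (A.mul x.val x.val) (A.star x.val) = ((star x * x) * x).val := by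
      rw [val_mul, val_mul, val_star]
      have e1 : A.mul (A.mul x.val x.val) (A.star x.val) =
          A.mul (A.mul x.val (A.star x.val)) x.val := by
        have := congrArg val (show (x * x) * star x = (x * star x) * x by
          rw [mul_assoc, mul_assoc, mul_comm' x (star x)])
        simpa only [val_mul, val_star] using this
      rw [e1, two_smul, add_sub_cancel_right, A.mul_comm x.val]
    rw [h2, norm_val, norm_val] at h1
    have h3 := norm_mul_le (star x * x) x
    rw [h1] at h3
    have h4 : (‖x‖ * ‖x‖) * ‖x‖ ≤ ‖star x * x‖ * ‖x‖ := by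
      calc (‖x‖ * ‖x‖) * ‖x‖ = ‖x‖ ^ 3 := by ring
        _ ≤ _ := h3
    exact le_of_mul_le_mul_right h4 hpos

instance : IsScalarTower ℂ (CT A h) (CT A h) :=
  ⟨fun c x y => ext_val (by
    show A.mul (c • x.val) y.val = c • A.mul x.val y.val
    rw [map_smul, LinearMap.smul_apply])⟩

instance : SMulCommClass ℂ (CT A h) (CT A h) :=
  ⟨fun c x y => ext_val (by
    show c • A.mul x.val y.val = A.mul x.val (c • y.val)
    rw [map_smul])⟩

instance : StarModule ℂ (CT A h) :=
  ⟨fun c x => ext_val (A.star_smul c x.val)⟩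

noncomputable instance [CompleteSpace V] : NonUnitalCStarAlgebra (CT A h) where

end CT

/-- In a JB*-algebra every self-adjoint element is a product. -/
lemma factor [CompleteSpace V] (h : V) (hh : A.star h = h) : ∃ b c : V, A.mul b c = h := by
  let H : {h : V // A.star h = h} := ⟨h, hh⟩
  let x : CT A H := ⟨h, Submodule.le_topologicalClosure _ (Submodule.subset_span ⟨0, rfl⟩)⟩
  have hx : IsSelfAdjoint x := CT.ext_val hh
  let f : ℝ → ℝ := fun t => √|t|
  let g : ℝ → ℝ := fun t => t / √|t|
  have hf : Continuous f := continuous_abs.sqrt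
  have hfg : ∀ t, f t * g t = t := fun t => by
    simp only [f, g]
    by_cases ht : t = 0
    · subst ht; simp
    · have : √|t| ≠ 0 := by
        rw [Real.sqrt_ne_zero (abs_nonneg t)]; exact abs_ne_zero.mpr ht
      field_simp
  have hgabs : ∀ t, |g t| = √|t| := fun t => by
    simp only [g]
    rw [abs_div, abs_of_nonneg (Real.sqrt_nonneg _), Real.div_sqrt]
  have hg : Continuous g := by
    rw [continuous_iff_continuousAt]
    intro t
    by_cases ht : t = 0
    · subst ht
      have h0 : g 0 = 0 := by simp [g]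
      rw [ContinuousAt, h0]
      rw [tendsto_zero_iff_abs_tendsto_zero]
      have h1 : Filter.Tendsto (fun t : ℝ => √|t|) (nhds 0) (nhds 0) := by
        have := hf.tendsto 0
        simpa [f] using this
      refine h1.congr fun t => ?_
      exact (hgabs t).symm
    · refine ContinuousAt.div continuousAt_id hf.continuousAt ?_
      rw [Real.sqrt_ne_zero (abs_nonneg t)]; exact abs_ne_zero.mpr ht
  have h1 : cfcₙ f x * cfcₙ g x = x := by
    rw [← cfcₙ_mul f g x hf.continuousOn (by simp [f]) hg.continuousOn (by simp [g])]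
    simp only [hfg]
    exact cfcₙ_id' ℝ x
  exact ⟨(cfcₙ f x).val, (cfcₙ g x).val, congrArg CT.val h1⟩

/-- Every element of a JB*-algebra is a combination of two products. -/
lemma factor₂ [CompleteSpace V] (a : V) : ∃ (b c b' c' : V),
    a = A.mul b c + A.mul b' c' := by
  have h1 : A.star ((1 / 2 : ℂ) • (a + A.star a)) = (1 / 2 : ℂ) • (a + A.star a) := by
    rw [A.star_smul, A.star_add, A.star_star, add_comm]
    congr 1
    rw [map_div₀, map_one, Complex.conj_ofNat]
  have h2 : A.star ((Complex.I / 2 : ℂ) • (A.star a - a)) = (Complex.I / 2 : ℂ) • (A.star a - a) := by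
    rw [A.star_smul, star_sub, A.star_star]
    have e : conj (Complex.I / 2) = -(Complex.I / 2) := by
      rw [map_div₀, Complex.conj_I]
      have : conj (2 : ℂ) = 2 := Complex.conj_ofNat 2
      rw [this]; ring
    rw [e, neg_smul, ← smul_neg, neg_sub]
  obtain ⟨b, c, hbc⟩ := factor A _ h1
  obtain ⟨b', c', hbc'⟩ := factor A _ h2
  refine ⟨b, c, Complex.I • b', c', ?_⟩
  rw [map_smul, LinearMap.smul_apply, hbc, hbc', smul_smul]
  have e : Complex.I * (Complex.I / 2) = -(1 / 2) := by
    rw [← mul_div_assoc, Complex.I_mul_I]; ring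
  rw [e]
  module

/-! ### Multipliers -/

variable (B : NormedJordan W) (i : V →ₗᵢ[ℂ] W)

/-- the key formula for a product -/
lemma formula_mult (hi : ∀ a b, i (A.mul a b) = B.mul (i a) (i b)) {x : W} {b c bx cx : V}
    (hb : B.mul x (i b) = i bx) (hc : B.mul x (i c) = i cx) (y : W) :
    B.mul (i (A.mul b c)) (B.mul x y) = B.mul x (B.mul (i (A.mul b c)) y) +
      B.mul (i b) (B.mul (i cx) y) - B.mul (i cx) (B.mul (i b) y) +
      B.mul (i c) (B.mul (i bx) y) - B.mul (i bx) (B.mul (i c) y) := by
  rw [hi, formula B (i b) (i c) x y, B.mul_comm (i c) x, hb, hc]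

/-- products of multipliers are multipliers -/
theorem mult_mul [CompleteSpace V] (hi : ∀ a b, i (A.mul a b) = B.mul (i a) (i b)) {x y : W}
    (hx : x ∈ Mult B i) (hy : y ∈ Mult B i) : B.mul x y ∈ Mult B i := by
  have key : ∀ b c : V, ∃ d : V, B.mul (B.mul x y) (i (A.mul b c)) = i d := by
    intro b c
    obtain ⟨bx, hbx⟩ := hx b
    obtain ⟨cx, hcx⟩ := hx c
    obtain ⟨d1, hd1⟩ := hy (A.mul b c)
    obtain ⟨d1', hd1'⟩ := hx d1
    obtain ⟨d2, hd2⟩ := hy cx
    obtain ⟨d3, hd3⟩ := hy b
    obtain ⟨d4, hd4⟩ := hy bx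
    obtain ⟨d5, hd5⟩ := hy c
    refine ⟨d1' + A.mul b d2 - A.mul cx d3 + A.mul c d4 - A.mul bx d5, ?_⟩
    rw [B.mul_comm, formula_mult A B i hi hbx hcx y]
    rw [B.mul_comm (i (A.mul b c)) y, hd1, hd1', B.mul_comm (i cx) y, hd2,
      B.mul_comm (i b) y, hd3, B.mul_comm (i bx) y, hd4, B.mul_comm (i c) y, hd5]
    simp only [map_add, map_sub, hi]
  intro a
  obtain ⟨b, c, b', c', rfl⟩ := factor₂ A a
  obtain ⟨d, hd⟩ := key b c
  obtain ⟨d', hd'⟩ := key b' c'
  exact ⟨d + d', by rw [map_add, map_add, hd, hd', map_add]⟩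

/-- Multiplication by a multiplier is continuous for the J-strict topology. -/
theorem cont_jstrict [CompleteSpace V] (hi : ∀ a b, i (A.mul a b) = B.mul (i a) (i b)) {x : W}
    (hx : x ∈ Mult B i) :
    @Continuous (Mult B i) (Mult B i) (jstrict B i) (jstrict B i)
      (fun y => ⟨B.mul x y, mult_mul A B i hi hx y.2⟩) := by
  let _ := jstrict B i
  have hev : ∀ a : V, Continuous fun y : Mult B i => B.mul (i a) (y : W) := fun a =>
    (continuous_apply a).comp (continuous_induced_dom (t := inferInstance)
      (f := fun (y : Mult B i) (a : V) => B.mul (i a) (y : W)))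
  have hcm : ∀ z : W, Continuous fun y : W => B.mul z y := fun z =>
    (cont_mul B).comp (continuous_const.prodMk continuous_id)
  refine continuous_induced_rng.mpr ?_
  refine continuous_pi fun a => ?_
  show Continuous fun y : Mult B i => B.mul (i a) (B.mul x (y : W))
  have key : ∀ b c : V, Continuous fun y : Mult B i => B.mul (i (A.mul b c)) (B.mul x (y : W)) := by
    intro b c
    obtain ⟨bx, hbx⟩ := hx b
    obtain ⟨cx, hcx⟩ := hx c
    simp only [formula_mult A B i hi hbx hcx]
    refine (((((hcm x).comp (hev _)).add ((hcm _).comp (hev _))).sub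
      ((hcm _).comp (hev _))).add ((hcm _).comp (hev _))).sub ((hcm _).comp (hev _))
  obtain ⟨b, c, b', c', rfl⟩ := factor₂ A a
  have : (fun y : Mult B i => B.mul (i (A.mul b c + A.mul b' c')) (B.mul x (y : W))) =
      fun y : Mult B i => B.mul (i (A.mul b c)) (B.mul x (y : W)) +
        B.mul (i (A.mul b' c')) (B.mul x (y : W)) := by
    funext y
    rw [map_add, map_add, LinearMap.add_apply]
  rw [this]
  exact (key b c).add (key b' c')

end Pool.Agent.R302.JB
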