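import Pool.Agent.R302.CovDim

open Set ComplexConjugate

namespace Pool.Agent.R302.OpenMult

universe u

/-- three points of the plane -/
noncomputable def p (i : Fin 3) : ℂ := ![(1 : ℂ), ⟨-1, 1⟩, ⟨-1, -1⟩] i

/-- three directions -/
noncomputable def q (i : Fin 3) : ℂ := ![(-1 : ℂ), ⟨1, -2⟩, ⟨1, 2⟩] i

lemma q_p {i j : Fin 3} (h : i ≠ j) : (conj (q i) * p j).re = 1 := by
  fin_cases i <;> fin_cases j <;> simp [p, q] at h ⊢ <;> norm_num

lemma exists_p {z : ℂ} (hz : z ≠ 0) : ∃ i, 0 < (conj (p i) * z).re := by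
  by_contra hcon
  push Not at hcon
  have h0 := hcon 0
  have h1 := hcon 1
  have h2 := hcon 2
  simp [p] at h0 h1 h2
  apply hz
  apply Complex.ext
  · simp; linarith
  · simp; linarith

variable {X : Type u} [TopologicalSpace X] [CompactSpace X] [T2Space X]

lemma exists_ext (hX : CovDimLE 1 X) (Φ : C(X, ℂ)) (A : Set X) (hA : IsClosed A)
    (hne : ∀ x ∈ A, Φ x ≠ 0) :
    ∃ Ψ : C(X, ℂ), (∀ x, Ψ x ≠ 0) ∧ ∀ x ∈ A, ∃ t : ℝ, 0 < t ∧ Ψ x = t * Φ x := by
  classical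
  obtain ⟨k, V, hVo, hVc, hVU, hVn⟩ := hX 3
    (fun i => {x | 0 < (conj (p i) * Φ x).re} ∪ Aᶜ)
    (fun i => by
      apply IsOpen.union _ hA.isOpen_compl
      exact isOpen_lt continuous_const (Complex.continuous_re.comp
        (continuous_const.mul Φ.continuous)))
    (by
      rw [Set.eq_univ_iff_forall]
      intro x
      rw [Set.mem_iUnion]
      by_cases hx : x ∈ A
      · obtain ⟨i, hi⟩ := exists_p (hne x hx)
        exact ⟨i, Or.inl hi⟩
      · exact ⟨0, Or.inr hx⟩)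
  choose ι hι using hVU
  obtain ⟨f, hf⟩ := PartitionOfUnity.exists_isSubordinate (isClosed_univ (X := X)) V hVo
    (by rw [hVc])
  have hsum : ∀ x, ∑ j, f j x = 1 := fun x => by
    have := f.sum_eq_one (Set.mem_univ x)
    rwa [finsum_eq_sum_of_fintype] at this
  have hmem : ∀ j x, f j x ≠ 0 → x ∈ V j := fun j x h => hf j (subset_tsupport _ h)
  let Ψ₀ : C(X, ℂ) := ⟨fun x => ∑ j, (f j x : ℂ) * p (ι j), by
    refine continuous_finsetSum _ fun j _ => ?_
    exact (Complex.continuous_ofReal.comp (f j).continuous).mul continuous_const⟩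
  have hΨ₀ : ∀ x, Ψ₀ x = ∑ j, (f j x : ℂ) * p (ι j) := fun x => rfl
  have hΨ₀ne : ∀ x, Ψ₀ x ≠ 0 := by
    intro x h0
    let s : Finset (Fin k) := Finset.univ.filter fun j => f j x ≠ 0
    have hs : s.card ≤ 2 := by
      by_contra hcon
      push Not at hcon
      have := hVn s hcon
      have hx : x ∈ ⋂ j ∈ s, V j := by
        simp only [Set.mem_iInter]
        intro j hj
        exact hmem j x (Finset.mem_filter.mp hj).2
      rw [this] at hx
      exact hx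
    obtain ⟨i₀, hi₀⟩ : ∃ i₀ : Fin 3, i₀ ∉ s.image ι := by
      by_contra hcon
      push Not at hcon
      have : (Finset.univ : Finset (Fin 3)) ⊆ s.image ι := fun i _ => hcon i
      have h1 := Finset.card_le_card this
      have h2 := Finset.card_image_le (s := s) (f := ι)
      simp at h1
      omega
    have h1 : (conj (q i₀) * Ψ₀ x).re = 1 := by
      rw [hΨ₀, Finset.mul_sum, Complex.re_sum, ← hsum x]
      refine Finset.sum_congr rfl fun j _ => ?_
      by_cases hj : f j x = 0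
      · simp [hj]
      · have hne' : i₀ ≠ ι j := by
          rintro rfl
          exact hi₀ (Finset.mem_image_of_mem _ (Finset.mem_filter.mpr ⟨Finset.mem_univ _, hj⟩))
        have := q_p hne'
        have h3 : conj (q i₀) * ((f j x : ℂ) * p (ι j)) = (f j x : ℂ) * (conj (q i₀) * p (ι j)) := by
          ring
        rw [h3, Complex.re_ofReal_mul, this, mul_one]
    rw [h0] at h1
    simp at h1
  have hpos : ∀ x ∈ A, 0 < (Φ x * conj (Ψ₀ x)).re := by
    intro x hx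
    have h1 : (Φ x * conj (Ψ₀ x)).re = ∑ j, f j x * (conj (p (ι j)) * Φ x).re := by
      rw [hΨ₀, map_sum, Finset.mul_sum, Complex.re_sum]
      refine Finset.sum_congr rfl fun j _ => ?_
      have h3 : Φ x * conj ((f j x : ℂ) * p (ι j)) = (f j x : ℂ) * (conj (p (ι j)) * Φ x) := by
        rw [map_mul, Complex.conj_ofReal]; ring
      rw [h3, Complex.re_ofReal_mul]
    rw [h1]
    have h2 : ∀ j, f j x ≠ 0 → 0 < (conj (p (ι j)) * Φ x).re := by
      intro j hj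
      rcases hι j (hmem j x hj) with h | h
      · exact h
      · exact absurd hx h
    obtain ⟨j₀, hj₀⟩ : ∃ j, f j x ≠ 0 := by
      by_contra hcon
      push Not at hcon
      have := hsum x
      simp [hcon] at this
    refine Finset.sum_pos' (fun j _ => ?_) ⟨j₀, Finset.mem_univ _, ?_⟩
    · by_cases hj : f j x = 0
      · simp [hj]
      · exact mul_nonneg (f.nonneg j x) (h2 j hj).le
    · exact mul_pos (lt_of_le_of_ne (f.nonneg j₀ x) (Ne.symm hj₀)) (h2 j₀ hj₀)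
  obtain ⟨r₀, hr₀, hr₀A⟩ : ∃ r₀ : ℝ, 0 < r₀ ∧ ∀ x ∈ A, r₀ ≤ (Φ x * conj (Ψ₀ x)).re := by
    rcases A.eq_empty_or_nonempty with rfl | hAn
    · exact ⟨1, one_pos, fun x hx => absurd hx (Set.notMem_empty x)⟩
    · have hc : Continuous fun x => (Φ x * conj (Ψ₀ x)).re :=
        Complex.continuous_re.comp (Φ.continuous.mul (Complex.continuous_conj.comp Ψ₀.continuous))
      obtain ⟨x₀, hx₀, hmin⟩ := hA.isCompact.exists_isMinOn hAn hc.continuousOn
      exact ⟨_, hpos x₀ hx₀, fun x hx => hmin hx⟩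
  let z : C(X, ℂ) := ⟨fun x => ((max (Φ x * conj (Ψ₀ x)).re r₀ : ℝ) : ℂ) +
      ((Φ x * conj (Ψ₀ x)).im : ℂ) * Complex.I, by
    have hc : Continuous fun x => Φ x * conj (Ψ₀ x) :=
      Φ.continuous.mul (Complex.continuous_conj.comp Ψ₀.continuous)
    exact (Complex.continuous_ofReal.comp ((Complex.continuous_re.comp hc).max
      continuous_const)).add ((Complex.continuous_ofReal.comp
        (Complex.continuous_im.comp hc)).mul continuous_const)⟩
  have hz : ∀ x, z x = ((max (Φ x * conj (Ψ₀ x)).re r₀ : ℝ) : ℂ) +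
      ((Φ x * conj (Ψ₀ x)).im : ℂ) * Complex.I := fun x => rfl
  refine ⟨Ψ₀ * z, fun x => ?_, fun x hx => ?_⟩
  · rw [ContinuousMap.mul_apply]
    refine mul_ne_zero (hΨ₀ne x) fun h0 => ?_
    have := congrArg Complex.re h0
    rw [hz] at this
    have h4 : r₀ ≤ max (Φ x * conj (Ψ₀ x)).re r₀ := le_max_right _ _
    rw [Complex.add_re, Complex.ofReal_re, Complex.re_ofReal_mul, Complex.I_re, mul_zero,
      add_zero, Complex.zero_re] at this
    linarith
  · refine ⟨Complex.normSq (Ψ₀ x), Complex.normSq_pos.mpr (hΨ₀ne x), ?_⟩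
    have hzx : z x = Φ x * conj (Ψ₀ x) := by
      rw [hz, max_eq_left (hr₀A x hx), Complex.re_add_im]
    rw [ContinuousMap.mul_apply, hzx, Complex.normSq_eq_conj_mul_self]
    ring

lemma exists_phase (hX : CovDimLE 1 X) (Φ : C(X, ℂ)) (A : Set X) (hA : IsClosed A)
    (hne : ∀ x ∈ A, Φ x ≠ 0) :
    ∃ ω : C(X, ℂ), (∀ x, ‖ω x‖ = 1) ∧ ∀ x ∈ A, ω x * ‖Φ x‖ = Φ x := by
  obtain ⟨Ψ, hΨ, hΨA⟩ := exists_ext hX Φ A hA hne
  refine ⟨⟨fun x => Ψ x / (‖Ψ x‖ : ℂ), ?_⟩, fun x => ?_, fun x hx => ?_⟩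
  · exact Ψ.continuous.div (Complex.continuous_ofReal.comp Ψ.continuous.norm)
      (fun x => by simpa using hΨ x)
  · simp only [ContinuousMap.coe_mk, norm_div, Complex.norm_real, norm_norm]
    exact div_self (by simpa using hΨ x)
  · obtain ⟨t, ht, h⟩ := hΨA x hx
    have h1 : (‖Ψ x‖ : ℂ) = t * ‖Φ x‖ := by
      rw [h, norm_mul, Complex.norm_real, Real.norm_of_nonneg ht.le]; push_cast; rfl
    have h2 : (‖Φ x‖ : ℂ) ≠ 0 := by simpa using hne x hx
    have h3 : (t : ℂ) ≠ 0 := by exact_mod_cast ht.ne'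
    simp only [ContinuousMap.coe_mk]
    rw [h1, h]
    field_simp

lemma exists_nonvanishing (hX : CovDimLE 1 X) (h : C(X, ℂ)) {η : ℝ} (hη : 0 < η) :
    ∃ h' : C(X, ℂ), (∀ x, h' x ≠ 0) ∧ ∀ x, ‖h' x - h x‖ ≤ 2 * η := by
  obtain ⟨ω, hω, hωA⟩ := exists_phase hX h {x | η ≤ ‖h x‖}
    (isClosed_le continuous_const h.continuous.norm)
    (fun x hx h0 => by
      have : η ≤ ‖h x‖ := hx
      rw [h0, norm_zero] at this
      linarith)
  let m : C(X, ℂ) := ⟨fun x => ((max ‖h x‖ η : ℝ) : ℂ), Complex.continuous_ofReal.comp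
    (h.continuous.norm.max continuous_const)⟩
  have hm : ∀ x, m x = ((max ‖h x‖ η : ℝ) : ℂ) := fun x => rfl
  refine ⟨ω * m, fun x => ?_, fun x => ?_⟩
  · rw [ContinuousMap.mul_apply]
    refine mul_ne_zero ?_ ?_
    · intro h0; have := hω x; rw [h0, norm_zero] at this; exact zero_ne_one this
    · rw [hm]
      have : 0 < max ‖h x‖ η := lt_of_lt_of_le hη (le_max_right _ _)
      exact_mod_cast this.ne'
  · rw [ContinuousMap.mul_apply, hm]
    by_cases hx : η ≤ ‖h x‖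
    · rw [max_eq_left hx, hωA x hx, sub_self, norm_zero]; positivity
    · push Not at hx
      rw [max_eq_right hx.le]
      calc ‖ω x * (η : ℂ) - h x‖ ≤ ‖ω x * (η : ℂ)‖ + ‖h x‖ := norm_sub_le _ _
        _ ≤ 2 * η := by
          rw [norm_mul, hω x, Complex.norm_real, Real.norm_of_nonneg hη.le]; linarith

/-- distance of phases -/
lemma phase_dist (f Θ : ℂ) (κ : ℝ) (hκ : 0 ≤ κ) (ω : ℂ) (hω : ‖ω‖ = 1)
    (h : ω * ‖Θ‖ = Θ) : κ * ‖ω * ‖f‖ - f‖ ≤ 2 * ‖Θ - κ * f‖ := by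
  have h1 : κ * ‖ω * ‖f‖ - f‖ = ‖ω * (κ * ‖f‖ : ℝ) - κ * f‖ := by
    have h0 : ω * (κ * ‖f‖ : ℝ) - κ * f = (κ : ℂ) * (ω * ‖f‖ - f) := by push_cast; ring
    rw [h0, norm_mul, Complex.norm_real, Real.norm_of_nonneg hκ]
  have h2 : ω * (κ * ‖f‖ : ℝ) - κ * f = ω * ((κ * ‖f‖ - ‖Θ‖ : ℝ) : ℂ) + (Θ - κ * f) := by
    have h0 : ω * ((κ * ‖f‖ - ‖Θ‖ : ℝ) : ℂ) = ω * (κ * ‖f‖ : ℝ) - ω * ‖Θ‖ := by
      push_cast; ring
    rw [h0, h]; ring
  have h3 : |κ * ‖f‖ - ‖Θ‖| ≤ ‖Θ - κ * f‖ := by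
    have : κ * ‖f‖ = ‖(κ : ℂ) * f‖ := by
      rw [norm_mul, Complex.norm_real, Real.norm_of_nonneg hκ]
    rw [this, norm_sub_rev]
    exact abs_norm_sub_norm_le _ _
  rw [h1, h2]
  calc ‖ω * ((κ * ‖f‖ - ‖Θ‖ : ℝ) : ℂ) + (Θ - κ * f)‖
      ≤ ‖ω * ((κ * ‖f‖ - ‖Θ‖ : ℝ) : ℂ)‖ + ‖Θ - κ * f‖ := norm_add_le _ _
    _ ≤ _ := by
      rw [norm_mul, hω, Complex.norm_real, Real.norm_eq_abs]; linarith

lemma modulus_aux {F G H s : ℝ} (hF : 0 ≤ F) (hG : 0 ≤ G) (hH : 0 < H) (hs : 0 < s)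
    (h : |H - F * G| ≤ s ^ 2) :
    0 < (F - G + √((F - G) ^ 2 + 4 * H)) / 2 ∧
    |(F - G + √((F - G) ^ 2 + 4 * H)) / 2 - F| ≤ s ∧
    |H / ((F - G + √((F - G) ^ 2 + 4 * H)) / 2) - G| ≤ s := by
  set S := √((F - G) ^ 2 + 4 * H) with hS
  have hSS : S ^ 2 = (F - G) ^ 2 + 4 * H := Real.sq_sqrt (by positivity)
  have hS0 : 0 ≤ S := Real.sqrt_nonneg _
  have hpos : 0 < (F - G + S) / 2 := by
    by_contra hcon
    push Not at hcon
    nlinarith
  have h2 : |S - (F + G)| ≤ 2 * s := by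
    rw [abs_le] at h ⊢
    constructor
    · by_contra hcon
      push Not at hcon
      nlinarith
    · by_contra hcon
      push Not at hcon
      nlinarith
  have h3 : H / ((F - G + S) / 2) = (S - (F - G)) / 2 := by
    rw [div_eq_iff hpos.ne']; nlinarith
  refine ⟨hpos, ?_, ?_⟩
  · rw [abs_le] at h2 ⊢; constructor <;> linarith
  · rw [h3]; rw [abs_le] at h2 ⊢; constructor <;> linarith

/-- the pointwise estimate -/
lemma pointwise (f g h ω : ℂ) (s : ℝ) (hs : 0 < s) (hne : h ≠ 0) (hh : ‖h - f * g‖ ≤ s ^ 2)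
    (hω : ‖ω‖ = 1)
    (hΘ : 2 * s ≤ ‖f‖ ∨ 2 * s ≤ ‖g‖ →
      ω * ‖conj g * h + ((max 0 (‖f‖ - s)) ^ 2 : ℝ) * f‖ =
        conj g * h + ((max 0 (‖f‖ - s)) ^ 2 : ℝ) * f)
    (a : ℝ) (ha : a = (‖f‖ - ‖g‖ + √((‖f‖ - ‖g‖) ^ 2 + 4 * ‖h‖)) / 2) :
    0 < a ∧ ‖(a : ℂ) * ω - f‖ ≤ 5 * s ∧ ‖h / ((a : ℂ) * ω) - g‖ ≤ 5 * s := by
  have hH : 0 < ‖h‖ := norm_pos_iff.mpr hne
  have habs : |‖h‖ - ‖f‖ * ‖g‖| ≤ s ^ 2 := by
    rw [← norm_mul]; exact (abs_norm_sub_norm_le _ _).trans hh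
  obtain ⟨ha0, ha1, ha2⟩ := modulus_aux (norm_nonneg f) (norm_nonneg g) hH hs habs
  rw [← ha] at ha0 ha1 ha2
  have hω0 : ω ≠ 0 := by rintro rfl; simp at hω
  set τ : ℝ := (max 0 (‖f‖ - s)) ^ 2 with hτ
  have hτ0 : 0 ≤ τ := by positivity
  set Θ : ℂ := conj g * h + (τ : ℂ) * f with hΘdef
  set κ : ℝ := ‖g‖ ^ 2 + τ with hκ
  have hκ0 : 0 ≤ κ := by positivity
  have hgg : conj g * g = ((‖g‖ ^ 2 : ℝ) : ℂ) := by
    rw [← Complex.normSq_eq_norm_sq, ← Complex.normSq_eq_conj_mul_self]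
  have he : ∀ t : ℝ, conj g * h + (t : ℂ) * f - ((‖g‖ ^ 2 + t : ℝ) : ℂ) * f =
      conj g * (h - f * g) := by
    intro t
    have : ((‖g‖ ^ 2 + t : ℝ) : ℂ) = conj g * g + t := by rw [hgg]; push_cast; ring
    rw [this]; ring
  have he' : ∀ t : ℝ, ‖conj g * h + (t : ℂ) * f - ((‖g‖ ^ 2 + t : ℝ) : ℂ) * f‖ ≤
      ‖g‖ * s ^ 2 := by
    intro t
    rw [he, norm_mul, Complex.norm_conj]
    exact mul_le_mul_of_nonneg_left hh (norm_nonneg _)
  have hf1 : ‖(a : ℂ) * ω - f‖ ≤ s + ‖ω * ‖f‖ - f‖ := by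
    have : (a : ℂ) * ω - f = ((a - ‖f‖ : ℝ) : ℂ) * ω + (ω * ‖f‖ - f) := by push_cast; ring
    rw [this]
    refine (norm_add_le _ _).trans ?_
    rw [norm_mul, hω, Complex.norm_real, Real.norm_eq_abs, mul_one]
    linarith
  have hfle : ‖(a : ℂ) * ω - f‖ ≤ 2 * ‖f‖ + s := by
    refine (norm_sub_le _ _).trans ?_
    rw [norm_mul, hω, Complex.norm_real, Real.norm_of_nonneg ha0.le, mul_one]
    rw [abs_le] at ha1; linarith
  have hb0 : 0 < ‖h‖ / a := div_pos hH ha0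
  have hgle : ‖h / ((a : ℂ) * ω) - g‖ ≤ 2 * ‖g‖ + s := by
    refine (norm_sub_le _ _).trans ?_
    rw [norm_div, norm_mul, hω, Complex.norm_real, Real.norm_of_nonneg ha0.le, mul_one]
    rw [abs_le] at ha2; linarith
  refine ⟨ha0, ?_, ?_⟩
  · by_cases hf : 2 * s ≤ ‖f‖
    · have h1 := phase_dist f Θ κ hκ0 ω hω (hΘ (Or.inl hf))
      have h2 : ‖Θ - κ * f‖ ≤ ‖g‖ * s ^ 2 := he' τ
      have h3 : s ^ 2 ≤ τ := by
        rw [hτ]
        have : s ≤ max 0 (‖f‖ - s) := by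
          refine le_trans ?_ (le_max_right _ _); linarith
        gcongr
      have h4 : ‖ω * ‖f‖ - f‖ ≤ s := by
        have h5 : κ * ‖ω * ‖f‖ - f‖ ≤ κ * s := by
          have h6 : 2 * (‖g‖ * s ^ 2) ≤ κ * s := by
            have h7 : 2 * ‖g‖ * s ≤ κ := by nlinarith [sq_nonneg (‖g‖ - s)]
            nlinarith
          linarith
        have hκ1 : 0 < κ := by nlinarith [norm_nonneg g]
        exact le_of_mul_le_mul_left h5 hκ1
      linarith
    · push Not at hf; linarith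
  · by_cases hg : 2 * s ≤ ‖g‖
    · have hg0 : 0 < ‖g‖ := by linarith
      -- u is the phase of conj g * h
      set w : ℂ := conj g * h with hw
      have hwne : w ≠ 0 := by
        rw [hw]
        refine mul_ne_zero ?_ hne
        intro h0
        rw [map_eq_zero] at h0
        rw [h0, norm_zero] at hg0
        exact lt_irrefl _ hg0
      have hwn : ‖w‖ = ‖g‖ * ‖h‖ := by rw [hw, norm_mul, Complex.norm_conj]
      have hwn0 : (‖w‖ : ℂ) ≠ 0 := by
        have : ‖w‖ ≠ 0 := norm_ne_zero_iff.mpr hwne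
        exact_mod_cast this
      set u : ℂ := w / ‖w‖ with hu
      have hun : ‖u‖ = 1 := by
        rw [hu, norm_div, Complex.norm_real, norm_norm]
        exact div_self (norm_ne_zero_iff.mpr hwne)
      have huw : u * ‖w‖ = w := by rw [hu]; field_simp
      have hgu : g * u = ‖g‖ * (h / ‖h‖) := by
        have hg1 : (‖g‖ : ℂ) ≠ 0 := by exact_mod_cast hg0.ne'
        have hh1 : (‖h‖ : ℂ) ≠ 0 := by exact_mod_cast hH.ne'
        rw [hu, hwn, hw]
        have : g * (conj g * h / ((‖g‖ * ‖h‖ : ℝ) : ℂ)) =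
            (conj g * g) * h / ((‖g‖ * ‖h‖ : ℝ) : ℂ) := by ring
        rw [this, hgg]
        push_cast
        field_simp
      have hkey : ‖h / ((a : ℂ) * ω) - g‖ ≤ s + ‖g‖ * ‖u - ω‖ := by
        have ha' : (a : ℂ) ≠ 0 := by exact_mod_cast ha0.ne'
        have hh1 : (‖h‖ : ℂ) ≠ 0 := by exact_mod_cast hH.ne'
        have h1 : ω * (h / ((a : ℂ) * ω) - g) =
            ((‖h‖ / a - ‖g‖ : ℝ) : ℂ) * (h / ‖h‖) + g * (u - ω) := by
          rw [mul_sub g, hgu]
          push_cast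
          field_simp
          ring
        have h2 : ‖h / ((a : ℂ) * ω) - g‖ = ‖ω * (h / ((a : ℂ) * ω) - g)‖ := by
          rw [norm_mul, hω, one_mul]
        rw [h2, h1]
        refine (norm_add_le _ _).trans ?_
        rw [norm_mul, norm_mul, Complex.norm_real, Real.norm_eq_abs, norm_div,
          Complex.norm_real, norm_norm, div_self hH.ne', mul_one]
        linarith
      by_cases hf : ‖f‖ ≤ s
      · have hτz : τ = 0 := by
          rw [hτ, max_eq_left (by linarith)]; norm_num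
        have h1 : ω * ‖w‖ = w := by
          have := hΘ (Or.inr hg)
          rw [hΘdef, hτz] at this
          simpa using this
        have : u = ω := by
          rw [hu, div_eq_iff hwn0]; exact h1.symm
        rw [this, sub_self, norm_zero, mul_zero] at hkey
        linarith
      · push Not at hf
        have hf0 : 0 < ‖f‖ := by linarith
        have h1 := phase_dist f Θ κ hκ0 ω hω (hΘ (Or.inr hg))
        have h2 : ‖Θ - κ * f‖ ≤ ‖g‖ * s ^ 2 := he' τ
        have h3 := phase_dist f w (‖g‖ ^ 2) (by positivity) u hun huw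
        have h4 : ‖w - ((‖g‖ ^ 2 : ℝ) : ℂ) * f‖ ≤ ‖g‖ * s ^ 2 := by
          have := he' 0
          simpa using this
        have h5 : ‖g‖ ^ 2 * ‖ω * ‖f‖ - f‖ ≤ 2 * (‖g‖ * s ^ 2) := by
          have : ‖g‖ ^ 2 * ‖ω * ‖f‖ - f‖ ≤ κ * ‖ω * ‖f‖ - f‖ :=
            mul_le_mul_of_nonneg_right (by linarith) (norm_nonneg _)
          linarith
        have h6 : ‖g‖ ^ 2 * ‖u * ‖f‖ - f‖ ≤ 2 * (‖g‖ * s ^ 2) := by linarith
        have h7 : ‖f‖ * ‖u - ω‖ ≤ ‖u * ‖f‖ - f‖ + ‖ω * ‖f‖ - f‖ := by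
          have : ‖f‖ * ‖u - ω‖ = ‖(u * ‖f‖ - f) - (ω * ‖f‖ - f)‖ := by
            have h8 : (u * ‖f‖ - f) - (ω * ‖f‖ - f) = (‖f‖ : ℂ) * (u - ω) := by ring
            rw [h8, norm_mul, Complex.norm_real, norm_norm]
          rw [this]
          exact norm_sub_le _ _
        have h8 : ‖g‖ * ‖u - ω‖ ≤ 4 * s := by
          have h9 : (‖g‖ * ‖f‖) * (‖g‖ * ‖u - ω‖) ≤ (‖g‖ * ‖f‖) * (4 * s) := by
            have h10 : (‖g‖ * ‖f‖) * (‖g‖ * ‖u - ω‖) = ‖g‖ ^ 2 * (‖f‖ * ‖u - ω‖) := by ring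
            rw [h10]
            have h11 : ‖g‖ ^ 2 * (‖f‖ * ‖u - ω‖) ≤
                ‖g‖ ^ 2 * (‖u * ‖f‖ - f‖ + ‖ω * ‖f‖ - f‖) :=
              mul_le_mul_of_nonneg_left h7 (by positivity)
            have h12 : ‖g‖ * s * s ≤ ‖g‖ * ‖f‖ * s := by
              have := mul_le_mul_of_nonneg_left hf.le (mul_nonneg hg0.le hs.le)
              nlinarith
            nlinarith
          exact le_of_mul_le_mul_left h9 (mul_pos hg0 hf0)
        linarith
    · push Not at hg; linarith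

/-- one correction step: nowhere vanishing targets can be factored exactly -/
lemma step (hX : CovDimLE 1 X) (f g h : C(X, ℂ)) (s : ℝ) (hs : 0 < s) (hne : ∀ x, h x ≠ 0)
    (hh : ∀ x, ‖h x - f x * g x‖ ≤ s ^ 2) :
    ∃ f₁ g₁ : C(X, ℂ), (∀ x, f₁ x * g₁ x = h x) ∧ (∀ x, ‖f₁ x - f x‖ ≤ 5 * s) ∧
      ∀ x, ‖g₁ x - g x‖ ≤ 5 * s := by
  let Θ : C(X, ℂ) := ⟨fun x => conj (g x) * h x + ((max 0 (‖f x‖ - s)) ^ 2 : ℝ) * f x, by
    refine ((Complex.continuous_conj.comp g.continuous).mul h.continuous).add ?_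
    refine (Complex.continuous_ofReal.comp ?_).mul f.continuous
    exact (continuous_const.max (f.continuous.norm.sub continuous_const)).pow 2⟩
  have hΘ : ∀ x, Θ x = conj (g x) * h x + ((max 0 (‖f x‖ - s)) ^ 2 : ℝ) * f x := fun x => rfl
  let A : Set X := {x | 2 * s ≤ ‖f x‖} ∪ {x | 2 * s ≤ ‖g x‖}
  have hA : IsClosed A := (isClosed_le continuous_const f.continuous.norm).union
    (isClosed_le continuous_const g.continuous.norm)
  have hΘne : ∀ x ∈ A, Θ x ≠ 0 := by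
    intro x hx h0
    rw [hΘ] at h0
    set τ : ℝ := (max 0 (‖f x‖ - s)) ^ 2 with hτ
    have hτ0 : 0 ≤ τ := by positivity
    have hre : 0 = (conj (f x) * (conj (g x) * h x + (τ : ℂ) * f x)).re := by
      rw [h0, mul_zero, Complex.zero_re]
    have h1 : conj (f x) * (conj (g x) * h x + (τ : ℂ) * f x) =
        ((‖f x * g x‖ ^ 2 + τ * ‖f x‖ ^ 2 : ℝ) : ℂ) +
          conj (f x * g x) * (h x - f x * g x) := by
      have e1 : ((‖f x * g x‖ ^ 2 : ℝ) : ℂ) = conj (f x * g x) * (f x * g x) := by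
        rw [← Complex.normSq_eq_norm_sq, ← Complex.normSq_eq_conj_mul_self]
      have e2 : ((‖f x‖ ^ 2 : ℝ) : ℂ) = conj (f x) * (f x) := by
        rw [← Complex.normSq_eq_norm_sq, ← Complex.normSq_eq_conj_mul_self]
      rw [Complex.ofReal_add, Complex.ofReal_mul, e1, e2, map_mul]
      ring
    rw [h1, Complex.add_re, Complex.ofReal_re] at hre
    have h2 : -(‖f x * g x‖ * s ^ 2) ≤ (conj (f x * g x) * (h x - f x * g x)).re := by
      have h3 := Complex.abs_re_le_norm (conj (f x * g x) * (h x - f x * g x))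
      rw [norm_mul, Complex.norm_conj] at h3
      have h4 : ‖f x * g x‖ * ‖h x - f x * g x‖ ≤ ‖f x * g x‖ * s ^ 2 :=
        mul_le_mul_of_nonneg_left (hh x) (norm_nonneg _)
      have h5 := neg_abs_le (conj (f x * g x) * (h x - f x * g x)).re
      linarith
    have hle : ‖f x * g x‖ ^ 2 + τ * ‖f x‖ ^ 2 ≤ ‖f x * g x‖ * s ^ 2 := by linarith
    have hP : ‖f x * g x‖ = ‖f x‖ * ‖g x‖ := norm_mul _ _
    by_cases hf : 2 * s ≤ ‖f x‖
    · have h3 : s ^ 2 ≤ τ := by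
        rw [hτ]
        have : s ≤ max 0 (‖f x‖ - s) := by
          refine le_trans ?_ (le_max_right _ _); linarith
        gcongr
      have h6 : s ^ 2 * (4 * s ^ 2) ≤ τ * ‖f x‖ ^ 2 := by
        apply mul_le_mul h3 _ (by positivity) hτ0
        nlinarith
      have h7 : 0 < s ^ 2 * s ^ 2 := by positivity
      nlinarith [sq_nonneg (‖f x * g x‖ - s ^ 2)]
    · have hg : 2 * s ≤ ‖g x‖ := by
        rcases hx with h | h
        · exact absurd h hf
        · exact h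
      by_cases hfs : ‖f x‖ ≤ s
      · have hτz : τ = 0 := by
          rw [hτ, max_eq_left (by linarith)]; norm_num
        rw [hτz] at h0
        simp only [Complex.ofReal_zero, zero_mul, add_zero, mul_eq_zero, map_eq_zero] at h0
        rcases h0 with h0 | h0
        · rw [h0, norm_zero] at hg; linarith
        · exact hne x h0
      · push Not at hfs
        have h6 : 2 * s ^ 2 < ‖f x * g x‖ := by
          rw [hP]
          nlinarith
        have h7 : 0 ≤ τ * ‖f x‖ ^ 2 := by positivity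
        nlinarith [sq_nonneg s, pow_pos hs 2]
  obtain ⟨ω, hω, hωA⟩ := exists_phase hX Θ A hA hΘne
  let a : C(X, ℝ) := ⟨fun x => (‖f x‖ - ‖g x‖ + √((‖f x‖ - ‖g x‖) ^ 2 + 4 * ‖h x‖)) / 2, by
    have hc : Continuous fun x => ‖f x‖ - ‖g x‖ := f.continuous.norm.sub g.continuous.norm
    exact (hc.add (((hc.pow 2).add (continuous_const.mul h.continuous.norm)).sqrt)).div_const 2⟩
  have ha : ∀ x, a x = (‖f x‖ - ‖g x‖ + √((‖f x‖ - ‖g x‖) ^ 2 + 4 * ‖h x‖)) / 2 := fun x => rfl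
  have hmain : ∀ x, 0 < a x ∧ ‖(a x : ℂ) * ω x - f x‖ ≤ 5 * s ∧
      ‖h x / ((a x : ℂ) * ω x) - g x‖ ≤ 5 * s := by
    intro x
    refine pointwise (f x) (g x) (h x) (ω x) s hs (hne x) (hh x) (hω x) ?_ (a x) (ha x)
    intro hx
    exact hωA x hx
  let f₁ : C(X, ℂ) := ⟨fun x => (a x : ℂ) * ω x,
    (Complex.continuous_ofReal.comp a.continuous).mul ω.continuous⟩
  have hf₁ : ∀ x, f₁ x = (a x : ℂ) * ω x := fun x => rfl
  have hf₁ne : ∀ x, f₁ x ≠ 0 := by
    intro x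
    rw [hf₁]
    refine mul_ne_zero (by exact_mod_cast (hmain x).1.ne') ?_
    intro h0; have := hω x; rw [h0, norm_zero] at this; exact zero_ne_one this
  refine ⟨f₁, ⟨fun x => h x / f₁ x, h.continuous.div f₁.continuous hf₁ne⟩, fun x => ?_,
    fun x => (hmain x).2.1, fun x => (hmain x).2.2⟩
  show f₁ x * (h x / f₁ x) = h x
  exact mul_div_cancel₀ _ (hf₁ne x)

/-- The main theorem: the ball of radius `ε ^ 2 / 300` about `f * g` lies in the product of the
balls of radius `ε` about `f` and `g`. -/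
theorem ball_subset (hX : CovDimLE 1 X) (f g h : C(X, ℂ)) {ε : ℝ} (hε : 0 < ε)
    (hh : ‖h - f * g‖ ≤ ε ^ 2 / 300) :
    ∃ F G : C(X, ℂ), F * G = h ∧ ‖F - f‖ < ε ∧ ‖G - g‖ < ε := by
  classical
  -- scales
  let σ : ℕ → ℝ := fun n => ε / 12 * (1 / 2) ^ n
  have hσ : ∀ n, 0 < σ n := fun n => by positivity
  have hσ1 : ∀ n, σ (n + 1) = σ n / 2 := fun n => by simp only [σ]; ring
  -- nonvanishing approximants
  have hB : ∀ n, ∃ h' : C(X, ℂ), (∀ x, h' x ≠ 0) ∧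
      ∀ x, ‖h' x - h x‖ ≤ 2 * (σ (n + 1) ^ 2 / 4) := fun n =>
    exists_nonvanishing hX h (by have := hσ (n + 1); positivity)
  choose H hHne hHle using hB
  let P : ℕ → C(X, ℂ) × C(X, ℂ) → Prop := fun n p => ∀ x, p.1 x * p.2 x = H n x
  have hstep : ∀ n, ∀ p : C(X, ℂ) × C(X, ℂ), P n p → ∃ p' : C(X, ℂ) × C(X, ℂ),
      P (n + 1) p' ∧ ‖p'.1 - p.1‖ ≤ 5 * σ (n + 1) ∧ ‖p'.2 - p.2‖ ≤ 5 * σ (n + 1) := by
    intro n p hp
    obtain ⟨f₁, g₁, h1, h2, h3⟩ := step hX p.1 p.2 (H (n + 1)) (σ (n + 1)) (hσ _)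
      (hHne (n + 1)) (fun x => by
        rw [hp x]
        have h1 := hHle (n + 1) x
        have h2 := hHle n x
        have h3 : σ (n + 1 + 1) ^ 2 ≤ σ (n + 1) ^ 2 := by
          rw [hσ1 (n + 1)]; have := hσ (n + 1); nlinarith
        calc ‖H (n + 1) x - H n x‖ = ‖(H (n + 1) x - h x) - (H n x - h x)‖ := by
              congr 1; ring
          _ ≤ ‖H (n + 1) x - h x‖ + ‖H n x - h x‖ := norm_sub_le _ _
          _ ≤ _ := by linarith)
    refine ⟨(f₁, g₁), h1, ?_, ?_⟩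
    · rw [ContinuousMap.norm_le _ (by have := hσ (n + 1); positivity)]
      exact h2
    · rw [ContinuousMap.norm_le _ (by have := hσ (n + 1); positivity)]
      exact h3
  obtain ⟨p0, hp0, hp01, hp02⟩ : ∃ p' : C(X, ℂ) × C(X, ℂ),
      P 0 p' ∧ ‖p'.1 - f‖ ≤ 5 * σ 0 ∧ ‖p'.2 - g‖ ≤ 5 * σ 0 := by
    obtain ⟨f₁, g₁, h1, h2, h3⟩ := step hX f g (H 0) (σ 0) (hσ _)
      (hHne 0) (fun x => by
        have h1 := hHle 0 x
        have h2 : ‖h x - f x * g x‖ ≤ ε ^ 2 / 300 :=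
          ((h - f * g).norm_coe_le_norm x).trans hh
        have h3 : σ (0 + 1) ^ 2 = ε ^ 2 / 576 := by simp only [σ]; ring
        have h4 : σ 0 ^ 2 = ε ^ 2 / 144 := by simp only [σ]; ring
        calc ‖H 0 x - f x * g x‖ = ‖(H 0 x - h x) + (h x - f x * g x)‖ := by
              congr 1; ring
          _ ≤ ‖H 0 x - h x‖ + ‖h x - f x * g x‖ := norm_add_le _ _
          _ ≤ _ := by rw [h3] at h1; rw [h4]; nlinarith [sq_nonneg ε])
    refine ⟨(f₁, g₁), h1, ?_, ?_⟩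
    · rw [ContinuousMap.norm_le _ (by have := hσ 0; positivity)]
      exact h2
    · rw [ContinuousMap.norm_le _ (by have := hσ 0; positivity)]
      exact h3
  choose! nxt hnxt using hstep
  let s : ℕ → C(X, ℂ) × C(X, ℂ) := fun n => Nat.rec p0 (fun n p => nxt n p) n
  have hs0 : s 0 = p0 := rfl
  have hs1 : ∀ n, s (n + 1) = nxt n (s n) := fun n => rfl
  have hP : ∀ n, P n (s n) := by
    intro n
    induction n with
    | zero => exact hp0
    | succ n ih => rw [hs1]; exact (hnxt n (s n) ih).1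
  have hd1 : ∀ n, dist (s n).1 (s (n + 1)).1 ≤ 5 * ε / 24 * (1 / 2) ^ n := by
    intro n
    rw [dist_comm, dist_eq_norm, hs1]
    refine (hnxt n (s n) (hP n)).2.1.trans_eq ?_
    simp only [σ]; ring
  have hd2 : ∀ n, dist (s n).2 (s (n + 1)).2 ≤ 5 * ε / 24 * (1 / 2) ^ n := by
    intro n
    rw [dist_comm, dist_eq_norm, hs1]
    refine (hnxt n (s n) (hP n)).2.2.trans_eq ?_
    simp only [σ]; ring
  obtain ⟨F, hF⟩ := cauchySeq_tendsto_of_complete
    (cauchySeq_of_le_geometric (1 / 2) (5 * ε / 24) (by norm_num) hd1)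
  obtain ⟨G, hG⟩ := cauchySeq_tendsto_of_complete
    (cauchySeq_of_le_geometric (1 / 2) (5 * ε / 24) (by norm_num) hd2)
  have hF0 := dist_le_of_le_geometric_of_tendsto₀ (1 / 2) (5 * ε / 24) (by norm_num) hd1 hF
  have hG0 := dist_le_of_le_geometric_of_tendsto₀ (1 / 2) (5 * ε / 24) (by norm_num) hd2 hG
  have hσ0 : σ 0 = ε / 12 := by simp only [σ]; ring
  refine ⟨F, G, ?_, ?_, ?_⟩
  · have h1 : Filter.Tendsto (fun n => (s n).1 * (s n).2) Filter.atTop (nhds (F * G)) :=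
      hF.mul hG
    have h2 : Filter.Tendsto (fun n => (s n).1 * (s n).2) Filter.atTop (nhds h) := by
      have h3 : (fun n => (s n).1 * (s n).2) = H := by
        funext n; ext x; exact hP n x
      rw [h3, tendsto_iff_norm_sub_tendsto_zero]
      refine squeeze_zero (fun n => norm_nonneg _) (g := fun n => ε ^ 2 * (1 / 2) ^ n) ?_ ?_
      · intro n
        rw [ContinuousMap.norm_le _ (by positivity)]
        intro x
        refine (hHle n x).trans ?_
        have h4 : 2 * (σ (n + 1) ^ 2 / 4) = ε ^ 2 / 1152 * ((1 / 2) ^ n * (1 / 2) ^ n) := by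
          simp only [σ]; ring
        rw [h4]
        have h5 : ((1 : ℝ) / 2) ^ n ≤ 1 := pow_le_one₀ (by norm_num) (by norm_num)
        have h6 : (0 : ℝ) < (1 / 2) ^ n := by positivity
        have h7 : ((1 : ℝ) / 2) ^ n * (1 / 2) ^ n ≤ (1 / 2) ^ n := by nlinarith
        have h8 : 0 < ε ^ 2 := by positivity
        nlinarith
      · have := (tendsto_pow_atTop_nhds_zero_of_lt_one (r := (1 / 2 : ℝ))
          (by norm_num) (by norm_num)).const_mul (ε ^ 2)
        simpa using this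
    exact tendsto_nhds_unique h1 h2
  · have h1 : ‖F - f‖ ≤ ‖p0.1 - f‖ + dist (s 0).1 F := by
      rw [hs0, dist_comm, dist_eq_norm]
      have : F - f = (p0.1 - f) + (F - p0.1) := by abel
      rw [this]; exact norm_add_le _ _
    rw [hσ0] at hp01
    have h2 : 5 * ε / 24 / (1 - 1 / 2) = 5 * ε / 12 := by ring
    rw [h2] at hF0
    linarith
  · have h1 : ‖G - g‖ ≤ ‖p0.2 - g‖ + dist (s 0).2 G := by
      rw [hs0, dist_comm, dist_eq_norm]
      have : G - g = (p0.2 - g) + (G - p0.2) := by abel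
      rw [this]; exact norm_add_le _ _
    rw [hσ0] at hp02
    have h2 : 5 * ε / 24 / (1 - 1 / 2) = 5 * ε / 12 := by ring
    rw [h2] at hG0
    linarith

end Pool.Agent.R302.OpenMult
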