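import Mathlib

open Filter Topology Set Metric
open scoped BoundedContinuousFunction

namespace Pool.Agent.R302.OpenSemi

/-- bounded continuous functions on the plane -/
abbrev X : Type := ℂ →ᵇ ℂ

lemma isClosed_diff : IsClosed {f : X | DifferentiableOn ℂ (f : ℂ → ℂ) (ball 0 1)} := by
  rw [← isSeqClosed_iff_isClosed]
  intro u f hu hf
  have h1 := BoundedContinuousFunction.tendsto_iff_tendstoUniformly.mp hf
  have h2 : TendstoLocallyUniformlyOn (fun n => (u n : ℂ → ℂ)) (f : ℂ → ℂ) atTop (ball 0 1) :=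
    h1.tendstoUniformlyOn.tendstoLocallyUniformlyOn
  exact h2.differentiableOn (Eventually.of_forall hu) isOpen_ball

/-- The algebra: pairs of bounded continuous functions on the plane, both holomorphic in the unit
disc, with the same value at the origin. -/
def AS : Subalgebra ℂ (X × X) where
  carrier := {p | DifferentiableOn ℂ (p.1 : ℂ → ℂ) (ball 0 1) ∧
    DifferentiableOn ℂ (p.2 : ℂ → ℂ) (ball 0 1) ∧ p.1 0 = p.2 0}
  mul_mem' := fun {p q} hp hq => ⟨hp.1.mul hq.1, hp.2.1.mul hq.2.1, by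
    show p.1 0 * q.1 0 = p.2 0 * q.2 0
    rw [hp.2.2, hq.2.2]⟩
  add_mem' := fun {p q} hp hq => ⟨hp.1.add hq.1, hp.2.1.add hq.2.1, by
    show p.1 0 + q.1 0 = p.2 0 + q.2 0
    rw [hp.2.2, hq.2.2]⟩
  algebraMap_mem' := fun r => ⟨differentiableOn_const r, differentiableOn_const r, rfl⟩

lemma isClosed_AS : IsClosed (AS : Set (X × X)) := by
  have h1 : IsClosed {p : X × X | DifferentiableOn ℂ (p.1 : ℂ → ℂ) (ball 0 1)} :=
    isClosed_diff.preimage continuous_fst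
  have h2 : IsClosed {p : X × X | DifferentiableOn ℂ (p.2 : ℂ → ℂ) (ball 0 1)} :=
    isClosed_diff.preimage continuous_snd
  have h3 : IsClosed {p : X × X | p.1 0 = p.2 0} :=
    isClosed_eq ((continuous_eval_const (F := X) (0 : ℂ)).comp continuous_fst)
      ((continuous_eval_const (F := X) (0 : ℂ)).comp continuous_snd)
  have : (AS : Set (X × X)) = {p : X × X | DifferentiableOn ℂ (p.1 : ℂ → ℂ) (ball 0 1)} ∩
      ({p : X × X | DifferentiableOn ℂ (p.2 : ℂ → ℂ) (ball 0 1)} ∩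
        {p : X × X | p.1 0 = p.2 0}) := rfl
  rw [this]
  exact h1.inter (h2.inter h3)

/-- the coordinate function, cut off outside the unit disc -/
noncomputable def a₀ : X := BoundedContinuousFunction.ofNormedAddCommGroup
  (fun z : ℂ => z / ((max 1 ‖z‖ : ℝ) : ℂ))
  (by
    refine continuous_id.div (Complex.continuous_ofReal.comp
      (continuous_const.max continuous_norm)) fun z => ?_
    have : (0 : ℝ) < max 1 ‖z‖ := lt_of_lt_of_le one_pos (le_max_left _ _)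
    exact_mod_cast this.ne') 1
  (fun z => by
    rw [norm_div, Complex.norm_real, Real.norm_of_nonneg (le_trans zero_le_one (le_max_left _ _)),
      div_le_one (lt_of_lt_of_le one_pos (le_max_left _ _))]
    exact le_max_right _ _)

lemma a₀_apply {z : ℂ} (hz : ‖z‖ ≤ 1) : a₀ z = z := by
  show z / ((max 1 ‖z‖ : ℝ) : ℂ) = z
  rw [max_eq_left hz]; simp

lemma norm_a₀ : ‖a₀‖ ≤ 1 := BoundedContinuousFunction.norm_ofNormedAddCommGroup_le _ zero_le_one _

lemma a₀_diff : DifferentiableOn ℂ (a₀ : ℂ → ℂ) (ball 0 1) := by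
  refine differentiableOn_id.congr fun z hz => ?_
  rw [a₀_apply (by simpa using (mem_ball_zero_iff.mp hz).le)]; rfl

lemma a₀_pow_apply (n : ℕ) {z : ℂ} (hz : ‖z‖ ≤ 1) : (a₀ ^ n) z = z ^ n := by
  rw [BoundedContinuousFunction.pow_apply, a₀_apply hz]

lemma a₀_pow_dist {m n : ℕ} (h : m ≠ n) : 2 ≤ ‖a₀ ^ m - a₀ ^ n‖ := by
  wlog hmn : m < n generalizing m n
  · rw [norm_sub_rev]
    exact this (Ne.symm h) (by omega)
  set k := n - m with hk
  have hk0 : 0 < k := by omega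
  set z : ℂ := Complex.exp ((Real.pi / k : ℝ) * Complex.I) with hz
  have hzn : ‖z‖ = 1 := Complex.norm_exp_ofReal_mul_I _
  have hzk : z ^ k = -1 := by
    rw [hz, ← Complex.exp_nat_mul]
    have : (k : ℂ) * ((Real.pi / k : ℝ) * Complex.I) = Real.pi * Complex.I := by
      have : (k : ℂ) ≠ 0 := by exact_mod_cast hk0.ne'
      push_cast
      field_simp
    rw [this, Complex.exp_pi_mul_I]
  have h1 := BoundedContinuousFunction.norm_coe_le_norm (a₀ ^ m - a₀ ^ n) z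
  refine le_trans (le_of_eq ?_) h1
  rw [BoundedContinuousFunction.sub_apply, a₀_pow_apply m hzn.le, a₀_pow_apply n hzn.le]
  have : z ^ n = z ^ m * z ^ k := by rw [← pow_add]; congr 1; omega
  rw [this, hzk]
  have : z ^ m - z ^ m * (-1) = 2 * z ^ m := by ring
  rw [this, norm_mul, norm_pow, hzn, one_pow, mul_one]
  simp

/-- Rouche type lemma: zeros persist. -/
lemma zero_persist {f₀ f : X} (h₀ : DifferentiableOn ℂ (f₀ : ℂ → ℂ) (ball 0 1))
    (h : DifferentiableOn ℂ (f : ℂ → ℂ) (ball 0 1))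
    (hlt : ∀ z : ℂ, ‖z‖ = 1 → ‖f z - f₀ z‖ < ‖f₀ z‖)
    {z₀ : ℂ} (hz₀ : ‖z₀‖ < 1) (hf₀ : f₀ z₀ = 0) : ∃ z : ℂ, ‖z‖ < 1 ∧ f z = 0 := by
  by_contra hcon
  push Not at hcon
  have hne : ∀ z ∈ closedBall (0 : ℂ) 1, f z ≠ 0 := by
    intro z hz h0
    rw [mem_closedBall_zero_iff] at hz
    rcases hz.lt_or_eq with hz' | hz'
    · exact hcon z hz' h0
    · have := hlt z hz'
      rw [h0, zero_sub, norm_neg] at this
      exact lt_irrefl _ this
  set F : ℂ → ℂ := fun z => Complex.exp (-(f₀ z / f z)) with hF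
  have hcl : closure (ball (0 : ℂ) 1) = closedBall 0 1 := closure_ball 0 one_ne_zero
  have hdiff : DiffContOnCl ℂ F (ball 0 1) := by
    refine ⟨?_, ?_⟩
    · refine DifferentiableOn.cexp ((h₀.div h fun z hz => ?_).neg)
      exact hne z (ball_subset_closedBall hz)
    · rw [hcl]
      refine Complex.continuous_exp.comp_continuousOn ?_
      exact (f₀.continuous.continuousOn.div f.continuous.continuousOn hne).neg
  have hre : ∀ z : ℂ, ‖z‖ = 1 → 0 < (f₀ z / f z).re := by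
    intro z hz
    have h1 := hlt z hz
    have hfz : f z ≠ 0 := hne z (by rw [mem_closedBall_zero_iff]; exact hz.le)
    have hf0z : f₀ z ≠ 0 := by
      intro h0; rw [h0, norm_zero] at h1; exact absurd h1 (not_lt.mpr (norm_nonneg _))
    -- Re (f / f₀) > 0
    have h2 : 0 < (f z / f₀ z).re := by
      have h3 : ‖f z / f₀ z - 1‖ < 1 := by
        rw [div_sub_one hf0z, norm_div, div_lt_one (norm_pos_iff.mpr hf0z)]
        exact h1
      have h4 := (abs_lt.mp ((Complex.abs_re_le_norm _).trans_lt h3)).1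
      rw [Complex.sub_re, Complex.one_re] at h4
      linarith
    have h5 : f₀ z / f z = (f z / f₀ z)⁻¹ := by rw [inv_div]
    rw [h5, Complex.inv_re]
    refine div_pos h2 (Complex.normSq_pos.mpr (div_ne_zero hfz hf0z))
  have hcomp : IsCompact (sphere (0 : ℂ) 1) := isCompact_sphere 0 1
  have hcont : ContinuousOn (fun z => ‖F z‖) (sphere 0 1) := by
    refine ((hcl ▸ hdiff.2).mono ?_).norm
    exact sphere_subset_closedBall
  obtain ⟨w, hw, hwmax⟩ := hcomp.exists_isMaxOn ⟨1, by simp⟩ hcont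
  have hw1 : ‖F w‖ < 1 := by
    rw [mem_sphere_zero_iff_norm] at hw
    rw [hF]
    simp only
    rw [Complex.norm_exp, Complex.neg_re]
    have := hre w hw
    rw [Real.exp_lt_one_iff]
    linarith
  have hle : ‖F z₀‖ ≤ ‖F w‖ := by
    refine Complex.norm_le_of_forall_mem_frontier_norm_le isBounded_ball hdiff ?_ ?_
    · intro z hz
      rw [frontier_ball (0 : ℂ) one_ne_zero] at hz
      exact hwmax hz
    · rw [hcl, mem_closedBall_zero_iff]; exact hz₀.le
  have hz1 : ‖F z₀‖ = 1 := by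
    rw [hF]; simp [hf₀]
  linarith

/-- the excluded set -/
def Z (r : ℕ → ℝ) : Set (X × X) :=
  {p | ∃ m : ℕ, 1 ≤ m ∧ p.1 = a₀ ^ m ∧ r m ≤ ‖deriv (p.2 : ℂ → ℂ) 0‖}

/-- the semigroup, as a set of pairs -/
def SS (r : ℕ → ℝ) : Set AS :=
  {q | (∀ z : ℂ, ‖z‖ = 1 → (q : X × X).1 z ≠ 0) ∧ (∃ z : ℂ, ‖z‖ < 1 ∧ (q : X × X).1 z = 0) ∧
    (q : X × X) ∉ Z r}

lemma norm_deriv_le {g : X} (hg : DifferentiableOn ℂ (g : ℂ → ℂ) (ball 0 1)) :
    ‖deriv (g : ℂ → ℂ) 0‖ ≤ ‖g‖ := by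
  have h1 : DiffContOnCl ℂ (g : ℂ → ℂ) (ball 0 1) := ⟨hg, g.continuous.continuousOn⟩
  have := Complex.norm_deriv_le_of_forall_mem_sphere_norm_le one_pos h1
    (fun z _ => g.norm_coe_le_norm z)
  simpa using this

lemma diffAt {g : X} (hg : DifferentiableOn ℂ (g : ℂ → ℂ) (ball 0 1)) :
    DifferentiableAt ℂ (g : ℂ → ℂ) 0 := hg.differentiableAt (ball_mem_nhds 0 one_pos)

lemma mul_mem_SS {r : ℕ → ℝ} (hr : ∀ n, 0 < r n) {p q : AS} (hp : p ∈ SS r) (hq : q ∈ SS r) :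
    p * q ∈ SS r := by
  obtain ⟨hp1, ⟨z₁, hz₁, hpz⟩, hp3⟩ := hp
  obtain ⟨hq1, ⟨z₂, hz₂, hqz⟩, hq3⟩ := hq
  refine ⟨fun z hz => mul_ne_zero (hp1 z hz) (hq1 z hz), ⟨z₁, hz₁, ?_⟩, ?_⟩
  · show (p : X × X).1 z₁ * (q : X × X).1 z₁ = 0
    rw [hpz, zero_mul]
  · rintro ⟨m, hm, h1, h2⟩
    have hfac : ∀ z : ℂ, ‖z‖ ≤ 1 → (p : X × X).1 z * (q : X × X).1 z = z ^ m := fun z hz => by
      rw [← a₀_pow_apply m hz, ← h1]; rfl
    have hz₁0 : z₁ = 0 := by
      have := hfac z₁ hz₁.le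
      rw [hpz, zero_mul] at this
      exact pow_eq_zero_iff (by omega : m ≠ 0) |>.mp this.symm
    have hz₂0 : z₂ = 0 := by
      have := hfac z₂ hz₂.le
      rw [hqz, mul_zero] at this
      exact pow_eq_zero_iff (by omega : m ≠ 0) |>.mp this.symm
    subst hz₁0 hz₂0
    have hp0 : (p : X × X).2 0 = 0 := by rw [← p.2.2.2]; exact hpz
    have hq0 : (q : X × X).2 0 = 0 := by rw [← q.2.2.2]; exact hqz
    have hder : deriv (((p * q : AS) : X × X).2 : ℂ → ℂ) 0 = 0 := by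
      have h3 : (((p * q : AS) : X × X).2 : ℂ → ℂ) =
          ((p : X × X).2 : ℂ → ℂ) * ((q : X × X).2 : ℂ → ℂ) := rfl
      rw [h3, deriv_mul (diffAt p.2.2.1) (diffAt q.2.2.1), hp0, hq0]
      ring
    rw [hder, norm_zero] at h2
    exact absurd h2 (not_le.mpr (hr m))

lemma isOpen_SS (r : ℕ → ℝ) : IsOpen (SS r) := by
  rw [Metric.isOpen_iff]
  rintro q ⟨hq1, ⟨z₀, hz₀, hq2⟩, hq3⟩
  -- lower bound on the circle
  obtain ⟨w, hw, hwmin⟩ := (isCompact_sphere (0 : ℂ) 1).exists_isMinOn ⟨1, by simp⟩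
    ((q : X × X).1.continuous.norm.continuousOn (s := sphere 0 1))
  set c : ℝ := ‖(q : X × X).1 w‖ with hc
  have hc0 : 0 < c := norm_pos_iff.mpr (hq1 w (by simpa using hw))
  have hcle : ∀ z : ℂ, ‖z‖ = 1 → c ≤ ‖(q : X × X).1 z‖ := fun z hz => hwmin (by simpa using hz)
  -- stay away from Z
  obtain ⟨ρ, hρ, hρZ⟩ : ∃ ρ > 0, ∀ p : AS, dist p q < ρ → (p : X × X) ∉ Z r := by
    by_cases hex : ∃ m : ℕ, 1 ≤ m ∧ ‖(q : X × X).1 - a₀ ^ m‖ < 1 / 2
    · obtain ⟨m, hm, hqm⟩ := hex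
      have hone : ∀ p : AS, dist p q < 1 / 2 → (p : X × X) ∈ Z r →
          (p : X × X).1 = a₀ ^ m ∧ r m ≤ ‖deriv ((p : X × X).2 : ℂ → ℂ) 0‖ := by
        rintro p hp ⟨m', hm', h1, h2⟩
        have h3 : ‖(p : X × X).1 - (q : X × X).1‖ < 1 / 2 := by
          refine lt_of_le_of_lt ?_ hp
          rw [dist_eq_norm]
          exact norm_fst_le ((p - q : AS) : X × X)
        have h4 : m' = m := by
          by_contra hne
          have h5 := a₀_pow_dist hne
          have h6 : ‖a₀ ^ m' - a₀ ^ m‖ ≤ ‖(p : X × X).1 - (q : X × X).1‖ +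
              ‖(q : X × X).1 - a₀ ^ m‖ := by
            rw [h1]
            exact norm_sub_le_norm_sub_add_norm_sub _ _ _
          linarith
        subst h4
        exact ⟨h1, h2⟩
      by_cases hqe : (q : X × X).1 = a₀ ^ m
      · have hlt : ‖deriv ((q : X × X).2 : ℂ → ℂ) 0‖ < r m := by
          by_contra hge
          exact hq3 ⟨m, hm, hqe, not_lt.mp hge⟩
        refine ⟨min (1 / 2) (r m - ‖deriv ((q : X × X).2 : ℂ → ℂ) 0‖),
          lt_min (by norm_num) (by linarith), fun p hp hpZ => ?_⟩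
        obtain ⟨-, h2⟩ := hone p (hp.trans_le (min_le_left _ _)) hpZ
        have h3 : ‖(p : X × X).2 - (q : X × X).2‖ < r m - ‖deriv ((q : X × X).2 : ℂ → ℂ) 0‖ := by
          refine lt_of_le_of_lt ?_ (hp.trans_le (min_le_right _ _))
          rw [dist_eq_norm]
          exact norm_snd_le ((p - q : AS) : X × X)
        have h4 : ‖deriv ((p : X × X).2 : ℂ → ℂ) 0 - deriv ((q : X × X).2 : ℂ → ℂ) 0‖ ≤
            ‖(p : X × X).2 - (q : X × X).2‖ := by
          rw [← deriv_sub (diffAt p.2.2.1) (diffAt q.2.2.1)]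
          exact norm_deriv_le (g := (p : X × X).2 - (q : X × X).2) (p.2.2.1.sub q.2.2.1)
        have h5 := norm_le_norm_add_norm_sub' (deriv ((p : X × X).2 : ℂ → ℂ) 0)
          (deriv ((q : X × X).2 : ℂ → ℂ) 0)
        linarith
      · refine ⟨min (1 / 2) ‖(q : X × X).1 - a₀ ^ m‖,
          lt_min (by norm_num) (norm_pos_iff.mpr (sub_ne_zero.mpr hqe)), fun p hp hpZ => ?_⟩
        obtain ⟨h1, -⟩ := hone p (hp.trans_le (min_le_left _ _)) hpZ
        have h3 : ‖(p : X × X).1 - (q : X × X).1‖ < ‖(q : X × X).1 - a₀ ^ m‖ := by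
          refine lt_of_le_of_lt ?_ (hp.trans_le (min_le_right _ _))
          rw [dist_eq_norm]
          exact norm_fst_le ((p - q : AS) : X × X)
        rw [h1, norm_sub_rev] at h3
        exact lt_irrefl _ h3
    · push Not at hex
      refine ⟨1 / 2, by norm_num, fun p hp hpZ => ?_⟩
      obtain ⟨m, hm, h1, -⟩ := hpZ
      have h3 : ‖(p : X × X).1 - (q : X × X).1‖ < 1 / 2 := by
        refine lt_of_le_of_lt ?_ hp
        rw [dist_eq_norm]
        exact norm_fst_le ((p - q : AS) : X × X)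
      rw [h1, norm_sub_rev] at h3
      exact absurd h3 (not_lt.mpr (hex m hm))
  refine ⟨min c ρ, lt_min hc0 hρ, fun p hp => ?_⟩
  rw [mem_ball] at hp
  have hp1 : ∀ z : ℂ, ‖z‖ = 1 → ‖(p : X × X).1 z - (q : X × X).1 z‖ < ‖(q : X × X).1 z‖ := by
    intro z hz
    refine lt_of_lt_of_le ?_ (hcle z hz)
    have h1 : ‖((p : X × X).1 - (q : X × X).1) z‖ ≤ ‖(p : X × X).1 - (q : X × X).1‖ :=
      BoundedContinuousFunction.norm_coe_le_norm _ z
    have h2 : ‖(p : X × X).1 - (q : X × X).1‖ ≤ dist p q := by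
      rw [dist_eq_norm]
      exact norm_fst_le ((p - q : AS) : X × X)
    exact lt_of_le_of_lt (h1.trans h2) (hp.trans_le (min_le_left _ _))
  refine ⟨fun z hz h0 => ?_, zero_persist q.2.1 p.2.1 hp1 hz₀ hq2,
    hρZ p (hp.trans_le (min_le_right _ _))⟩
  have := hp1 z hz
  rw [h0, zero_sub, norm_neg] at this
  exact lt_irrefl _ this

/-- the distinguished element -/
noncomputable def aa : AS := ⟨(a₀, 0), a₀_diff, differentiableOn_const 0, by
  show a₀ 0 = 0
  rw [a₀_apply (by simp)]⟩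

lemma aa_pow (n : ℕ) (hn : 1 ≤ n) : ((aa ^ n : AS) : X × X) = (a₀ ^ n, 0) := by
  have h1 : ((aa ^ n : AS) : X × X) = (a₀, (0 : X)) ^ n := rfl
  rw [h1, Prod.pow_mk, zero_pow (by omega)]

lemma near_mem {r : ℕ → ℝ} (hr1 : ∀ n, r n ≤ 1) {n : ℕ} (hn : 1 ≤ n) {q : AS}
    (hq : dist (aa ^ n) q < r n) : q ∈ SS r := by
  rw [dist_comm, dist_eq_norm] at hq
  have h1 : ‖(q : X × X).1 - a₀ ^ n‖ < r n := by
    refine lt_of_le_of_lt ?_ hq
    have := norm_fst_le ((q - aa ^ n : AS) : X × X)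
    have e : ((q - aa ^ n : AS) : X × X).1 = (q : X × X).1 - a₀ ^ n := by
      show (q : X × X).1 - ((aa ^ n : AS) : X × X).1 = _
      rw [aa_pow n hn]
    rwa [e] at this
  have h2 : ‖(q : X × X).2‖ < r n := by
    refine lt_of_le_of_lt ?_ hq
    have := norm_snd_le ((q - aa ^ n : AS) : X × X)
    have e : ((q - aa ^ n : AS) : X × X).2 = (q : X × X).2 := by
      show (q : X × X).2 - ((aa ^ n : AS) : X × X).2 = _
      rw [aa_pow n hn, sub_zero]
    rwa [e] at this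
  have hlt : ∀ z : ℂ, ‖z‖ = 1 → ‖(q : X × X).1 z - (a₀ ^ n) z‖ < ‖(a₀ ^ n) z‖ := by
    intro z hz
    have h3 : ‖((q : X × X).1 - a₀ ^ n) z‖ ≤ ‖(q : X × X).1 - a₀ ^ n‖ :=
      BoundedContinuousFunction.norm_coe_le_norm _ z
    have h4 : ‖(a₀ ^ n) z‖ = 1 := by rw [a₀_pow_apply n hz.le, norm_pow, hz, one_pow]
    rw [h4]
    exact lt_of_le_of_lt h3 (h1.trans_le (hr1 n))
  refine ⟨fun z hz h0 => ?_, ?_, ?_⟩
  · have := hlt z hz
    rw [h0, zero_sub, norm_neg] at this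
    exact lt_irrefl _ this
  · have hd : DifferentiableOn ℂ ((a₀ ^ n : X) : ℂ → ℂ) (ball 0 1) := by
      have : ((a₀ ^ n : X) : ℂ → ℂ) = (a₀ : ℂ → ℂ) ^ n := rfl
      rw [this]
      exact a₀_diff.pow n
    refine zero_persist hd q.2.1 hlt (z₀ := 0) (by simp) ?_
    rw [a₀_pow_apply n (by simp), zero_pow (by omega)]
  · rintro ⟨m, hm, h3, h4⟩
    have hmn : m = n := by
      by_contra hne
      have h5 := a₀_pow_dist hne
      rw [h3] at h1
      have := hr1 n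
      linarith
    subst hmn
    have h5 := norm_deriv_le (g := (q : X × X).2) q.2.2.1
    linarith

/-- The distance of the powers of `aa` to the complement of the semigroup can be prescribed. -/
theorem infDist_pow {r : ℕ → ℝ} (hr : ∀ n, 0 < r n) (hr1 : ∀ n, r n ≤ 1) {n : ℕ} (hn : 1 ≤ n) :
    infDist (aa ^ n) (SS r)ᶜ = r n := by
  -- a point outside at distance at most r n
  let p : AS := ⟨(a₀ ^ n, (r n : ℂ) • a₀), by
    refine ⟨?_, ?_, ?_⟩
    · have : ((a₀ ^ n : X) : ℂ → ℂ) = (a₀ : ℂ → ℂ) ^ n := rfl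
      show DifferentiableOn ℂ ((a₀ ^ n : X) : ℂ → ℂ) (ball 0 1)
      rw [this]
      exact a₀_diff.pow n
    · exact a₀_diff.const_smul (r n : ℂ)
    · show (a₀ ^ n) 0 = (r n : ℂ) * a₀ 0
      rw [a₀_pow_apply n (by simp), a₀_apply (by simp), zero_pow (by omega), mul_zero]⟩
  have hp : p ∈ (SS r)ᶜ := by
    intro hpS
    apply hpS.2.2
    refine ⟨n, hn, rfl, ?_⟩
    have h1 : deriv (((r n : ℂ) • a₀ : X) : ℂ → ℂ) 0 = r n := by
      have h2 : (((r n : ℂ) • a₀ : X) : ℂ → ℂ) =ᶠ[𝓝 0] fun z => (r n : ℂ) * z := by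
        filter_upwards [ball_mem_nhds (0 : ℂ) one_pos] with z hz
        show (r n : ℂ) * a₀ z = (r n : ℂ) * z
        rw [a₀_apply (mem_ball_zero_iff.mp hz).le]
      rw [h2.deriv_eq, deriv_const_mul_field]
      simp
    show r n ≤ ‖deriv (((r n : ℂ) • a₀ : X) : ℂ → ℂ) 0‖
    rw [h1, Complex.norm_real, Real.norm_of_nonneg (hr n).le]
  apply le_antisymm
  · refine (infDist_le_dist_of_mem hp).trans ?_
    rw [dist_comm, dist_eq_norm]
    have h1 : ((p - aa ^ n : AS) : X × X) = (0, (r n : ℂ) • a₀) := by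
      show (p : X × X) - ((aa ^ n : AS) : X × X) = _
      rw [aa_pow n hn]
      show (a₀ ^ n - a₀ ^ n, (r n : ℂ) • a₀ - 0) = _
      rw [sub_self, sub_zero]
    have h2 : ‖p - aa ^ n‖ = ‖((0 : X), (r n : ℂ) • a₀)‖ := by
      rw [← h1]; rfl
    rw [h2, Prod.norm_def]
    refine max_le (by simpa using (hr n).le) ?_
    show ‖(r n : ℂ) • a₀‖ ≤ r n
    rw [norm_smul, Complex.norm_real, Real.norm_of_nonneg (hr n).le]
    exact mul_le_of_le_one_right (hr n).le norm_a₀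
  · rw [le_infDist ⟨p, hp⟩]
    intro q hq
    by_contra hlt
    exact hq (near_mem hr1 hn (not_le.mp hlt))

end Pool.Agent.R302.OpenSemi
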