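import Mathlib

/-!
# The free group of rank two: separating finite quotients, and a paradox
-/

namespace Pool.Agent.R302.Roe

open FreeGroup hiding map_mul map_one map_inv

/-- the free group of rank two -/
abbrev F2 : Type := FreeGroup (Fin 2)

/-- the element given by a letter -/
def lt (x : Fin 2 × Bool) : F2 := FreeGroup.mk [x]

/-- the elements whose reduced word begins with `x` -/
def WW (x : Fin 2 × Bool) : Set F2 := {w | w.toWord.head? = some x}

lemma toWord_lt_mul (x : Fin 2 × Bool) (w : F2) :
    (lt x * w).toWord = reduce (x :: w.toWord) := by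
  have : lt x * w = FreeGroup.mk (x :: w.toWord) := by
    conv_lhs => rw [← FreeGroup.mk_toWord (x := w)]
    rw [lt, FreeGroup.mul_mk]
    rfl
  rw [this, toWord_mk]

lemma mem_WW_iff (x : Fin 2 × Bool) (w : F2) : lt x * w ∈ WW x ↔ w ∉ WW (x.1, !x.2) := by
  unfold WW
  simp only [Set.mem_setOf_eq]
  rw [toWord_lt_mul, reduce.cons, reduce_toWord]
  rcases hL : w.toWord with _ | ⟨hd, tl⟩
  · simp
  · simp only [List.head?_cons, Option.some.injEq]
    by_cases h : x.1 = hd.1 ∧ x.2 = !hd.2
    · rw [if_pos h]
      have e : hd = (x.1, !x.2) := by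
        ext
        · simp [h.1]
        · simp [h.2]
      simp only [e, not_true_eq_false, iff_false]
      intro h2
      rcases tl with _ | ⟨hd2, tl2⟩
      · simp at h2
      · simp only [List.head?_cons, Option.some.injEq] at h2
        have h3 : reduce w.toWord = [] ++ (x.1, !x.2) :: (x.1, !!x.2) :: tl2 := by
          rw [reduce_toWord, hL, e, h2]
          simp
        exact reduce.not h3
    · rw [if_neg h]
      simp only [List.head?_cons, true_iff]
      intro e
      apply h
      rw [e]
      simp

lemma norm_lt_mul_le (x : Fin 2 × Bool) (w : F2) : (lt x * w).norm ≤ w.norm + 1 := by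
  have := FreeGroup.norm_mul_le (lt x) w
  have h2 : (lt x).norm ≤ 1 := by
    unfold lt
    exact FreeGroup.norm_mk_le
  omega

/-- Translation invariant means do not exist, in a quantitative form. -/
theorem paradox (f : F2 → ℝ) (h0 : ∀ w, 0 ≤ f w) (hs : f.support.Finite)
    (h1 : ∀ i : Fin 2, ∑' v, |f (lt (i, true) * v) - f v| < 1 / 10)
    (ht : 9 / 10 < ∑' v, f v) (ht2 : ∑' v, f v < 11 / 10) : False := by
  classical
  have hsum : Summable f := summable_of_finite_support hs
  have hind : ∀ S : Set F2, Summable (S.indicator f) := fun S => hsum.indicator S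
  have key : ∀ i : Fin 2, ∑' v, f v - 1 / 10 ≤
      ∑' v, (WW (i, true)).indicator f v + ∑' v, (WW (i, false)).indicator f v := by
    intro i
    have e1 : ∑' v, (WW (i, true)).indicator f v =
        ∑' v, (WW (i, true)).indicator f (lt (i, true) * v) :=
      ((Equiv.mulLeft (lt (i, true))).tsum_eq ((WW (i, true)).indicator f)).symm
    have hs2 : Summable fun v => f (lt (i, true) * v) :=
      (Equiv.mulLeft (lt (i, true))).summable_iff.mpr hsum
    have hs3 : Summable fun v => |f (lt (i, true) * v) - f v| := (hs2.sub hsum).abs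
    have e2 : ∀ v, (WW (i, true)).indicator f (lt (i, true) * v) ≥
        f v - (WW (i, false)).indicator f v - |f (lt (i, true) * v) - f v| := by
      intro v
      have hm := mem_WW_iff (i, true) v
      by_cases hv : v ∈ WW (i, false)
      · have h3 : lt (i, true) * v ∉ WW (i, true) := by
          rw [hm]
          simpa using hv
        rw [Set.indicator_of_notMem h3, Set.indicator_of_mem hv]
        have := abs_nonneg (f (lt (i, true) * v) - f v)
        linarith
      · have h3 : lt (i, true) * v ∈ WW (i, true) := by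
          rw [hm]
          simpa using hv
        rw [Set.indicator_of_mem h3, Set.indicator_of_notMem hv]
        have := neg_abs_le (f (lt (i, true) * v) - f v)
        linarith
    have e3 : ∑' v, (f v - (WW (i, false)).indicator f v - |f (lt (i, true) * v) - f v|) ≤
        ∑' v, (WW (i, true)).indicator f (lt (i, true) * v) := by
      refine Summable.tsum_le_tsum e2 ((hsum.sub (hind _)).sub hs3) ?_
      exact (Equiv.mulLeft (lt (i, true))).summable_iff.mpr (hind (WW (i, true)))
    rw [(hsum.sub (hind _)).tsum_sub hs3, hsum.tsum_sub (hind _)] at e3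
    have := h1 i
    linarith
  have tot : ∑' v, (WW (0, true)).indicator f v + ∑' v, (WW (0, false)).indicator f v +
      (∑' v, (WW (1, true)).indicator f v + ∑' v, (WW (1, false)).indicator f v) ≤
      ∑' v, f v := by
    rw [← (hind _).tsum_add (hind _), ← (hind _).tsum_add (hind _),
      ← ((hind _).add (hind _)).tsum_add ((hind _).add (hind _))]
    refine Summable.tsum_le_tsum (fun v => ?_) (((hind _).add (hind _)).add
      ((hind _).add (hind _))) hsum
    simp only [Set.indicator, WW, Set.mem_setOf_eq]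
    have := h0 v
    rcases v.toWord.head? with _ | ⟨i, b⟩
    · simpa using this
    · fin_cases i <;> cases b <;> simp
  have k0 := key 0
  have k1 := key 1
  linarith

/-! ### Finite quotients -/

/-- the ball of radius `m` -/
abbrev BB (m : ℕ) : Type := {w : F2 // w.norm ≤ m}

instance (m : ℕ) : Finite (BB m) := by
  have h := List.finite_length_le (Fin 2 × Bool) m
  have : Finite {l : List (Fin 2 × Bool) | l.length ≤ m} := h
  refine Finite.of_injective (β := {l : List (Fin 2 × Bool) | l.length ≤ m})
    (fun w : BB m => ⟨w.1.toWord, w.2⟩) ?_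
  intro w w' h
  exact Subtype.ext (FreeGroup.toWord_injective (congrArg Subtype.val h))

/-- the partial injection given by left multiplication -/
noncomputable def pinj (m : ℕ) (a : F2) :
    {x : BB m // (a * x.1).norm ≤ m} ≃ {x : BB m // (a⁻¹ * x.1).norm ≤ m} where
  toFun x := ⟨⟨a * x.1.1, x.2⟩, by simpa using x.1.2⟩
  invFun x := ⟨⟨a⁻¹ * x.1.1, x.2⟩, by simpa using x.1.2⟩
  left_inv x := by
    apply Subtype.ext
    apply Subtype.ext
    simp
  right_inv x := by
    apply Subtype.ext
    apply Subtype.ext
    simp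

/-- the permutation extending it -/
noncomputable def sg (m : ℕ) (i : Fin 2) : Equiv.Perm (BB m) :=
  open Classical in (pinj m (lt (i, true))).extendSubtype

lemma sg_apply (m : ℕ) (i : Fin 2) (x : BB m) (h : (lt (i, true) * x.1).norm ≤ m) :
    (sg m i x).1 = lt (i, true) * x.1 := by
  classical
  unfold sg
  rw [Equiv.extendSubtype_apply_of_mem (pinj m (lt (i, true))) x h]
  rfl

/-- the action of the free group -/
noncomputable def ph (m : ℕ) : F2 →* Equiv.Perm (BB m) := FreeGroup.lift (sg m)

lemma lt_true (i : Fin 2) : lt (i, true) = FreeGroup.of i := rfl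

lemma lt_false (i : Fin 2) : lt (i, false) = (lt (i, true))⁻¹ := by
  unfold lt
  rw [FreeGroup.inv_mk]
  rfl

lemma ph_true (m : ℕ) (i : Fin 2) : ph m (lt (i, true)) = sg m i := by
  rw [lt_true, ph, FreeGroup.lift_apply_of]

lemma ph_letter (m : ℕ) (x : Fin 2 × Bool) (v : BB m) (h : (lt x * v.1).norm ≤ m) :
    (ph m (lt x) v).1 = lt x * v.1 := by
  obtain ⟨i, b⟩ := x
  cases b
  · rw [lt_false, map_inv, ph_true]
    rw [lt_false] at h
    have h2 := sg_apply m i ⟨(lt (i, true))⁻¹ * v.1, h⟩ (by simpa using v.2)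
    have h3 : sg m i ⟨(lt (i, true))⁻¹ * v.1, h⟩ = v := by
      apply Subtype.ext
      rw [h2]
      simp
    have h4 : (sg m i)⁻¹ v = ⟨(lt (i, true))⁻¹ * v.1, h⟩ := by
      rw [Equiv.Perm.inv_eq_iff_eq, h3]
    rw [h4]
  · rw [ph_true]
    exact sg_apply m i v h

/-- the identity element as a point of the ball -/
def oo (m : ℕ) : BB m := ⟨1, by simp⟩

lemma ph_apply_one (m : ℕ) (w : F2) (h : w.norm ≤ m) : (ph m w (oo m)).1 = w := by
  suffices H : ∀ L : List (Fin 2 × Bool), reduce L = L → L.length ≤ m →
      (ph m (FreeGroup.mk L) (oo m)).1 = FreeGroup.mk L by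
    have := H w.toWord (reduce_toWord w) h
    rwa [FreeGroup.mk_toWord] at this
  intro L
  induction L with
  | nil =>
    intro _ _
    have : (FreeGroup.mk [] : F2) = 1 := rfl
    rw [this, map_one]
    rfl
  | cons x L ih =>
    intro hr hl
    have hr2 : reduce L = L := by
      rw [← isReduced_iff_reduce_eq] at hr ⊢
      exact hr.of_cons
    have hm : (FreeGroup.mk (x :: L) : F2) = lt x * FreeGroup.mk L := by
      rw [lt, FreeGroup.mul_mk]
      rfl
    have ih2 := ih hr2 (by simp at hl; omega)
    rw [hm, map_mul, Equiv.Perm.mul_apply, ph_letter, ih2]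
    rw [ih2, ← hm]
    exact FreeGroup.norm_mk_le.trans hl

lemma ph_inj (m : ℕ) {w w' : F2} (h : w.norm ≤ m) (h' : w'.norm ≤ m) (e : ph m w = ph m w') :
    w = w' := by
  rw [← ph_apply_one m w h, ← ph_apply_one m w' h', e]

/-- the finite group generated by the two permutations -/
abbrev QQ (m : ℕ) : Type := (ph m).range

instance (m : ℕ) : Finite (Equiv.Perm (BB m)) := inferInstance

instance (m : ℕ) : Finite (QQ m) := inferInstance

/-- the quotient map -/
noncomputable def qm (m : ℕ) : F2 →* QQ m := (ph m).rangeRestrict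

lemma qm_surj (m : ℕ) : Function.Surjective (qm m) := (ph m).rangeRestrict_surjective

lemma qm_inj (m : ℕ) {w w' : F2} (h : w.norm ≤ m) (h' : w'.norm ≤ m) (e : qm m w = qm m w') :
    w = w' := ph_inj m h h' (congrArg Subtype.val e)

/-- the word length on the finite group -/
noncomputable def len (m : ℕ) (q : QQ m) : ℕ := sInf {k | ∃ w : F2, w.norm = k ∧ qm m w = q}

lemma len_spec (m : ℕ) (q : QQ m) : ∃ w : F2, w.norm = len m q ∧ qm m w = q := by
  obtain ⟨w, hw⟩ := qm_surj m q
  exact Nat.sInf_mem (s := {k | ∃ w : F2, w.norm = k ∧ qm m w = q}) ⟨_, w, rfl, hw⟩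

lemma len_le (m : ℕ) (w : F2) : len m (qm m w) ≤ w.norm :=
  Nat.sInf_le ⟨w, rfl, rfl⟩

lemma len_one (m : ℕ) : len m 1 = 0 := by
  have := len_le m 1
  rw [map_one, FreeGroup.norm_one] at this
  omega

lemma eq_one_of_len (m : ℕ) {q : QQ m} (h : len m q = 0) : q = 1 := by
  obtain ⟨w, hw, hq⟩ := len_spec m q
  rw [h, FreeGroup.norm_eq_zero] at hw
  rw [← hq, hw, map_one]

lemma len_mul (m : ℕ) (q q' : QQ m) : len m (q * q') ≤ len m q + len m q' := by
  obtain ⟨w, hw, hq⟩ := len_spec m q
  obtain ⟨w', hw', hq'⟩ := len_spec m q'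
  rw [← hw, ← hw', ← hq, ← hq', ← map_mul]
  exact (len_le m _).trans (FreeGroup.norm_mul_le w w')

lemma len_inv (m : ℕ) (q : QQ m) : len m q⁻¹ = len m q := by
  have h : ∀ q : QQ m, len m q⁻¹ ≤ len m q := fun q => by
    obtain ⟨w, hw, hq⟩ := len_spec m q
    rw [← hw, ← hq, ← map_inv, ← FreeGroup.norm_inv_eq]
    exact len_le m _
  refine le_antisymm (h q) ?_
  have := h q⁻¹
  rwa [inv_inv] at this

end Pool.Agent.R302.Roe
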