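import Pool.Agent.R302.RoeDef
import Pool.Agent.R302.RoeFree

/-!
# The space
-/

namespace Pool.Agent.R302.Roe

open Filter

/-- the space: blocks indexed by pairs `(n, m)`, the block of `(n, m)` is a copy of `QQ m` -/
structure PX where
  /-- the block -/
  p : ℕ × ℕ
  /-- the point of the block -/
  q : QQ p.2

/-- the space as a disjoint union -/
def sgm : (Σ p : ℕ × ℕ, QQ p.2) ≃ PX where
  toFun x := ⟨x.1, x.2⟩
  invFun x := ⟨x.p, x.q⟩
  left_inv _ := rfl
  right_inv _ := rfl

noncomputable instance (m : ℕ) : Fintype (QQ m) := Fintype.ofFinite _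

/-- total length in a block -/
noncomputable def DD (m : ℕ) : ℕ := ∑ q : QQ m, len m q

lemma len_le_DD (m : ℕ) (q : QQ m) : len m q ≤ DD m :=
  Finset.single_le_sum (f := fun q => len m q) (fun _ _ => Nat.zero_le _) (Finset.mem_univ q)

/-- the weight of a block -/
noncomputable def wt (p : ℕ × ℕ) : ℕ := p.1 + p.2 + 1 + DD p.2

/-- the distance -/
noncomputable def dN (x y : PX) : ℕ :=
  if h : x.p = y.p then len y.p.2 ((h ▸ x.q)⁻¹ * y.q) else wt x.p + wt y.p

lemma dN_same (p : ℕ × ℕ) (q q' : QQ p.2) : dN ⟨p, q⟩ ⟨p, q'⟩ = len p.2 (q⁻¹ * q') := by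
  simp [dN]

lemma dN_ne {p p' : ℕ × ℕ} (h : p ≠ p') (q : QQ p.2) (q' : QQ p'.2) :
    dN ⟨p, q⟩ ⟨p', q'⟩ = wt p + wt p' := by
  simp [dN, h]

lemma dN_self (x : PX) : dN x x = 0 := by
  obtain ⟨p, q⟩ := x
  rw [dN_same, inv_mul_cancel, len_one]

lemma dN_comm (x y : PX) : dN x y = dN y x := by
  obtain ⟨p, q⟩ := x
  obtain ⟨p', q'⟩ := y
  by_cases h : p = p'
  · subst h
    rw [dN_same, dN_same, ← len_inv, mul_inv_rev, inv_inv]
  · rw [dN_ne h, dN_ne (Ne.symm h), add_comm]

lemma dN_triangle (x y z : PX) : dN x z ≤ dN x y + dN y z := by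
  obtain ⟨p, q⟩ := x
  obtain ⟨p', q'⟩ := y
  obtain ⟨p'', q''⟩ := z
  by_cases h : p = p'
  · subst h
    by_cases h2 : p = p''
    · subst h2
      rw [dN_same, dN_same, dN_same]
      have : q⁻¹ * q'' = (q⁻¹ * q') * (q'⁻¹ * q'') := by group
      rw [this]
      exact len_mul _ _ _
    · rw [dN_ne h2, dN_ne h2]
      omega
  · by_cases h2 : p = p''
    · subst h2
      rw [dN_same, dN_ne h, dN_ne (Ne.symm h)]
      have := len_le_DD p.2 (q⁻¹ * q'')
      unfold wt
      omega
    · by_cases h3 : p' = p''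
      · subst h3
        rw [dN_ne h, dN_ne h]
        omega
      · rw [dN_ne h2, dN_ne h, dN_ne h3]
        omega

lemma eq_of_dN {x y : PX} (h : dN x y = 0) : x = y := by
  obtain ⟨p, q⟩ := x
  obtain ⟨p', q'⟩ := y
  by_cases h2 : p = p'
  · subst h2
    rw [dN_same] at h
    have := eq_one_of_len _ h
    rw [inv_mul_eq_one] at this
    rw [this]
  · rw [dN_ne h2] at h
    unfold wt at h
    omega

noncomputable instance : MetricSpace PX where
  dist x y := dN x y
  dist_self x := by
    rw [dN_self]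
    simp
  dist_comm x y := by
    rw [dN_comm]
  dist_triangle x y z := by exact_mod_cast dN_triangle x y z
  eq_of_dist_eq_zero {x y} h := eq_of_dN (by exact_mod_cast h)

lemma dist_def (x y : PX) : dist x y = dN x y := rfl

/-- points at small distance lie in the same block -/
lemma same_block {x y : PX} (h : dN x y < x.p.1) : x.p = y.p := by
  obtain ⟨p, q⟩ := x
  obtain ⟨p', q'⟩ := y
  by_contra h2
  change p ≠ p' at h2
  rw [dN_ne h2] at h
  unfold wt at h
  dsimp only at h
  omega

lemma bddGeom : BoundedGeometry PX := by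
  intro R
  set k := ⌈R⌉₊ with hk
  have fin2 : {y : PX | wt y.p ≤ k}.Finite := by
    have h1 := ((((Finset.range (k + 1) ×ˢ Finset.range (k + 1)).sigma
        (fun p : ℕ × ℕ => (Finset.univ : Finset (QQ p.2)))).finite_toSet).image sgm)
    refine h1.subset ?_
    rintro ⟨⟨n, m⟩, q⟩ hy
    change wt (n, m) ≤ k at hy
    unfold wt at hy
    dsimp only at hy
    refine ⟨⟨(n, m), q⟩, ?_, rfl⟩
    simp only [Finset.coe_sigma, Set.mem_sigma_iff, Finset.mem_coe, Finset.mem_product,
      Finset.mem_range, Finset.mem_univ, and_true]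
    omega
  have : Fintype (BB k) := Fintype.ofFinite _
  refine ⟨Fintype.card (BB k) + fin2.toFinset.card, fun x => ?_⟩
  have hsub : Metric.closedBall x R ⊆
      (Set.range fun w : BB k => (⟨x.p, x.q * qm x.p.2 w.1⟩ : PX)) ∪ {y : PX | wt y.p ≤ k} := by
    intro y hy
    rw [Metric.mem_closedBall, dist_comm, dist_def] at hy
    have hy2 : dN x y ≤ k := by
      have : (dN x y : ℝ) ≤ k := hy.trans (Nat.le_ceil R)
      exact_mod_cast this
    obtain ⟨p, q⟩ := x
    obtain ⟨p', q'⟩ := y
    by_cases h : p = p'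
    · subst h
      left
      rw [dN_same] at hy2
      obtain ⟨w, hw, hq⟩ := len_spec p.2 (q⁻¹ * q')
      refine ⟨⟨w, by rw [hw]; exact hy2⟩, ?_⟩
      dsimp only
      rw [hq, mul_inv_cancel_left]
    · right
      rw [dN_ne h] at hy2
      change wt p' ≤ k
      omega
  refine (Set.encard_le_encard hsub).trans ((Set.encard_union_le _ _).trans ?_)
  push_cast
  refine add_le_add ?_ ?_
  · rw [← Set.image_univ]
    refine (Set.encard_image_le _ _).trans ?_
    rw [Set.encard_univ, ENat.card_eq_coe_fintype_card]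
  · rw [fin2.encard_eq_coe_toFinset_card]

lemma strDisc : StronglyDiscrete PX := by
  have hsub : (Set.range fun p : PX × PX => dist p.1 p.2) ⊆ Set.range ((↑) : ℕ → ℝ) := by
    rintro _ ⟨p, rfl⟩
    exact ⟨dN p.1 p.2, rfl⟩
  have key : ∀ S : Set ℝ, S ⊆ Set.range ((↑) : ℕ → ℝ) → IsClosed S := by
    intro S hS
    have : S = (fun n : ℕ => (n : ℝ)) '' {n : ℕ | (n : ℝ) ∈ S} := by
      ext x
      constructor
      · intro hx
        obtain ⟨n, rfl⟩ := hS hx
        exact ⟨n, hx, rfl⟩
      · rintro ⟨n, hn, rfl⟩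
        exact hn
    rw [this]
    exact Nat.isClosedEmbedding_coe_real.isClosedMap _ (isClosed_discrete _)
  refine ⟨key _ hsub, ?_⟩
  rw [discreteTopology_iff_forall_isClosed]
  intro s
  have h := key (Subtype.val '' s) (by
    rintro _ ⟨y, -, rfl⟩
    exact hsub y.2)
  have e : s = Subtype.val ⁻¹' (Subtype.val '' s) :=
    (Set.preimage_image_eq s Subtype.val_injective).symm
  rw [e]
  exact h.preimage continuous_subtype_val

end Pool.Agent.R302.Roe
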