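import Pool.Agent.R302.RoeA

/-!
# The invariant set
-/

namespace Pool.Agent.R302.Roe

open Filter Topology

lemma mem_clo {X : Type*} {A : Set X} {u : Ultrafilter X} : u ∈ clo A ↔ A ∈ u := by
  constructor
  · intro h
    have hc : IsClosed {u : Ultrafilter X | A ∈ u} := ultrafilter_isClosed_basic A
    have hs : ((pure : X → Ultrafilter X) '' A) ⊆ {u | A ∈ u} := by
      rintro _ ⟨a, ha, rfl⟩
      exact ha
    exact closure_minimal hs hc h
  · intro h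
    rw [clo, mem_closure_iff]
    intro o ho hu
    obtain ⟨v, hv, huv, hvo⟩ := ultrafilterBasis_is_basis.exists_subset_of_mem_open hu ho
    obtain ⟨B, rfl⟩ := hv
    obtain ⟨x, hx⟩ := u.nonempty_of_mem (inter_mem h huv)
    exact ⟨pure x, hvo hx.2, x, hx.1, rfl⟩

lemma mem_closure_range {X ι : Type*} {w : ι → Ultrafilter X} {u : Ultrafilter X} :
    u ∈ closure (Set.range w) ↔ ∀ A ∈ u, ∃ i, A ∈ w i := by
  constructor
  · intro h A hA
    rw [mem_closure_iff] at h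
    obtain ⟨_, h1, i, rfl⟩ := h {v | A ∈ v} (ultrafilter_isOpen_basic A) hA
    exact ⟨i, h1⟩
  · intro h
    rw [mem_closure_iff]
    intro o ho hu
    obtain ⟨v, hv, huv, hvo⟩ := ultrafilterBasis_is_basis.exists_subset_of_mem_open hu ho
    obtain ⟨B, rfl⟩ := hv
    obtain ⟨i, hi⟩ := h B huv
    exact ⟨w i, hvo hi, i, rfl⟩

lemma mem_grp {X : Type*} [MetricSpace X] {γ : Ultrafilter (X × X)} :
    γ ∈ grp X ↔ ∃ R : ℝ, ent X R ∈ γ := by
  unfold grp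
  rw [Set.mem_iUnion]
  simp only [mem_clo]

/-- the limit along the blocks `(n, m)`, `n → ∞`, of the point `q` -/
noncomputable def om (m : ℕ) (q : QQ m) : Ultrafilter PX :=
  (hyperfilter ℕ).map fun n => (⟨(n, m), q⟩ : PX)

/-- the limit of pairs of points -/
noncomputable def ga (m : ℕ) (q q' : QQ m) : Ultrafilter (PX × PX) :=
  (hyperfilter ℕ).map fun n => ((⟨(n, m), q⟩ : PX), (⟨(n, m), q'⟩ : PX))

/-- the closed set -/
def FF : Set (Ultrafilter PX) := closure (Set.range fun z : Σ m, QQ m => om z.1 z.2)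

lemma om_mem (m : ℕ) (q : QQ m) : om m q ∈ FF := subset_closure ⟨⟨m, q⟩, rfl⟩

lemma mem_om {m : ℕ} {q : QQ m} {A : Set PX} :
    A ∈ om m q ↔ ∀ᶠ n in (hyperfilter ℕ : Filter ℕ), (⟨(n, m), q⟩ : PX) ∈ A := Iff.rfl

lemma mem_ga {m : ℕ} {q q' : QQ m} {A : Set (PX × PX)} :
    A ∈ ga m q q' ↔ ∀ᶠ n in (hyperfilter ℕ : Filter ℕ),
      ((⟨(n, m), q⟩ : PX), (⟨(n, m), q'⟩ : PX)) ∈ A := Iff.rfl

lemma rg_ga (m : ℕ) (q q' : QQ m) : rg (ga m q q') = om m q := by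
  unfold rg ga om
  rw [Ultrafilter.map_map]
  rfl

lemma sc_ga (m : ℕ) (q q' : QQ m) : sc (ga m q q') = om m q' := by
  unfold sc ga om
  rw [Ultrafilter.map_map]
  rfl

lemma eventually_gt (k : ℕ) : ∀ᶠ n in (hyperfilter ℕ : Filter ℕ), k < n := by
  have h : ∀ᶠ n in (cofinite : Filter ℕ), k < n := by
    rw [Nat.cofinite_eq_atTop]
    exact eventually_gt_atTop k
  exact hyperfilter_le_cofinite h

lemma om_inj {m : ℕ} {q q' : QQ m} (h : om m q = om m q') : q = q' := by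
  by_contra hne
  have h1 : {x : PX | ∃ n, x = ⟨(n, m), q⟩} ∈ om m q := by
    rw [mem_om]
    exact Eventually.of_forall fun n => ⟨n, rfl⟩
  rw [h, mem_om] at h1
  obtain ⟨n, k, hk⟩ := h1.exists
  apply hne
  simp only [PX.mk.injEq, Prod.mk.injEq, and_true] at hk
  obtain ⟨h2, h3⟩ := hk
  exact (eq_of_heq h3).symm

lemma ent_mem_ga (m : ℕ) (q q' : QQ m) (R : ℝ) (h : (len m (q⁻¹ * q') : ℝ) ≤ R) :
    ent PX R ∈ ga m q q' := by
  rw [mem_ga]
  refine Eventually.of_forall fun n => ?_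
  change dist _ _ ≤ R
  rw [dist_def, dN_same]
  exact h

lemma ga_mem (m : ℕ) (q q' : QQ m) : ga m q q' ∈ arr FF := by
  refine ⟨mem_grp.mpr ⟨_, ent_mem_ga m q q' _ le_rfl⟩, ?_, ?_⟩
  · rw [rg_ga]
    exact om_mem m q
  · rw [sc_ga]
    exact om_mem m q'

/-- the arrows with range `om m q` -/
lemma fiber {m : ℕ} {q : QQ m} {β : Ultrafilter (PX × PX)} (h : β ∈ grp PX) (hr : rg β = om m q) :
    ∃ q', β = ga m q q' := by
  obtain ⟨R, hR⟩ := mem_grp.mp h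
  have h1 : {x : PX | ∃ n : ℕ, R < n ∧ x = ⟨(n, m), q⟩} ∈ rg β := by
    rw [hr, mem_om]
    filter_upwards [eventually_gt ⌈R⌉₊] with n hn
    exact ⟨n, lt_of_le_of_lt (Nat.le_ceil R) (by exact_mod_cast hn), rfl⟩
  have h2 : {p : PX × PX | ∃ n : ℕ, R < n ∧ p.1 = ⟨(n, m), q⟩} ∈ β := h1
  have h3 : (⋃ q' ∈ (Set.univ : Set (QQ m)), {p : PX × PX | ∃ n : ℕ, p = (⟨(n, m), q⟩, ⟨(n, m), q'⟩)})
      ∈ β := by
    filter_upwards [h2, hR] with p hp hp2
    obtain ⟨n, hn, hpn⟩ := hp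
    obtain ⟨x, y⟩ := p
    dsimp only at hpn
    subst hpn
    change dist _ _ ≤ R at hp2
    rw [dist_def] at hp2
    dsimp only at hp2
    have hb : (⟨(n, m), q⟩ : PX).p = y.p := by
      apply same_block
      have : (dN ⟨(n, m), q⟩ y : ℝ) < n := lt_of_le_of_lt hp2 hn
      exact_mod_cast this
    obtain ⟨p', q'⟩ := y
    dsimp only at hb
    subst hb
    simp only [Set.mem_univ, Set.iUnion_true, Set.mem_iUnion]
    exact ⟨q', n, rfl⟩
  rw [Ultrafilter.finite_biUnion_mem_iff Set.finite_univ] at h3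
  obtain ⟨q', -, hq'⟩ := h3
  refine ⟨q', ?_⟩
  -- the index
  have e1 : (rg β).map (fun x : PX => x.p.1) = hyperfilter ℕ := by
    rw [hr]
    unfold om
    rw [Ultrafilter.map_map]
    exact Ultrafilter.map_id _
  apply Ultrafilter.eq_of_le
  intro A hA
  have hA2 : {n : ℕ | ((⟨(n, m), q⟩ : PX), (⟨(n, m), q'⟩ : PX)) ∈ A} ∈
      (rg β).map (fun x : PX => x.p.1) := by
    rw [e1]
    exact hA
  have hA3 : {p : PX × PX | ((⟨(p.1.p.1, m), q⟩ : PX), (⟨(p.1.p.1, m), q'⟩ : PX)) ∈ A} ∈ β := hA2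
  filter_upwards [hA3, hq'] with p hp hp2
  obtain ⟨n, rfl⟩ := hp2
  exact hp

/-- the complement of the closed set is invariant -/
lemma invariant_compl : Invariant (FFᶜ : Set (Ultrafilter PX)) := by
  intro γ hγ hs hr
  apply hs
  change rg γ ∈ FF at hr
  obtain ⟨R, hR⟩ := mem_grp.mp hγ
  unfold FF at hr ⊢
  rw [mem_closure_range] at hr ⊢
  intro A hA
  have h1 : {x : PX | ∃ y ∈ A, dist x y ≤ R} ∈ rg γ := by
    have hA' : {p : PX × PX | p.2 ∈ A} ∈ γ := hA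
    change {p : PX × PX | ∃ y ∈ A, dist p.1 y ≤ R} ∈ γ
    filter_upwards [hA', hR] with p hp hp2
    exact ⟨p.2, hp, hp2⟩
  obtain ⟨⟨m, q⟩, hm⟩ := hr _ h1
  dsimp only at hm
  rw [mem_om] at hm
  have h2 : (⋃ q' ∈ (Set.univ : Set (QQ m)), {n : ℕ | (⟨(n, m), q'⟩ : PX) ∈ A}) ∈
      hyperfilter ℕ := by
    filter_upwards [hm, eventually_gt ⌈R⌉₊] with n hn hn2
    obtain ⟨y, hy, hd⟩ := hn
    rw [dist_def] at hd
    have hb : (⟨(n, m), q⟩ : PX).p = y.p := by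
      apply same_block
      have h4 : (dN ⟨(n, m), q⟩ y : ℝ) < n :=
        lt_of_le_of_lt (hd.trans (Nat.le_ceil R)) (by exact_mod_cast hn2)
      exact_mod_cast h4
    obtain ⟨p', q'⟩ := y
    dsimp only at hb
    subst hb
    simp only [Set.mem_univ, Set.iUnion_true, Set.mem_iUnion]
    exact ⟨q', hy⟩
  rw [Ultrafilter.finite_biUnion_mem_iff Set.finite_univ] at h2
  obtain ⟨q', -, hq'⟩ := h2
  exact ⟨⟨m, q'⟩, hq'⟩

lemma isOpen_compl : IsOpen (FFᶜ : Set (Ultrafilter PX)) := isClosed_closure.isOpen_compl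

lemma nonempty_compl : (FFᶜ : Set (Ultrafilter PX)).Nonempty := by
  refine ⟨pure ⟨(0, 0), 1⟩, ?_⟩
  intro h
  change _ ∈ FF at h
  unfold FF at h
  rw [mem_closure_range] at h
  obtain ⟨⟨m, q⟩, hm⟩ := h {⟨(0, 0), 1⟩} rfl
  dsimp only at hm
  rw [mem_om] at hm
  obtain ⟨n, hn, hn2⟩ := (hm.and (eventually_gt 0)).exists
  have : (⟨(n, m), q⟩ : PX) = ⟨(0, 0), 1⟩ := hn
  have h3 := congrArg (fun x : PX => x.p.1) this
  dsimp only at h3
  omega

end Pool.Agent.R302.Roe
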