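import Pool.Agent.R302.RoeB

/-!
# Operators
-/

namespace Pool.Agent.R302.Roe

open Filter Topology

section general

variable {X : Type*}

lemma two_toReal : (2 : ENNReal).toReal = 2 := by norm_num

lemma nsq (v : HH X) : ‖v‖ ^ 2 = ∑' x, ‖v x‖ ^ 2 := by
  have h := lp.norm_rpow_eq_tsum (p := 2) (by norm_num) v
  rw [two_toReal] at h
  simpa using h

lemma ssq (v : HH X) : Summable fun x => ‖v x‖ ^ 2 := by
  have h := (memℓp_gen_iff (p := 2) (by norm_num)).mp (lp.memℓp v)
  rw [two_toReal] at h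
  simpa using h

/-- restriction of a vector to a subset -/
noncomputable def prj (A : Set X) : HH X →L[ℂ] HH X :=
  LinearMap.mkContinuous
    { toFun := fun v => ⟨fun x => open Classical in if x ∈ A then v x else 0,
        (memℓp_gen_iff (p := 2) (by norm_num)).mpr (by
          have h := ssq v
          rw [two_toReal]
          simp only [Real.rpow_two]
          refine Summable.of_nonneg_of_le (fun x => by positivity) (fun x => ?_) h
          split_ifs
          · exact le_rfl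
          · simp)⟩
      map_add' := fun v w => by
        ext x
        simp only [lp.coeFn_add, Pi.add_apply]
        split_ifs <;> simp
      map_smul' := fun c v => by
        ext x
        simp only [lp.coeFn_smul, Pi.smul_apply, RingHom.id_apply]
        split_ifs <;> simp } 1
    (fun v => by
      rw [one_mul]
      refine lp.norm_mono (by norm_num) fun x => ?_
      simp only [LinearMap.coe_mk, AddHom.coe_mk]
      split_ifs
      · exact le_rfl
      · simp)

lemma prj_apply (A : Set X) (v : HH X) (x : X) :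
    prj A v x = open Classical in if x ∈ A then v x else 0 := rfl

lemma prj_mem {A : Set X} (v : HH X) {x : X} (h : x ∈ A) : prj A v x = v x := by
  rw [prj_apply, if_pos h]

lemma prj_notMem {A : Set X} (v : HH X) {x : X} (h : x ∉ A) : prj A v x = 0 := by
  rw [prj_apply, if_neg h]

lemma norm_prj_le (A : Set X) (v : HH X) : ‖prj A v‖ ≤ ‖v‖ := by
  have := (prj A).le_of_opNorm_le (LinearMap.mkContinuous_norm_le _ zero_le_one _) v
  rwa [one_mul] at this

lemma prj_compl (A : Set X) (v : HH X) : v - prj Aᶜ v = prj A v := by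
  ext x
  rw [lp.coeFn_sub, Pi.sub_apply, prj_apply, prj_apply]
  by_cases h : x ∈ A <;> simp [h]

lemma entry_apply (T : HH X →L[ℂ] HH X) (x y : X) :
    entry T x y = (open Classical in T (lp.single 2 y (1 : ℂ)) x) := rfl

lemma norm_entry_le (T : HH X →L[ℂ] HH X) (x y : X) : ‖entry T x y‖ ≤ ‖T‖ := by
  classical
  rw [entry_apply]
  refine (lp.norm_apply_le_norm (by norm_num) _ x).trans ?_
  refine (T.le_opNorm _).trans ?_
  rw [lp.norm_single (by norm_num)]
  simp

lemma entry_sub (T S : HH X →L[ℂ] HH X) (x y : X) :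
    entry (T - S) x y = entry T x y - entry S x y := by
  rw [entry_apply, entry_apply, entry_apply]
  simp

lemma entry_prj (A : Set X) (S : HH X →L[ℂ] HH X) (x y : X) :
    entry ((prj A).comp S) x y = open Classical in if x ∈ A then entry S x y else 0 := rfl

lemma hasSum_entry (T : HH X →L[ℂ] HH X) (v : HH X) (x : X) :
    HasSum (fun y => v y * entry T x y) (T v x) := by
  classical
  have h := lp.hasSum_single (p := 2) (by norm_num) v
  have h2 := (h.mapL T).mapL (lp.evalCLM ℂ (fun _ : X => ℂ) 2 x)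
  have e : (fun y => v y * entry T x y) =
      fun y => (lp.evalCLM ℂ (fun _ : X => ℂ) 2 x) (T (lp.single 2 y (v y))) := by
    funext y
    rw [entry_apply]
    have e : lp.single (E := fun _ : X => ℂ) 2 y (v y) =
        v y • lp.single (E := fun _ : X => ℂ) 2 y (1 : ℂ) := by
      rw [← lp.single_smul]
      simp
    rw [e, map_smul, map_smul]
    rfl
  rw [e]
  exact h2

/-- the ideal `I(U)` lies in `Ĩ(U)` -/
lemma geom_subset [MetricSpace X] (U : Set (Ultrafilter X)) : geom U ⊆ ghostly U := by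
  intro T hT
  refine ⟨closure_mono (fun S hS => hS.1) hT, fun ε hε => ?_⟩
  obtain ⟨S, hS, hd⟩ := Metric.mem_closure_iff.mp hT ε hε
  refine subset_trans ?_ hS.2
  refine closure_mono (Set.image_mono ?_)
  rintro x ⟨y, hy⟩
  refine ⟨y, fun h0 => ?_⟩
  have h1 := norm_entry_le (T - S) x y
  rw [entry_sub, h0, sub_zero, ← dist_eq_norm] at h1
  linarith

end general

/-- a block -/
def blk (p : ℕ × ℕ) : Set PX := {x | x.p = p}

lemma prj_blk (p : ℕ × ℕ) (u : HH PX) :
    prj (blk p) u = ∑ q : QQ p.2, (open Classical in lp.single (E := fun _ : PX => ℂ) 2 ⟨p, q⟩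
      (u ⟨p, q⟩)) := by
  classical
  ext x
  rw [lp.coeFn_sum, Finset.sum_apply]
  obtain ⟨p', q'⟩ := x
  by_cases h : p' = p
  · subst h
    rw [prj_mem u (show (⟨p', q'⟩ : PX) ∈ blk p' from rfl), Finset.sum_eq_single q']
    · rw [lp.single_apply_self]
    · intro b _ hb
      rw [lp.single_apply_ne]
      intro e
      apply hb
      simp only [PX.mk.injEq, heq_eq_eq, true_and] at e
      exact e.symm
    · intro h
      exact absurd (Finset.mem_univ _) h
  · rw [prj_notMem u (show (⟨p', q'⟩ : PX) ∉ blk p from h)]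
    refine (Finset.sum_eq_zero fun b _ => ?_).symm
    rw [lp.single_apply_ne]
    intro e
    apply h
    exact congrArg PX.p e

lemma norm_prj_blk_le (p : ℕ × ℕ) (u : HH PX) :
    ‖prj (blk p) u‖ ≤ ∑ q : QQ p.2, ‖u ⟨p, q⟩‖ := by
  classical
  rw [prj_blk]
  refine (norm_sum_le _ _).trans (Finset.sum_le_sum fun q _ => ?_)
  rw [lp.norm_single (by norm_num)]

lemma apply_blk (p : ℕ × ℕ) (u : HH PX) (q : QQ p.2) : prj (blk p) u ⟨p, q⟩ = u ⟨p, q⟩ :=
  prj_mem u (show (⟨p, q⟩ : PX) ∈ blk p from rfl)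

/-- small entries give small blocks -/
lemma blk_small (T : HH PX →L[ℂ] HH PX) (p : ℕ × ℕ) (η : ℝ)
    (h : ∀ q q' : QQ p.2, ‖entry T ⟨p, q⟩ ⟨p, q'⟩‖ ≤ η) (v : HH PX) :
    ‖prj (blk p) (T (prj (blk p) v))‖ ≤
      (Fintype.card (QQ p.2) : ℝ) * (Fintype.card (QQ p.2) * η) * ‖prj (blk p) v‖ := by
  classical
  set w := prj (blk p) v with hw
  refine (norm_prj_blk_le p _).trans ?_
  have key : ∀ q : QQ p.2, ‖T w ⟨p, q⟩‖ ≤ Fintype.card (QQ p.2) * η * ‖w‖ := by
    intro q
    have h1 := hasSum_entry T w ⟨p, q⟩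
    have h2 : ∀ y : PX, y ∉ Finset.univ.image (fun q' : QQ p.2 => (⟨p, q'⟩ : PX)) →
        w y * entry T ⟨p, q⟩ y = 0 := by
      intro y hy
      have hy2 : y ∉ blk p := by
        intro h3
        apply hy
        obtain ⟨p', q'⟩ := y
        change p' = p at h3
        subst h3
        exact Finset.mem_image_of_mem _ (Finset.mem_univ _)
      rw [hw, prj_apply, if_neg hy2, zero_mul]
    have h3 := h1.unique (hasSum_sum_of_ne_finset_zero h2)
    rw [h3, Finset.sum_image (by
      intro a _ b _ hab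
      simpa using hab)]
    refine (norm_sum_le _ _).trans ?_
    have h4 : ∀ q' ∈ (Finset.univ : Finset (QQ p.2)),
        ‖w ⟨p, q'⟩ * entry T ⟨p, q⟩ ⟨p, q'⟩‖ ≤ ‖w‖ * η := fun q' _ => by
      rw [norm_mul]
      exact mul_le_mul (lp.norm_apply_le_norm (by norm_num) _ _) (h q q') (norm_nonneg _)
        (norm_nonneg _)
    refine (Finset.sum_le_card_nsmul _ _ _ h4).trans (le_of_eq ?_)
    rw [Finset.card_univ, nsmul_eq_mul]
    ring
  refine (Finset.sum_le_card_nsmul _ _ _ fun q _ => key q).trans (le_of_eq ?_)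
  rw [Finset.card_univ, nsmul_eq_mul]
  ring

/-- in an isolated block, rows only see the block -/
lemma blk_local (S : HH PX →L[ℂ] HH PX) (R : ℝ) (hS : ∀ x y, entry S x y ≠ 0 → dist x y ≤ R)
    (p : ℕ × ℕ) (hp : R < p.1) (v : HH PX) :
    prj (blk p) (S v) = prj (blk p) (S (prj (blk p) v)) := by
  classical
  have h0 : prj (blk p) (S (v - prj (blk p) v)) = 0 := by
    ext x
    rw [prj_apply]
    split_ifs with hx
    · have h1 := hasSum_entry S (v - prj (blk p) v) x
      have h2 : (fun y => (v - prj (blk p) v) y * entry S x y) = fun _ => 0 := by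
        funext y
        by_cases hy : entry S x y = 0
        · rw [hy, mul_zero]
        · have hd := hS x y hy
          rw [dist_def] at hd
          have hb : x.p = y.p := by
            apply same_block
            have hx2 : x.p = p := hx
            rw [hx2]
            have : (dN x y : ℝ) < p.1 := lt_of_le_of_lt hd hp
            exact_mod_cast this
          have hy2 : y ∈ blk p := hb.symm.trans hx
          rw [lp.coeFn_sub, Pi.sub_apply, prj_apply, if_pos hy2, sub_self, zero_mul]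
      rw [h2] at h1
      exact h1.unique hasSum_zero
    · rfl
  rw [map_sub, map_sub, sub_eq_zero] at h0
  exact h0

lemma blk_est (T S : HH PX →L[ℂ] HH PX) (R δ : ℝ)
    (hS : ∀ x y, entry S x y ≠ 0 → dist x y ≤ R) (hTS : ‖S - T‖ ≤ δ) (p : ℕ × ℕ) (hp : R < p.1)
    (h : ∀ q q' : QQ p.2, ‖entry T ⟨p, q⟩ ⟨p, q'⟩‖ ≤
      δ / ((Fintype.card (QQ p.2) : ℝ) * Fintype.card (QQ p.2))) (v : HH PX) :
    ‖prj (blk p) (S v)‖ ≤ 2 * δ * ‖prj (blk p) v‖ := by
  rw [blk_local S R hS p hp v]
  have e : prj (blk p) (S (prj (blk p) v)) = prj (blk p) ((S - T) (prj (blk p) v)) +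
      prj (blk p) (T (prj (blk p) v)) := by
    rw [← map_add]
    congr 1
    simp
  rw [e]
  refine (norm_add_le _ _).trans ?_
  have h1 : ‖prj (blk p) ((S - T) (prj (blk p) v))‖ ≤ δ * ‖prj (blk p) v‖ :=
    (norm_prj_le _ _).trans ((S - T).le_of_opNorm_le hTS _)
  have h2 := blk_small T p _ h v
  have hc : (Fintype.card (QQ p.2) : ℝ) ≠ 0 := by
    have : 0 < Fintype.card (QQ p.2) := Fintype.card_pos
    positivity
  have e2 : (Fintype.card (QQ p.2) : ℝ) * (Fintype.card (QQ p.2) *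
      (δ / ((Fintype.card (QQ p.2) : ℝ) * Fintype.card (QQ p.2)))) = δ := by
    field_simp
  rw [e2] at h2
  linarith

lemma tsum_PX (f : PX → ℝ) (hf : Summable f) : ∑' x, f x = ∑' p : ℕ × ℕ, ∑ q : QQ p.2, f ⟨p, q⟩ := by
  rw [← sgm.tsum_eq f]
  have h2 : Summable fun z : Σ p : ℕ × ℕ, QQ p.2 => f (sgm z) := sgm.summable_iff.mpr hf
  rw [h2.tsum_sigma]
  exact tsum_congr fun p => tsum_fintype _

lemma summable_PX (f : PX → ℝ) (hf : Summable f) :
    Summable fun p : ℕ × ℕ => ∑ q : QQ p.2, f ⟨p, q⟩ := by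
  have h2 : Summable fun z : Σ p : ℕ × ℕ, QQ p.2 => f (sgm z) := sgm.summable_iff.mpr hf
  have h3 := h2.sigma
  refine h3.congr fun p => (tsum_fintype _)

lemma nsq_blk (p : ℕ × ℕ) (u : HH PX) : ‖prj (blk p) u‖ ^ 2 = ∑ q : QQ p.2, ‖u ⟨p, q⟩‖ ^ 2 := by
  classical
  rw [nsq, tsum_PX _ (ssq _), tsum_eq_single p]
  · exact Finset.sum_congr rfl fun q _ => by rw [apply_blk]
  · intro p' hp'
    refine Finset.sum_eq_zero fun q _ => ?_
    rw [prj_notMem u (show (⟨p', q⟩ : PX) ∉ blk p from hp')]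
    simp

/-- the norm estimate on the union of good blocks -/
lemma union_est (S : HH PX →L[ℂ] HH PX) (c : ℝ) (hc : 0 ≤ c) (G : Set (ℕ × ℕ))
    (h : ∀ p ∈ G, ∀ v, ‖prj (blk p) (S v)‖ ≤ c * ‖prj (blk p) v‖) :
    ‖(prj {x : PX | x.p ∈ G}).comp S‖ ≤ c := by
  classical
  refine ContinuousLinearMap.opNorm_le_bound _ hc fun v => ?_
  rw [ContinuousLinearMap.comp_apply]
  have hsq : ‖prj {x : PX | x.p ∈ G} (S v)‖ ^ 2 ≤ (c * ‖v‖) ^ 2 := by
    have e1 := tsum_PX (fun x => ‖prj {x : PX | x.p ∈ G} (S v) x‖ ^ 2) (ssq _)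
    have e2 := tsum_PX (fun x => ‖v x‖ ^ 2) (ssq v)
    have s1 := summable_PX (fun x => ‖prj {x : PX | x.p ∈ G} (S v) x‖ ^ 2) (ssq _)
    have s2 := (summable_PX (fun x => ‖v x‖ ^ 2) (ssq v)).mul_left (c ^ 2)
    rw [nsq, e1, mul_pow, nsq v, e2, ← tsum_mul_left]
    refine Summable.tsum_le_tsum (fun p => ?_) s1 s2
    by_cases hp : p ∈ G
    · have e : ∀ q : QQ p.2, prj {x : PX | x.p ∈ G} (S v) ⟨p, q⟩ = S v ⟨p, q⟩ := fun q => by
        exact prj_mem _ (show (⟨p, q⟩ : PX) ∈ {x : PX | x.p ∈ G} from hp)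
      simp only [e]
      rw [← nsq_blk, ← nsq_blk, ← mul_pow]
      exact pow_le_pow_left₀ (norm_nonneg _) (h p hp v) 2
    · have e : ∀ q : QQ p.2, prj {x : PX | x.p ∈ G} (S v) ⟨p, q⟩ = 0 := fun q => by
        exact prj_notMem _ (show (⟨p, q⟩ : PX) ∉ {x : PX | x.p ∈ G} from hp)
      simp only [e]
      rw [Finset.sum_eq_zero (fun _ _ => by simp)]
      positivity
  exact (pow_le_pow_iff_left₀ (norm_nonneg _) (by positivity) two_ne_zero).mp hsq

/-- the main point: every ghostly operator is geometric -/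
lemma ghostly_subset : ghostly (FFᶜ : Set (Ultrafilter PX)) ⊆ geom (FFᶜ : Set (Ultrafilter PX)) := by
  classical
  intro T hT
  obtain ⟨hT1, hT2⟩ := hT
  refine Metric.mem_closure_iff.mpr fun ε hε => ?_
  set δ := ε / 4 with hδ
  have hδ0 : 0 < δ := by positivity
  obtain ⟨S, ⟨R, hR⟩, hd⟩ := Metric.mem_closure_iff.mp hT1 δ hδ0
  set G : Set (ℕ × ℕ) := {p | R < p.1 ∧ ∀ q q' : QQ p.2, ‖entry T ⟨p, q⟩ ⟨p, q'⟩‖ ≤
      δ / ((Fintype.card (QQ p.2) : ℝ) * Fintype.card (QQ p.2))} with hG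
  have hGom : ∀ (m : ℕ) (q : QQ m), {x : PX | x.p ∈ G} ∈ om m q := by
    intro m q
    rw [mem_om]
    have hpos : 0 < δ / ((Fintype.card (QQ m) : ℝ) * Fintype.card (QQ m)) := by
      have : 0 < Fintype.card (QQ m) := Fintype.card_pos
      positivity
    have h1 : ∀ q1 : QQ m, ∀ᶠ n in (hyperfilter ℕ : Filter ℕ), ∀ y,
        ‖entry T ⟨(n, m), q1⟩ y‖ < δ / ((Fintype.card (QQ m) : ℝ) * Fintype.card (QQ m)) := by
      intro q1
      have h2 : om m q1 ∉ clo {x | ∃ y, δ / ((Fintype.card (QQ m) : ℝ) * Fintype.card (QQ m)) ≤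
          ‖entry T x y‖} := fun h3 => hT2 _ hpos h3 (om_mem m q1)
      rw [mem_clo, ← Ultrafilter.compl_mem_iff_notMem, mem_om] at h2
      filter_upwards [h2] with n hn y
      by_contra hlt
      exact hn ⟨y, not_lt.mp hlt⟩
    have h3 : ∀ᶠ n in (hyperfilter ℕ : Filter ℕ), ∀ q1 : QQ m, ∀ y,
        ‖entry T ⟨(n, m), q1⟩ y‖ < δ / ((Fintype.card (QQ m) : ℝ) * Fintype.card (QQ m)) :=
      eventually_all.mpr h1
    filter_upwards [h3, eventually_gt ⌈R⌉₊] with n hn hn2
    refine ⟨lt_of_le_of_lt (Nat.le_ceil R) (by exact_mod_cast hn2), fun q1 q2 => (hn q1 _).le⟩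
  have hTS : ‖S - T‖ ≤ δ := by
    rw [← dist_eq_norm, dist_comm]
    exact hd.le
  have hest : ‖(prj {x : PX | x.p ∈ G}).comp S‖ ≤ 2 * δ :=
    union_est S (2 * δ) (by positivity) G fun p hp v => blk_est T S R δ hR hTS p hp.1 hp.2 v
  refine ⟨(prj {x : PX | x.p ∈ G}ᶜ).comp S, ⟨⟨R, fun x y hxy => ?_⟩, ?_⟩, ?_⟩
  · rw [entry_prj] at hxy
    split_ifs at hxy with h
    · exact hR x y hxy
    · exact absurd rfl hxy
  · intro u hu huF
    rw [mem_clo] at hu
    have h1 : ({x : PX | x.p ∈ G}ᶜ : Set PX) ∈ u := by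
      refine mem_of_superset hu ?_
      rintro x ⟨y, hy⟩
      rw [entry_prj] at hy
      split_ifs at hy with h
      · exact h
      · exact absurd rfl hy
    change u ∈ FF at huF
    unfold FF at huF
    rw [mem_closure_range] at huF
    obtain ⟨⟨m, q⟩, hm⟩ := huF _ h1
    have h2 := hGom m q
    exact (Ultrafilter.compl_mem_iff_notMem.mp hm) h2
  · have e : T - (prj {x : PX | x.p ∈ G}ᶜ).comp S =
        (T - S) + (prj {x : PX | x.p ∈ G}).comp S := by
      ext1 v
      have := prj_compl {x : PX | x.p ∈ G} (S v)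
      simp only [sub_apply, add_apply,
        ContinuousLinearMap.comp_apply]
      rw [← this]
      abel
    rw [dist_eq_norm, e]
    refine lt_of_le_of_lt (norm_add_le _ _) ?_
    have : ‖T - S‖ < δ := by
      rw [← dist_eq_norm]
      exact hd
    linarith

end Pool.Agent.R302.Roe
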