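import Pool.Agent.R302.RoeB

/-!
# Non-amenability
-/

namespace Pool.Agent.R302.Roe

open Filter Topology

lemma continuous_map {X Y : Type*} (f : X → Y) :
    Continuous fun u : Ultrafilter X => u.map f := by
  rw [ultrafilterBasis_is_basis.continuous_iff]
  rintro _ ⟨A, rfl⟩
  exact ultrafilter_isOpen_basic (f ⁻¹' A)

/-- the arrows with a given range -/
noncomputable def fibEquiv (m : ℕ) (q : QQ m) : QQ m ≃ fib FF (om m q) :=
  Equiv.ofBijective (fun q' => ⟨ga m q q', ga_mem m q q', rg_ga m q q'⟩) (by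
    constructor
    · intro a b h
      have h2 := congrArg (fun z : fib FF (om m q) => sc z.1) h
      simp only [sc_ga] at h2
      exact om_inj h2
    · rintro ⟨β, hβ, hr⟩
      obtain ⟨q', hq'⟩ := fiber hβ.1 hr
      exact ⟨q', Subtype.ext hq'.symm⟩)

lemma tsum_fib (m : ℕ) (q : QQ m) (F : Ultrafilter (PX × PX) → ℝ) :
    ∑' β : fib FF (om m q), F β = ∑ q', F (ga m q q') := by
  rw [← (fibEquiv m q).tsum_eq, tsum_fintype]
  rfl

lemma ldiv_ga (m : ℕ) (q q1 q' : QQ m) : ldiv (ga m q q1) (ga m q q') = ga m q1 q' := by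
  have hex : ∃ ζ : Ultrafilter (PX × PX), ζ ∈ grp PX ∧ rg ζ = sc (ga m q q1) ∧
      sc ζ = sc (ga m q q') :=
    ⟨ga m q1 q', (ga_mem m q1 q').1, by rw [rg_ga, sc_ga], by rw [sc_ga, sc_ga]⟩
  have hs := Classical.epsilon_spec hex
  obtain ⟨h1, h2, h3⟩ := hs
  have e : ldiv (ga m q q1) (ga m q q') = @Classical.epsilon _ ⟨ga m q q1⟩
      (fun ζ : Ultrafilter (PX × PX) =>
      ζ ∈ grp PX ∧ rg ζ = sc (ga m q q1) ∧ sc ζ = sc (ga m q q')) := rfl
  rw [← e] at h1 h2 h3
  rw [sc_ga] at h2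
  obtain ⟨q'', hq''⟩ := fiber h1 h2
  rw [hq'', sc_ga, sc_ga] at h3
  rw [hq'', om_inj h3]

/-- the closed ball of the free group -/
noncomputable def ballF (m : ℕ) : Finset F2 := Finset.image (fun w : BB m => w.1)
  (@Finset.univ (BB m) (Fintype.ofFinite _))

lemma mem_ballF {m : ℕ} {w : F2} : w ∈ ballF m ↔ w.norm ≤ m := by
  unfold ballF
  simp

/-- averaging over a finite quotient contradicts non-amenability of the free group -/
lemma avg_false (S m : ℕ) (hm : S + 2 ≤ m) (G : QQ m → QQ m → ℝ) (h0 : ∀ q q', 0 ≤ G q q')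
    (h1 : ∀ q, |∑ q', G q q' - 1| < 1 / 10)
    (h2 : ∀ q q1, len m (q⁻¹ * q1) ≤ 1 → ∑ q', |G q1 q' - G q q'| < 1 / 10)
    (h3 : ∀ q q', G q q' ≠ 0 → len m (q⁻¹ * q') ≤ S) : False := by
  classical
  set c : ℝ := (Fintype.card (QQ m) : ℝ) with hc
  have hcpos : 0 < c := by
    have : 0 < Fintype.card (QQ m) := Fintype.card_pos
    rw [hc]
    exact_mod_cast this
  set A : F2 → ℝ := fun w => c⁻¹ * ∑ q, G q (q * qm m w) with hA
  set f : F2 → ℝ := fun w => if w.norm ≤ S then A w else 0 with hf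
  have hAz : ∀ w : F2, S < w.norm → w.norm ≤ m → A w = 0 := by
    intro w hw1 hw2
    rw [hA]
    dsimp only
    rw [Finset.sum_eq_zero, mul_zero]
    intro q _
    by_contra hne
    have h4 := h3 _ _ hne
    rw [inv_mul_cancel_left] at h4
    obtain ⟨w', hw', he⟩ := len_spec m (qm m w)
    have := qm_inj m (by omega) hw2 he
    subst this
    omega
  have hfA : ∀ w : F2, w.norm ≤ m → f w = A w := by
    intro w hw
    rw [hf]
    dsimp only
    split_ifs with h
    · rfl
    · exact (hAz w (not_le.mp h) hw).symm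
  have hf0 : ∀ w : F2, S < w.norm → f w = 0 := fun w hw => by
    rw [hf]
    dsimp only
    rw [if_neg (not_le.mpr hw)]
  have inj : ∀ (k : ℕ) (hk : k ≤ m) (q : QQ m), Set.InjOn (fun w : F2 => q * qm m w) (ballF k) := by
    intro k hk q a ha b hb hab
    have ha2 : a.norm ≤ k := mem_ballF.mp ha
    have hb2 : b.norm ≤ k := mem_ballF.mp hb
    exact qm_inj m (by omega) (by omega) (mul_left_cancel hab)
  -- total mass
  have tot : ∑' w, f w = c⁻¹ * ∑ q, ∑ q', G q q' := by
    rw [tsum_eq_sum (s := ballF m) (fun w hw => by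
      rw [mem_ballF, not_le] at hw
      exact hf0 w (by omega))]
    rw [Finset.sum_congr rfl (fun w hw => hfA w (mem_ballF.mp hw))]
    rw [hA, ← Finset.mul_sum, Finset.sum_comm]
    congr 1
    refine Finset.sum_congr rfl fun q _ => ?_
    rw [← Finset.sum_image (f := fun q' => G q q') (inj m le_rfl q)]
    refine Finset.sum_subset (Finset.subset_univ _) fun q' _ hq' => ?_
    by_contra hne
    apply hq'
    have h4 := h3 _ _ hne
    obtain ⟨w', hw', he⟩ := len_spec m (q⁻¹ * q')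
    refine Finset.mem_image.mpr ⟨w', mem_ballF.mpr (by omega), ?_⟩
    rw [he, mul_inv_cancel_left]
  have hcard : ∑ _q : QQ m, (1 : ℝ) = c := by
    rw [Finset.sum_const, Finset.card_univ, nsmul_eq_mul, mul_one]
  have hne : (Finset.univ : Finset (QQ m)).Nonempty := ⟨1, Finset.mem_univ _⟩
  refine paradox f ?_ ?_ ?_ ?_ ?_
  · intro w
    rw [hf]
    dsimp only
    split_ifs
    · exact mul_nonneg (by positivity) (Finset.sum_nonneg fun q _ => h0 _ _)
    · exact le_rfl
  · refine (ballF S).finite_toSet.subset fun w hw => ?_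
    rw [Finset.mem_coe, mem_ballF]
    by_contra h4
    exact hw (hf0 w (not_le.mp h4))
  · intro i
    set x : Fin 2 × Bool := (i, true) with hx
    set a : QQ m := qm m (lt x) with ha
    have hla : len m a ≤ 1 := (len_le m (lt x)).trans (by
      unfold lt
      exact FreeGroup.norm_mk_le)
    have hz : ∀ v : F2, v ∉ ballF (S + 1) → |f (lt x * v) - f v| = 0 := by
      intro v hv
      rw [mem_ballF, not_le] at hv
      have h4 : v.norm ≤ (lt x * v).norm + 1 := by
        have h5 := FreeGroup.norm_mul_le (lt x)⁻¹ (lt x * v)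
        rw [inv_mul_cancel_left, FreeGroup.norm_inv_eq] at h5
        have h6 : (lt x).norm ≤ 1 := by
          unfold lt
          exact FreeGroup.norm_mk_le
        omega
      rw [hf0 v (by omega), hf0 (lt x * v) (by omega), sub_zero, abs_zero]
    rw [tsum_eq_sum (s := ballF (S + 1)) hz]
    have hterm : ∀ v ∈ ballF (S + 1), |f (lt x * v) - f v| ≤
        c⁻¹ * ∑ q, |G (q * a⁻¹) (q * qm m v) - G q (q * qm m v)| := by
      intro v hv
      have hv2 := mem_ballF.mp hv
      have hv3 := norm_lt_mul_le x v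
      rw [hfA v (by omega), hfA (lt x * v) (by omega), hA]
      dsimp only
      have e : ∑ q, G q (q * qm m (lt x * v)) = ∑ q, G (q * a⁻¹) (q * qm m v) := by
        rw [← Equiv.sum_comp (Equiv.mulRight a⁻¹) (fun q => G q (q * qm m (lt x * v)))]
        refine Finset.sum_congr rfl fun q _ => ?_
        rw [Equiv.coe_mulRight, map_mul, ← ha, mul_assoc, inv_mul_cancel_left]
      rw [e, ← mul_sub, ← Finset.sum_sub_distrib, abs_mul, abs_of_pos (inv_pos.mpr hcpos)]
      exact mul_le_mul_of_nonneg_left (Finset.abs_sum_le_sum_abs _ _) (inv_pos.mpr hcpos).le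
    refine lt_of_le_of_lt (Finset.sum_le_sum hterm) ?_
    rw [← Finset.mul_sum, Finset.sum_comm]
    have hq : ∀ q : QQ m, ∑ v ∈ ballF (S + 1), |G (q * a⁻¹) (q * qm m v) - G q (q * qm m v)| <
        1 / 10 := by
      intro q
      rw [← Finset.sum_image (f := fun q' => |G (q * a⁻¹) q' - G q q'|)
        (inj (S + 1) (by omega) q)]
      refine lt_of_le_of_lt (Finset.sum_le_sum_of_subset_of_nonneg (Finset.subset_univ _)
        (fun _ _ _ => abs_nonneg _)) (h2 q (q * a⁻¹) ?_)
      rw [inv_mul_cancel_left, len_inv]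
      exact hla
    have h5 : ∑ q : QQ m, ∑ v ∈ ballF (S + 1), |G (q * a⁻¹) (q * qm m v) - G q (q * qm m v)| <
        ∑ _q : QQ m, (1 / 10 : ℝ) := Finset.sum_lt_sum_of_nonempty hne fun q _ => hq q
    have h6 : ∑ _q : QQ m, (1 / 10 : ℝ) = c * (1 / 10) := by
      rw [Finset.sum_const, Finset.card_univ, nsmul_eq_mul]
    rw [h6] at h5
    calc c⁻¹ * _ < c⁻¹ * (c * (1 / 10)) := mul_lt_mul_of_pos_left h5 (inv_pos.mpr hcpos)
      _ = 1 / 10 := by field_simp
  · rw [tot]
    have h5 : ∑ _q : QQ m, (9 / 10 : ℝ) < ∑ q, ∑ q', G q q' :=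
      Finset.sum_lt_sum_of_nonempty hne fun q _ => by
        have := (abs_lt.mp (h1 q)).1
        linarith
    have h6 : ∑ _q : QQ m, (9 / 10 : ℝ) = c * (9 / 10) := by
      rw [Finset.sum_const, Finset.card_univ, nsmul_eq_mul]
    rw [h6] at h5
    calc (9 / 10 : ℝ) = c⁻¹ * (c * (9 / 10)) := by field_simp
      _ < _ := mul_lt_mul_of_pos_left h5 (inv_pos.mpr hcpos)
  · rw [tot]
    have h5 : ∑ q, ∑ q', G q q' < ∑ _q : QQ m, (11 / 10 : ℝ) :=
      Finset.sum_lt_sum_of_nonempty hne fun q _ => by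
        have := (abs_lt.mp (h1 q)).2
        linarith
    have h6 : ∑ _q : QQ m, (11 / 10 : ℝ) = c * (11 / 10) := by
      rw [Finset.sum_const, Finset.card_univ, nsmul_eq_mul]
    rw [h6] at h5
    calc _ < c⁻¹ * (c * (11 / 10)) := mul_lt_mul_of_pos_left h5 (inv_pos.mpr hcpos)
      _ = 11 / 10 := by field_simp

theorem not_amenable : ¬ TopAmenable (FF : Set (Ultrafilter PX)) := by
  intro h
  set K : Set (Ultrafilter (PX × PX)) := {γ | ent PX 1 ∈ γ ∧ rg γ ∈ FF ∧ sc γ ∈ FF} with hK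
  have hKc : IsCompact K := by
    apply IsClosed.isCompact
    refine (ultrafilter_isClosed_basic (ent PX 1)).inter (IsClosed.inter ?_ ?_)
    · exact (isClosed_closure (s := Set.range fun z : Σ m, QQ m => om z.1 z.2)).preimage
        (continuous_map Prod.fst)
    · exact (isClosed_closure (s := Set.range fun z : Σ m, QQ m => om z.1 z.2)).preimage
        (continuous_map Prod.snd)
  have hKa : K ⊆ arr FF := fun γ hγ => ⟨mem_grp.mpr ⟨1, hγ.1⟩, hγ.2⟩
  obtain ⟨g, hg0, -, ⟨C, hC, hCa, hCz⟩, hs, hd⟩ := h K hKc hKa (1 / 10) (by norm_num)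
  obtain ⟨S, hS⟩ := hC.elim_directed_cover (fun n : ℕ => {γ | ent PX (n : ℝ) ∈ γ})
    (fun n => ultrafilter_isOpen_basic _) (by
      intro γ hγ
      obtain ⟨R, hR⟩ := mem_grp.mp (hCa hγ).1
      refine Set.mem_iUnion.mpr ⟨⌈R⌉₊, mem_of_superset hR fun p hp => ?_⟩
      exact le_trans (show dist p.1 p.2 ≤ R from hp) (Nat.le_ceil R)) (by
      refine Monotone.directed_le fun a b hab γ hγ => mem_of_superset hγ fun p hp => ?_
      exact le_trans (show dist p.1 p.2 ≤ a from hp) (by exact_mod_cast hab))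
  have hmemK : ∀ q q1 : QQ (S + 2), len (S + 2) (q⁻¹ * q1) ≤ 1 → ga (S + 2) q q1 ∈ K := by
    intro q q1 hq
    refine ⟨ent_mem_ga _ _ _ _ (by exact_mod_cast hq), ?_, ?_⟩
    · rw [rg_ga]
      exact om_mem _ _
    · rw [sc_ga]
      exact om_mem _ _
  refine avg_false S (S + 2) le_rfl (fun q q' => g (ga (S + 2) q q'))
    (fun q q' => hg0 _ (ga_mem _ _ _)) (fun q => ?_) (fun q q1 hq => ?_) (fun q q' hne => ?_)
  · have h1 := hs (ga (S + 2) q q) (hmemK q q (by rw [inv_mul_cancel, len_one]; omega))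
    rw [rg_ga, tsum_fib (S + 2) q g] at h1
    exact h1
  · have h1 := hd (ga (S + 2) q q1) (hmemK q q1 hq)
    rw [rg_ga, tsum_fib (S + 2) q (fun β => |g (ldiv (ga (S + 2) q q1) β) - g β|)] at h1
    simp only [ldiv_ga] at h1
    exact h1
  · have h1 : ga (S + 2) q q' ∈ C := by
      by_contra h2
      exact hne (hCz _ (ga_mem _ _ _) h2)
    have h2 : ent PX (S : ℝ) ∈ ga (S + 2) q q' := hS h1
    rw [mem_ga] at h2
    obtain ⟨n, hn⟩ := h2.exists
    change dist _ _ ≤ (S : ℝ) at hn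
    rw [dist_def, dN_same] at hn
    exact_mod_cast hn

end Pool.Agent.R302.Roe
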