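import Mathlib

/-!
# Uniform Roe algebras, geometric and ghostly ideals, and the coarse groupoid

The Stone-Cech compactification of a discrete set `X` is `Ultrafilter X`.
-/

namespace Pool.Agent.R302.Roe

open Filter

universe u

variable {X : Type u}

/-- The closure in `βX` of a subset `A` of `X`. -/
def clo (A : Set X) : Set (Ultrafilter X) := closure ((pure : X → Ultrafilter X) '' A)

/-- The range map `β(X × X) → βX`, the extension of the first coordinate projection. -/
def rg (γ : Ultrafilter (X × X)) : Ultrafilter X := γ.map Prod.fst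

/-- The source map `β(X × X) → βX`, the extension of the second coordinate projection. -/
def sc (γ : Ultrafilter (X × X)) : Ultrafilter X := γ.map Prod.snd

variable (X) [MetricSpace X]

/-- Bounded geometry: for every `R` the balls of radius `R` have uniformly bounded cardinality. -/
def BoundedGeometry : Prop :=
  ∀ R : ℝ, ∃ N : ℕ, ∀ x : X, (Metric.closedBall x R).encard ≤ N

/-- The set of all values of the distance is a closed and discrete subset of the real line. -/
def StronglyDiscrete : Prop :=
  IsClosed (Set.range fun p : X × X => dist p.1 p.2) ∧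
    DiscreteTopology (Set.range fun p : X × X => dist p.1 p.2)

/-- `E_R`, the set of pairs at distance at most `R`. -/
def ent (R : ℝ) : Set (X × X) := {p | dist p.1 p.2 ≤ R}

/-- The coarse groupoid `G(X)`, the union over `R` of the closures of `E_R` in `β(X × X)`. -/
def grp : Set (Ultrafilter (X × X)) := ⋃ R : ℝ, clo (ent X R)

variable {X}

/-- A subset of `βX` is invariant if each arrow of `G(X)` with source in it has its range in it. -/
def Invariant (U : Set (Ultrafilter X)) : Prop := ∀ γ ∈ grp X, sc γ ∈ U → rg γ ∈ U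

/-- The arrows of the restriction of `G(X)` to a set `F` of units. -/
def arr (F : Set (Ultrafilter X)) : Set (Ultrafilter (X × X)) :=
  {γ | γ ∈ grp X ∧ rg γ ∈ F ∧ sc γ ∈ F}

/-- The arrows of `G(X)_F` with range `x`. -/
def fib (F : Set (Ultrafilter X)) (x : Ultrafilter X) : Set (Ultrafilter (X × X)) :=
  {β | β ∈ arr F ∧ rg β = x}

/-- For arrows `γ`, `β` of `G(X)` with the same range, the arrow `γ⁻¹ β`: it is the arrow of
`G(X)` with range the source of `γ` and source the source of `β`. -/
noncomputable def ldiv (γ β : Ultrafilter (X × X)) : Ultrafilter (X × X) :=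
  @Classical.epsilon _ ⟨γ⟩ fun ζ => ζ ∈ grp X ∧ rg ζ = sc γ ∧ sc ζ = sc β

/-- Topological amenability of the restriction `G(X)_F`: for every compact set `K` of arrows and
every `ε > 0` there is a nonnegative continuous compactly supported function `g` on `G(X)_F` with
`|∑_{β : r(β) = r(γ)} g(β) - 1| < ε` and `∑_{β : r(β) = r(γ)} |g(γ⁻¹ β) - g(β)| < ε`
for all `γ` in `K`. -/
def TopAmenable (F : Set (Ultrafilter X)) : Prop :=
  ∀ K : Set (Ultrafilter (X × X)), IsCompact K → K ⊆ arr F → ∀ ε : ℝ, 0 < ε →
    ∃ g : Ultrafilter (X × X) → ℝ, (∀ γ ∈ arr F, 0 ≤ g γ) ∧ ContinuousOn g (arr F) ∧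
      (∃ C : Set (Ultrafilter (X × X)), IsCompact C ∧ C ⊆ arr F ∧ ∀ γ ∈ arr F, γ ∉ C → g γ = 0) ∧
      (∀ γ ∈ K, |(∑' β : fib F (rg γ), g β) - 1| < ε) ∧
      (∀ γ ∈ K, (∑' β : fib F (rg γ), |g (ldiv γ β) - g β|) < ε)

/-- The Hilbert space `l²(X)`. -/
noncomputable abbrev HH (X : Type u) : Type u := lp (fun _ : X => ℂ) 2

/-- The bounded operators on `l²(X)`. -/
abbrev Op (X : Type u) : Type u := HH X →L[ℂ] HH X

omit [MetricSpace X] in
/-- The closure of a set of operators in the operator norm. -/
def nclo (S : Set (Op X)) : Set (Op X) := closure S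

omit [MetricSpace X] in
/-- The value at `x` of a vector of `l²(X)`. -/
def val (v : HH X) (x : X) : ℂ := v x

omit [MetricSpace X] in
/-- The basis vector `δ_y` of `l²(X)`. -/
noncomputable def delta (y : X) : HH X := open Classical in lp.single 2 y (1 : ℂ)

omit [MetricSpace X] in
/-- The matrix coefficient `T(x, y)` of an operator on `l²(X)`. -/
noncomputable def entry (T : Op X) (x y : X) : ℂ := val (T (delta y)) x

variable (X) in
/-- The operators of finite propagation. -/
def finProp : Set (Op X) := {T | ∃ R : ℝ, ∀ x y, entry T x y ≠ 0 → dist x y ≤ R}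

variable (X) in
/-- The uniform Roe algebra. -/
def roe : Set (Op X) := nclo (finProp X)

/-- The geometric ideal `I(U)`. -/
def geom (U : Set (Ultrafilter X)) : Set (Op X) :=
  nclo {T | T ∈ finProp X ∧ clo {x | ∃ y, entry T x y ≠ 0} ⊆ U}

/-- The ghostly ideal `Ĩ(U)`. -/
def ghostly (U : Set (Ultrafilter X)) : Set (Op X) :=
  {T | T ∈ roe X ∧ ∀ ε : ℝ, 0 < ε → clo {x | ∃ y, ε ≤ ‖entry T x y‖} ⊆ U}

end Pool.Agent.R302.Roe
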