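import Pool.Agent.R302.SchattenDef

open Filter Topology

namespace Pool.Agent.R302.SchA

open Pool.Agent.R302.SchattenDef

universe u

variable {H : Type u} [NormedAddCommGroup H] [InnerProductSpace ℂ H]

theorem sv_bddBelow (T : H →L[ℂ] H) (n : ℕ) :
    BddBelow {c : ℝ | ∃ F : H →L[ℂ] H, (F : H →ₗ[ℂ] H).rank ≤ (n : Cardinal) ∧ c = ‖T - F‖} :=
  ⟨0, by rintro _ ⟨F, _, rfl⟩; exact norm_nonneg _⟩

theorem rank_zero_le (n : ℕ) : ((0 : H →L[ℂ] H) : H →ₗ[ℂ] H).rank ≤ (n : Cardinal) := by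
  rw [ContinuousLinearMap.toLinearMap_zero, LinearMap.rank_zero]
  exact zero_le

theorem sv_nonempty (T : H →L[ℂ] H) (n : ℕ) :
    {c : ℝ | ∃ F : H →L[ℂ] H, (F : H →ₗ[ℂ] H).rank ≤ (n : Cardinal) ∧ c = ‖T - F‖}.Nonempty :=
  ⟨_, 0, rank_zero_le n, rfl⟩

theorem sv_le {T F : H →L[ℂ] H} {n : ℕ} (hF : (F : H →ₗ[ℂ] H).rank ≤ (n : Cardinal)) :
    sv T n ≤ ‖T - F‖ := csInf_le (sv_bddBelow T n) ⟨F, hF, rfl⟩

theorem le_sv {T : H →L[ℂ] H} {n : ℕ} {c : ℝ}
    (h : ∀ F : H →L[ℂ] H, (F : H →ₗ[ℂ] H).rank ≤ (n : Cardinal) → c ≤ ‖T - F‖) : c ≤ sv T n :=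
  le_csInf (sv_nonempty T n) (by rintro _ ⟨F, hF, rfl⟩; exact h F hF)

theorem sv_nonneg (T : H →L[ℂ] H) (n : ℕ) : 0 ≤ sv T n := le_sv fun _ _ => norm_nonneg _

theorem exists_lt_sv (T : H →L[ℂ] H) (n : ℕ) {δ : ℝ} (hδ : 0 < δ) :
    ∃ F : H →L[ℂ] H, (F : H →ₗ[ℂ] H).rank ≤ (n : Cardinal) ∧ ‖T - F‖ < sv T n + δ := by
  obtain ⟨_, ⟨F, hF, rfl⟩, h⟩ := exists_lt_of_csInf_lt (sv_nonempty T n)
    (show sInf _ < sv T n + δ by
      have : sInf {c : ℝ | ∃ F : H →L[ℂ] H, (F : H →ₗ[ℂ] H).rank ≤ (n : Cardinal) ∧ c = ‖T - F‖}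
        = sv T n := rfl
      rw [this]; linarith)
  exact ⟨F, hF, h⟩

theorem sv_anti (T : H →L[ℂ] H) {m n : ℕ} (h : m ≤ n) : sv T n ≤ sv T m :=
  le_sv fun _ hF => sv_le (hF.trans (by exact_mod_cast h))

theorem sv_le_norm (T : H →L[ℂ] H) (n : ℕ) : sv T n ≤ ‖T‖ := by
  have := sv_le (T := T) (rank_zero_le n)
  simpa using this

theorem norm_le_sv_zero (T : H →L[ℂ] H) : ‖T‖ ≤ sv T 0 := by
  refine le_sv fun F hF => ?_
  have h1 : (F : H →ₗ[ℂ] H).rank = 0 := by
    apply le_antisymm _ zero_le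
    simpa using hF
  have h2 : (F : H →ₗ[ℂ] H) = 0 := by
    have h3 : LinearMap.range (F : H →ₗ[ℂ] H) = ⊥ :=
      (Submodule.rank_eq_zero (R := ℂ) (S := LinearMap.range (F : H →ₗ[ℂ] H))).1 h1
    exact LinearMap.range_eq_bot.1 h3
  have h4 : F = 0 := ContinuousLinearMap.coe_injective h2
  rw [h4, sub_zero]

theorem sv_eq_zero {T : H →L[ℂ] H} {n : ℕ} (h : (T : H →ₗ[ℂ] H).rank ≤ (n : Cardinal)) :
    sv T n = 0 :=
  le_antisymm (by simpa using sv_le (T := T) h) (sv_nonneg T n)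

/-! ## The square sum inequality -/

/-- the isometry given by an orthonormal family -/
noncomputable def isoL {n : ℕ} (v : Fin n → H) : EuclideanSpace ℂ (Fin n) →ₗ[ℂ] H where
  toFun x := ∑ i, x i • v i
  map_add' x y := by simp [add_smul, Finset.sum_add_distrib]
  map_smul' c x := by simp [Finset.smul_sum, mul_smul]

theorem norm_isoL {n : ℕ} {v : Fin n → H} (hv : Orthonormal ℂ v)
    (x : EuclideanSpace ℂ (Fin n)) : ‖isoL v x‖ = ‖x‖ := by
  have h1 : ‖isoL v x‖ ^ 2 = ‖x‖ ^ 2 := by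
    change ‖∑ i, x i • v i‖ ^ 2 = _
    rw [EuclideanSpace.norm_sq_eq]
    rw [← inner_self_eq_norm_sq (𝕜 := ℂ), hv.inner_sum]
    simp only [map_sum]
    refine Finset.sum_congr rfl fun i _ => ?_
    rw [← Complex.normSq_eq_norm_sq, Complex.normSq_apply]
    simp
  exact (sq_eq_sq₀ (norm_nonneg _) (norm_nonneg _)).1 h1

variable [CompleteSpace H]

theorem sum_sq_le {n : ℕ} (v : Fin n → H) (hv : Orthonormal ℂ v) (T : H →L[ℂ] H) :
    ∑ i, ‖T (v i)‖ ^ 2 ≤ ∑ j ∈ Finset.range n, sv T j ^ 2 := by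
  classical
  let E := EuclideanSpace ℂ (Fin n)
  let S : E →ₗ[ℂ] H := isoL v
  let B : E →L[ℂ] H := LinearMap.toContinuousLinearMap ((T : H →ₗ[ℂ] H).comp S)
  let G : E →L[ℂ] E := (ContinuousLinearMap.adjoint B).comp B
  have hG : (G : E →ₗ[ℂ] E).IsSymmetric := by
    intro x y
    change inner ℂ ((ContinuousLinearMap.adjoint B) (B x)) y
      = inner ℂ x ((ContinuousLinearMap.adjoint B) (B y))
    rw [ContinuousLinearMap.adjoint_inner_left, ContinuousLinearMap.adjoint_inner_right]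
  have hn : Module.finrank ℂ E = n := by simp [E]
  let μ := hG.eigenvalues hn
  let b := hG.eigenvectorBasis hn
  have hinner : ∀ x : E, inner ℂ x (G x) = ((‖B x‖ ^ 2 : ℝ) : ℂ) := by
    intro x
    change inner ℂ x ((ContinuousLinearMap.adjoint B) (B x)) = _
    rw [ContinuousLinearMap.adjoint_inner_right, inner_self_eq_norm_sq_to_K]
    simp
  have hbk : ∀ k, G (b k) = ((μ k : ℝ) : ℂ) • b k := fun k => hG.apply_eigenvectorBasis hn k
  have hBk : ∀ k, ‖B (b k)‖ ^ 2 = μ k := by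
    intro k
    have h1 := hinner (b k)
    rw [hbk k, inner_smul_right, inner_self_eq_norm_sq_to_K, b.orthonormal.1 k] at h1
    have h2 : ((μ k : ℝ) : ℂ) = ((‖B (b k)‖ ^ 2 : ℝ) : ℂ) := by
      rw [← h1]; simp
    exact (Complex.ofReal_injective h2).symm
  have hμ0 : ∀ k, 0 ≤ μ k := fun k => by rw [← hBk k]; positivity
  -- the trace
  have htr : ∑ i, ‖T (v i)‖ ^ 2 = ∑ k, μ k := by
    have h1 := LinearMap.trace_eq_sum_inner (G : E →ₗ[ℂ] E) b
    have h2 := LinearMap.trace_eq_sum_inner (G : E →ₗ[ℂ] E) (EuclideanSpace.basisFun (Fin n) ℂ)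
    rw [h1] at h2
    have h3 : ∀ i, B (EuclideanSpace.basisFun (Fin n) ℂ i) = T (v i) := by
      intro i
      change T (∑ j, (EuclideanSpace.basisFun (Fin n) ℂ i) j • v j) = T (v i)
      congr 1
      rw [Finset.sum_eq_single i]
      · simp
      · intro j _ hj
        simp [hj]
      · simp
    have h4 : (∑ k, ((μ k : ℝ) : ℂ)) = ∑ i, ((‖T (v i)‖ ^ 2 : ℝ) : ℂ) := by
      calc (∑ k, ((μ k : ℝ) : ℂ)) = ∑ k, inner ℂ (b k) ((G : E →ₗ[ℂ] E) (b k)) := by
            refine Finset.sum_congr rfl fun k _ => ?_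
            rw [← hBk k]
            exact (hinner (b k)).symm
        _ = _ := h2
        _ = _ := by
            refine Finset.sum_congr rfl fun i _ => ?_
            rw [← h3 i]
            exact hinner _
    have h5 : ((∑ k, μ k : ℝ) : ℂ) = ((∑ i, ‖T (v i)‖ ^ 2 : ℝ) : ℂ) := by
      push_cast
      push_cast at h4
      exact h4
    exact (Complex.ofReal_injective h5).symm
  rw [htr, Finset.sum_range]
  refine Finset.sum_le_sum fun j _ => ?_
  -- `μ j ≤ sv T j ^ 2`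
  have hkey : Real.sqrt (μ j) ≤ sv T j := by
    refine le_sv fun F hF => ?_
    -- a vector in the span of `b 0, ..., b j` killed by `F ∘ S`
    let L : (Fin (j.1 + 1) → ℂ) →ₗ[ℂ] E :=
      { toFun := fun c => ∑ k : Fin (j.1 + 1), c k • b ⟨k.1, by omega⟩
        map_add' := fun x y => by simp [add_smul, Finset.sum_add_distrib]
        map_smul' := fun c x => by simp [Finset.smul_sum, mul_smul] }
    have hfr : Module.Finite ℂ (LinearMap.range (F : H →ₗ[ℂ] H)) := by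
      rw [← Module.rank_lt_aleph0_iff]
      exact lt_of_le_of_lt hF (Cardinal.natCast_lt_aleph0)
    have hfr2 : Module.finrank ℂ (LinearMap.range (F : H →ₗ[ℂ] H)) ≤ j.1 := by
      have := hF
      rw [LinearMap.rank, ← Module.finrank_eq_rank] at this
      exact_mod_cast this
    let M : (Fin (j.1 + 1) → ℂ) →ₗ[ℂ] LinearMap.range (F : H →ₗ[ℂ] H) :=
      (F : H →ₗ[ℂ] H).rangeRestrict.comp (S.comp L)
    have hker : LinearMap.ker M ≠ ⊥ := by
      apply LinearMap.ker_ne_bot_of_finrank_lt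
      rw [Module.finrank_fin_fun]
      omega
    obtain ⟨c, hc, hc0⟩ := (Submodule.ne_bot_iff _).1 hker
    have hFS : F (S (L c)) = 0 := by
      have h6 : M c = 0 := hc
      have h7 := congrArg Subtype.val h6
      exact h7
    have hbinj : Function.Injective (fun k : Fin (j.1 + 1) => (⟨k.1, by omega⟩ : Fin n)) := by
      intro k l h
      have := Fin.mk.inj h
      exact Fin.ext this
    have horth : Orthonormal ℂ (fun k : Fin (j.1 + 1) => b ⟨k.1, by omega⟩) :=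
      b.orthonormal.comp _ hbinj
    have hnormL : ‖L c‖ ^ 2 = ∑ k, ‖c k‖ ^ 2 := by
      change ‖∑ k : Fin (j.1 + 1), c k • b ⟨k.1, by omega⟩‖ ^ 2 = _
      rw [← inner_self_eq_norm_sq (𝕜 := ℂ), horth.inner_sum]
      simp only [map_sum]
      refine Finset.sum_congr rfl fun i _ => ?_
      rw [← Complex.normSq_eq_norm_sq, Complex.normSq_apply]
      simp
    have hBL : ‖B (L c)‖ ^ 2 = ∑ k : Fin (j.1 + 1), μ ⟨k.1, by omega⟩ * ‖c k‖ ^ 2 := by
      have h8 := hinner (L c)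
      have h9 : G (L c) = ∑ k : Fin (j.1 + 1), (((μ ⟨k.1, by omega⟩ : ℝ) : ℂ) * c k)
          • b ⟨k.1, by omega⟩ := by
        change G (∑ k : Fin (j.1 + 1), c k • b ⟨k.1, by omega⟩) = _
        rw [map_sum]
        refine Finset.sum_congr rfl fun k _ => ?_
        rw [map_smul, hbk, smul_smul, mul_comm]
      rw [h9] at h8
      change inner ℂ (∑ k : Fin (j.1 + 1), c k • b ⟨k.1, by omega⟩) _ = _ at h8
      rw [horth.inner_sum] at h8
      have h10 : (((∑ k : Fin (j.1 + 1), μ ⟨k.1, by omega⟩ * ‖c k‖ ^ 2 : ℝ)) : ℂ)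
          = ((‖B (L c)‖ ^ 2 : ℝ) : ℂ) := by
        rw [← h8]
        push_cast
        refine Finset.sum_congr rfl fun k _ => ?_
        rw [mul_left_comm, ← Complex.normSq_eq_conj_mul_self, Complex.normSq_eq_norm_sq]
        push_cast
        ring
      exact (Complex.ofReal_injective h10).symm
    have hpos : 0 < ‖L c‖ ^ 2 := by
      rw [hnormL]
      obtain ⟨k, hk⟩ := Function.ne_iff.1 hc0
      refine Finset.sum_pos' (fun _ _ => by positivity) ⟨k, Finset.mem_univ k, ?_⟩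
      have : 0 < ‖c k‖ := norm_pos_iff.2 hk
      positivity
    have hlow : μ j * ‖L c‖ ^ 2 ≤ ‖B (L c)‖ ^ 2 := by
      rw [hBL, hnormL, Finset.mul_sum]
      refine Finset.sum_le_sum fun k _ => ?_
      refine mul_le_mul_of_nonneg_right ?_ (by positivity)
      apply hG.eigenvalues_antitone hn
      rw [Fin.le_def]
      have := k.2
      simp only
      omega
    have hup : ‖B (L c)‖ ≤ ‖T - F‖ * ‖L c‖ := by
      have h11 : B (L c) = (T - F) (S (L c)) := by
        change T (S (L c)) = T (S (L c)) - F (S (L c))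
        rw [hFS, sub_zero]
      rw [h11]
      refine ((T - F).le_opNorm _).trans (le_of_eq ?_)
      congr 1
      exact norm_isoL hv _
    have h12 : μ j ≤ ‖T - F‖ ^ 2 := by
      have h13 : ‖B (L c)‖ ^ 2 ≤ ‖T - F‖ ^ 2 * ‖L c‖ ^ 2 := by
        rw [← mul_pow]
        exact pow_le_pow_left₀ (norm_nonneg _) hup 2
      exact le_of_mul_le_mul_right (hlow.trans h13) hpos
    rw [Real.sqrt_le_left (norm_nonneg _)]
    exact h12
  have := pow_le_pow_left₀ (Real.sqrt_nonneg _) hkey 2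
  rwa [Real.sq_sqrt (hμ0 j)] at this

end Pool.Agent.R302.SchA
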