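import Pool.Agent.R302.SchA

open Filter Topology

namespace Pool.Agent.R302.SchB

open Pool.Agent.R302.SchattenDef Pool.Agent.R302.SchA

universe u v

set_option linter.unusedSectionVars false

variable {H : Type u} [NormedAddCommGroup H] [InnerProductSpace ℂ H]

/-! ## Rank one operators -/

/-- the rank one operator `x ↦ ⟨v,x⟩ u` -/
noncomputable def rk (u v : H) : H →L[ℂ] H := (innerSL ℂ v).smulRight u

@[simp] theorem rk_apply (u v x : H) : rk u v x = (inner ℂ v x : ℂ) • u := rfl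

theorem norm_rk_le (u v : H) : ‖rk u v‖ ≤ ‖u‖ * ‖v‖ := by
  refine ContinuousLinearMap.opNorm_le_bound _ (by positivity) fun x => ?_
  rw [rk_apply, norm_smul]
  calc ‖inner ℂ v x‖ * ‖u‖ ≤ (‖v‖ * ‖x‖) * ‖u‖ := by gcongr; exact norm_inner_le_norm _ _
    _ = ‖u‖ * ‖v‖ * ‖x‖ := by ring

theorem rank_rk_le (u v : H) : (rk u v : H →ₗ[ℂ] H).rank ≤ ((1 : ℕ) : Cardinal) := by
  have h : LinearMap.range (rk u v : H →ₗ[ℂ] H) ≤ Submodule.span ℂ {u} := by
    rintro _ ⟨x, rfl⟩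
    exact Submodule.smul_mem _ _ (Submodule.mem_span_singleton_self u)
  refine (Submodule.rank_mono h).trans ?_
  have := rank_span_le (R := ℂ) ({u} : Set H)
  simpa using this

theorem rank_add_le' {F G : H →L[ℂ] H} {m n : ℕ} (hF : (F : H →ₗ[ℂ] H).rank ≤ (m : Cardinal))
    (hG : (G : H →ₗ[ℂ] H).rank ≤ (n : Cardinal)) :
    ((F + G : H →L[ℂ] H) : H →ₗ[ℂ] H).rank ≤ ((m + n : ℕ) : Cardinal) := by
  have h := LinearMap.rank_add_le (F : H →ₗ[ℂ] H) (G : H →ₗ[ℂ] H)
  rw [ContinuousLinearMap.toLinearMap_add]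
  refine h.trans ?_
  push_cast
  exact add_le_add hF hG

theorem rank_neg' (F : H →L[ℂ] H) :
    ((-F : H →L[ℂ] H) : H →ₗ[ℂ] H).rank = (F : H →ₗ[ℂ] H).rank := by
  have : LinearMap.range ((-F : H →L[ℂ] H) : H →ₗ[ℂ] H) = LinearMap.range (F : H →ₗ[ℂ] H) := by
    ext y
    constructor
    · rintro ⟨x, rfl⟩; exact ⟨-x, by simp⟩
    · rintro ⟨x, rfl⟩; exact ⟨-x, by simp⟩
  unfold LinearMap.rank
  rw [this]

theorem rank_sum_le {I : Type*} (S : Finset I) (F : I → H →L[ℂ] H)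
    (hF : ∀ i ∈ S, (F i : H →ₗ[ℂ] H).rank ≤ ((1 : ℕ) : Cardinal)) :
    ((∑ i ∈ S, F i : H →L[ℂ] H) : H →ₗ[ℂ] H).rank ≤ ((S.card : ℕ) : Cardinal) := by
  classical
  induction S using Finset.induction_on with
  | empty =>
    rw [Finset.sum_empty]
    exact rank_zero_le _
  | insert i S hi ih =>
    rw [Finset.sum_insert hi, Finset.card_insert_of_notMem hi, add_comm S.card 1]
    exact rank_add_le' (hF i (Finset.mem_insert_self _ _))
      (ih fun j hj => hF j (Finset.mem_insert_of_mem hj))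

theorem compact_of_rank {F : H →L[ℂ] H} {n : ℕ} (hF : (F : H →ₗ[ℂ] H).rank ≤ (n : Cardinal)) :
    IsCompactOperator F := by
  have hfr : FiniteDimensional ℂ (LinearMap.range (F : H →ₗ[ℂ] H)) := by
    have : Module.Finite ℂ (LinearMap.range (F : H →ₗ[ℂ] H)) := by
      rw [← Module.rank_lt_aleph0_iff]
      exact lt_of_le_of_lt hF Cardinal.natCast_lt_aleph0
    exact this
  have hprop : ProperSpace (LinearMap.range (F : H →ₗ[ℂ] H)) := FiniteDimensional.proper ℂ _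
  have hlc : LocallyCompactSpace (LinearMap.range (F : H →ₗ[ℂ] H)) := locallyCompact_of_proper
  have h1 : IsCompactOperator (F.codRestrict (LinearMap.range (F : H →ₗ[ℂ] H))
      (fun x => ⟨x, rfl⟩)) := isCompactOperator_of_locallyCompactSpace_dom _
  exact h1.clm_comp (LinearMap.range (F : H →ₗ[ℂ] H)).subtypeL

variable [CompleteSpace H]

theorem comp_rk (T : H →L[ℂ] H) (u v : H) : T.comp (rk u v) = rk (T u) v := by
  ext x
  simp

theorem rk_comp (T : H →L[ℂ] H) (u v : H) :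
    (rk u v).comp T = rk u (ContinuousLinearMap.adjoint T v) := by
  ext x
  simp [ContinuousLinearMap.adjoint_inner_left]

theorem rank_adjoint_le {F : H →L[ℂ] H} {n : ℕ} (hF : (F : H →ₗ[ℂ] H).rank ≤ (n : Cardinal)) :
    (ContinuousLinearMap.adjoint F : H →ₗ[ℂ] H).rank ≤ (n : Cardinal) := by
  have hfr : Module.Finite ℂ (LinearMap.range (F : H →ₗ[ℂ] H)) := by
    rw [← Module.rank_lt_aleph0_iff]
    exact lt_of_le_of_lt hF Cardinal.natCast_lt_aleph0
  set R := LinearMap.range (F : H →ₗ[ℂ] H) with hR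
  have h1 : ∀ x, ContinuousLinearMap.adjoint F x
      = ContinuousLinearMap.adjoint F (R.starProjection x) := by
    intro x
    refine ext_inner_right ℂ fun y => ?_
    rw [ContinuousLinearMap.adjoint_inner_left, ContinuousLinearMap.adjoint_inner_left,
      Submodule.inner_starProjection_left_eq_right]
    have hy : F y ∈ R := ⟨y, rfl⟩
    rw [Submodule.starProjection_eq_self_iff.2 hy]
  have h2 : LinearMap.range (ContinuousLinearMap.adjoint F : H →ₗ[ℂ] H)
      ≤ R.map (ContinuousLinearMap.adjoint F : H →ₗ[ℂ] H) := by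
    rintro _ ⟨x, rfl⟩
    refine ⟨R.starProjection x, Submodule.starProjection_apply_mem R x, ?_⟩
    exact (h1 x).symm
  exact (Submodule.rank_mono h2).trans ((rank_map_le _ _).trans hF)

theorem sv_adjoint_le (T : H →L[ℂ] H) (n : ℕ) :
    sv (ContinuousLinearMap.adjoint T) n ≤ sv T n := by
  refine le_sv fun F hF => ?_
  refine (sv_le (rank_adjoint_le hF)).trans (le_of_eq ?_)
  rw [← map_sub]
  exact LinearIsometryEquiv.norm_map _ _

/-! ## The Schatten class -/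

section Model

variable {p : ℝ} {A : Type v} [NonUnitalNormedRing A] [NormedSpace ℂ A]
  {ι : A →ₗ[ℂ] (H →L[ℂ] H)} (hA : IsSchattenClass p A ι) (hp : 1 ≤ p)

include hA hp

theorem summable_sv (a : A) : Summable fun n => sv (ι a) n ^ p := ((hA.range _).1 ⟨a, rfl⟩).2

theorem norm_rpow (a : A) : ‖a‖ ^ p = ∑' n, sv (ι a) n ^ p := by
  rw [hA.norm_eq, ← Real.rpow_mul (tsum_nonneg fun n => Real.rpow_nonneg (sv_nonneg _ _) _),
    one_div, inv_mul_cancel₀ (by linarith), Real.rpow_one]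

theorem sv_le_norm' (a : A) (n : ℕ) : sv (ι a) n ≤ ‖a‖ := by
  have h1 : sv (ι a) n ^ p ≤ ‖a‖ ^ p := by
    rw [norm_rpow hA hp]
    exact (summable_sv hA hp a).le_tsum n fun m _ => Real.rpow_nonneg (sv_nonneg _ _) _
  exact (Real.rpow_le_rpow_iff (sv_nonneg _ _) (norm_nonneg _) (by linarith)).1 h1

theorem norm_ι_le (a : A) : ‖ι a‖ ≤ ‖a‖ := (norm_le_sv_zero _).trans (sv_le_norm' hA hp a 0)

theorem sum_sv_rpow_le (a : A) (n : ℕ) : ∑ j ∈ Finset.range n, sv (ι a) j ^ p ≤ ‖a‖ ^ p := by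
  rw [norm_rpow hA hp]
  exact (summable_sv hA hp a).sum_le_tsum _ fun m _ => Real.rpow_nonneg (sv_nonneg _ _) _

theorem exists_of_rank {T : H →L[ℂ] H} {n : ℕ} (hT : (T : H →ₗ[ℂ] H).rank ≤ (n : Cardinal)) :
    ∃ a : A, ι a = T ∧ ‖a‖ ≤ (n : ℝ) ^ (1 / p) * ‖T‖ := by
  have hz : ∀ k ∉ Finset.range n, sv T k ^ p = 0 := by
    intro k hk
    rw [Finset.mem_range, not_lt] at hk
    rw [sv_eq_zero (hT.trans (by exact_mod_cast hk)), Real.zero_rpow (by linarith)]
  have hs : Summable fun k => sv T k ^ p := summable_of_ne_finset_zero hz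
  obtain ⟨a, rfl⟩ := (hA.range T).2 ⟨compact_of_rank hT, hs⟩
  refine ⟨a, rfl, ?_⟩
  rw [hA.norm_eq, tsum_eq_sum hz]
  have h1 : ∑ k ∈ Finset.range n, sv (ι a) k ^ p ≤ n * ‖ι a‖ ^ p := by
    refine (Finset.sum_le_sum fun k _ => Real.rpow_le_rpow (sv_nonneg _ _) (sv_le_norm _ k)
      (by linarith)).trans ?_
    simp
  calc _ ≤ ((n : ℝ) * ‖ι a‖ ^ p) ^ (1 / p) :=
        Real.rpow_le_rpow (Finset.sum_nonneg fun _ _ => Real.rpow_nonneg (sv_nonneg _ _) _) h1
          (by positivity)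
    _ = (n : ℝ) ^ (1 / p) * ‖ι a‖ := by
        rw [Real.mul_rpow (by positivity) (by positivity), ← Real.rpow_mul (norm_nonneg _),
          mul_one_div_cancel (by linarith), Real.rpow_one]

omit hA in
/-- the exponent `max 0 (1/2 - 1/p)` -/
theorem sum_sq_le_aux {s : ℕ → ℝ} {M : ℝ} (hs : ∀ j, 0 ≤ s j) (hM : 0 ≤ M) (hsM : ∀ j, s j ≤ M)
    {n : ℕ} (hsum : ∑ j ∈ Finset.range n, s j ^ p ≤ M ^ p) :
    ∑ j ∈ Finset.range n, s j ^ 2 ≤ ((n : ℝ) ^ (max 0 (1 / 2 - 1 / p)) * M) ^ 2 := by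
  have hp0 : 0 < p := by linarith
  rcases Nat.eq_zero_or_pos n with hn | hn
  · subst hn
    simp only [Finset.range_zero, Finset.sum_empty]
    positivity
  rcases le_total p 2 with h2 | h2
  · have hκ : max 0 (1 / 2 - 1 / p) = 0 := by
      apply max_eq_left
      have : 1 / 2 ≤ 1 / p := one_div_le_one_div_of_le hp0 h2
      linarith
    rw [hκ, Real.rpow_zero, one_mul]
    have hterm : ∀ j, s j ^ 2 ≤ s j ^ p * M ^ (2 - p) := by
      intro j
      rcases (hs j).eq_or_lt with h0 | h0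
      · rw [← h0]
        have : (0 : ℝ) ≤ 0 ^ p * M ^ (2 - p) := by positivity
        simpa using this
      · have : s j ^ 2 = s j ^ p * s j ^ (2 - p) := by
          rw [← Real.rpow_add h0]
          norm_num
        rw [this]
        refine mul_le_mul_of_nonneg_left ?_ (by positivity)
        exact Real.rpow_le_rpow h0.le (hsM j) (by linarith)
    calc ∑ j ∈ Finset.range n, s j ^ 2 ≤ ∑ j ∈ Finset.range n, s j ^ p * M ^ (2 - p) :=
          Finset.sum_le_sum fun j _ => hterm j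
      _ = (∑ j ∈ Finset.range n, s j ^ p) * M ^ (2 - p) := by rw [Finset.sum_mul]
      _ ≤ M ^ p * M ^ (2 - p) := mul_le_mul_of_nonneg_right hsum (by positivity)
      _ ≤ M ^ 2 := by
          rcases hM.eq_or_lt with h0 | h0
          · rw [← h0, Real.zero_rpow hp0.ne', zero_mul]
            positivity
          · rw [← Real.rpow_add h0]
            norm_num
  · have hκ : max 0 (1 / 2 - 1 / p) = 1 / 2 - 1 / p := by
      apply max_eq_right
      have : 1 / p ≤ 1 / 2 := one_div_le_one_div_of_le (by norm_num) h2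
      linarith
    rw [hκ]
    have h3 := Real.rpow_sum_le_const_mul_sum_rpow_of_nonneg (Finset.range n)
      (f := fun j => s j ^ 2) (p := p / 2) (by linarith) (fun j _ => by positivity)
    have h4 : ∀ j, (s j ^ 2) ^ (p / 2) = s j ^ p := by
      intro j
      rw [← Real.rpow_natCast, ← Real.rpow_mul (hs j)]
      congr 1
      push_cast; ring
    simp only [h4, Finset.card_range] at h3
    have h5 : (∑ j ∈ Finset.range n, s j ^ 2) ^ (p / 2) ≤ (n : ℝ) ^ (p / 2 - 1) * M ^ p :=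
      h3.trans (mul_le_mul_of_nonneg_left hsum (by positivity))
    have hn' : (0 : ℝ) < n := by exact_mod_cast hn
    have h6 : (((n : ℝ) ^ (1 / 2 - 1 / p) * M) ^ 2) ^ (p / 2) = (n : ℝ) ^ (p / 2 - 1) * M ^ p := by
      rw [mul_pow, Real.mul_rpow (by positivity) (by positivity)]
      congr 1
      · rw [← Real.rpow_natCast, ← Real.rpow_mul hn'.le, ← Real.rpow_mul hn'.le]
        congr 1
        push_cast
        field_simp
      · rw [← Real.rpow_natCast, ← Real.rpow_mul hM]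
        congr 1
        push_cast; ring
    rw [← h6] at h5
    exact (Real.rpow_le_rpow_iff (Finset.sum_nonneg fun _ _ => by positivity) (by positivity)
      (by positivity)).1 h5

/-- the exponent -/
noncomputable def kap (p : ℝ) : ℝ := max 0 (1 / 2 - 1 / p)

theorem sumH (a : A) {n : ℕ} (v : Fin n → H) (hv : Orthonormal ℂ v) :
    ∑ i, ‖ι a (v i)‖ ^ 2 ≤ ((n : ℝ) ^ kap p * ‖a‖) ^ 2 :=
  (sum_sq_le v hv (ι a)).trans (sum_sq_le_aux hp (fun j => sv_nonneg _ j) (norm_nonneg _)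
    (fun j => sv_le_norm' hA hp a j) (sum_sv_rpow_le hA hp a n))

theorem sumH' (a : A) {n : ℕ} (v : Fin n → H) (hv : Orthonormal ℂ v) :
    ∑ i, ‖ContinuousLinearMap.adjoint (ι a) (v i)‖ ^ 2 ≤ ((n : ℝ) ^ kap p * ‖a‖) ^ 2 := by
  refine (sum_sq_le v hv _).trans (sum_sq_le_aux hp (fun j => sv_nonneg _ j) (norm_nonneg _)
    (fun j => (sv_adjoint_le _ j).trans (sv_le_norm' hA hp a j)) ?_)
  refine (Finset.sum_le_sum fun j _ => ?_).trans (sum_sv_rpow_le hA hp a n)
  exact Real.rpow_le_rpow (sv_nonneg _ _) (sv_adjoint_le _ j) (by linarith)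

theorem abs_tr_mul_le (a b : A) {n : ℕ} (v w : Fin n → H) (hv : Orthonormal ℂ v)
    (hw : Orthonormal ℂ w) :
    ‖∑ i, inner ℂ (w i) (ι (a * b) (v i))‖ ≤ ((n : ℝ) ^ kap p) ^ 2 * ‖a‖ * ‖b‖ := by
  have h1 : ∀ i, inner ℂ (w i) (ι (a * b) (v i))
      = inner ℂ (ContinuousLinearMap.adjoint (ι a) (w i)) (ι b (v i)) := by
    intro i
    rw [hA.map_mul, ContinuousLinearMap.adjoint_inner_left]
    rfl
  simp only [h1]
  have h2 : ‖∑ i, inner ℂ (ContinuousLinearMap.adjoint (ι a) (w i)) (ι b (v i))‖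
      ≤ ∑ i, ‖ContinuousLinearMap.adjoint (ι a) (w i)‖ * ‖ι b (v i)‖ :=
    (norm_sum_le _ _).trans (Finset.sum_le_sum fun i _ => norm_inner_le_norm _ _)
  have h3 := Finset.sum_mul_sq_le_sq_mul_sq Finset.univ
    (fun i => ‖ContinuousLinearMap.adjoint (ι a) (w i)‖) (fun i => ‖ι b (v i)‖)
  have h4 : (∑ i, ‖ContinuousLinearMap.adjoint (ι a) (w i)‖ * ‖ι b (v i)‖) ^ 2
      ≤ (((n : ℝ) ^ kap p) ^ 2 * ‖a‖ * ‖b‖) ^ 2 := by
    calc _ ≤ ((n : ℝ) ^ kap p * ‖a‖) ^ 2 * ((n : ℝ) ^ kap p * ‖b‖) ^ 2 :=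
          h3.trans (mul_le_mul (sumH' hA hp a w hw) (sumH hA hp b v hv)
            (Finset.sum_nonneg fun _ _ => by positivity) (by positivity))
      _ = _ := by ring
  exact h2.trans ((sq_le_sq₀ (Finset.sum_nonneg fun _ _ => by positivity) (by positivity)).1 h4)

theorem abs_tr_le (a : A) {n : ℕ} (v w : Fin n → H) (hv : Orthonormal ℂ v)
    (hw : Orthonormal ℂ w) :
    ‖∑ i, inner ℂ (w i) (ι a (v i))‖ ≤ (n : ℝ) ^ (1 / 2 + kap p) * ‖a‖ := by
  rcases Nat.eq_zero_or_pos n with hn | hn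
  · subst hn
    simp
    positivity
  have h2 : ‖∑ i, inner ℂ (w i) (ι a (v i))‖ ≤ ∑ i : Fin n, 1 * ‖ι a (v i)‖ := by
    refine (norm_sum_le _ _).trans (Finset.sum_le_sum fun i _ => ?_)
    refine (norm_inner_le_norm _ _).trans ?_
    rw [hw.1 i]
  have h3 := Finset.sum_mul_sq_le_sq_mul_sq (Finset.univ : Finset (Fin n))
    (fun i => (1 : ℝ)) (fun i => ‖ι a (v i)‖)
  have hn' : (0 : ℝ) < n := by exact_mod_cast hn
  have h5 : ((n : ℝ) ^ (1 / 2 + kap p) * ‖a‖) ^ 2 = n * ((n : ℝ) ^ kap p * ‖a‖) ^ 2 := by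
    rw [Real.rpow_add hn', mul_pow, mul_pow, mul_pow]
    have : ((n : ℝ) ^ (1 / 2 : ℝ)) ^ 2 = n := by
      rw [← Real.rpow_natCast, ← Real.rpow_mul hn'.le]
      norm_num
    rw [this]
    ring
  have h4 : (∑ i : Fin n, 1 * ‖ι a (v i)‖) ^ 2 ≤ ((n : ℝ) ^ (1 / 2 + kap p) * ‖a‖) ^ 2 := by
    rw [h5]
    refine h3.trans ?_
    simp only [one_pow, Finset.sum_const, Finset.card_univ, Fintype.card_fin, nsmul_eq_mul,
      mul_one]
    exact mul_le_mul_of_nonneg_left (sumH hA hp a v hv) hn'.le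
  exact h2.trans ((sq_le_sq₀ (Finset.sum_nonneg fun _ _ => by positivity) (by positivity)).1 h4)

end Model

end Pool.Agent.R302.SchB
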