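import Pool.Agent.R302.SemiC

open Filter Topology

namespace Pool.Agent.R302.SchC

open Pool.Agent.R302.SemiDefs Pool.Agent.R302.SemiA

universe u

set_option linter.unusedSectionVars false
set_option maxSynthPendingDepth 3

variable {A : Type u} [NonUnitalNormedRing A] [NormedSpace ℂ A]
  [IsScalarTower ℂ A A] [SMulCommClass ℂ A A]
  {V : Type} [NormedAddCommGroup V] [NormedSpace ℂ V]

/-- the space `A* × A* × V*` -/
def XX (A : Type u) [NonUnitalNormedRing A] [NormedSpace ℂ A] (V : Type) [NormedAddCommGroup V]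
    [NormedSpace ℂ V] : Type u := (A →L[ℂ] ℂ) × (A →L[ℂ] ℂ) × (V →L[ℂ] ℂ)

noncomputable instance : NormedAddCommGroup (XX A V) :=
  inferInstanceAs (NormedAddCommGroup ((A →L[ℂ] ℂ) × (A →L[ℂ] ℂ) × (V →L[ℂ] ℂ)))
noncomputable instance : NormedSpace ℂ (XX A V) :=
  inferInstanceAs (NormedSpace ℂ ((A →L[ℂ] ℂ) × (A →L[ℂ] ℂ) × (V →L[ℂ] ℂ)))
instance : CompleteSpace (XX A V) :=
  inferInstanceAs (CompleteSpace ((A →L[ℂ] ℂ) × (A →L[ℂ] ℂ) × (V →L[ℂ] ℂ)))

/-- constructor -/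
def mkX (f g : A →L[ℂ] ℂ) (h : V →L[ℂ] ℂ) : XX A V := (f, g, h)

theorem mkX_add (f g f' g' : A →L[ℂ] ℂ) (h h' : V →L[ℂ] ℂ) :
    (mkX f g h : XX A V) + mkX f' g' h' = mkX (f + f') (g + g') (h + h') := rfl
theorem mkX_smul (c : ℂ) (f g : A →L[ℂ] ℂ) (h : V →L[ℂ] ℂ) :
    c • (mkX f g h : XX A V) = mkX (c • f) (c • g) (c • h) := rfl
theorem norm_mkX (f g : A →L[ℂ] ℂ) (h : V →L[ℂ] ℂ) :
    ‖(mkX f g h : XX A V)‖ = max ‖f‖ (max ‖g‖ ‖h‖) := rfl
theorem norm_fst_le (χ : XX A V) : ‖χ.1‖ ≤ ‖χ‖ := le_max_left _ _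
theorem norm_snd_le (χ : XX A V) : ‖χ.2.1‖ ≤ ‖χ‖ := (le_max_left _ _).trans (le_max_right _ _)
theorem norm_thd_le (χ : XX A V) : ‖χ.2.2‖ ≤ ‖χ‖ := (le_max_right _ _).trans (le_max_right _ _)

@[simp] theorem add_fst (χ χ' : XX A V) : (χ + χ').1 = χ.1 + χ'.1 := rfl
@[simp] theorem add_snd (χ χ' : XX A V) : (χ + χ').2.1 = χ.2.1 + χ'.2.1 := rfl
@[simp] theorem add_thd (χ χ' : XX A V) : (χ + χ').2.2 = χ.2.2 + χ'.2.2 := rfl
@[simp] theorem smul_fst (c : ℂ) (χ : XX A V) : (c • χ).1 = c • χ.1 := rfl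
@[simp] theorem smul_snd (c : ℂ) (χ : XX A V) : (c • χ).2.1 = c • χ.2.1 := rfl
@[simp] theorem smul_thd (c : ℂ) (χ : XX A V) : (c • χ).2.2 = c • χ.2.2 := rfl

variable (β : A →L[ℂ] A →L[ℂ] V)

/-- the first component of `χ · a` -/
noncomputable def r1 (a : A) (χ : XX A V) : A →L[ℂ] ℂ :=
  χ.1.comp (ContinuousLinearMap.mul ℂ A a) + χ.2.2.comp (β a)

/-- the second component of `a · χ` -/
noncomputable def l1 (a : A) (χ : XX A V) : A →L[ℂ] ℂ :=
  χ.2.1.comp ((ContinuousLinearMap.mul ℂ A).flip a) + χ.2.2.comp (β.flip a)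

@[simp] theorem r1_apply (a x : A) (χ : XX A V) : r1 β a χ x = χ.1 (a * x) + χ.2.2 (β a x) := rfl
@[simp] theorem l1_apply (a x : A) (χ : XX A V) : l1 β a χ x = χ.2.1 (x * a) + χ.2.2 (β x a) := rfl

theorem norm_r1_le (a : A) (χ : XX A V) : ‖r1 β a χ‖ ≤ (1 + ‖β‖) * ‖a‖ * ‖χ‖ := by
  refine ContinuousLinearMap.opNorm_le_bound _ (by positivity) fun x => ?_
  rw [r1_apply]
  refine (norm_add_le _ _).trans ?_
  calc ‖χ.1 (a * x)‖ + ‖χ.2.2 (β a x)‖ ≤ ‖χ.1‖ * ‖a * x‖ + ‖χ.2.2‖ * ‖β a x‖ :=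
        add_le_add (χ.1.le_opNorm _) (χ.2.2.le_opNorm _)
    _ ≤ ‖χ‖ * (‖a‖ * ‖x‖) + ‖χ‖ * (‖β‖ * ‖a‖ * ‖x‖) := by
        gcongr
        · exact norm_fst_le χ
        · exact norm_mul_le _ _
        · exact norm_thd_le χ
        · exact β.le_opNorm₂ _ _
    _ = _ := by ring

theorem norm_l1_le (a : A) (χ : XX A V) : ‖l1 β a χ‖ ≤ (1 + ‖β‖) * ‖a‖ * ‖χ‖ := by
  refine ContinuousLinearMap.opNorm_le_bound _ (by positivity) fun x => ?_
  rw [l1_apply]
  refine (norm_add_le _ _).trans ?_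
  calc ‖χ.2.1 (x * a)‖ + ‖χ.2.2 (β x a)‖ ≤ ‖χ.2.1‖ * ‖x * a‖ + ‖χ.2.2‖ * ‖β x a‖ :=
        add_le_add (χ.2.1.le_opNorm _) (χ.2.2.le_opNorm _)
    _ ≤ ‖χ‖ * (‖x‖ * ‖a‖) + ‖χ‖ * (‖β‖ * ‖x‖ * ‖a‖) := by
        gcongr
        · exact norm_snd_le χ
        · exact norm_mul_le _ _
        · exact norm_thd_le χ
        · exact β.le_opNorm₂ _ _
    _ = _ := by ring

/-- the bimodule -/
noncomputable def XM (hβ : ∀ a b c, β (a * b) c = β a (b * c)) : BanachBimodule A (XX A V) where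
  l := LinearMap.mkContinuous₂
    (LinearMap.mk₂ ℂ (fun a χ => mkX 0 (l1 β a χ) 0)
      (fun a b χ => by
        rw [mkX_add]; congr 1
        · simp
        · ext x; simp [mul_add]; ring
        · simp)
      (fun c a χ => by
        rw [mkX_smul]; congr 1
        · simp
        · ext x; simp [mul_smul_comm]; ring
        · simp)
      (fun a χ χ' => by
        rw [mkX_add]; congr 1
        · simp
        · ext x; simp; ring
        · simp)
      (fun c a χ => by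
        rw [mkX_smul]; congr 1
        · simp
        · ext x; simp; ring
        · simp))
    (1 + ‖β‖) (fun a χ => by
      change ‖(mkX 0 (l1 β a χ) 0 : XX A V)‖ ≤ _
      rw [norm_mkX, norm_zero, norm_zero, max_eq_left (norm_nonneg _), max_eq_right (norm_nonneg _)]
      exact norm_l1_le β a χ)
  r := LinearMap.mkContinuous₂
    (LinearMap.mk₂ ℂ (fun a χ => mkX (r1 β a χ) 0 0)
      (fun a b χ => by
        rw [mkX_add]; congr 1
        · ext x; simp [add_mul]; ring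
        · simp
        · simp)
      (fun c a χ => by
        rw [mkX_smul]; congr 1
        · ext x; simp [smul_mul_assoc]; ring
        · simp
        · simp)
      (fun a χ χ' => by
        rw [mkX_add]; congr 1
        · ext x; simp; ring
        · simp
        · simp)
      (fun c a χ => by
        rw [mkX_smul]; congr 1
        · ext x; simp; ring
        · simp
        · simp))
    (1 + ‖β‖) (fun a χ => by
      change ‖(mkX (r1 β a χ) 0 0 : XX A V)‖ ≤ _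
      rw [norm_mkX, norm_zero, norm_zero, max_self, max_eq_left (norm_nonneg _)]
      exact norm_r1_le β a χ)
  mul_l a b χ := by
    change mkX 0 (l1 β (a * b) χ) 0 = mkX 0 (l1 β a (mkX 0 (l1 β b χ) 0)) 0
    congr 1
    ext x
    change χ.2.1 (x * (a * b)) + χ.2.2 (β x (a * b)) = (χ.2.1 (x * a * b) + χ.2.2 (β (x * a) b)) + 0
    rw [hβ, mul_assoc, add_zero]
  mul_r a b χ := by
    change mkX (r1 β (a * b) χ) 0 0 = mkX (r1 β b (mkX (r1 β a χ) 0 0)) 0 0
    congr 1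
    ext x
    change χ.1 (a * b * x) + χ.2.2 (β (a * b) x) = (χ.1 (a * (b * x)) + χ.2.2 (β a (b * x))) + 0
    rw [hβ, mul_assoc, add_zero]
  l_r a b χ := by
    change mkX 0 (l1 β a (mkX (r1 β b χ) 0 0)) 0 = mkX (r1 β b (mkX 0 (l1 β a χ) 0)) 0 0
    congr 1
    · ext x
      change (0 : ℂ) = 0 + 0
      simp
    · ext x
      change (0 : ℂ) + 0 = 0
      simp

variable (A V) in
/-- the derivation -/
noncomputable def DD : A →L[ℂ] (XX A V →L[ℂ] ℂ) :=
  LinearMap.mkContinuous₂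
    (LinearMap.mk₂ ℂ (fun a (χ : XX A V) => (χ.1 a : ℂ) - χ.2.1 a)
      (fun a b χ => by
        change χ.1 (a + b) - χ.2.1 (a + b) = (χ.1 a - χ.2.1 a) + (χ.1 b - χ.2.1 b)
        rw [map_add, map_add]; ring)
      (fun c a χ => by
        change χ.1 (c • a) - χ.2.1 (c • a) = c • (χ.1 a - χ.2.1 a)
        rw [map_smul, map_smul, smul_sub])
      (fun a χ χ' => by
        change (χ.1 a + χ'.1 a) - (χ.2.1 a + χ'.2.1 a) = (χ.1 a - χ.2.1 a) + (χ'.1 a - χ'.2.1 a)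
        ring)
      (fun c a χ => by
        change c • χ.1 a - c • χ.2.1 a = c • (χ.1 a - χ.2.1 a)
        rw [smul_sub]))
    2 (fun a χ => by
      change ‖χ.1 a - χ.2.1 a‖ ≤ 2 * ‖a‖ * ‖χ‖
      refine (norm_sub_le _ _).trans ?_
      calc ‖χ.1 a‖ + ‖χ.2.1 a‖ ≤ ‖χ.1‖ * ‖a‖ + ‖χ.2.1‖ * ‖a‖ :=
            add_le_add (χ.1.le_opNorm _) (χ.2.1.le_opNorm _)
        _ ≤ ‖χ‖ * ‖a‖ + ‖χ‖ * ‖a‖ := by
            gcongr
            · exact norm_fst_le χ
            · exact norm_snd_le χ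
        _ = _ := by ring)

theorem DD_apply (a : A) (χ : XX A V) : DD A V a χ = χ.1 a - χ.2.1 a := rfl

theorem DD_der (hβ : ∀ a b c, β (a * b) c = β a (b * c)) : IsDerivation (XM β hβ).dual (DD A V) := by
  intro a b
  refine ContinuousLinearMap.ext fun χ => ?_
  change χ.1 (a * b) - χ.2.1 (a * b) = DD A V b (mkX (r1 β a χ) 0 0) + DD A V a (mkX 0 (l1 β b χ) 0)
  rw [DD_apply, DD_apply]
  change _ = ((χ.1 (a * b) + χ.2.2 (β a b)) - 0) + (0 - (χ.2.1 (a * b) + χ.2.2 (β a b)))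
  ring

/-- injections -/
noncomputable def inj1 : (A →L[ℂ] ℂ) →L[ℂ] XX A V :=
  LinearMap.mkContinuous
    { toFun := fun f => mkX f 0 0
      map_add' := fun f g => by rw [mkX_add]; simp
      map_smul' := fun c f => by rw [mkX_smul]; simp } 1 (fun f => by
        change ‖(mkX f 0 0 : XX A V)‖ ≤ _
        rw [norm_mkX, norm_zero, norm_zero, max_self, max_eq_left (norm_nonneg _), one_mul])

/-- injections -/
noncomputable def inj2 : (A →L[ℂ] ℂ) →L[ℂ] XX A V :=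
  LinearMap.mkContinuous
    { toFun := fun f => mkX 0 f 0
      map_add' := fun f g => by rw [mkX_add]; simp
      map_smul' := fun c f => by rw [mkX_smul]; simp } 1 (fun f => by
        change ‖(mkX 0 f 0 : XX A V)‖ ≤ _
        rw [norm_mkX, norm_zero, norm_zero, max_eq_left (norm_nonneg _),
          max_eq_right (norm_nonneg _), one_mul])

/-- The consequence of approximate semi-amenability used for Schatten classes. -/
theorem key (h : IsApproxSemiAmenable.{u, u} A) (hβ : ∀ a b c, β (a * b) c = β a (b * c))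
    (F : Finset A) {ε : ℝ} (hε : 0 < ε) :
    ∃ x y : (A →L[ℂ] ℂ) →L[ℂ] ℂ, ∀ a ∈ F,
      (∀ f : A →L[ℂ] ℂ, ‖f a - x (f.comp (ContinuousLinearMap.mul ℂ A a))‖ ≤ ε * ‖f‖) ∧
      ∀ t : V →L[ℂ] ℂ, ‖x (t.comp (β a)) - y (t.comp (β.flip a))‖ ≤ ε * ‖t‖ := by
  obtain ⟨ξ, η, hξη⟩ := finite_of_semiInner (h (XX A V) (XM β hβ) (DD A V) (DD_der β hβ)) F hε
  refine ⟨ξ.comp inj1, η.comp inj2, fun a ha => ?_⟩
  have hbase : ∀ χ : XX A V, ‖DD A V a χ - (ξ (mkX (r1 β a χ) 0 0) - η (mkX 0 (l1 β a χ) 0))‖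
      ≤ ε * ‖χ‖ := by
    intro χ
    have h1 := ContinuousLinearMap.le_opNorm (DD A V a - ((XM β hβ).dual.l a ξ
      - (XM β hβ).dual.r a η)) χ
    refine h1.trans ?_
    gcongr
    exact (hξη a ha).le
  constructor
  · intro f
    have h1 := hbase (mkX f 0 0)
    rw [norm_mkX, norm_zero, norm_zero, max_self, max_eq_left (norm_nonneg _), DD_apply] at h1
    have h2 : (mkX (r1 β a (mkX f 0 0)) 0 0 : XX A V)
        = inj1 (f.comp (ContinuousLinearMap.mul ℂ A a)) := by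
      change (mkX (r1 β a (mkX f 0 0)) 0 0 : XX A V)
        = mkX (f.comp (ContinuousLinearMap.mul ℂ A a)) 0 0
      congr 1
      ext x
      change f (a * x) + 0 = f (a * x)
      rw [add_zero]
    have h3 : (mkX 0 (l1 β a (mkX f 0 0)) 0 : XX A V) = 0 := by
      change (mkX 0 (l1 β a (mkX f 0 0)) 0 : XX A V) = mkX 0 0 0
      congr 1
      ext x
      change (0 : ℂ) + 0 = 0
      simp
    rw [h2, h3, map_zero, sub_zero] at h1
    change ‖f a - 0 - ξ (inj1 (f.comp (ContinuousLinearMap.mul ℂ A a)))‖ ≤ ε * ‖f‖ at h1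
    rw [sub_zero] at h1
    exact h1
  · intro t
    have h1 := hbase (mkX 0 0 t)
    rw [norm_mkX, norm_zero, max_eq_right (norm_nonneg _), max_eq_right (norm_nonneg _),
      DD_apply] at h1
    have h2 : (mkX (r1 β a (mkX 0 0 t)) 0 0 : XX A V) = inj1 (t.comp (β a)) := by
      change (mkX (r1 β a (mkX 0 0 t)) 0 0 : XX A V) = mkX (t.comp (β a)) 0 0
      congr 1
      ext x
      change (0 : ℂ) + t (β a x) = t (β a x)
      rw [zero_add]
    have h3 : (mkX 0 (l1 β a (mkX 0 0 t)) 0 : XX A V) = inj2 (t.comp (β.flip a)) := by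
      change (mkX 0 (l1 β a (mkX 0 0 t)) 0 : XX A V) = mkX 0 (t.comp (β.flip a)) 0
      congr 1
      ext x
      change (0 : ℂ) + t (β x a) = t (β x a)
      rw [zero_add]
    rw [h2, h3] at h1
    change ‖(0 : ℂ) - 0 - (ξ (inj1 (t.comp (β a))) - η (inj2 (t.comp (β.flip a))))‖ ≤ ε * ‖t‖ at h1
    rw [sub_zero, zero_sub, norm_neg] at h1
    exact h1

end Pool.Agent.R302.SchC
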