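import Pool.Agent.R302.SchB
import Pool.Agent.R302.SchC

open Filter Topology

namespace Pool.Agent.R302.SchD

open Pool.Agent.R302.SchattenDef Pool.Agent.R302.SchA Pool.Agent.R302.SchB

universe u v

set_option linter.unusedSectionVars false
set_option maxSynthPendingDepth 3

variable {H : Type u} [NormedAddCommGroup H] [InnerProductSpace ℂ H]

/-- the three injections of the natural numbers -/
def sg (j : Fin 3) (m : ℕ) : ℕ := if j = 0 then m else if j = 1 then 2 * m else 2 * m + 1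

theorem sg_inj (j : Fin 3) : Function.Injective (sg j) := by
  intro m n h
  unfold sg at h
  split_ifs at h <;> omega

theorem blk {s s' i i' : ℕ} (hi : i < 2 ^ s) (hi' : i' < 2 ^ s') (h : 2 ^ s + i = 2 ^ s' + i') :
    s = s' ∧ i = i' := by
  have h1 : s = s' := by
    rcases lt_trichotomy s s' with hl | hl | hl
    · exfalso
      have : 2 ^ (s + 1) ≤ 2 ^ s' := Nat.pow_le_pow_right (by norm_num) hl
      rw [pow_succ] at this
      omega
    · exact hl
    · exfalso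
      have : 2 ^ (s' + 1) ≤ 2 ^ s := Nat.pow_le_pow_right (by norm_num) hl
      rw [pow_succ] at this
      omega
  subst h1
  exact ⟨rfl, by omega⟩

/-- the vectors `e (σ_j m)`, `m` in the block `s`. -/
def vv (e : ℕ → H) (s : ℕ) (j : Fin 3) (i : Fin (2 ^ s)) : H := e (sg j (2 ^ s + i.1))

theorem vv_orth {e : ℕ → H} (he : Orthonormal ℂ e) (s : ℕ) (j : Fin 3) :
    Orthonormal ℂ (vv e s j) := by
  refine he.comp (fun i : Fin (2 ^ s) => sg j (2 ^ s + i.1)) fun i i' h => ?_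
  have := sg_inj j h
  exact Fin.ext (by omega)

theorem re_conj_mul (c : ℂ) : RCLike.re (starRingEnd ℂ c * c) = ‖c‖ ^ 2 := by
  rw [← Complex.normSq_eq_conj_mul_self, Complex.normSq_eq_norm_sq]
  exact Complex.ofReal_re _

theorem norm_sum_rk_le {n : ℕ} {v w : Fin n → H} (hv : Orthonormal ℂ v) (hw : Orthonormal ℂ w) :
    ‖∑ i, rk (w i) (v i)‖ ≤ 1 := by
  refine ContinuousLinearMap.opNorm_le_bound _ zero_le_one fun x => ?_
  rw [one_mul, sum_apply]
  have h1 : ‖∑ i, rk (w i) (v i) x‖ ^ 2 ≤ ‖x‖ ^ 2 := by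
    simp only [rk_apply]
    rw [← inner_self_eq_norm_sq (𝕜 := ℂ), hw.inner_sum]
    simp only [map_sum]
    refine le_trans (le_of_eq ?_) (hv.sum_inner_products_le (s := Finset.univ) x)
    exact Finset.sum_congr rfl fun i _ => re_conj_mul _
  exact (sq_le_sq₀ (norm_nonneg _) (norm_nonneg _)).1 h1

/-- the block operators -/
noncomputable def TT (e : ℕ → H) (s : ℕ) (j : Fin 3) : H →L[ℂ] H :=
  ∑ i, rk (vv e s j i) (vv e s 0 i)

theorem TT_rank (e : ℕ → H) (s : ℕ) (j : Fin 3) :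
    (TT e s j : H →ₗ[ℂ] H).rank ≤ ((2 ^ s : ℕ) : Cardinal) := by
  have := rank_sum_le (Finset.univ : Finset (Fin (2 ^ s)))
    (fun i => rk (vv e s j i) (vv e s 0 i)) (fun i _ => rank_rk_le _ _)
  rw [Finset.card_univ, Fintype.card_fin] at this
  exact this

theorem inner_e {e : ℕ → H} (he : Orthonormal ℂ e) (m n : ℕ) :
    (inner ℂ (e m) (e n) : ℂ) = if m = n then 1 else 0 := orthonormal_iff_ite.1 he m n

theorem TT_apply {e : ℕ → H} (he : Orthonormal ℂ e) (s s' : ℕ) (j : Fin 3) (i : Fin (2 ^ s)) :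
    TT e s' j (vv e s 0 i) = if s' = s then vv e s j i else 0 := by
  unfold TT
  rw [sum_apply]
  simp only [rk_apply]
  split_ifs with h
  · subst h
    rw [Finset.sum_eq_single i]
    · rw [inner_self_eq_norm_sq_to_K, (vv_orth he s' 0).1 i]; simp
    · intro k _ hk
      rw [(vv_orth he s' 0).2 hk, zero_smul]
    · simp
  · refine Finset.sum_eq_zero fun k _ => ?_
    have h0 : (inner ℂ (vv e s' 0 k) (vv e s 0 i) : ℂ) = 0 := by
      unfold vv
      rw [inner_e he, if_neg]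
      intro h1
      have h2 := sg_inj 0 h1
      exact h (blk k.2 i.2 h2).1
    rw [h0, zero_smul]

theorem TT_inner {e : ℕ → H} (he : Orthonormal ℂ e) (s s' : ℕ) (j : Fin 3) (i : Fin (2 ^ s))
    (y : H) :
    (inner ℂ (vv e s j i) (TT e s' j y) : ℂ) = if s' = s then inner ℂ (vv e s 0 i) y else 0 := by
  unfold TT
  rw [sum_apply, inner_sum]
  simp only [rk_apply, inner_smul_right]
  split_ifs with h
  · subst h
    rw [Finset.sum_eq_single i]
    · rw [inner_self_eq_norm_sq_to_K, (vv_orth he s' j).1 i]; simp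
    · intro k _ hk
      rw [(vv_orth he s' j).2 (Ne.symm hk), mul_zero]
    · simp
  · refine Finset.sum_eq_zero fun k _ => ?_
    have h0 : (inner ℂ (vv e s j i) (vv e s' j k) : ℂ) = 0 := by
      unfold vv
      rw [inner_e he, if_neg]
      intro h1
      have h2 := sg_inj j h1
      exact h (blk i.2 k.2 h2).1.symm
    rw [h0, mul_zero]

variable [CompleteSpace H]

section Model

variable {p : ℝ} {A : Type v} [NonUnitalNormedRing A] [NormedSpace ℂ A]
  [IsScalarTower ℂ A A] [SMulCommClass ℂ A A]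
  {ι : A →ₗ[ℂ] (H →L[ℂ] H)} (hA : IsSchattenClass p A ι) (hp : 1 ≤ p)

/-- `ι` as a continuous map -/
noncomputable def ιL : A →L[ℂ] (H →L[ℂ] H) := ι.mkContinuous 1 (fun a => by
  rw [one_mul]; exact norm_ι_le hA hp a)

theorem ιL_apply (a : A) : ιL hA hp a = ι a := rfl

/-- the functionals `b ↦ ∑ ⟨w_i, b v_i⟩` -/
noncomputable def trL {n : ℕ} (v w : Fin n → H) (hv : Orthonormal ℂ v) (hw : Orthonormal ℂ w) :
    A →L[ℂ] ℂ :=
  LinearMap.mkContinuous
    { toFun := fun b => ∑ i, inner ℂ (w i) (ι b (v i))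
      map_add' := fun a b => by simp [Finset.sum_add_distrib]
      map_smul' := fun c a => by simp [Finset.mul_sum] }
    ((n : ℝ) ^ (1 / 2 + kap p)) (fun a => abs_tr_le hA hp a v w hv hw)

theorem trL_apply {n : ℕ} (v w : Fin n → H) (hv : Orthonormal ℂ v) (hw : Orthonormal ℂ w) (b : A) :
    trL hA hp v w hv hw b = ∑ i, inner ℂ (w i) (ι b (v i)) := rfl

theorem norm_trL_le {n : ℕ} (v w : Fin n → H) (hv : Orthonormal ℂ v) (hw : Orthonormal ℂ w) :
    ‖trL hA hp v w hv hw‖ ≤ (n : ℝ) ^ (1 / 2 + kap p) :=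
  LinearMap.mkContinuous_norm_le _ (by positivity) _

/-- weights -/
noncomputable def W (p : ℝ) (s : ℕ) : ℝ := ((((2 ^ s : ℕ) : ℝ)) ^ kap p) ^ 2

theorem W_eq (p : ℝ) (s : ℕ) : W p s = ((2 : ℝ) ^ (2 * kap p)) ^ s := by
  unfold W
  rw [← Real.rpow_natCast, ← Real.rpow_mul (by positivity), ← Real.rpow_natCast ((2:ℝ) ^ (2 * kap p)),
    ← Real.rpow_mul (by norm_num)]
  push_cast
  rw [← Real.rpow_natCast 2 s, ← Real.rpow_mul (by norm_num)]
  congr 1
  ring

theorem W_pos (p : ℝ) (s : ℕ) : 0 < W p s := by rw [W_eq]; positivity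

variable {e : ℕ → H} (he : Orthonormal ℂ e)

/-- the bilinear map `β` -/
noncomputable def bet : A →L[ℂ] A →L[ℂ] BoundedContinuousFunction (ℕ × Fin 3) ℂ :=
  LinearMap.mkContinuous₂
    (LinearMap.mk₂ ℂ (fun a b => BoundedContinuousFunction.ofNormedAddCommGroupDiscrete
      (fun k : ℕ × Fin 3 => (((W p k.1)⁻¹ : ℝ) : ℂ) * trL hA hp (vv e k.1 0) (vv e k.1 k.2)
        (vv_orth he k.1 0) (vv_orth he k.1 k.2) (a * b)) (‖a‖ * ‖b‖) (fun k => by
          rw [norm_mul, Complex.norm_real, Real.norm_eq_abs,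
            abs_of_pos (inv_pos.2 (W_pos p k.1)), inv_mul_le_iff₀ (W_pos p k.1)]
          have := abs_tr_mul_le hA hp a b (vv e k.1 0) (vv e k.1 k.2) (vv_orth he k.1 0)
            (vv_orth he k.1 k.2)
          rw [mul_assoc] at this
          exact this))
      (fun a b c => by ext k; simp [add_mul]; ring)
      (fun c a b => by ext k; simp [smul_mul_assoc]; ring)
      (fun a b c => by ext k; simp [mul_add])
      (fun c a b => by ext k; simp [mul_smul_comm]; ring))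
    1 (fun a b => by
      rw [one_mul]
      refine (BoundedContinuousFunction.norm_le (by positivity)).2 fun k => ?_
      change ‖(((W p k.1)⁻¹ : ℝ) : ℂ) * trL hA hp (vv e k.1 0) (vv e k.1 k.2)
        (vv_orth he k.1 0) (vv_orth he k.1 k.2) (a * b)‖ ≤ _
      rw [norm_mul, Complex.norm_real, Real.norm_eq_abs,
        abs_of_pos (inv_pos.2 (W_pos p k.1)), inv_mul_le_iff₀ (W_pos p k.1)]
      have := abs_tr_mul_le hA hp a b (vv e k.1 0) (vv e k.1 k.2) (vv_orth he k.1 0)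
        (vv_orth he k.1 k.2)
      rw [mul_assoc] at this
      exact this)

theorem bet_apply (a b : A) (k : ℕ × Fin 3) :
    bet hA hp he a b k = (((W p k.1)⁻¹ : ℝ) : ℂ) * trL hA hp (vv e k.1 0) (vv e k.1 k.2)
        (vv_orth he k.1 0) (vv_orth he k.1 k.2) (a * b) := rfl

theorem bet_bal (a b c : A) : bet hA hp he (a * b) c = bet hA hp he a (b * c) := by
  ext k
  rw [bet_apply, bet_apply, mul_assoc]

include hA hp he in
theorem exists_t (s : ℕ) (j : Fin 3) :
    ∃ t : A, ι t = TT e s j ∧ ‖t‖ ≤ ((2 : ℝ) ^ (1 / p)) ^ s := by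
  obtain ⟨t, ht, hn⟩ := exists_of_rank hA hp (TT_rank e s j)
  refine ⟨t, ht, hn.trans ?_⟩
  have h1 : ‖TT e s j‖ ≤ 1 := norm_sum_rk_le (vv_orth he s 0) (vv_orth he s j)
  calc ((2 ^ s : ℕ) : ℝ) ^ (1 / p) * ‖TT e s j‖ ≤ ((2 ^ s : ℕ) : ℝ) ^ (1 / p) * 1 := by gcongr
    _ = ((2 : ℝ) ^ (1 / p)) ^ s := by
        rw [mul_one, ← Real.rpow_natCast ((2 : ℝ) ^ (1 / p)), ← Real.rpow_mul (by norm_num)]
        push_cast
        rw [← Real.rpow_natCast 2 s, ← Real.rpow_mul (by norm_num)]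
        congr 1
        ring

include hA hp he in
/-- the operators of the counterexample -/
theorem exists_a [CompleteSpace A] {c : ℝ} (hc0 : 0 < c) (hc : c * (2 : ℝ) ^ (1 / p) < 1)
    (j : Fin 3) :
    ∃ a : A, (∀ (s : ℕ) (i : Fin (2 ^ s)), ι a (vv e s 0 i) = ((c ^ s : ℝ) : ℂ) • vv e s j i) ∧
      (∀ (s : ℕ) (i : Fin (2 ^ s)) (y : H), (inner ℂ (vv e s j i) (ι a y) : ℂ)
        = ((c ^ s : ℝ) : ℂ) * inner ℂ (vv e s 0 i) y) := by
  choose t ht hn using fun s => exists_t hA hp he s j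
  have hsum : Summable fun s => ((c ^ s : ℝ) : ℂ) • t s := by
    refine Summable.of_norm_bounded (g := fun s => (c * (2 : ℝ) ^ (1 / p)) ^ s)
      (summable_geometric_of_lt_one (by positivity) hc) fun s => ?_
    rw [norm_smul, Complex.norm_real, Real.norm_eq_abs, abs_of_pos (by positivity), mul_pow]
    gcongr
    exact hn s
  have hιa : ι (∑' s, ((c ^ s : ℝ) : ℂ) • t s) = ∑' s, ((c ^ s : ℝ) : ℂ) • TT e s j := by
    have h1 := (ιL hA hp).map_tsum hsum
    simp only [ιL_apply, map_smul] at h1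
    rw [h1]
    simp only [ht]
  have hsum2 : Summable fun s => ((c ^ s : ℝ) : ℂ) • TT e s j := by
    have h1 := hsum.map (ιL hA hp) (ιL hA hp).continuous
    refine h1.congr fun s => ?_
    simp only [Function.comp, map_smul, ιL_apply, ht]
  have happ : ∀ y, ι (∑' s, ((c ^ s : ℝ) : ℂ) • t s) y = ∑' s, ((c ^ s : ℝ) : ℂ) • TT e s j y := by
    intro y
    rw [hιa]
    have h1 := (ContinuousLinearMap.apply ℂ H y).map_tsum hsum2
    exact h1
  have hsum3 : ∀ y, Summable fun s => ((c ^ s : ℝ) : ℂ) • TT e s j y := by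
    intro y
    exact hsum2.map (ContinuousLinearMap.apply ℂ H y) (ContinuousLinearMap.apply ℂ H y).continuous
  refine ⟨∑' s, ((c ^ s : ℝ) : ℂ) • t s, fun s i => ?_, fun s i y => ?_⟩
  · rw [happ, tsum_eq_single s]
    · rw [TT_apply he, if_pos rfl]
    · intro s' hs'
      rw [TT_apply he, if_neg hs', smul_zero]
  · rw [happ]
    have h1 := (innerSL ℂ (vv e s j i)).map_tsum (hsum3 y)
    change (innerSL ℂ (vv e s j i)) (∑' s, ((c ^ s : ℝ) : ℂ) • TT e s j y) = _
    rw [h1, tsum_eq_single s]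
    · rw [map_smul]
      change ((c ^ s : ℝ) : ℂ) • inner ℂ (vv e s j i) (TT e s j y) = _
      rw [TT_inner he, if_pos rfl, smul_eq_mul]
    · intro s' hs'
      rw [map_smul]
      change ((c ^ s' : ℝ) : ℂ) • inner ℂ (vv e s j i) (TT e s' j y) = _
      rw [TT_inner he, if_neg hs', smul_zero]

/-- the block traces -/
noncomputable def gg (s : ℕ) (j : Fin 3) : A →L[ℂ] ℂ :=
  trL hA hp (vv e s j) (vv e s j) (vv_orth he s j) (vv_orth he s j)

theorem gg_apply (s : ℕ) (j : Fin 3) (b : A) :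
    gg hA hp he s j b = ∑ i, inner ℂ (vv e s j i) (ι b (vv e s j i)) := rfl

theorem sum_double (G : ℕ → ℂ) (n : ℕ) :
    ∑ i ∈ Finset.range (2 * n), G i = ∑ i ∈ Finset.range n, (G (2 * i) + G (2 * i + 1)) := by
  induction n with
  | zero => simp
  | succ n ih =>
    rw [show 2 * (n + 1) = 2 * n + 1 + 1 by ring, Finset.sum_range_succ, Finset.sum_range_succ, ih,
      Finset.sum_range_succ]
    ring

theorem gg_succ (s : ℕ) : gg hA hp he (s + 1) 0 = gg hA hp he s 1 + gg hA hp he s 2 := by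
  ext b
  rw [add_apply, gg_apply, gg_apply, gg_apply]
  let G : ℕ → ℂ := fun m => inner ℂ (e m) (ι b (e m))
  have e0 : ∑ i : Fin (2 ^ (s + 1)), (inner ℂ (vv e (s + 1) 0 i) (ι b (vv e (s + 1) 0 i)) : ℂ)
      = ∑ i ∈ Finset.range (2 * 2 ^ s), G (2 ^ (s + 1) + i) := by
    rw [show 2 * 2 ^ s = 2 ^ (s + 1) by rw [pow_succ]; ring]
    rw [Finset.sum_range]
    rfl
  have e1 : ∑ i : Fin (2 ^ s), (inner ℂ (vv e s 1 i) (ι b (vv e s 1 i)) : ℂ)
      = ∑ i ∈ Finset.range (2 ^ s), G (2 * (2 ^ s + i)) := by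
    rw [Finset.sum_range]; rfl
  have e2 : ∑ i : Fin (2 ^ s), (inner ℂ (vv e s 2 i) (ι b (vv e s 2 i)) : ℂ)
      = ∑ i ∈ Finset.range (2 ^ s), G (2 * (2 ^ s + i) + 1) := by
    rw [Finset.sum_range]; rfl
  rw [e0, e1, e2, sum_double, ← Finset.sum_add_distrib]
  refine Finset.sum_congr rfl fun i _ => ?_
  congr 2
  · rw [pow_succ]; ring
  · rw [pow_succ]; ring

theorem norm_eval_le (k : ℕ × Fin 3) :
    ‖(BoundedContinuousFunction.evalCLM ℂ k :
      BoundedContinuousFunction (ℕ × Fin 3) ℂ →L[ℂ] ℂ)‖ ≤ 1 :=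
  ContinuousLinearMap.opNorm_le_bound _ zero_le_one fun f => by
    rw [one_mul]
    exact f.norm_coe_le_norm k

include hA he in
/-- `S_p` is not approximately semi-amenable for `p > 1`. -/
theorem not_asa [CompleteSpace A] (hp1 : 1 < p) (h : SemiDefs.IsApproxSemiAmenable.{v, v} A) :
    False := by
  classical
  have hp : 1 ≤ p := hp1.le
  have hp0 : 0 < p := by linarith
  -- exponents
  have hinv : 1 / p < 1 := by rw [div_lt_one hp0]; exact hp1
  have hκ : 2 * kap p < 1 - 1 / p := by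
    unfold kap
    rcases le_total 0 (1 / 2 - 1 / p) with h0 | h0
    · rw [max_eq_right h0]
      have : 0 < 1 / p := by positivity
      linarith
    · rw [max_eq_left h0]; linarith
  have hκ0 : 0 ≤ kap p := le_max_left _ _
  set θ : ℝ := (1 / p + (1 - 2 * kap p)) / 2 with hθ
  have hθ1 : 1 / p < θ := by rw [hθ]; linarith
  have hθ2 : 2 * kap p + θ < 1 := by rw [hθ]; linarith
  set c : ℝ := (2 : ℝ) ^ (-θ) with hc
  have hc0 : 0 < c := by positivity
  have hc1 : c * (2 : ℝ) ^ (1 / p) < 1 := by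
    rw [hc, ← Real.rpow_add (by norm_num)]
    exact Real.rpow_lt_one_of_one_lt_of_neg (by norm_num) (by linarith)
  choose a ha1 ha2 using fun j => exists_a hA hp he hc0 hc1 j
  obtain ⟨t0, ht0, ht0n⟩ := exists_t hA hp he 0 0
  set ρ : ℝ := (2 : ℝ) ^ (2 * kap p) * c⁻¹ with hρ
  have hρ0 : 0 < ρ := by positivity
  have hρ2 : ρ < 2 := by
    have : ρ = (2 : ℝ) ^ (2 * kap p + θ) := by
      rw [hρ, hc, ← Real.rpow_neg (by norm_num), neg_neg, ← Real.rpow_add (by norm_num)]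
    rw [this]
    calc (2 : ℝ) ^ (2 * kap p + θ) < (2 : ℝ) ^ (1 : ℝ) :=
          Real.rpow_lt_rpow_of_exponent_lt (by norm_num) hθ2
      _ = 2 := Real.rpow_one 2
  set ε : ℝ := (1 - ρ / 2) / 8 with hε
  have hε0 : 0 < ε := by rw [hε]; linarith
  have hε1 : ε ≤ 1 / 8 := by rw [hε]; linarith
  obtain ⟨x, y, hxy⟩ := SchC.key (bet hA hp he) h (bet_bal hA hp he)
    (insert t0 (Finset.univ.image a)) hε0
  set g := gg hA hp he with hg
  -- the values on blocks
  have hval1 : ∀ (s : ℕ) (j : Fin 3), (BoundedContinuousFunction.evalCLM ℂ (s, j)).comp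
      (bet hA hp he (a j)) = (((W p s)⁻¹ * c ^ s : ℝ) : ℂ) • g s 0 := by
    intro s j
    ext b
    change bet hA hp he (a j) b (s, j) = (((W p s)⁻¹ * c ^ s : ℝ) : ℂ) * g s 0 b
    rw [bet_apply, trL_apply, hg, gg_apply]
    push_cast
    rw [mul_assoc]
    congr 1
    rw [Finset.mul_sum]
    refine Finset.sum_congr rfl fun i _ => ?_
    rw [hA.map_mul]
    change inner ℂ (vv e s j i) (ι (a j) (ι b (vv e s 0 i))) = _
    rw [ha2 j s i]
    push_cast
    rfl
  have hval2 : ∀ (s : ℕ) (j : Fin 3), (BoundedContinuousFunction.evalCLM ℂ (s, j)).comp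
      ((bet hA hp he).flip (a j)) = (((W p s)⁻¹ * c ^ s : ℝ) : ℂ) • g s j := by
    intro s j
    ext b
    change bet hA hp he b (a j) (s, j) = (((W p s)⁻¹ * c ^ s : ℝ) : ℂ) * g s j b
    rw [bet_apply, trL_apply, hg, gg_apply]
    push_cast
    rw [mul_assoc]
    congr 1
    rw [Finset.mul_sum]
    refine Finset.sum_congr rfl fun i _ => ?_
    rw [hA.map_mul]
    change inner ℂ (vv e s j i) (ι b (ι (a j) (vv e s 0 i))) = _
    rw [ha1 j s i, map_smul, inner_smul_right]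
    push_cast
    rfl
  have hdiff : ∀ (s : ℕ) (j : Fin 3), ‖x (g s 0) - y (g s j)‖ ≤ ε * ρ ^ s := by
    intro s j
    have h1 := (hxy (a j) (Finset.mem_insert_of_mem
      (Finset.mem_image_of_mem _ (Finset.mem_univ j)))).2
      (BoundedContinuousFunction.evalCLM ℂ (s, j))
    rw [hval1, hval2, map_smul, map_smul, ← smul_sub, norm_smul, Complex.norm_real,
      Real.norm_eq_abs] at h1
    have hW := W_pos p s
    have hpos : 0 < (W p s)⁻¹ * c ^ s := by positivity
    rw [abs_of_pos hpos] at h1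
    have h2 : (W p s)⁻¹ * c ^ s * ‖x (g s 0) - y (g s j)‖ ≤ ε := by
      refine h1.trans ?_
      have := norm_eval_le (s, j)
      nlinarith
    have h3 : ‖x (g s 0) - y (g s j)‖ ≤ ε / ((W p s)⁻¹ * c ^ s) := by
      rw [le_div_iff₀ hpos]; linarith
    refine h3.trans (le_of_eq ?_)
    rw [hρ, mul_pow, ← W_eq, inv_pow]
    field_simp
  -- the first block
  have hfirst : ‖1 - x (g 0 0)‖ ≤ ε := by
    have h1 := (hxy t0 (Finset.mem_insert_self _ _)).1 (g 0 0)
    have hv1 : ‖vv e 0 0 0‖ = 1 := (vv_orth he 0 0).1 0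
    have h2 : (g 0 0) t0 = 1 := by
      rw [hg, gg_apply]
      have h3 : ∑ i : Fin (2 ^ 0), (inner ℂ (vv e 0 0 i) (ι t0 (vv e 0 0 i)) : ℂ)
          = inner ℂ (vv e 0 0 0) (ι t0 (vv e 0 0 0)) := by
        rw [Fintype.sum_eq_single 0]
        intro i hi
        exact absurd (Subsingleton.elim (α := Fin 1) i 0) hi
      rw [h3, ht0, TT_apply he, if_pos rfl, inner_self_eq_norm_sq_to_K, hv1]
      simp
    have h4 : (g 0 0).comp (ContinuousLinearMap.mul ℂ A t0) = g 0 0 := by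
      ext b
      change g 0 0 (t0 * b) = g 0 0 b
      rw [hg, gg_apply, gg_apply]
      refine Finset.sum_congr rfl fun i _ => ?_
      rw [hA.map_mul]
      change inner ℂ (vv e 0 0 i) (ι t0 (ι b (vv e 0 0 i))) = _
      rw [ht0, TT_inner he, if_pos rfl]
    have h5 : ‖g 0 0‖ ≤ 1 := by
      have := norm_trL_le hA hp (vv e 0 0) (vv e 0 0) (vv_orth he 0 0) (vv_orth he 0 0)
      refine this.trans (le_of_eq ?_)
      simp
    rw [h2, h4] at h1
    refine h1.trans ?_
    nlinarith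
  -- the recursion
  have hrec : ∀ s, ‖x (g (s + 1) 0) - 2 * x (g s 0)‖ ≤ 4 * ε * ρ ^ s := by
    intro s
    have h1 := hdiff (s + 1) 0
    have h2 := hdiff s 1
    have h3 := hdiff s 2
    have h4 : y (g (s + 1) 0) = y (g s 1) + y (g s 2) := by
      rw [hg, gg_succ, map_add]
    have e1 : x (g (s + 1) 0) - 2 * x (g s 0) = (x (g (s + 1) 0) - y (g (s + 1) 0))
        - (x (g s 0) - y (g s 1)) - (x (g s 0) - y (g s 2)) := by
      rw [h4]; ring
    rw [e1]
    refine (norm_sub_le _ _).trans ((add_le_add (norm_sub_le _ _) le_rfl).trans ?_)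
    have h5 : ε * ρ ^ (s + 1) ≤ 2 * (ε * ρ ^ s) := by
      rw [pow_succ]
      have : 0 < ε * ρ ^ s := by positivity
      nlinarith
    linarith
  set X : ℕ → ℂ := fun s => x (g s 0) / 2 ^ s with hX
  have hXrec : ∀ s, ‖X (s + 1) - X s‖ ≤ 2 * ε * (ρ / 2) ^ s := by
    intro s
    have e1 : X (s + 1) - X s = (x (g (s + 1) 0) - 2 * x (g s 0)) / 2 ^ (s + 1) := by
      simp only [hX]
      rw [pow_succ]
      field_simp
    rw [e1, norm_div, norm_pow]
    have e2 : ‖(2 : ℂ)‖ = 2 := by simp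
    rw [e2, div_le_iff₀ (by positivity)]
    refine (hrec s).trans (le_of_eq ?_)
    rw [div_pow, pow_succ]
    field_simp
    norm_num
  have hXsum : ∀ s, ‖X s - X 0‖ ≤ 2 * ε * (1 - (ρ / 2) ^ s) / (1 - ρ / 2) := by
    intro s
    have hr : 0 < 1 - ρ / 2 := by linarith
    induction s with
    | zero => simp
    | succ s ih =>
      have e1 : X (s + 1) - X 0 = (X (s + 1) - X s) + (X s - X 0) := by ring
      rw [e1]
      refine (norm_add_le _ _).trans ((add_le_add (hXrec s) ih).trans (le_of_eq ?_))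
      rw [eq_div_iff hr.ne', add_mul, div_mul_cancel₀ _ hr.ne', pow_succ]
      ring
  have hXlow : ∀ s, (1 : ℝ) / 2 ≤ ‖X s‖ := by
    intro s
    have h1 : ‖X s - X 0‖ ≤ 1 / 4 := by
      refine (hXsum s).trans ?_
      have hr : 0 < 1 - ρ / 2 := by linarith
      rw [div_le_iff₀ hr, hε]
      have : 0 ≤ (ρ / 2) ^ s := by positivity
      nlinarith
    have h2 : ‖1 - X 0‖ ≤ 1 / 8 := by
      have : X 0 = x (g 0 0) := by simp [hX]
      rw [this]
      linarith
    have h3 : (1 : ℝ) ≤ ‖X s‖ + ‖X s - X 0‖ + ‖1 - X 0‖ := by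
      calc (1 : ℝ) = ‖(1 : ℂ)‖ := norm_one.symm
        _ = ‖(X s - (X s - X 0)) + (1 - X 0)‖ := by congr 1; ring
        _ ≤ ‖X s - (X s - X 0)‖ + ‖1 - X 0‖ := norm_add_le _ _
        _ ≤ _ := by gcongr; exact norm_sub_le _ _
    linarith
  -- decay
  have hXup : ∀ s, ‖X s‖ ≤ ‖x‖ * ((2 : ℝ) ^ (1 / 2 + kap p - 1)) ^ s := by
    intro s
    have h1 : ‖x (g s 0)‖ ≤ ‖x‖ * ((2 ^ s : ℕ) : ℝ) ^ (1 / 2 + kap p) :=
      (x.le_opNorm _).trans (mul_le_mul_of_nonneg_left
        (norm_trL_le hA hp (vv e s 0) (vv e s 0) (vv_orth he s 0) (vv_orth he s 0))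
        (norm_nonneg _))
    simp only [hX]
    rw [norm_div, norm_pow]
    have e2 : ‖(2 : ℂ)‖ = 2 := by simp
    rw [e2, div_le_iff₀ (by positivity)]
    refine h1.trans (le_of_eq ?_)
    rw [mul_assoc]
    congr 1
    rw [← Real.rpow_natCast ((2 : ℝ) ^ (1 / 2 + kap p - 1)), ← Real.rpow_mul (by norm_num)]
    push_cast
    rw [← Real.rpow_natCast 2 s, ← Real.rpow_mul (by norm_num), ← Real.rpow_add (by norm_num)]
    congr 1
    ring
  have hlim : Tendsto (fun s => ‖x‖ * ((2 : ℝ) ^ (1 / 2 + kap p - 1)) ^ s) atTop (𝓝 0) := by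
    have h1 : (2 : ℝ) ^ (1 / 2 + kap p - 1) < 1 := by
      apply Real.rpow_lt_one_of_one_lt_of_neg (by norm_num)
      have : 0 < 1 / p := by positivity
      linarith
    have := (tendsto_pow_atTop_nhds_zero_of_lt_one (by positivity) h1).const_mul ‖x‖
    rwa [mul_zero] at this
  obtain ⟨s, hs⟩ := (hlim.eventually (gt_mem_nhds (by norm_num : (0 : ℝ) < 1 / 2))).exists
  have := hXlow s
  have := hXup s
  linarith

end Model

end Pool.Agent.R302.SchD
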