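import Mathlib

open Filter

/-!
# Banach bimodules and approximate semi-amenability
-/

namespace Pool.Agent.R302.SemiAmenDef

universe u w

/-- A Banach `A`-bimodule structure on the Banach space `X`: bounded bilinear maps
`l a x = a · x` and `r a x = x · a` satisfying the bimodule laws. -/
structure Bimodule (A : Type u) (X : Type w) [NonUnitalNormedRing A] [NormedSpace ℂ A]
    [NormedAddCommGroup X] [NormedSpace ℂ X] where
  /-- the left action `l a x = a · x` -/
  l : A → X → X
  /-- the right action `r a x = x · a` -/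
  r : A → X → X
  bounded_l : IsBoundedBilinearMap ℂ (fun p : A × X => l p.1 p.2)
  bounded_r : IsBoundedBilinearMap ℂ (fun p : A × X => r p.1 p.2)
  mul_l : ∀ (a b : A) (x : X), l (a * b) x = l a (l b x)
  mul_r : ∀ (a b : A) (x : X), r (a * b) x = r b (r a x)
  l_r : ∀ (a b : A) (x : X), l a (r b x) = r b (l a x)

section

variable {A : Type u} {X : Type w} [NonUnitalNormedRing A] [NormedSpace ℂ A]
    [NormedAddCommGroup X] [NormedSpace ℂ X]

/-- `D : A → X*` is a bounded derivation into the dual bimodule `X*`, whose actions are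
`(a · φ)(x) = φ(x · a)` and `(φ · a)(x) = φ(a · x)`; that is, `D` is bounded linear and
`D(ab) = a · D(b) + D(a) · b`. -/
def IsDerivation (M : Bimodule A X) (D : A → (X →L[ℂ] ℂ)) : Prop :=
  IsBoundedLinearMap ℂ D ∧ ∀ (a b : A) (x : X), D (a * b) x = D b (M.r a x) + D a (M.l b x)

/-- `D : A → X*` is approximately semi-inner: there are nets `ξ_i`, `η_i` in `X*` such that
`a · ξ_i - η_i · a` converges to `D(a)` in the norm of `X*`, for every `a ∈ A`. -/
def IsApproxSemiInner (M : Bimodule A X) (D : A → (X →L[ℂ] ℂ)) : Prop :=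
  ∃ (I : Type u) (_ : Preorder I) (_ : IsDirected I (· ≤ ·)) (_ : Nonempty I)
    (ξ η : I → (X →L[ℂ] ℂ)), ∀ (a : A), ∀ ε > 0, ∀ᶠ i in atTop, ∀ x : X,
      ‖D a x - (ξ i (M.r a x) - η i (M.l a x))‖ ≤ ε * ‖x‖

end

/-- `A` is approximately semi-amenable: for every Banach `A`-bimodule `X`, every bounded derivation
`D : A → X*` is approximately semi-inner. -/
def IsApproxSemiAmenable (A : Type u) [NonUnitalNormedRing A] [NormedSpace ℂ A] : Prop :=
  ∀ (X : Type w) [NormedAddCommGroup X] [NormedSpace ℂ X] [CompleteSpace X]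
    (M : Bimodule A X) (D : A → (X →L[ℂ] ℂ)), IsDerivation M D → IsApproxSemiInner M D

end Pool.Agent.R302.SemiAmenDef
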