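import Pool.Agent.R302.SemiB
import Pool.Agent.R302.SemiAmenDef

open Filter Topology

namespace Pool.Agent.R302.SemiC

open Pool.Agent.R302

universe u w

section

variable {A : Type u} {X : Type w} [NonUnitalNormedRing A] [NormedSpace ℂ A]
    [NormedAddCommGroup X] [NormedSpace ℂ X]

/-- from continuous linear maps to plain maps. -/
noncomputable def ofCLM (M : SemiDefs.BanachBimodule A X) : SemiAmenDef.Bimodule A X where
  l a x := M.l a x
  r a x := M.r a x
  bounded_l := M.l.isBoundedBilinearMap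
  bounded_r := M.r.isBoundedBilinearMap
  mul_l := M.mul_l
  mul_r := M.mul_r
  l_r := M.l_r

/-- from plain maps to continuous linear maps. -/
noncomputable def toCLM (M : SemiAmenDef.Bimodule A X) : SemiDefs.BanachBimodule A X where
  l := M.bounded_l.toContinuousLinearMap
  r := M.bounded_r.toContinuousLinearMap
  mul_l := M.mul_l
  mul_r := M.mul_r
  l_r := M.l_r

theorem old_of_new (h : SemiAmenDef.IsApproxSemiAmenable.{u, w} A) :
    SemiDefs.IsApproxSemiAmenable.{u, w} A := by
  intro X _ _ _ M D hD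
  obtain ⟨I, hp, hd, hn, ξ, η, hlim⟩ := h X (ofCLM M) (fun a => D a)
    ⟨D.isBoundedLinearMap, fun a b x => by
      have := congrArg (fun f : X →L[ℂ] ℂ => f x) (hD a b)
      exact this⟩
  refine ⟨I, hp, hd, hn, ξ, η, fun a => ?_⟩
  rw [Metric.tendsto_nhds]
  intro ε hε
  filter_upwards [hlim a (ε / 2) (half_pos hε)] with i hi
  have h1 : ‖D a - (M.dual.l a (ξ i) - M.dual.r a (η i))‖ ≤ ε / 2 :=
    ContinuousLinearMap.opNorm_le_bound _ (half_pos hε).le fun x => hi x
  rw [dist_comm, dist_eq_norm]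
  linarith

theorem new_of_old (h : SemiDefs.IsApproxSemiAmenable.{u, w} A) :
    SemiAmenDef.IsApproxSemiAmenable.{u, w} A := by
  intro X _ _ _ M D hD
  let D' : A →L[ℂ] (X →L[ℂ] ℂ) := IsBoundedLinearMap.toContinuousLinearMap D hD.1
  obtain ⟨I, hp, hd, hn, ξ, η, hlim⟩ := h X (toCLM M) D'
    (fun a b => by
      ext x
      exact hD.2 a b x)
  refine ⟨I, hp, hd, hn, ξ, η, fun a ε hε => ?_⟩
  filter_upwards [(Metric.tendsto_nhds.1 (hlim a)) ε hε] with i hi x
  rw [dist_comm, dist_eq_norm] at hi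
  refine le_trans (ContinuousLinearMap.le_opNorm (D' a
    - ((toCLM M).dual.l a (ξ i) - (toCLM M).dual.r a (η i))) x) ?_
  gcongr

end

end Pool.Agent.R302.SemiC
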