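import Pool.Agent.R302.SchB
import Pool.Agent.R302.SemiC

open Filter Topology

namespace Pool.Agent.R302.SchE

open Pool.Agent.R302.SchattenDef Pool.Agent.R302.SchA Pool.Agent.R302.SchB
open Pool.Agent.R302.SemiDefs Pool.Agent.R302.SemiA

universe u v w

set_option linter.unusedSectionVars false
set_option maxSynthPendingDepth 3

variable {H : Type u} [NormedAddCommGroup H] [InnerProductSpace ℂ H]

/-- partial sums of the expansion -/
noncomputable def pn (e : ℕ → H) (n : ℕ) (x : H) : H :=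
  ∑ i ∈ Finset.range n, (inner ℂ (e i) x : ℂ) • e i

theorem rk_add_left (u u' x : H) : rk (u + u') x = rk u x + rk u' x := by ext y; simp
theorem rk_smul_left (c : ℂ) (u x : H) : rk (c • u) x = c • rk u x := by
  ext y; simp [smul_smul, mul_comm]
theorem rk_sub_left (u u' x : H) : rk (u - u') x = rk u x - rk u' x := by
  ext y; simp [smul_sub]
theorem rk_sub_right (u x x' : H) : rk u (x - x') = rk u x - rk u x' := by
  ext y; simp [sub_smul]
theorem rk_smul_right (c : ℂ) (u x : H) : rk u (c • x) = (starRingEnd ℂ c) • rk u x := by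
  ext y
  simp [mul_smul]
  rw [smul_comm]

theorem rk_comp_rk (u v u' v' : H) : (rk u v).comp (rk u' v') = (inner ℂ v u' : ℂ) • rk u v' := by
  ext y; simp [smul_smul, mul_comm]

variable [CompleteSpace H]

section Model

variable {A : Type v} [NonUnitalNormedRing A] [NormedSpace ℂ A]
  [IsScalarTower ℂ A A] [SMulCommClass ℂ A A]
  {ι : A →ₗ[ℂ] (H →L[ℂ] H)} (hA : IsSchattenClass 1 A ι)

include hA in
theorem exists_r : ∃ r : H → H → A, (∀ u x, ι (r u x) = rk u x) ∧ ∀ u x, ‖r u x‖ ≤ ‖u‖ * ‖x‖ := by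
  have h1 : ∀ u x : H, ∃ a : A, ι a = rk u x ∧ ‖a‖ ≤ ‖u‖ * ‖x‖ := by
    intro u x
    obtain ⟨a, ha, hn⟩ := exists_of_rank hA le_rfl (rank_rk_le u x)
    refine ⟨a, ha, hn.trans ?_⟩
    simpa using norm_rk_le u x
  choose r h2 h3 using h1
  exact ⟨r, h2, h3⟩

variable {Y : Type w} [NormedAddCommGroup Y] [NormedSpace ℂ Y] (M : BanachBimodule A Y)
  (D : A →L[ℂ] Y)

/-- the error functional -/
noncomputable def Err (ξ η : Y) : A →L[ℂ] Y := D - (M.l.flip ξ - M.r.flip η)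

theorem Err_apply (ξ η : Y) (a : A) : Err M D ξ η a = D a - (M.l a ξ - M.r a η) := rfl

variable (r : H → H → A) (e : ℕ → H)

/-- the elements `P_n` -/
noncomputable def Pn (n : ℕ) : A := ∑ i ∈ Finset.range n, r (e i) (e i)

/-- the elements `T_n` -/
noncomputable def Tn (n : ℕ) : Y := ∑ i ∈ Finset.range n, M.r (r (e 0) (e i)) (D (r (e i) (e 0)))

/-- the error maps -/
noncomputable def En (n : ℕ) : A →L[ℂ] Y :=
  Err M D (D (Pn r e n) - Tn M D r e n) (-Tn M D r e n)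

variable {M D r e}

include hA in
theorem En_rank_one (hD : IsDerivation M D) (hr : ∀ u x, ι (r u x) = rk u x)
    (he : ‖e 0‖ = 1) (n : ℕ) (u x : H) :
    En M D r e n (r u x) = D (r u (x - pn e n x))
      + M.r (r (e 0) (pn e n x)) (D (r u (e 0))) - M.r (r (e 0) x) (D (r (pn e n u) (e 0))) := by
  have hinj := hA.injective
  have hg : (inner ℂ (e 0) (e 0) : ℂ) = 1 := by
    rw [inner_self_eq_norm_sq_to_K, he]; simp
  -- sums
  have hsumr : ∀ (v : H), ∑ i ∈ Finset.range n, (inner ℂ x (e i) : ℂ) • r v (e i)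
      = r v (pn e n x) := by
    intro v
    apply hinj
    rw [map_sum, hr]
    have : ∀ m : ℕ, ∑ i ∈ Finset.range m, ι ((inner ℂ x (e i) : ℂ) • r v (e i))
        = rk v (pn e m x) := by
      intro m
      ext y
      rw [sum_apply]
      unfold pn
      rw [rk_apply, sum_inner, Finset.sum_smul]
      refine Finset.sum_congr rfl fun i _ => ?_
      rw [map_smul, hr, inner_smul_left, inner_conj_symm]
      simp [smul_smul]
    exact this n
  have hsuml : ∑ i ∈ Finset.range n, (inner ℂ (e i) u : ℂ) • r (e i) (e 0) = r (pn e n u) (e 0) := by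
    apply hinj
    rw [map_sum, hr]
    ext y
    rw [sum_apply]
    unfold pn
    rw [rk_apply, Finset.smul_sum]
    refine Finset.sum_congr rfl fun i _ => ?_
    rw [map_smul, hr]
    simp [smul_smul, mul_comm]
  have hmul : ∀ u v u' v' : H, r u v * r u' v' = (inner ℂ v u' : ℂ) • r u v' := by
    intro u v u' v'
    apply hinj
    rw [hA.map_mul, hr, hr, rk_comp_rk, map_smul, hr]
  have h1 : M.l (r u x) (Tn M D r e n) = M.r (r (e 0) (pn e n x)) (D (r u (e 0)))
      - M.r (Pn r e n) (D (r u x)) := by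
    unfold Tn Pn
    rw [map_sum, map_sum, sum_apply, ← hsumr (e 0), map_sum, sum_apply,
      ← Finset.sum_sub_distrib]
    refine Finset.sum_congr rfl fun i _ => ?_
    rw [M.l_r]
    have h2 : M.l (r u x) (D (r (e i) (e 0))) = D (r u x * r (e i) (e 0))
        - M.r (r (e i) (e 0)) (D (r u x)) := by
      rw [hD]; abel
    rw [h2, map_sub, ← M.mul_r, hmul, hmul, hg, one_smul, map_smul, map_smul, map_smul]
    rfl
  have h3 : M.r (r u x) (Tn M D r e n) = M.r (r (e 0) x) (D (r (pn e n u) (e 0))) := by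
    unfold Tn
    rw [map_sum, ← hsuml, map_sum, map_sum]
    refine Finset.sum_congr rfl fun i _ => ?_
    rw [← M.mul_r, hmul, map_smul, map_smul, map_smul]
    rfl
  have h4 : r u x * Pn r e n = r u (pn e n x) := by
    unfold Pn
    rw [Finset.mul_sum, ← hsumr u]
    exact Finset.sum_congr rfl fun i _ => hmul _ _ _ _
  have h5 : D (r u (x - pn e n x)) = D (r u x) - (M.l (r u x) (D (Pn r e n))
      + M.r (Pn r e n) (D (r u x))) := by
    rw [← hD, h4, ← map_sub]
    congr 1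
    apply hinj
    rw [map_sub, hr, hr, hr, rk_sub_right]
  rw [h5]
  unfold En
  rw [Err_apply, map_sub, map_neg, h1, h3]
  abel

theorem pn_norm_le (he : Orthonormal ℂ e) (n : ℕ) (x : H) : ‖x - pn e n x‖ ≤ 2 * ‖x‖ := by
  have h1 : ‖pn e n x‖ ≤ ‖x‖ := by
    have h2 : ‖pn e n x‖ ^ 2 ≤ ‖x‖ ^ 2 := by
      unfold pn
      rw [← inner_self_eq_norm_sq (𝕜 := ℂ), he.inner_sum]
      simp only [map_sum]
      refine le_trans (le_of_eq ?_) (he.sum_inner_products_le (s := Finset.range n) x)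
      refine Finset.sum_congr rfl fun i _ => ?_
      rw [← Complex.normSq_eq_conj_mul_self, Complex.normSq_eq_norm_sq]
      exact Complex.ofReal_re _
    exact (sq_le_sq₀ (norm_nonneg _) (norm_nonneg _)).1 h2
  refine (norm_sub_le _ _).trans ?_
  linarith

include hA in
theorem En_rank_one_norm (hD : IsDerivation M D) (hr : ∀ u x, ι (r u x) = rk u x)
    (hrn : ∀ u x, ‖r u x‖ ≤ ‖u‖ * ‖x‖)
    (he : ‖e 0‖ = 1) (n : ℕ) (u x : H) :
    ‖En M D r e n (r u x)‖ ≤ ‖D‖ * ‖u‖ * ‖x - pn e n x‖ * (1 + ‖M.r‖)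
      + ‖M.r‖ * ‖D‖ * ‖u - pn e n u‖ * ‖x‖ := by
  have hinj := hA.injective
  rw [En_rank_one hA hD hr he]
  have e1 : M.r (r (e 0) (pn e n x)) (D (r u (e 0))) - M.r (r (e 0) x) (D (r (pn e n u) (e 0)))
      = -M.r (r (e 0) (x - pn e n x)) (D (r u (e 0)))
        + M.r (r (e 0) x) (D (r (u - pn e n u) (e 0))) := by
    have h1 : r (e 0) (x - pn e n x) = r (e 0) x - r (e 0) (pn e n x) := by
      apply hinj; rw [map_sub, hr, hr, hr, rk_sub_right]
    have h2 : r (u - pn e n u) (e 0) = r u (e 0) - r (pn e n u) (e 0) := by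
      apply hinj; rw [map_sub, hr, hr, hr, rk_sub_left]
    rw [h1, h2, map_sub, map_sub, map_sub]
    change _ = -(M.r (r (e 0) x) (D (r u (e 0))) - M.r (r (e 0) (pn e n x)) (D (r u (e 0)))) + _
    abel
  rw [add_sub_assoc, e1]
  have b1 : ‖D (r u (x - pn e n x))‖ ≤ ‖D‖ * (‖u‖ * ‖x - pn e n x‖) :=
    (D.le_opNorm _).trans (mul_le_mul_of_nonneg_left (hrn _ _) (norm_nonneg _))
  have b2 : ‖M.r (r (e 0) (x - pn e n x)) (D (r u (e 0)))‖
      ≤ ‖M.r‖ * (‖x - pn e n x‖) * (‖D‖ * ‖u‖) := by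
    refine (M.r.le_opNorm₂ _ _).trans ?_
    have h1 := hrn (e 0) (x - pn e n x)
    have h2 := hrn u (e 0)
    rw [he, one_mul] at h1
    rw [he, mul_one] at h2
    have h3 : ‖D (r u (e 0))‖ ≤ ‖D‖ * ‖u‖ :=
      (D.le_opNorm _).trans (mul_le_mul_of_nonneg_left h2 (norm_nonneg _))
    gcongr
  have b3 : ‖M.r (r (e 0) x) (D (r (u - pn e n u) (e 0)))‖
      ≤ ‖M.r‖ * ‖x‖ * (‖D‖ * ‖u - pn e n u‖) := by
    refine (M.r.le_opNorm₂ _ _).trans ?_
    have h1 := hrn (e 0) x
    have h2 := hrn (u - pn e n u) (e 0)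
    rw [he, one_mul] at h1
    rw [he, mul_one] at h2
    have h3 : ‖D (r (u - pn e n u) (e 0))‖ ≤ ‖D‖ * ‖u - pn e n u‖ :=
      (D.le_opNorm _).trans (mul_le_mul_of_nonneg_left h2 (norm_nonneg _))
    gcongr
  refine (norm_add_le _ _).trans ((add_le_add b1 ((norm_add_le _ _).trans
    (add_le_add ((norm_neg _).le.trans b2) b3))).trans (le_of_eq ?_))
  ring

/-- the constant -/
noncomputable def Cst (M : BanachBimodule A Y) (D : A →L[ℂ] Y) : ℝ :=
  2 * ‖D‖ * (1 + ‖M.r‖) + 2 * ‖M.r‖ * ‖D‖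

theorem Cst_nonneg : 0 ≤ Cst M D := by unfold Cst; positivity

include hA in
theorem En_rank_one_norm' (hD : IsDerivation M D) (hr : ∀ u x, ι (r u x) = rk u x)
    (hrn : ∀ u x, ‖r u x‖ ≤ ‖u‖ * ‖x‖)
    (he : Orthonormal ℂ e) (n : ℕ) (u x : H) :
    ‖En M D r e n (r u x)‖ ≤ Cst M D * (‖u‖ * ‖x‖) := by
  refine (En_rank_one_norm hA hD hr hrn (he.1 0) n u x).trans ?_
  have h1 := pn_norm_le he n x
  have h2 := pn_norm_le he n u
  unfold Cst
  calc ‖D‖ * ‖u‖ * ‖x - pn e n x‖ * (1 + ‖M.r‖) + ‖M.r‖ * ‖D‖ * ‖u - pn e n u‖ * ‖x‖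
      ≤ ‖D‖ * ‖u‖ * (2 * ‖x‖) * (1 + ‖M.r‖) + ‖M.r‖ * ‖D‖ * (2 * ‖u‖) * ‖x‖ := by gcongr
    _ = _ := by ring

include hA in
theorem En_rank_one_tendsto (hD : IsDerivation M D) (hr : ∀ u x, ι (r u x) = rk u x)
    (hrn : ∀ u x, ‖r u x‖ ≤ ‖u‖ * ‖x‖)
    (he : Orthonormal ℂ e) (hpn : ∀ x, Tendsto (fun n => ‖x - pn e n x‖) atTop (𝓝 0)) (u x : H) :
    Tendsto (fun n => En M D r e n (r u x)) atTop (𝓝 0) := by
  rw [tendsto_zero_iff_norm_tendsto_zero]
  refine squeeze_zero (fun n => norm_nonneg _)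
    (fun n => En_rank_one_norm hA hD hr hrn (he.1 0) n u x) ?_
  have h1 : Tendsto (fun n => ‖D‖ * ‖u‖ * ‖x - pn e n x‖ * (1 + ‖M.r‖)
      + ‖M.r‖ * ‖D‖ * ‖u - pn e n u‖ * ‖x‖) atTop
      (𝓝 (‖D‖ * ‖u‖ * 0 * (1 + ‖M.r‖) + ‖M.r‖ * ‖D‖ * 0 * ‖x‖)) :=
    (((hpn x).const_mul _).mul_const _).add (((hpn u).const_mul _).mul_const _)
  simpa using h1

include hA in
theorem finrank_decomp (hr : ∀ u x, ι (r u x) = rk u x) {g : A} {m : ℕ}
    (hg : (ι g : H →ₗ[ℂ] H).rank ≤ (m : Cardinal)) :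
    ∃ (d : ℕ) (b x : Fin d → H), d ≤ m ∧ (∀ i, ‖b i‖ = 1) ∧ (∀ i, ‖x i‖ ≤ ‖ι g‖) ∧
      g = ∑ i, r (b i) (x i) := by
  have hfr : Module.Finite ℂ (LinearMap.range (ι g : H →ₗ[ℂ] H)) := by
    rw [← Module.rank_lt_aleph0_iff]
    exact lt_of_le_of_lt hg Cardinal.natCast_lt_aleph0
  have hfr2 : Module.finrank ℂ (LinearMap.range (ι g : H →ₗ[ℂ] H)) ≤ m := by
    have := hg
    rw [LinearMap.rank, ← Module.finrank_eq_rank] at this
    exact_mod_cast this
  let b := stdOrthonormalBasis ℂ (LinearMap.range (ι g : H →ₗ[ℂ] H))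
  refine ⟨_, fun i => (b i : H), fun i => ContinuousLinearMap.adjoint (ι g) (b i : H), hfr2,
    fun i => ?_, fun i => ?_, ?_⟩
  · exact b.orthonormal.1 i
  · refine ((ContinuousLinearMap.adjoint (ι g)).le_opNorm _).trans ?_
    have h1 : ‖((b i : LinearMap.range (ι g : H →ₗ[ℂ] H)) : H)‖ = 1 := b.orthonormal.1 i
    rw [h1, mul_one]
    exact (LinearIsometryEquiv.norm_map _ _).le
  · apply hA.injective
    rw [map_sum]
    ext y
    rw [sum_apply]
    have h1 := b.sum_repr' ⟨ι g y, ⟨y, rfl⟩⟩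
    have h2 := congrArg Subtype.val h1
    refine h2.symm.trans ?_
    rw [Submodule.coe_sum]
    refine Finset.sum_congr rfl fun i _ => ?_
    rw [hr, rk_apply, ContinuousLinearMap.adjoint_inner_left]
    rfl

include hA in
theorem En_fin (hD : IsDerivation M D) (hr : ∀ u x, ι (r u x) = rk u x)
    (hrn : ∀ u x, ‖r u x‖ ≤ ‖u‖ * ‖x‖)
    (he : Orthonormal ℂ e) (hpn : ∀ x, Tendsto (fun n => ‖x - pn e n x‖) atTop (𝓝 0))
    {g : A} {m : ℕ} (hg : (ι g : H →ₗ[ℂ] H).rank ≤ (m : Cardinal)) :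
    (∀ n, ‖En M D r e n g‖ ≤ Cst M D * (m * ‖ι g‖)) ∧
      Tendsto (fun n => En M D r e n g) atTop (𝓝 0) := by
  obtain ⟨d, b, x, hd, hb, hx, hsum⟩ := finrank_decomp hA hr hg
  constructor
  · intro n
    have h0 : En M D r e n g = ∑ i, En M D r e n (r (b i) (x i)) := by
      conv_lhs => rw [hsum]
      rw [map_sum]
    rw [h0]
    refine (norm_sum_le _ _).trans ?_
    have h1 : ∀ i ∈ (Finset.univ : Finset (Fin d)), ‖En M D r e n (r (b i) (x i))‖
        ≤ Cst M D * ‖ι g‖ := by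
      intro i _
      refine (En_rank_one_norm' hA hD hr hrn he n _ _).trans ?_
      rw [hb i, one_mul]
      exact mul_le_mul_of_nonneg_left (hx i) Cst_nonneg
    refine (Finset.sum_le_sum h1).trans ?_
    rw [Finset.sum_const, Finset.card_univ, Fintype.card_fin, nsmul_eq_mul]
    have h2 : (d : ℝ) ≤ m := by exact_mod_cast hd
    have h3 : 0 ≤ Cst M D * ‖ι g‖ := mul_nonneg Cst_nonneg (norm_nonneg _)
    calc (d : ℝ) * (Cst M D * ‖ι g‖) ≤ m * (Cst M D * ‖ι g‖) :=
          mul_le_mul_of_nonneg_right h2 h3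
      _ = _ := by ring
  · have h0 : ∀ n, En M D r e n g = ∑ i, En M D r e n (r (b i) (x i)) := by
      intro n
      conv_lhs => rw [hsum]
      rw [map_sum]
    simp only [h0]
    have := tendsto_finsetSum (Finset.univ : Finset (Fin d))
      (fun i _ => En_rank_one_tendsto hA hD hr hrn he hpn (b i) (x i))
    simpa using this

include hA in
theorem En_tendsto [CompleteSpace A] [CompleteSpace Y] (hD : IsDerivation M D)
    (hr : ∀ u x, ι (r u x) = rk u x)
    (hrn : ∀ u x, ‖r u x‖ ≤ ‖u‖ * ‖x‖)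
    (he : Orthonormal ℂ e) (hpn : ∀ x, Tendsto (fun n => ‖x - pn e n x‖) atTop (𝓝 0)) (a : A) :
    Tendsto (fun n => En M D r e n a) atTop (𝓝 0) := by
  set T := ι a with hT
  choose F hF1 hF2 using fun k : ℕ => exists_lt_sv T (2 ^ k)
    (δ := (1 / 4 : ℝ) ^ k) (by positivity)
  obtain ⟨F', hF'0, hF's⟩ : ∃ F' : ℕ → (H →L[ℂ] H), F' 0 = 0 ∧ ∀ k, F' (k + 1) = F k :=
    ⟨fun k => Nat.casesOn k 0 F, rfl, fun k => rfl⟩
  have hF'rank : ∀ k, ((F' k : H →L[ℂ] H) : H →ₗ[ℂ] H).rank ≤ ((2 ^ k : ℕ) : Cardinal) := by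
    intro k
    cases k with
    | zero => rw [hF'0]; exact rank_zero_le _
    | succ k =>
      rw [hF's]
      refine (hF1 k).trans ?_
      have : 2 ^ k ≤ 2 ^ (k + 1) := Nat.pow_le_pow_right (by norm_num) (Nat.le_succ k)
      exact_mod_cast this
  set τ : ℕ → ℝ := fun k => ‖T - F' k‖ with hτ
  have hsv : Summable fun k : ℕ => (2 : ℝ) ^ k * sv T (2 ^ k) := by
    have h1 : Summable fun n => sv T n := by
      have := summable_sv hA le_rfl a
      simpa using this
    exact (summable_condensed_iff_of_nonneg (fun n => sv_nonneg T n)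
      (fun m n _ hmn => sv_anti T hmn)).2 h1
  have hτsum : Summable fun k => (2 : ℝ) ^ k * τ k := by
    rw [← summable_nat_add_iff 1]
    refine Summable.of_nonneg_of_le (fun k => by positivity) (fun k => ?_)
      ((hsv.mul_left 2).add ((summable_geometric_of_lt_one (by norm_num)
        (by norm_num : (1 / 2 : ℝ) < 1)).mul_left 2))
    have h1 : τ (k + 1) ≤ sv T (2 ^ k) + (1 / 4) ^ k := by
      simp only [hτ, hF's]
      exact (hF2 k).le
    calc (2 : ℝ) ^ (k + 1) * τ (k + 1) ≤ 2 ^ (k + 1) * (sv T (2 ^ k) + (1 / 4) ^ k) := by gcongr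
      _ = 2 * (2 ^ k * sv T (2 ^ k)) + 2 * (1 / 2) ^ k := by
          have : (2 : ℝ) ^ k * (1 / 4) ^ k = (1 / 2) ^ k := by
            rw [← mul_pow]; norm_num
          rw [← this, pow_succ]; ring
  have hτ0 : Tendsto τ atTop (𝓝 0) := by
    refine squeeze_zero (fun k => norm_nonneg _) (fun k => ?_) hτsum.tendsto_atTop_zero
    have h1 : (1 : ℝ) ≤ 2 ^ k := one_le_pow₀ (by norm_num)
    have h2 : 0 ≤ τ k := norm_nonneg _
    nlinarith
  have hGrank : ∀ k, ((F' (k + 1) - F' k : H →L[ℂ] H) : H →ₗ[ℂ] H).rank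
      ≤ ((2 ^ (k + 1) : ℕ) : Cardinal) := by
    intro k
    rw [sub_eq_add_neg]
    have h1 : ((F' (k + 1) : H →L[ℂ] H) : H →ₗ[ℂ] H).rank ≤ ((2 ^ k : ℕ) : Cardinal) := by
      rw [hF's]
      refine (hF1 k).trans ?_
      exact_mod_cast le_rfl
    have h2 : ((-F' k : H →L[ℂ] H) : H →ₗ[ℂ] H).rank ≤ ((2 ^ k : ℕ) : Cardinal) := by
      rw [rank_neg']
      exact hF'rank k
    have h3 := rank_add_le' h1 h2
    rw [show 2 ^ (k + 1) = 2 ^ k + 2 ^ k by rw [pow_succ]; ring]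
    exact h3
  choose g hg1 hg2 using fun k => exists_of_rank hA le_rfl (hGrank k)
  have hGnorm : ∀ k, ‖F' (k + 1) - F' k‖ ≤ τ (k + 1) + τ k := by
    intro k
    have : F' (k + 1) - F' k = -(T - F' (k + 1)) + (T - F' k) := by abel
    rw [this]
    refine (norm_add_le _ _).trans ?_
    rw [norm_neg]
  set B : ℕ → ℝ := fun k => (2 : ℝ) ^ (k + 1) * (τ (k + 1) + τ k) with hB
  have hBsum : Summable B := by
    have h1 : Summable fun k => (2 : ℝ) ^ (k + 1) * τ (k + 1) :=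
      (summable_nat_add_iff 1).2 hτsum
    refine (h1.add (hτsum.mul_left 2)).congr fun k => ?_
    simp only [hB]
    rw [pow_succ]; ring
  have hgB : ∀ k, ‖g k‖ ≤ B k := by
    intro k
    refine (hg2 k).trans ?_
    simp only [hB]
    rw [div_one, Real.rpow_one]
    push_cast
    exact mul_le_mul_of_nonneg_left (hGnorm k) (by positivity)
  have hgsum : Summable g := Summable.of_norm_bounded hBsum hgB
  have hga : ∑' k, g k = a := by
    apply hA.injective
    have hιc : Continuous ι := by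
      have := (ι.mkContinuous 1 (fun a => by rw [one_mul]; exact norm_ι_le hA le_rfl a)).continuous
      exact this
    have h1 : Tendsto (fun n => ∑ k ∈ Finset.range n, ι (g k)) atTop (𝓝 (ι (∑' k, g k))) := by
      have h2 := (hιc.tendsto _).comp hgsum.hasSum.tendsto_sum_nat
      simpa [Function.comp_def, map_sum] using h2
    have h3 : ∀ n, ∑ k ∈ Finset.range n, ι (g k) = F' n := by
      intro n
      simp only [hg1]
      rw [Finset.sum_range_sub, hF'0, sub_zero]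
    simp only [h3] at h1
    have h4 : Tendsto F' atTop (𝓝 T) := by
      rw [tendsto_iff_norm_sub_tendsto_zero]
      refine hτ0.congr fun n => ?_
      simp only [hτ]
      rw [norm_sub_rev]
    exact tendsto_nhds_unique h1 h4
  have hEn : ∀ n, En M D r e n a = ∑' k, En M D r e n (g k) := by
    intro n
    rw [← hga]
    exact (En M D r e n).map_tsum hgsum
  simp only [hEn]
  have hfin : ∀ k, (∀ n, ‖En M D r e n (g k)‖ ≤ Cst M D * B k) ∧
      Tendsto (fun n => En M D r e n (g k)) atTop (𝓝 0) := by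
    intro k
    have h1 : (ι (g k) : H →ₗ[ℂ] H).rank ≤ ((2 ^ (k + 1) : ℕ) : Cardinal) := by
      rw [hg1]; exact hGrank k
    obtain ⟨h2, h3⟩ := En_fin hA hD hr hrn he hpn h1
    refine ⟨fun n => (h2 n).trans (mul_le_mul_of_nonneg_left ?_ Cst_nonneg), h3⟩
    simp only [hB]
    rw [hg1]
    push_cast
    exact mul_le_mul_of_nonneg_left (hGnorm k) (by positivity)
  have := tendsto_tsum_of_dominated_convergence (f := fun n k => En M D r e n (g k))
    (g := fun _ => (0 : Y)) (bound := fun k => Cst M D * B k) (𝓕 := atTop)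
    (hBsum.mul_left _) (fun k => (hfin k).2)
    (Eventually.of_forall fun n k => (hfin k).1 n)
  simpa using this

include hA in
/-- `S_1` is approximately semi-amenable. -/
theorem asa_one [CompleteSpace A] (he : Orthonormal ℂ e)
    (hpn : ∀ x, Tendsto (fun n => ‖x - pn e n x‖) atTop (𝓝 0)) :
    IsApproxSemiAmenable.{v, w} A := by
  intro X _ _ _ M D hD
  obtain ⟨r, hr, hrn⟩ := exists_r hA
  apply semiInner_of_finite
  intro F ε hε
  have h1 : ∀ᶠ n in atTop, ∀ a ∈ F, ‖En M.dual D r e n a‖ < ε := by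
    rw [Filter.eventually_all_finset]
    intro a _
    have h2 := (En_tendsto hA hD hr hrn he hpn a).norm
    rw [norm_zero] at h2
    exact h2.eventually (gt_mem_nhds hε)
  obtain ⟨n, hn⟩ := h1.exists
  exact ⟨_, _, hn⟩

end Model

end Pool.Agent.R302.SchE
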