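import Pool.Agent.R302.SchD
import Pool.Agent.R302.SchE

open Filter Topology

namespace Pool.Agent.R302.SchF

open Pool.Agent.R302.SchattenDef Pool.Agent.R302.SchA Pool.Agent.R302.SchB

universe u v w

variable {H : Type u} [NormedAddCommGroup H] [InnerProductSpace ℂ H]

theorem dist_orth {I : Type*} {b : I → H} (hb : Orthonormal ℂ b) {i j : I} (h : i ≠ j) :
    1 ≤ dist (b i) (b j) := by
  rw [dist_eq_norm]
  have h1 : ‖b i - b j‖ ^ 2 = 2 := by
    rw [@norm_sub_sq ℂ, hb.1 i, hb.1 j, hb.2 h]
    norm_num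
  nlinarith [norm_nonneg (b i - b j)]

theorem countable_orth [TopologicalSpace.SeparableSpace H] {I : Type*} {b : I → H}
    (hb : Orthonormal ℂ b) : Countable I := by
  have h1 : (Set.univ : Set I).Countable := by
    refine Set.PairwiseDisjoint.countable_of_isOpen (s := fun i => Metric.ball (b i) (1 / 2)) ?_
      (fun i _ => Metric.isOpen_ball) (fun i _ => ⟨b i, Metric.mem_ball_self (by norm_num)⟩)
    intro i _ j _ hij
    apply Metric.ball_disjoint_ball
    have := dist_orth hb hij
    linarith
  exact Set.countable_univ_iff.1 h1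

variable [CompleteSpace H]

theorem exists_e [TopologicalSpace.SeparableSpace H] (hH : ¬ FiniteDimensional ℂ H) :
    ∃ e : ℕ → H, Orthonormal ℂ e ∧
      ∀ x, Tendsto (fun n => ‖x - SchE.pn e n x‖) atTop (𝓝 0) := by
  obtain ⟨s, b, hb⟩ := exists_hilbertBasis ℂ H
  have hc : Countable s := countable_orth b.orthonormal
  have hinf : Infinite s := by
    by_contra hfin
    rw [not_infinite_iff_finite] at hfin
    apply hH
    have hF : Fintype s := Fintype.ofFinite s
    have h1 : (Submodule.span ℂ (Set.range b)).topologicalClosure = ⊤ := b.dense_span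
    have hfd : FiniteDimensional ℂ (Submodule.span ℂ (Set.range b)) :=
      FiniteDimensional.span_of_finite ℂ (Set.finite_range b)
    have h2 : IsClosed ((Submodule.span ℂ (Set.range b) : Submodule ℂ H) : Set H) :=
      Submodule.closed_of_finiteDimensional _
    rw [h2.submodule_topologicalClosure_eq] at h1
    rw [h1] at hfd
    exact Module.Finite.equiv (Submodule.topEquiv (R := ℂ) (M := H))
  obtain ⟨φ⟩ : Nonempty (ℕ ≃ s) := nonempty_equiv_of_countable
  refine ⟨fun n => b (φ n), b.orthonormal.comp _ φ.injective, fun x => ?_⟩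
  have h1 := b.hasSum_repr x
  have h2 := (φ.hasSum_iff.2 h1).tendsto_sum_nat
  have h3 : ∀ n, SchE.pn (fun n => b (φ n)) n x
      = ∑ i ∈ Finset.range n, ((fun i => b.repr x i • b i) ∘ φ) i := by
    intro n
    unfold SchE.pn
    refine Finset.sum_congr rfl fun i _ => ?_
    simp only [Function.comp]
    rw [b.repr_apply_apply]
  have h4 := (tendsto_iff_norm_sub_tendsto_zero.1 h2)
  refine h4.congr fun n => ?_
  rw [h3, norm_sub_rev]

/-- Schatten classes: `S_1` is approximately semi-amenable, `S_p` is not for `p > 1`. -/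
theorem main [TopologicalSpace.SeparableSpace H] (hH : ¬ FiniteDimensional ℂ H) {p : ℝ}
    {A : Type v} [NonUnitalNormedRing A] [NormedSpace ℂ A] [CompleteSpace A]
    [IsScalarTower ℂ A A] [SMulCommClass ℂ A A] {ι : A →ₗ[ℂ] (H →L[ℂ] H)}
    (hA : IsSchattenClass p A ι) :
    (p = 1 → SemiAmenDef.IsApproxSemiAmenable.{v, w} A) ∧
      (1 < p → ¬ SemiAmenDef.IsApproxSemiAmenable.{v, v} A) := by
  obtain ⟨e, he, hpn⟩ := exists_e hH
  refine ⟨?_, fun hp h => ?_⟩
  · rintro rfl
    exact SemiC.new_of_old (SchE.asa_one hA he hpn)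
  · exact SchD.not_asa hA he hp (SemiC.old_of_new h)

end Pool.Agent.R302.SchF
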