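import Mathlib

/-!
# Singular values and Schatten classes
-/

namespace Pool.Agent.R302.SchattenDef

universe u v

variable {H : Type u} [NormedAddCommGroup H] [InnerProductSpace ℂ H]

/-- The singular value `s_n(T)`, `n = 0, 1, 2, ...`, of a bounded operator `T` on a Hilbert space,
as the distance from `T` to the operators of rank at most `n`. -/
noncomputable def sv (T : H →L[ℂ] H) (n : ℕ) : ℝ :=
  sInf {c : ℝ | ∃ F : H →L[ℂ] H, (F : H →ₗ[ℂ] H).rank ≤ (n : Cardinal) ∧ c = ‖T - F‖}

/-- `ι` identifies the Banach algebra `A` with the Schatten class `S_p` on `H`: it is an injective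
linear and multiplicative map of `A` into the bounded operators, its range consists of the
compact operators `T` with `∑ s_n(T)^p < ∞`, and `‖a‖ = (∑ s_n(ι a)^p)^(1/p)`. -/
structure IsSchattenClass (p : ℝ) (A : Type v) [NonUnitalNormedRing A] [NormedSpace ℂ A]
    (ι : A →ₗ[ℂ] (H →L[ℂ] H)) : Prop where
  map_mul : ∀ a b, ι (a * b) = (ι a).comp (ι b)
  injective : Function.Injective ι
  range : ∀ T : H →L[ℂ] H, (∃ a, ι a = T) ↔
    IsCompactOperator T ∧ Summable fun n => sv T n ^ p
  norm_eq : ∀ a, ‖a‖ = (∑' n, sv (ι a) n ^ p) ^ (1 / p)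

end Pool.Agent.R302.SchattenDef
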