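import Pool.Agent.R302.SemiDefs

open Filter Topology

namespace Pool.Agent.R302.SemiA

open Pool.Agent.R302.SemiDefs

universe u w

section

variable {A : Type u} {X : Type w} [NonUnitalNormedRing A] [NormedSpace ℂ A]
    [NormedAddCommGroup X] [NormedSpace ℂ X]

theorem finite_of_semiInner {M : BanachBimodule A X} {D : A →L[ℂ] X}
    (h : IsApproxSemiInner M D) (F : Finset A) {ε : ℝ} (hε : 0 < ε) :
    ∃ ξ η : X, ∀ a ∈ F, ‖D a - (M.l a ξ - M.r a η)‖ < ε := by
  obtain ⟨I, hp, hd, hn, ξ, η, hlim⟩ := h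
  have h1 : ∀ᶠ i in atTop, ∀ a ∈ F, ‖D a - (M.l a (ξ i) - M.r a (η i))‖ < ε := by
    rw [Filter.eventually_all_finset]
    intro a _
    have h2 := (Metric.tendsto_nhds.1 (hlim a)) ε hε
    filter_upwards [h2] with i hi
    rwa [dist_comm, dist_eq_norm] at hi
  obtain ⟨i, hi⟩ := h1.exists
  exact ⟨ξ i, η i, hi⟩

theorem semiInner_of_finite {M : BanachBimodule A X} {D : A →L[ℂ] X}
    (h : ∀ (F : Finset A) (ε : ℝ), 0 < ε →
      ∃ ξ η : X, ∀ a ∈ F, ‖D a - (M.l a ξ - M.r a η)‖ < ε) :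
    IsApproxSemiInner M D := by
  classical
  have hpos : ∀ n : ℕ, (0 : ℝ) < 1 / ((n : ℝ) + 1) := fun n => by positivity
  choose ξ η hξη using fun (p : Finset A × ℕ) => h p.1 _ (hpos p.2)
  refine ⟨Finset A × ℕ, inferInstance, inferInstance, inferInstance, ξ, η, fun a => ?_⟩
  rw [Metric.tendsto_nhds]
  intro ε hε
  obtain ⟨n, hn⟩ := exists_nat_one_div_lt hε
  filter_upwards [eventually_ge_atTop (({a} : Finset A), n)] with p hp
  have h1 := hξη p a (by
    have := hp.1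
    exact this (Finset.mem_singleton_self a))
  rw [dist_comm, dist_eq_norm]
  refine lt_of_lt_of_le h1 (le_trans ?_ hn.le)
  have h2 : (n : ℝ) ≤ p.2 := by exact_mod_cast hp.2
  exact one_div_le_one_div_of_le (by positivity) (by linarith)

end

/-! ## The module of forms -/

section Forms

set_option linter.unusedSectionVars false

variable (A : Type u) [NonUnitalNormedRing A] [NormedSpace ℂ A]
  [IsScalarTower ℂ A A] [SMulCommClass ℂ A A]

/-- bounded forms on `A^# × A` with values in `Y`. -/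
def Form (Y : Type*) [NormedAddCommGroup Y] [NormedSpace ℂ Y] :=
  (A →L[ℂ] Y) × (A →L[ℂ] A →L[ℂ] Y)

variable {A}

noncomputable instance (Y : Type*) [NormedAddCommGroup Y] [NormedSpace ℂ Y] :
    NormedAddCommGroup (Form A Y) :=
  inferInstanceAs (NormedAddCommGroup ((A →L[ℂ] Y) × (A →L[ℂ] A →L[ℂ] Y)))

noncomputable instance (Y : Type*) [NormedAddCommGroup Y] [NormedSpace ℂ Y] :
    NormedSpace ℂ (Form A Y) :=
  inferInstanceAs (NormedSpace ℂ ((A →L[ℂ] Y) × (A →L[ℂ] A →L[ℂ] Y)))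

instance (Y : Type*) [NormedAddCommGroup Y] [NormedSpace ℂ Y] [CompleteSpace Y] :
    CompleteSpace (Form A Y) :=
  inferInstanceAs (CompleteSpace ((A →L[ℂ] Y) × (A →L[ℂ] A →L[ℂ] Y)))

section

variable {Y : Type*} [NormedAddCommGroup Y] [NormedSpace ℂ Y]

@[simp] theorem Form.add_fst (β γ : Form A Y) : (β + γ).1 = β.1 + γ.1 := rfl
@[simp] theorem Form.add_snd (β γ : Form A Y) : (β + γ).2 = β.2 + γ.2 := rfl
@[simp] theorem Form.sub_fst (β γ : Form A Y) : (β - γ).1 = β.1 - γ.1 := rfl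
@[simp] theorem Form.sub_snd (β γ : Form A Y) : (β - γ).2 = β.2 - γ.2 := rfl
@[simp] theorem Form.smul_fst (c : ℂ) (β : Form A Y) : (c • β).1 = c • β.1 := rfl
@[simp] theorem Form.smul_snd (c : ℂ) (β : Form A Y) : (c • β).2 = c • β.2 := rfl
@[simp] theorem Form.zero_fst : (0 : Form A Y).1 = 0 := rfl
@[simp] theorem Form.zero_snd : (0 : Form A Y).2 = 0 := rfl

end

/-- right action `(β·a)(s,t) = β(as,t)`. -/
noncomputable def fr (a : A) (β : Form A ℂ) : Form A ℂ :=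
  (β.2 a, β.2.comp (ContinuousLinearMap.mul ℂ A a))

/-- left action `(a·β)(s,t) = β(s,ta) - β(st,a)`. -/
noncomputable def fl (a : A) (β : Form A ℂ) : Form A ℂ :=
  (β.1.comp ((ContinuousLinearMap.mul ℂ A).flip a) - β.2.flip a,
    ((ContinuousLinearMap.compL ℂ A A ℂ).flip ((ContinuousLinearMap.mul ℂ A).flip a)).comp β.2
      - ((ContinuousLinearMap.compL ℂ A A ℂ) (β.2.flip a)).comp (ContinuousLinearMap.mul ℂ A))

@[simp] theorem fr_fst (a : A) (β : Form A ℂ) (t : A) : (fr a β).1 t = β.2 a t := rfl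
@[simp] theorem fr_snd (a : A) (β : Form A ℂ) (s t : A) : (fr a β).2 s t = β.2 (a * s) t := rfl
@[simp] theorem fl_fst (a : A) (β : Form A ℂ) (t : A) :
    (fl a β).1 t = β.1 (t * a) - β.2 t a := rfl
@[simp] theorem fl_snd (a : A) (β : Form A ℂ) (s t : A) :
    (fl a β).2 s t = β.2 s (t * a) - β.2 (s * t) a := rfl

theorem form_ext {Y : Type*} [NormedAddCommGroup Y] [NormedSpace ℂ Y] {β γ : Form A Y}
    (h1 : ∀ t, β.1 t = γ.1 t) (h2 : ∀ s t, β.2 s t = γ.2 s t) : β = γ :=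
  Prod.ext (ContinuousLinearMap.ext h1)
    (ContinuousLinearMap.ext fun s => ContinuousLinearMap.ext fun t => h2 s t)

theorem form_norm_le {Y : Type*} [NormedAddCommGroup Y] [NormedSpace ℂ Y] {β : Form A Y} {C : ℝ}
    (hC : 0 ≤ C)
    (h1 : ∀ t, ‖β.1 t‖ ≤ C * ‖t‖) (h2 : ∀ s t, ‖β.2 s t‖ ≤ C * ‖s‖ * ‖t‖) : ‖β‖ ≤ C := by
  change max ‖β.1‖ ‖β.2‖ ≤ C
  refine max_le (ContinuousLinearMap.opNorm_le_bound _ hC h1) ?_
  exact ContinuousLinearMap.opNorm_le_bound₂ _ hC h2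

theorem form_le1 {Y : Type*} [NormedAddCommGroup Y] [NormedSpace ℂ Y] (β : Form A Y) (t : A) :
    ‖β.1 t‖ ≤ ‖β‖ * ‖t‖ :=
  (β.1.le_opNorm t).trans (mul_le_mul_of_nonneg_right (le_max_left _ _) (norm_nonneg t))

theorem form_le2 {Y : Type*} [NormedAddCommGroup Y] [NormedSpace ℂ Y] (β : Form A Y) (s t : A) :
    ‖β.2 s t‖ ≤ ‖β‖ * ‖s‖ * ‖t‖ := by
  refine (β.2.le_opNorm₂ s t).trans ?_
  gcongr
  exact le_max_right _ _

theorem norm_fr_le (a : A) (β : Form A ℂ) : ‖fr a β‖ ≤ 1 * ‖a‖ * ‖β‖ := by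
  refine form_norm_le (by positivity) (fun t => ?_) (fun s t => ?_)
  · rw [fr_fst]
    refine (form_le2 β a t).trans (le_of_eq ?_)
    ring
  · rw [fr_snd]
    refine (form_le2 β (a * s) t).trans ?_
    calc ‖β‖ * ‖a * s‖ * ‖t‖ ≤ ‖β‖ * (‖a‖ * ‖s‖) * ‖t‖ := by gcongr; exact norm_mul_le _ _
      _ = 1 * ‖a‖ * ‖β‖ * ‖s‖ * ‖t‖ := by ring

theorem norm_fl_le (a : A) (β : Form A ℂ) : ‖fl a β‖ ≤ 2 * ‖a‖ * ‖β‖ := by
  refine form_norm_le (by positivity) (fun t => ?_) (fun s t => ?_)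
  · rw [fl_fst]
    refine (norm_sub_le _ _).trans ?_
    calc ‖β.1 (t * a)‖ + ‖β.2 t a‖ ≤ ‖β‖ * ‖t * a‖ + ‖β‖ * ‖t‖ * ‖a‖ :=
          add_le_add (form_le1 _ _) (form_le2 _ _ _)
      _ ≤ ‖β‖ * (‖t‖ * ‖a‖) + ‖β‖ * ‖t‖ * ‖a‖ := by gcongr; exact norm_mul_le _ _
      _ = 2 * ‖a‖ * ‖β‖ * ‖t‖ := by ring
  · rw [fl_snd]
    refine (norm_sub_le _ _).trans ?_
    calc ‖β.2 s (t * a)‖ + ‖β.2 (s * t) a‖ ≤ ‖β‖ * ‖s‖ * ‖t * a‖ + ‖β‖ * ‖s * t‖ * ‖a‖ :=
          add_le_add (form_le2 _ _ _) (form_le2 _ _ _)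
      _ ≤ ‖β‖ * ‖s‖ * (‖t‖ * ‖a‖) + ‖β‖ * (‖s‖ * ‖t‖) * ‖a‖ := by
          gcongr <;> exact norm_mul_le _ _
      _ = 2 * ‖a‖ * ‖β‖ * ‖s‖ * ‖t‖ := by ring

variable (A) in
/-- the bimodule of forms. -/
noncomputable def formBimodule : BanachBimodule A (Form A ℂ) where
  l := LinearMap.mkContinuous₂
    (LinearMap.mk₂ ℂ (fun a β => fl a β)
      (fun a b β => form_ext (fun t => by simp [mul_add]; ring) (fun s t => by simp [mul_add]; ring))
      (fun c a β => form_ext (fun t => by simp [mul_smul_comm]; ring)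
        (fun s t => by simp [mul_smul_comm]; ring))
      (fun a β γ => form_ext (fun t => by simp; ring) (fun s t => by simp; ring))
      (fun c a β => form_ext (fun t => by simp; ring) (fun s t => by simp; ring)))
    2 (fun a β => norm_fl_le a β)
  r := LinearMap.mkContinuous₂
    (LinearMap.mk₂ ℂ (fun a β => fr a β)
      (fun a b β => form_ext (fun t => by simp) (fun s t => by simp [add_mul]))
      (fun c a β => form_ext (fun t => by simp) (fun s t => by simp [smul_mul_assoc]))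
      (fun a β γ => form_ext (fun t => by simp) (fun s t => by simp))
      (fun c a β => form_ext (fun t => by simp) (fun s t => by simp)))
    1 (fun a β => norm_fr_le a β)
  mul_l a b β := by
    change fl (a * b) β = fl a (fl b β)
    exact form_ext (fun t => by simp [mul_assoc]) (fun s t => by simp [mul_assoc])
  mul_r a b β := by
    change fr (a * b) β = fr b (fr a β)
    exact form_ext (fun t => by simp) (fun s t => by simp [mul_assoc])
  l_r a b β := by
    change fl a (fr b β) = fr b (fl a β)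
    exact form_ext (fun t => by simp) (fun s t => by simp [mul_assoc])

@[simp] theorem formBimodule_l (a : A) (β : Form A ℂ) : (formBimodule A).l a β = fl a β := rfl
@[simp] theorem formBimodule_r (a : A) (β : Form A ℂ) : (formBimodule A).r a β = fr a β := rfl

variable (A) in
/-- the derivation `Δ(a)(β) = -β(1,a)`. -/
noncomputable def Delta : A →L[ℂ] (Form A ℂ →L[ℂ] ℂ) :=
  LinearMap.mkContinuous₂
    (LinearMap.mk₂ ℂ (fun a (β : Form A ℂ) => -β.1 a)
      (fun a b β => by simp; ring) (fun c a β => by simp) (fun a β γ => by simp; ring)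
      (fun c a β => by simp))
    1 (fun a β => by
      simp only [LinearMap.mk₂_apply, norm_neg, one_mul]
      rw [mul_comm]
      exact form_le1 β a)

@[simp] theorem Delta_apply (a : A) (β : Form A ℂ) : Delta A a β = -β.1 a := rfl

theorem Delta_derivation : IsDerivation (formBimodule A).dual (Delta A) := by
  intro a b
  refine ContinuousLinearMap.ext fun β => ?_
  change -β.1 (a * b) = -(fr a β).1 b + -(fl b β).1 a
  simp only [fr_fst, fl_fst]
  ring

theorem form_fle (f : Form A ℂ →L[ℂ] ℂ) (β : Form A ℂ) : ‖f β‖ ≤ ‖f‖ * ‖β‖ :=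
  ContinuousLinearMap.le_opNorm (E := Form A ℂ) (F := ℂ) (σ₁₂ := RingHom.id ℂ) f β

/-- The basic consequence of approximate semi-amenability. -/
theorem basic (h : IsApproxSemiAmenable.{u, u} A) (F : Finset A) {ε : ℝ} (hε : 0 < ε) :
    ∃ ξ η : Form A ℂ →L[ℂ] ℂ, ∀ a ∈ F, ∀ β : Form A ℂ,
      ‖-β.1 a - ξ (fr a β) + η (fl a β)‖ ≤ ε * ‖β‖ := by
  obtain ⟨ξ, η, hξη⟩ := finite_of_semiInner (h (Form A ℂ) (formBimodule A) (Delta A)
    Delta_derivation) F hε
  refine ⟨ξ, η, fun a ha β => ?_⟩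
  have h1 := form_fle
    (Delta A a - ((formBimodule A).dual.l a ξ - (formBimodule A).dual.r a η)) β
  have h2 : (Delta A a - ((formBimodule A).dual.l a ξ - (formBimodule A).dual.r a η)) β
      = -β.1 a - ξ (fr a β) + η (fl a β) := by
    change -β.1 a - (ξ (fr a β) - η (fl a β)) = _
    ring
  rw [h2] at h1
  refine h1.trans ?_
  gcongr
  exact (hξη a ha).le

end Forms

end Pool.Agent.R302.SemiA
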