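import Pool.Agent.R302.SemiA

open Filter Topology

namespace Pool.Agent.R302.SemiB

open Pool.Agent.R302.SemiDefs Pool.Agent.R302.SemiA

universe u w

set_option linter.unusedSectionVars false
set_option maxSynthPendingDepth 3

section

variable {A : Type u} [NonUnitalNormedRing A] [NormedSpace ℂ A]
  [IsScalarTower ℂ A A] [SMulCommClass ℂ A A]
  {Y : Type w} [NormedAddCommGroup Y] [NormedSpace ℂ Y]

/-- assembling a bounded map into `Form`. -/
noncomputable def mkL {E : Type*} [NormedAddCommGroup E] [NormedSpace ℂ E]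
    (f : E →L[ℂ] (A →L[ℂ] Y)) (g : E →L[ℂ] (A →L[ℂ] A →L[ℂ] Y)) : E →L[ℂ] Form A Y :=
  LinearMap.mkContinuous
    { toFun := fun e => (f e, g e)
      map_add' := fun x y => by
        change ((f (x + y), g (x + y)) : (A →L[ℂ] Y) × (A →L[ℂ] A →L[ℂ] Y)) = (f x + f y, g x + g y)
        rw [map_add, map_add]
      map_smul' := fun c y => by
        change ((f (c • y), g (c • y)) : (A →L[ℂ] Y) × (A →L[ℂ] A →L[ℂ] Y)) = (c • f y, c • g y)
        rw [map_smul, map_smul] }
    (‖f‖ + ‖g‖) (fun e => by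
      change max ‖f e‖ ‖g e‖ ≤ _
      refine max_le ?_ ?_
      · refine (f.le_opNorm e).trans ?_
        gcongr
        exact le_add_of_nonneg_right (norm_nonneg g)
      · refine (g.le_opNorm e).trans ?_
        gcongr
        exact le_add_of_nonneg_left (norm_nonneg f))

@[simp] theorem mkL_fst {E : Type*} [NormedAddCommGroup E] [NormedSpace ℂ E]
    (f : E →L[ℂ] (A →L[ℂ] Y)) (g : E →L[ℂ] (A →L[ℂ] A →L[ℂ] Y)) (e : E) :
    (mkL f g e).1 = f e := rfl

@[simp] theorem mkL_snd {E : Type*} [NormedAddCommGroup E] [NormedSpace ℂ E]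
    (f : E →L[ℂ] (A →L[ℂ] Y)) (g : E →L[ℂ] (A →L[ℂ] A →L[ℂ] Y)) (e : E) :
    (mkL f g e).2 = g e := rfl

/-- push-forward along a functional. -/
noncomputable def push (φ : Y →L[ℂ] ℂ) (β : Form A Y) : Form A ℂ :=
  (φ.comp β.1, (ContinuousLinearMap.compL ℂ A Y ℂ φ).comp β.2)

@[simp] theorem push_fst (φ : Y →L[ℂ] ℂ) (β : Form A Y) (t : A) : (push φ β).1 t = φ (β.1 t) := rfl
@[simp] theorem push_snd (φ : Y →L[ℂ] ℂ) (β : Form A Y) (s t : A) :
    (push φ β).2 s t = φ (β.2 s t) := rfl

theorem norm_push_le (φ : Y →L[ℂ] ℂ) (β : Form A Y) : ‖push φ β‖ ≤ 1 * ‖φ‖ * ‖β‖ := by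
  refine form_norm_le (by positivity) (fun t => ?_) (fun s t => ?_)
  · rw [push_fst]
    refine (φ.le_opNorm _).trans ?_
    calc ‖φ‖ * ‖β.1 t‖ ≤ ‖φ‖ * (‖β‖ * ‖t‖) := by gcongr; exact form_le1 _ _
      _ = 1 * ‖φ‖ * ‖β‖ * ‖t‖ := by ring
  · rw [push_snd]
    refine (φ.le_opNorm _).trans ?_
    calc ‖φ‖ * ‖β.2 s t‖ ≤ ‖φ‖ * (‖β‖ * ‖s‖ * ‖t‖) := by gcongr; exact form_le2 _ _ _
      _ = 1 * ‖φ‖ * ‖β‖ * ‖s‖ * ‖t‖ := by ring

variable (A Y) in
/-- push-forward as a bounded bilinear map. -/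
noncomputable def pushL : (Y →L[ℂ] ℂ) →L[ℂ] Form A Y →L[ℂ] Form A ℂ :=
  LinearMap.mkContinuous₂
    (LinearMap.mk₂ ℂ (fun φ β => push φ β)
      (fun φ ψ β => form_ext (fun t => by simp) (fun s t => by simp))
      (fun c φ β => form_ext (fun t => by simp) (fun s t => by simp))
      (fun φ β γ => form_ext (fun t => by simp) (fun s t => by simp))
      (fun c φ β => form_ext (fun t => by simp) (fun s t => by simp)))
    1 (fun φ β => norm_push_le φ β)

@[simp] theorem pushL_apply (φ : Y →L[ℂ] ℂ) (β : Form A Y) : pushL A Y φ β = push φ β := rfl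

end

/-- The situation of a complemented ideal. -/
structure Compl {A J : Type u} [NonUnitalNormedRing A] [NormedSpace ℂ A]
    [NonUnitalNormedRing J] [NormedSpace ℂ J] (ι : J →L[ℂ] A) (P : A →L[ℂ] J) : Prop where
  mul : ∀ x y, ι (x * y) = ι x * ι y
  proj : ∀ x, P (ι x) = x
  left : ∀ (a : A) (x : J), ι (P (a * ι x)) = a * ι x
  right : ∀ (x : J) (a : A), ι (P (ι x * a)) = ι x * a

section Main

variable {A J : Type u} [NonUnitalNormedRing A] [NormedSpace ℂ A]
  [IsScalarTower ℂ A A] [SMulCommClass ℂ A A]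
  [NonUnitalNormedRing J] [NormedSpace ℂ J]
  {ι : J →L[ℂ] A} {P : A →L[ℂ] J} (hC : Compl ι P)
  {Y : Type w} [NormedAddCommGroup Y] [NormedSpace ℂ Y]

variable (ι P)

/-- `K f = f ∘ D ∘ P`. -/
noncomputable def KK (D : J →L[ℂ] Y) : (Y →L[ℂ] Y) →L[ℂ] (A →L[ℂ] Y) :=
  (ContinuousLinearMap.compL ℂ A Y Y).flip (D.comp P)

/-- the form `B`. -/
noncomputable def BB (M : BanachBimodule J Y) (D : J →L[ℂ] Y) : Form A Y :=
  (-(D.comp P), -((KK P D).comp (M.l.comp P))
    - ((ContinuousLinearMap.compL ℂ A A Y) (D.comp P)).comp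
        ((ContinuousLinearMap.mul ℂ A).comp (ContinuousLinearMap.id ℂ A - ι.comp P)))

@[simp] theorem BB_fst (M : BanachBimodule J Y) (D : J →L[ℂ] Y) (t : A) :
    (BB ι P M D).1 t = -D (P t) := rfl
@[simp] theorem BB_snd (M : BanachBimodule J Y) (D : J →L[ℂ] Y) (s t : A) :
    (BB ι P M D).2 s t = -M.l (P s) (D (P t)) - D (P ((s - ι (P s)) * t)) := rfl

/-- the map `Ψ`. -/
noncomputable def Psi (M : BanachBimodule J Y) (D : J →L[ℂ] Y) : J →L[ℂ] Form A Y :=
  mkL (-((KK P D).comp M.l))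
    (-(((ContinuousLinearMap.compL ℂ A J (A →L[ℂ] Y)) ((KK P D).comp M.l)).comp
      (((ContinuousLinearMap.compL ℂ A A J) P).comp ((ContinuousLinearMap.mul ℂ A).comp ι))))

@[simp] theorem Psi_fst (M : BanachBimodule J Y) (D : J →L[ℂ] Y) (a : J) (t : A) :
    (Psi ι P M D a).1 t = -M.l a (D (P t)) := rfl
@[simp] theorem Psi_snd (M : BanachBimodule J Y) (D : J →L[ℂ] Y) (a : J) (s t : A) :
    (Psi ι P M D a).2 s t = -M.l (P (ι a * s)) (D (P t)) := rfl

/-- the map `Θ`. -/
noncomputable def Theta (M : BanachBimodule J Y) (D : J →L[ℂ] Y) : J →L[ℂ] Form A Y :=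
  mkL (-((KK P D).comp M.r))
    (((ContinuousLinearMap.compL ℂ A (J →L[ℂ] Y) (A →L[ℂ] Y)).flip (M.r.flip.comp (D.comp P))).comp
      (((ContinuousLinearMap.compL ℂ A J Y).flip).comp
        (((ContinuousLinearMap.compL ℂ A A J) P).comp ((ContinuousLinearMap.mul ℂ A).flip.comp ι)))
      - ((ContinuousLinearMap.compL ℂ A (A →L[ℂ] A) (A →L[ℂ] Y)).flip
          (ContinuousLinearMap.mul ℂ A)).comp
        ((ContinuousLinearMap.compL ℂ A A Y).comp ((KK P D).comp M.r)))

@[simp] theorem Theta_fst (M : BanachBimodule J Y) (D : J →L[ℂ] Y) (a : J) (t : A) :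
    (Theta ι P M D a).1 t = -M.r a (D (P t)) := rfl
@[simp] theorem Theta_snd (M : BanachBimodule J Y) (D : J →L[ℂ] Y) (a : J) (s t : A) :
    (Theta ι P M D a).2 s t = M.r (P (t * ι a)) (D (P s)) - M.r a (D (P (s * t))) := rfl

variable {ι P}

include hC

theorem inj {x y : J} (h : ι x = ι y) : x = y := by
  rw [← hC.proj x, ← hC.proj y, h]

theorem mulP (x : J) (s : A) (y : J) : x * P (s * ι y) = P (ι x * s) * y := by
  apply inj hC
  rw [hC.mul, hC.mul, hC.left, hC.right, mul_assoc]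

theorem mulP_left (x e : J) (s : A) : x * P (ι e * s) = P (ι (x * e) * s) := by
  apply inj hC
  rw [hC.mul, hC.right, hC.right, hC.mul, mul_assoc]

theorem mulP_right (f a : J) (t : A) : P (t * ι f) * a = P (t * ι (f * a)) := by
  apply inj hC
  rw [hC.mul, hC.left, hC.left, hC.mul, mul_assoc]

theorem fr_push (M : BanachBimodule J Y) (D : J →L[ℂ] Y) (a : J) (φ : Y →L[ℂ] ℂ) :
    fr (ι a) (push φ (BB ι P M D)) = push φ (Psi ι P M D a) := by
  refine form_ext (fun t => ?_) (fun s t => ?_)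
  · simp [hC.proj]
  · simp [hC.right]

theorem fl_push {M : BanachBimodule J Y} {D : J →L[ℂ] Y} (hD : IsDerivation M D) (a : J)
    (φ : Y →L[ℂ] ℂ) :
    fl (ι a) (push φ (BB ι P M D)) = push φ (Theta ι P M D a) := by
  refine form_ext (fun t => ?_) (fun s t => ?_)
  · simp only [fl_fst, push_fst, push_snd, BB_fst, BB_snd, Theta_fst]
    rw [← map_sub]
    congr 1
    have h1 : P ((t - ι (P t)) * ι a) = P (t * ι a) - P t * a := by
      rw [sub_mul, map_sub, ← hC.mul, hC.proj]
    rw [h1, map_sub, hD, hC.proj]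
    abel
  · simp only [fl_snd, push_snd, BB_snd, Theta_snd]
    rw [← map_sub]
    congr 1
    have h1 : P ((s - ι (P s)) * (t * ι a)) = P (s * t * ι a) - P s * P (t * ι a) := by
      rw [sub_mul, map_sub, ← mul_assoc]
      congr 1
      rw [← hC.left t a, ← hC.mul, hC.proj, hC.proj]
    have h2 : P ((s * t - ι (P (s * t))) * ι a) = P (s * t * ι a) - P (s * t) * a := by
      rw [sub_mul, map_sub, ← hC.mul, hC.proj]
    rw [h1, h2, map_sub, map_sub, hD, hD, hC.proj]
    abel

theorem push_one (M : BanachBimodule J Y) (D : J →L[ℂ] Y) (a : J) (φ : Y →L[ℂ] ℂ) :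
    (push φ (BB ι P M D)).1 (ι a) = -φ (D a) := by
  simp [hC.proj]

theorem Psi_comp (M : BanachBimodule J Y) (D : J →L[ℂ] Y) (a e : J) (φ : Y →L[ℂ] ℂ) :
    push (φ.comp (M.l a)) (Psi ι P M D e) = push φ (Psi ι P M D (a * e)) := by
  refine form_ext (fun t => ?_) (fun s t => ?_)
  · simp [M.mul_l]
  · simp only [push_snd, Psi_snd, ContinuousLinearMap.comp_apply, map_neg]
    rw [← M.mul_l, mulP_left hC]

theorem Theta_comp (M : BanachBimodule J Y) (D : J →L[ℂ] Y) (a f : J) (φ : Y →L[ℂ] ℂ) :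
    push (φ.comp (M.r a)) (Theta ι P M D f) = push φ (Theta ι P M D (f * a)) := by
  refine form_ext (fun t => ?_) (fun s t => ?_)
  · simp [M.mul_r]
  · simp only [push_snd, Theta_snd, ContinuousLinearMap.comp_apply, map_sub]
    rw [← M.mul_r, mulP_right hC, ← M.mul_r]

/-- core consequence -/
theorem core (h : IsApproxSemiAmenable.{u, u} A) {M : BanachBimodule J Y} {D : J →L[ℂ] Y}
    (hD : IsDerivation M D) (F : Finset J) {ε : ℝ} (hε : 0 < ε) :
    ∃ ξ η : Form A ℂ →L[ℂ] ℂ, ∀ a ∈ F, ∀ φ : Y →L[ℂ] ℂ,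
      ‖φ (D a) - ξ (push φ (Psi ι P M D a)) + η (push φ (Theta ι P M D a))‖ ≤ ε * ‖φ‖ := by
  classical
  obtain ⟨ξ, η, hξη⟩ := basic h (F.image ι) (ε := ε / (‖BB ι P M D‖ + 1)) (by positivity)
  refine ⟨ξ, η, fun a ha φ => ?_⟩
  have h1 := hξη (ι a) (Finset.mem_image_of_mem _ ha) (push φ (BB ι P M D))
  rw [push_one hC, fr_push hC, fl_push hC hD, neg_neg] at h1
  refine h1.trans ?_
  have h2 := norm_push_le φ (BB ι P M D)
  calc ε / (‖BB ι P M D‖ + 1) * ‖push φ (BB ι P M D)‖
      ≤ ε / (‖BB ι P M D‖ + 1) * (1 * ‖φ‖ * (‖BB ι P M D‖ + 1)) := by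
        gcongr
        refine h2.trans ?_
        gcongr
        linarith
    _ = ε * ‖φ‖ := by
        field_simp

end Main

/-! ## Approximate identities -/

section HB

theorem hb {I E : Type*} [Fintype I] [NormedAddCommGroup E] [NormedSpace ℂ E]
    (S : Submodule ℂ (I → E)) (v : I → E)
    (h : ∀ Φ : (I → E) →L[ℂ] ℂ, (∀ s ∈ S, Φ s = 0) → Φ v = 0) : v ∈ closure (S : Set (I → E)) := by
  by_contra hv
  have hcl : IsClosed (closure (S : Set (I → E))) := isClosed_closure
  have hconv : Convex ℝ (closure (S : Set (I → E))) := by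
    have h1 : Convex ℝ (S : Set (I → E)) := by
      have := (S.restrictScalars ℝ).convex
      exact this
    exact h1.closure
  obtain ⟨f, u, hf1, hf2⟩ := RCLike.geometric_hahn_banach_closed_point (𝕜 := ℂ) hconv hcl hv
  have hu : 0 < u := by
    have := hf1 0 (subset_closure S.zero_mem)
    simpa using this
  have hS : ∀ s ∈ S, f s = 0 := by
    intro s hs
    by_contra hne
    have hpos : 0 < ‖f s‖ ^ 2 := by positivity
    have h2 := hf1 (((u / ‖f s‖ ^ 2 : ℝ) * (starRingEnd ℂ) (f s) : ℂ) • s)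
      (subset_closure (S.smul_mem _ hs))
    rw [map_smul, smul_eq_mul, mul_assoc, ← Complex.normSq_eq_conj_mul_self,
      Complex.normSq_eq_norm_sq, ← Complex.ofReal_mul, div_mul_cancel₀ _ hpos.ne'] at h2
    simp at h2
  have h3 := h f hS
  rw [h3] at hf2
  simp at hf2
  linarith

end HB

section AI

variable {A J : Type u} [NonUnitalNormedRing A] [NormedSpace ℂ A]
  [IsScalarTower ℂ A A] [SMulCommClass ℂ A A]
  [NonUnitalNormedRing J] [NormedSpace ℂ J] [IsScalarTower ℂ J J] [SMulCommClass ℂ J J]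
  {ι : J →L[ℂ] A} {P : A →L[ℂ] J} (hC : Compl ι P)

variable (J) in
/-- `J` with left multiplication and zero right action. -/
noncomputable def leftMod : BanachBimodule J J where
  l := ContinuousLinearMap.mul ℂ J
  r := 0
  mul_l a b x := by simp [mul_assoc]
  mul_r a b x := by simp
  l_r a b x := by simp

variable (J) in
/-- `J` with right multiplication and zero left action. -/
noncomputable def rightMod : BanachBimodule J J where
  l := 0
  r := (ContinuousLinearMap.mul ℂ J).flip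
  mul_l a b x := by simp
  mul_r a b x := by simp [mul_assoc]
  l_r a b x := by simp

theorem left_der : IsDerivation (leftMod J) (ContinuousLinearMap.id ℂ J) := by
  intro a b
  simp [leftMod]

theorem right_der : IsDerivation (rightMod J) (ContinuousLinearMap.id ℂ J) := by
  intro a b
  simp [rightMod]

/-- decomposition of a functional on a finite power. -/
theorem sum_single {I E : Type*} [Fintype I] [DecidableEq I] [NormedAddCommGroup E]
    [NormedSpace ℂ E] (Φ : (I → E) →L[ℂ] ℂ) (w : I → E) :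
    Φ w = ∑ i, (Φ.comp (ContinuousLinearMap.single ℂ (fun _ : I => E) i)) (w i) := by
  conv_lhs => rw [← Finset.univ_sum_single w]
  rw [map_sum]
  rfl

theorem sum_fst {I : Type*} {Y : Type w} [NormedAddCommGroup Y] [NormedSpace ℂ Y]
    (s : Finset I) (f : I → Form A Y) (t : A) :
    (∑ i ∈ s, f i).1 t = ∑ i ∈ s, (f i).1 t := by
  classical
  induction s using Finset.induction_on with
  | empty => simp
  | insert i s hi ih => rw [Finset.sum_insert hi, Finset.sum_insert hi, ← ih]; rfl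

theorem sum_snd {I : Type*} {Y : Type w} [NormedAddCommGroup Y] [NormedSpace ℂ Y]
    (s : Finset I) (f : I → Form A Y) (r t : A) :
    (∑ i ∈ s, f i).2 r t = ∑ i ∈ s, (f i).2 r t := by
  classical
  induction s using Finset.induction_on with
  | empty => simp
  | insert i s hi ih => rw [Finset.sum_insert hi, Finset.sum_insert hi, ← ih]; rfl

theorem zero_of_le {c S : ℝ} (hc : 0 ≤ c) (hS : 0 ≤ S) (h : ∀ ε > 0, c ≤ ε * S) : c = 0 := by
  refine le_antisymm ?_ hc
  refine le_of_forall_pos_le_add fun ε hε => ?_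
  have h1 := h (ε / (S + 1)) (by positivity)
  refine h1.trans ?_
  rw [zero_add, div_mul_eq_mul_div, div_le_iff₀ (by positivity)]
  nlinarith

include hC

theorem approx_right (h : IsApproxSemiAmenable.{u, u} A) (F : Finset J) {δ : ℝ} (hδ : 0 < δ) :
    ∃ e : J, ∀ a ∈ F, ‖a * e - a‖ < δ := by
  classical
  let T : J →ₗ[ℂ] (F → J) :=
    { toFun := fun e a => (a : J) * e
      map_add' := fun x y => by ext a; simp [mul_add]
      map_smul' := fun c x => by ext a; simp [mul_smul_comm] }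
  have key : (fun a : F => (a : J)) ∈ closure ((LinearMap.range T : Submodule ℂ (F → J)) :
      Set (F → J)) := by
    apply hb
    intro Φ hΦ
    set φ : F → (J →L[ℂ] ℂ) := fun a =>
      Φ.comp (ContinuousLinearMap.single ℂ (fun _ : F => J) a) with hφ
    have hT : ∀ e : J, ∑ a : F, φ a ((a : J) * e) = 0 := fun e => by
      rw [← sum_single Φ (fun a => (a : J) * e)]
      exact hΦ _ ⟨e, rfl⟩
    have hsum : ∑ a : F, push (A := A) (φ a) (Psi ι P (leftMod J)
        (ContinuousLinearMap.id ℂ J) (a : J)) = 0 := by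
      refine form_ext (fun t => ?_) (fun s t => ?_)
      · rw [sum_fst]
        have := hT (P t)
        simp only [push_fst, Psi_fst, map_neg, Finset.sum_neg_distrib]
        rw [show (0 : Form A ℂ).1 t = 0 from rfl, neg_eq_zero]
        exact this
      · rw [sum_snd]
        have := hT (P (s * ι (P t)))
        simp only [push_snd, Psi_snd, map_neg, Finset.sum_neg_distrib]
        rw [show (0 : Form A ℂ).2 s t = 0 from rfl, neg_eq_zero]
        rw [← this]
        refine Finset.sum_congr rfl fun a _ => ?_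
        rw [mulP hC]
        rfl
    have hΘ : ∀ a : J, Theta ι P (leftMod J) (ContinuousLinearMap.id ℂ J) a = 0 := by
      intro a
      exact form_ext (fun t => by simp [leftMod]) (fun s t => by simp [leftMod])
    have hle : ∀ ε > 0, ‖Φ (fun a : F => (a : J))‖ ≤ ε * ∑ a : F, ‖φ a‖ := by
      intro ε hε
      obtain ⟨ξ, η, hξη⟩ := core hC h (left_der (J := J)) F hε
      have h1 : Φ (fun a : F => (a : J)) = ∑ a : F, ((φ a) (ContinuousLinearMap.id ℂ J (a : J))
          - ξ (push (φ a) (Psi ι P (leftMod J) (ContinuousLinearMap.id ℂ J) (a : J)))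
          + η (push (φ a) (Theta ι P (leftMod J) (ContinuousLinearMap.id ℂ J) (a : J)))) := by
        rw [Finset.sum_add_distrib, Finset.sum_sub_distrib, ← map_sum, hsum, map_zero, sub_zero,
          sum_single Φ]
        have h2 : ∀ a : F, push (φ a) (Theta ι P (leftMod J) (ContinuousLinearMap.id ℂ J) (a : J))
            = 0 := by
          intro a
          rw [hΘ]
          exact form_ext (fun t => by simp) (fun s t => by simp)
        simp only [h2, map_zero, Finset.sum_const_zero, add_zero]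
        rfl
      rw [h1, Finset.mul_sum]
      refine (norm_sum_le _ _).trans (Finset.sum_le_sum fun a _ => hξη a a.2 (φ a))
    exact norm_eq_zero.1 (zero_of_le (norm_nonneg _)
      (Finset.sum_nonneg fun _ _ => norm_nonneg _) hle)
  obtain ⟨w, ⟨e, rfl⟩, hw⟩ := Metric.mem_closure_iff.1 key δ hδ
  refine ⟨e, fun a ha => ?_⟩
  have h1 := (dist_pi_lt_iff hδ).1 hw ⟨a, ha⟩
  rw [dist_comm, dist_eq_norm] at h1
  exact h1

theorem approx_left (h : IsApproxSemiAmenable.{u, u} A) (F : Finset J) {δ : ℝ} (hδ : 0 < δ) :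
    ∃ f : J, ∀ a ∈ F, ‖f * a - a‖ < δ := by
  classical
  let T : J →ₗ[ℂ] (F → J) :=
    { toFun := fun e a => e * (a : J)
      map_add' := fun x y => by ext a; simp [add_mul]
      map_smul' := fun c x => by ext a; simp [smul_mul_assoc] }
  have key : (fun a : F => (a : J)) ∈ closure ((LinearMap.range T : Submodule ℂ (F → J)) :
      Set (F → J)) := by
    apply hb
    intro Φ hΦ
    set φ : F → (J →L[ℂ] ℂ) := fun a =>
      Φ.comp (ContinuousLinearMap.single ℂ (fun _ : F => J) a) with hφ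
    have hT : ∀ e : J, ∑ a : F, φ a (e * (a : J)) = 0 := fun e => by
      rw [← sum_single Φ (fun a => e * (a : J))]
      exact hΦ _ ⟨e, rfl⟩
    have hsum : ∑ a : F, push (A := A) (φ a) (Theta ι P (rightMod J)
        (ContinuousLinearMap.id ℂ J) (a : J)) = 0 := by
      refine form_ext (fun t => ?_) (fun s t => ?_)
      · rw [sum_fst]
        have := hT (P t)
        simp only [push_fst, Theta_fst, map_neg, Finset.sum_neg_distrib]
        rw [show (0 : Form A ℂ).1 t = 0 from rfl, neg_eq_zero]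
        exact this
      · rw [sum_snd]
        have h1 := hT (P (ι (P s) * t))
        have h2 := hT (P (s * t))
        simp only [push_snd, Theta_snd, map_sub, Finset.sum_sub_distrib]
        rw [show (0 : Form A ℂ).2 s t = 0 from rfl]
        rw [sub_eq_zero]
        refine Eq.trans (Eq.trans ?_ h1) h2.symm
        refine Finset.sum_congr rfl fun a _ => ?_
        rw [← mulP hC]
        rfl
    have hΨ : ∀ a : J, Psi ι P (rightMod J) (ContinuousLinearMap.id ℂ J) a = 0 := by
      intro a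
      exact form_ext (fun t => by simp [rightMod]) (fun s t => by simp [rightMod])
    have hle : ∀ ε > 0, ‖Φ (fun a : F => (a : J))‖ ≤ ε * ∑ a : F, ‖φ a‖ := by
      intro ε hε
      obtain ⟨ξ, η, hξη⟩ := core hC h (right_der (J := J)) F hε
      have h1 : Φ (fun a : F => (a : J)) = ∑ a : F, ((φ a) (ContinuousLinearMap.id ℂ J (a : J))
          - ξ (push (φ a) (Psi ι P (rightMod J) (ContinuousLinearMap.id ℂ J) (a : J)))
          + η (push (φ a) (Theta ι P (rightMod J) (ContinuousLinearMap.id ℂ J) (a : J)))) := by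
        rw [Finset.sum_add_distrib, Finset.sum_sub_distrib, ← map_sum η, hsum, map_zero, add_zero,
          sum_single Φ]
        have h2 : ∀ a : F, push (φ a) (Psi ι P (rightMod J) (ContinuousLinearMap.id ℂ J) (a : J))
            = 0 := by
          intro a
          rw [hΨ]
          exact form_ext (fun t => by simp) (fun s t => by simp)
        simp only [h2, map_zero, Finset.sum_const_zero, sub_zero]
        rfl
      rw [h1, Finset.mul_sum]
      refine (norm_sum_le _ _).trans (Finset.sum_le_sum fun a _ => hξη a a.2 (φ a))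
    exact norm_eq_zero.1 (zero_of_le (norm_nonneg _)
      (Finset.sum_nonneg fun _ _ => norm_nonneg _) hle)
  obtain ⟨w, ⟨e, rfl⟩, hw⟩ := Metric.mem_closure_iff.1 key δ hδ
  refine ⟨e, fun a ha => ?_⟩
  have h1 := (dist_pi_lt_iff hδ).1 hw ⟨a, ha⟩
  rw [dist_comm, dist_eq_norm] at h1
  exact h1

/-- The ideal is approximately semi-amenable. -/
theorem main (h : IsApproxSemiAmenable.{u, u} A) : IsApproxSemiAmenable.{u, w} J := by
  intro X _ _ _ M D hD
  apply semiInner_of_finite
  intro F ε hε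
  obtain ⟨ξ, η, hξη⟩ := core hC h hD F (half_pos hε)
  have hfin : ∃ C : ℝ, 0 < C ∧ ∀ x : X, ∀ b : J,
      ‖ξ (push (NormedSpace.inclusionInDoubleDual ℂ X x) (Psi ι P M.dual D b))‖ ≤ C * ‖x‖ * ‖b‖ ∧
      ‖η (push (NormedSpace.inclusionInDoubleDual ℂ X x) (Theta ι P M.dual D b))‖
        ≤ C * ‖x‖ * ‖b‖ := by
    refine ⟨‖ξ‖ * ‖Psi ι P M.dual D‖ + ‖η‖ * ‖Theta ι P M.dual D‖ + 1, by positivity,
      fun x b => ⟨?_, ?_⟩⟩
    · have h1 := form_fle ξ (push (NormedSpace.inclusionInDoubleDual ℂ X x) (Psi ι P M.dual D b))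
      have h2 := norm_push_le (NormedSpace.inclusionInDoubleDual ℂ X x) (Psi ι P M.dual D b)
      have h3 : ‖NormedSpace.inclusionInDoubleDual ℂ X x‖ ≤ ‖x‖ :=
        NormedSpace.double_dual_bound ℂ X x
      have h4 : ‖Psi ι P M.dual D b‖ ≤ ‖Psi ι P M.dual D‖ * ‖b‖ :=
        (Psi ι P M.dual D).le_opNorm b
      calc _ ≤ ‖ξ‖ * ‖push (NormedSpace.inclusionInDoubleDual ℂ X x) (Psi ι P M.dual D b)‖ := h1
        _ ≤ ‖ξ‖ * (1 * ‖x‖ * (‖Psi ι P M.dual D‖ * ‖b‖)) := by
          gcongr
          refine h2.trans ?_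
          gcongr
        _ = (‖ξ‖ * ‖Psi ι P M.dual D‖) * ‖x‖ * ‖b‖ := by ring
        _ ≤ _ := by
          gcongr
          have : 0 ≤ ‖η‖ * ‖Theta ι P M.dual D‖ := by positivity
          linarith
    · have h1 := form_fle η (push (NormedSpace.inclusionInDoubleDual ℂ X x) (Theta ι P M.dual D b))
      have h2 := norm_push_le (NormedSpace.inclusionInDoubleDual ℂ X x) (Theta ι P M.dual D b)
      have h3 : ‖NormedSpace.inclusionInDoubleDual ℂ X x‖ ≤ ‖x‖ :=
        NormedSpace.double_dual_bound ℂ X x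
      have h4 : ‖Theta ι P M.dual D b‖ ≤ ‖Theta ι P M.dual D‖ * ‖b‖ :=
        (Theta ι P M.dual D).le_opNorm b
      calc _ ≤ ‖η‖ * ‖push (NormedSpace.inclusionInDoubleDual ℂ X x) (Theta ι P M.dual D b)‖ := h1
        _ ≤ ‖η‖ * (1 * ‖x‖ * (‖Theta ι P M.dual D‖ * ‖b‖)) := by
          gcongr
          refine h2.trans ?_
          gcongr
        _ = (‖η‖ * ‖Theta ι P M.dual D‖) * ‖x‖ * ‖b‖ := by ring
        _ ≤ _ := by
          gcongr
          have : 0 ≤ ‖ξ‖ * ‖Psi ι P M.dual D‖ := by positivity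
          linarith
  obtain ⟨C, hC0, hCb⟩ := hfin
  obtain ⟨e, he⟩ := approx_right hC h F (δ := ε / (8 * C)) (by positivity)
  obtain ⟨f, hf⟩ := approx_left hC h F (δ := ε / (8 * C)) (by positivity)
  let inc := NormedSpace.inclusionInDoubleDual ℂ X
  let ξ' : X →L[ℂ] ℂ := (ξ.comp ((pushL A (X →L[ℂ] ℂ)).flip (Psi ι P M.dual D e))).comp inc
  let η' : X →L[ℂ] ℂ := (η.comp ((pushL A (X →L[ℂ] ℂ)).flip (Theta ι P M.dual D f))).comp inc
  refine ⟨ξ', η', fun a ha => ?_⟩
  have hb : ‖D a - (M.dual.l a ξ' - M.dual.r a η')‖ ≤ 3 * ε / 4 := by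
    refine ContinuousLinearMap.opNorm_le_bound _ (by positivity) fun x => ?_
    have e1 : (M.dual.l a ξ') x = ξ (push (inc x) (Psi ι P M.dual D (a * e))) := by
      change ξ (push (inc (M.r a x)) (Psi ι P M.dual D e)) = _
      rw [← Psi_comp hC]
      rfl
    have e2 : (M.dual.r a η') x = η (push (inc x) (Theta ι P M.dual D (f * a))) := by
      change η (push (inc (M.l a x)) (Theta ι P M.dual D f)) = _
      rw [← Theta_comp hC]
      rfl
    have e3 : (D a - (M.dual.l a ξ' - M.dual.r a η')) x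
        = (inc x (D a) - ξ (push (inc x) (Psi ι P M.dual D a))
            + η (push (inc x) (Theta ι P M.dual D a)))
          - ξ (push (inc x) (Psi ι P M.dual D (a * e - a)))
          + η (push (inc x) (Theta ι P M.dual D (f * a - a))) := by
      have e4 : (D a - (M.dual.l a ξ' - M.dual.r a η')) x
          = D a x - ((M.dual.l a ξ') x - (M.dual.r a η') x) := rfl
      have e5 : ξ (push (inc x) (Psi ι P M.dual D (a * e - a)))
          = ξ (push (inc x) (Psi ι P M.dual D (a * e))) - ξ (push (inc x) (Psi ι P M.dual D a)) := by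
        simp only [← pushL_apply, map_sub]
      have e6 : η (push (inc x) (Theta ι P M.dual D (f * a - a)))
          = η (push (inc x) (Theta ι P M.dual D (f * a)))
            - η (push (inc x) (Theta ι P M.dual D a)) := by
        simp only [← pushL_apply, map_sub]
      have e7 : inc x (D a) = D a x := rfl
      rw [e4, e1, e2, e5, e6, e7]
      ring
    rw [e3]
    have h3 : ‖inc x‖ ≤ ‖x‖ := NormedSpace.double_dual_bound ℂ X x
    have g1 := hξη a ha (inc x)
    have g2 := (hCb x (a * e - a)).1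
    have g3 := (hCb x (f * a - a)).2
    have g4 : C * ‖x‖ * ‖a * e - a‖ ≤ C * ‖x‖ * (ε / (8 * C)) := by
      gcongr
      exact (he a ha).le
    have g5 : C * ‖x‖ * ‖f * a - a‖ ≤ C * ‖x‖ * (ε / (8 * C)) := by
      gcongr
      exact (hf a ha).le
    have g6 : C * ‖x‖ * (ε / (8 * C)) = ε / 8 * ‖x‖ := by
      field_simp
    have g7 : ε / 2 * ‖inc x‖ ≤ ε / 2 * ‖x‖ := by gcongr
    refine (norm_add_le _ _).trans ?_
    refine (add_le_add (norm_sub_le _ _) le_rfl).trans ?_
    linarith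
  linarith

end AI

end Pool.Agent.R302.SemiB
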