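import Pool.Agent.R302.SemiAmenDef

open Filter

/-!
# Bounded approximate semi-amenability
-/

namespace Pool.Agent.R302.SemiBddDef

open Pool.Agent.R302.SemiAmenDef

universe u w

/-- `D : A → X*` is boundedly approximately semi-inner: there are a constant `K` and nets `ξ_i`,
`η_i` in `X*` such that every map `a ↦ a · ξ_i - η_i · a` has norm at most `K` and
`a · ξ_i - η_i · a` converges to `D(a)` in the norm of `X*`, for every `a ∈ A`. -/
def IsBddApproxSemiInner {A : Type u} {X : Type w} [NonUnitalNormedRing A] [NormedSpace ℂ A]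
    [NormedAddCommGroup X] [NormedSpace ℂ X] (M : Bimodule A X) (D : A → (X →L[ℂ] ℂ)) : Prop :=
  ∃ (K : ℝ) (I : Type u) (_ : Preorder I) (_ : IsDirected I (· ≤ ·)) (_ : Nonempty I)
    (ξ η : I → (X →L[ℂ] ℂ)),
    (∀ (i : I) (a : A) (x : X), ‖ξ i (M.r a x) - η i (M.l a x)‖ ≤ K * ‖a‖ * ‖x‖) ∧
    ∀ (a : A), ∀ ε > 0, ∀ᶠ i in atTop, ∀ x : X,
      ‖D a x - (ξ i (M.r a x) - η i (M.l a x))‖ ≤ ε * ‖x‖

/-- `A` is boundedly approximately semi-amenable: for every Banach `A`-bimodule `X`, every bounded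
derivation `D : A → X*` is boundedly approximately semi-inner. -/
def IsBddApproxSemiAmenable (A : Type u) [NonUnitalNormedRing A] [NormedSpace ℂ A] : Prop :=
  ∀ (X : Type w) [NormedAddCommGroup X] [NormedSpace ℂ X] [CompleteSpace X]
    (M : Bimodule A X) (D : A → (X →L[ℂ] ℂ)), IsDerivation M D → IsBddApproxSemiInner M D

end Pool.Agent.R302.SemiBddDef
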