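import Mathlib

open Filter Topology

/-!
# Banach bimodules and approximate semi-amenability
-/

namespace Pool.Agent.R302.SemiDefs

universe u w

section

variable {A : Type u} {X : Type w} [NonUnitalNormedRing A] [NormedSpace ℂ A]
    [NormedAddCommGroup X] [NormedSpace ℂ X]

/-- A Banach `A`-bimodule structure on the Banach space `X`: bounded bilinear maps
`l a x = a · x` and `r a x = x · a` satisfying the bimodule laws. -/
structure BanachBimodule (A : Type u) (X : Type w) [NonUnitalNormedRing A] [NormedSpace ℂ A]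
    [NormedAddCommGroup X] [NormedSpace ℂ X] where
  /-- `l a x = a · x` -/
  l : A →L[ℂ] X →L[ℂ] X
  /-- `r a x = x · a` -/
  r : A →L[ℂ] X →L[ℂ] X
  mul_l : ∀ a b x, l (a * b) x = l a (l b x)
  mul_r : ∀ a b x, r (a * b) x = r b (r a x)
  l_r : ∀ a b x, l a (r b x) = r b (l a x)

/-- The dual bimodule `X*`: `(a · φ)(x) = φ(x · a)` and `(φ · a)(x) = φ(a · x)`. -/
noncomputable def BanachBimodule.dual (M : BanachBimodule A X) :
    BanachBimodule A (X →L[ℂ] ℂ) where
  l := (ContinuousLinearMap.compL ℂ X X ℂ).flip.comp M.r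
  r := (ContinuousLinearMap.compL ℂ X X ℂ).flip.comp M.l
  mul_l a b φ := by ext x; simp [M.mul_r]
  mul_r a b φ := by ext x; simp [M.mul_l]
  l_r a b φ := by ext x; simp [M.l_r]

/-- A bounded derivation `D : A → X` into the Banach `A`-bimodule `X`:
`D(ab) = a · D(b) + D(a) · b`. -/
def IsDerivation (M : BanachBimodule A X) (D : A →L[ℂ] X) : Prop :=
  ∀ a b, D (a * b) = M.l a (D b) + M.r b (D a)

/-- `D : A → X` is approximately semi-inner: there are nets `ξ_i`, `η_i` in `X` such that
`D(a) = lim_i (a · ξ_i - η_i · a)` in norm for every `a`. -/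
def IsApproxSemiInner (M : BanachBimodule A X) (D : A →L[ℂ] X) : Prop :=
  ∃ (I : Type u) (_ : Preorder I) (_ : IsDirected I (· ≤ ·)) (_ : Nonempty I)
    (ξ η : I → X), ∀ a : A, Tendsto (fun i => M.l a (ξ i) - M.r a (η i)) atTop (𝓝 (D a))

end

/-- `A` is approximately semi-amenable: for every Banach `A`-bimodule `X`, every bounded derivation
`D : A → X*` is approximately semi-inner. -/
def IsApproxSemiAmenable (A : Type u) [NonUnitalNormedRing A] [NormedSpace ℂ A] : Prop :=
  ∀ (X : Type w) [NormedAddCommGroup X] [NormedSpace ℂ X] [CompleteSpace X]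
    (M : BanachBimodule A X) (D : A →L[ℂ] (X →L[ℂ] ℂ)), IsDerivation M.dual D →
    IsApproxSemiInner M.dual D

end Pool.Agent.R302.SemiDefs
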