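import Pool.Agent.R302.SemiC

open Filter Topology

namespace Pool.Agent.R302.SemiE

open Pool.Agent.R302.SemiDefs Pool.Agent.R302.SemiA

universe u w

set_option linter.unusedSectionVars false

section

variable {A : Type u} [NonUnitalNormedCommRing A] [NormedSpace ℂ A] [SMulCommClass ℂ A A]
  [IsScalarTower ℂ A A]
  {Y : Type w} [NormedAddCommGroup Y] [NormedSpace ℂ Y]

/-- On `A e`, where `e` is dominated by a finite sum of minimal idempotents, every derivation is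
of the form `a ↦ a · ξ - η · a`. -/
theorem exact_semi {I : Type*} (M : BanachBimodule A Y) (D : A →L[ℂ] Y) (hD : IsDerivation M D)
    (S : Finset I) (p : I → A) (hp : ∀ v ∈ S, p v * p v = p v) (e : A)
    (he : e * ∑ v ∈ S, p v = e) (c : A → I → ℂ) (hc : ∀ a, ∀ v ∈ S, a * p v = c a v • p v) :
    ∃ ξ η : Y, ∀ a, D (a * e) = M.l a ξ - M.r a η := by
  set P := ∑ v ∈ S, p v with hP
  set ξ := ∑ v ∈ S, M.r (p v) (D (p v)) with hξ
  refine ⟨M.l e (D P - ξ), -(M.r e ξ), fun a => ?_⟩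
  have h1 : ∀ b : A, ∀ v ∈ S, M.r (p v) (D b) = M.r b (M.r (p v) (D (p v)))
      - M.l b (M.r (p v) (D (p v))) := by
    intro b v hv
    have h2 : M.r (p v) (D b) = D (b * p v) - M.l b (D (p v)) := by
      rw [hD b (p v)]; abel
    have h3 : M.r (p v) (M.r (p v) (D b)) = M.r (p v) (D b) := by
      rw [← M.mul_r, hp v hv]
    rw [← h3, h2, map_sub, ← M.l_r]
    congr 1
    rw [hc b v hv, map_smul, map_smul, ← M.mul_r, mul_comm (p v) b, hc b v hv, map_smul]
    rfl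
  have h2 : ∀ b : A, M.r P (D b) = M.r b ξ - M.l b ξ := by
    intro b
    rw [hP, map_sum, sum_apply, Finset.sum_congr rfl (h1 b),
      Finset.sum_sub_distrib, hξ, map_sum, map_sum]
  have h3 : D (a * e) = M.l (a * e) (D P) + M.r P (D (a * e)) := by
    rw [← hD, mul_assoc, he]
  rw [h3, h2, M.mul_l, M.mul_l, mul_comm a e, M.mul_r, map_sub, map_sub, map_neg]
  abel

theorem asa_of_approx
    (h : ∀ (F : Finset A) (ε : ℝ), 0 < ε → ∃ (e : A) (I : Type) (S : Finset I) (p : I → A)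
      (c : A → I → ℂ), (∀ v ∈ S, p v * p v = p v) ∧ (e * ∑ v ∈ S, p v = e) ∧
      (∀ a, ∀ v ∈ S, a * p v = c a v • p v) ∧ ∀ a ∈ F, ‖a - a * e‖ ≤ ε) :
    IsApproxSemiAmenable.{u, w} A := by
  intro X _ _ _ M D hD
  apply semiInner_of_finite
  intro F ε hε
  obtain ⟨e, I, S, p, c, hp, he, hc, hF⟩ := h F (ε / (2 * (‖D‖ + 1))) (by positivity)
  obtain ⟨ξ, η, hξ⟩ := exact_semi M.dual D hD S p hp e he c hc
  refine ⟨ξ, η, fun a ha => ?_⟩
  rw [← hξ a, ← map_sub]
  refine (D.le_opNorm _).trans_lt ?_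
  calc ‖D‖ * ‖a - a * e‖ ≤ ‖D‖ * (ε / (2 * (‖D‖ + 1))) := by
        gcongr
        exact hF a ha
    _ < ε := by
        rw [← mul_div_assoc, div_lt_iff₀ (by positivity)]
        nlinarith [norm_nonneg D]

end

end Pool.Agent.R302.SemiE
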