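import Mathlib

open Filter Topology

namespace Pool.Agent.R302.TreeA

/-- vertices -/
abbrev T := List Bool × List Bool

/-- weights -/
noncomputable def w (z : T) : ℝ := (z.1.length : ℝ) + z.2.length + 1

/-- children -/
def ch (b : Bool) (z : T) : T := (b :: z.2, z.1)

/-- parent -/
def pr (z : T) : T := (z.2, z.1.tail)

theorem pr_ch (b : Bool) (z : T) : pr (ch b z) = z := rfl

theorem w_pos (z : T) : 0 < w z := by unfold w; positivity

theorem one_le_w (z : T) : 1 ≤ w z := by
  have h1 : (0 : ℝ) ≤ z.1.length := by positivity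
  have h2 : (0 : ℝ) ≤ z.2.length := by positivity
  unfold w; linarith

/-- local variation -/
noncomputable def dl (a : T → ℂ) (z : T) : ℝ :=
  ‖a z - a (ch true z)‖ + ‖a z - a (ch false z)‖

theorem dl_nonneg (a : T → ℂ) (z : T) : 0 ≤ dl a z := by unfold dl; positivity

theorem dl_add (a b : T → ℂ) (z : T) : dl (a + b) z ≤ dl a z + dl b z := by
  unfold dl
  have h1 : ‖(a + b) z - (a + b) (ch true z)‖ ≤ ‖a z - a (ch true z)‖ + ‖b z - b (ch true z)‖ := by
    have : (a + b) z - (a + b) (ch true z) = (a z - a (ch true z)) + (b z - b (ch true z)) := by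
      simp only [Pi.add_apply]; ring
    rw [this]; exact norm_add_le _ _
  have h2 : ‖(a + b) z - (a + b) (ch false z)‖
      ≤ ‖a z - a (ch false z)‖ + ‖b z - b (ch false z)‖ := by
    have : (a + b) z - (a + b) (ch false z) = (a z - a (ch false z)) + (b z - b (ch false z)) := by
      simp only [Pi.add_apply]; ring
    rw [this]; exact norm_add_le _ _
  linarith

theorem dl_smul (c : ℂ) (a : T → ℂ) (z : T) : dl (c • a) z = ‖c‖ * dl a z := by
  unfold dl
  simp only [Pi.smul_apply, smul_eq_mul, ← mul_sub, norm_mul]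
  ring

theorem dl_neg (a : T → ℂ) (z : T) : dl (-a) z = dl a z := by
  have := dl_smul (-1) a z
  simpa using this

theorem dl_mul {a b : T → ℂ} {A B : ℝ} (ha : ∀ z, ‖a z‖ ≤ A) (hb : ∀ z, ‖b z‖ ≤ B) (z : T) :
    dl (a * b) z ≤ A * dl b z + B * dl a z := by
  have key : ∀ c : T, ‖a z * b z - a c * b c‖ ≤ A * ‖b z - b c‖ + B * ‖a z - a c‖ := by
    intro c
    have : a z * b z - a c * b c = a z * (b z - b c) + b c * (a z - a c) := by ring
    rw [this]
    refine (norm_add_le _ _).trans ?_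
    rw [norm_mul, norm_mul]
    exact add_le_add (mul_le_mul_of_nonneg_right (ha z) (norm_nonneg _))
      (mul_le_mul_of_nonneg_right (hb c) (norm_nonneg _))
  have h1 := key (ch true z)
  have h2 := key (ch false z)
  unfold dl
  simp only [Pi.mul_apply]
  nlinarith

/-- variation over part of a class -/
noncomputable def Vs (a : T → ℂ) (q : List Bool × Finset (List Bool)) : ℝ :=
  ∑ x ∈ q.2, w (x, q.1) * dl a (x, q.1)

theorem Vs_nonneg (a : T → ℂ) (q : List Bool × Finset (List Bool)) : 0 ≤ Vs a q :=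
  Finset.sum_nonneg fun _ _ => mul_nonneg (w_pos _).le (dl_nonneg _ _)

theorem Vs_add (a b : T → ℂ) (q : List Bool × Finset (List Bool)) :
    Vs (a + b) q ≤ Vs a q + Vs b q := by
  unfold Vs
  rw [← Finset.sum_add_distrib]
  refine Finset.sum_le_sum fun x _ => ?_
  rw [← mul_add]
  exact mul_le_mul_of_nonneg_left (dl_add _ _ _) (w_pos _).le

theorem Vs_smul (c : ℂ) (a : T → ℂ) (q : List Bool × Finset (List Bool)) :
    Vs (c • a) q = ‖c‖ * Vs a q := by
  unfold Vs
  rw [Finset.mul_sum]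
  refine Finset.sum_congr rfl fun x _ => ?_
  rw [dl_smul]; ring

theorem Vs_neg (a : T → ℂ) (q : List Bool × Finset (List Bool)) : Vs (-a) q = Vs a q := by
  unfold Vs
  simp only [dl_neg]

theorem Vs_mul {a b : T → ℂ} {A B : ℝ} (ha : ∀ z, ‖a z‖ ≤ A) (hb : ∀ z, ‖b z‖ ≤ B)
    (q : List Bool × Finset (List Bool)) :
    Vs (a * b) q ≤ A * Vs b q + B * Vs a q := by
  unfold Vs
  rw [Finset.mul_sum, Finset.mul_sum, ← Finset.sum_add_distrib]
  refine Finset.sum_le_sum fun x _ => ?_
  have := mul_le_mul_of_nonneg_left (dl_mul ha hb (x, q.1)) (w_pos (x, q.1)).le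
  linarith

/-- boundedness -/
def Bd (a : T → ℂ) : Prop := ∃ C : ℝ, (∀ z, ‖a z‖ ≤ C) ∧ ∀ q, Vs a q ≤ C

/-- the algebra of bounded functions of bounded variation. -/
noncomputable def BB : NonUnitalSubalgebra ℂ (T → ℂ) where
  carrier := {a | Bd a}
  zero_mem' := ⟨0, fun z => by simp, fun q => by simp [Vs, dl]⟩
  add_mem' := by
    rintro a b ⟨C, h1, h2⟩ ⟨C', h1', h2'⟩
    refine ⟨C + C', fun z => (norm_add_le _ _).trans (add_le_add (h1 z) (h1' z)), fun q => ?_⟩
    exact (Vs_add a b q).trans (add_le_add (h2 q) (h2' q))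
  mul_mem' := by
    rintro a b ⟨C, h1, h2⟩ ⟨C', h1', h2'⟩
    have hC : 0 ≤ C := (norm_nonneg _).trans (h1 ([], []))
    have hC' : 0 ≤ C' := (norm_nonneg _).trans (h1' ([], []))
    refine ⟨2 * (C * C'), fun z => ?_, fun q => ?_⟩
    · simp only [Pi.mul_apply, norm_mul]
      have := mul_le_mul (h1 z) (h1' z) (norm_nonneg _) hC
      nlinarith [mul_nonneg hC hC']
    · have := Vs_mul h1 h1' q
      have h3 := mul_le_mul_of_nonneg_left (h2' q) hC
      have h4 := mul_le_mul_of_nonneg_left (h2 q) hC'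
      linarith
  smul_mem' := by
    rintro c a ⟨C, h1, h2⟩
    refine ⟨‖c‖ * C, fun z => ?_, fun q => ?_⟩
    · simp only [Pi.smul_apply, norm_smul]
      exact mul_le_mul_of_nonneg_left (h1 z) (norm_nonneg _)
    · rw [Vs_smul]
      exact mul_le_mul_of_nonneg_left (h2 q) (norm_nonneg _)

/-- the type. -/
def Alg : Type := BB

noncomputable instance : NonUnitalCommRing Alg := inferInstanceAs (NonUnitalCommRing BB)
noncomputable instance : Module ℂ Alg := inferInstanceAs (Module ℂ BB)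
instance : IsScalarTower ℂ Alg Alg := inferInstanceAs (IsScalarTower ℂ BB BB)
instance : SMulCommClass ℂ Alg Alg := inferInstanceAs (SMulCommClass ℂ BB BB)

/-- evaluation -/
def fn (a : Alg) : T → ℂ := a.1

theorem fn_bd (a : Alg) : Bd (fn a) := a.2

@[simp] theorem fn_add (a b : Alg) : fn (a + b) = fn a + fn b := rfl
@[simp] theorem fn_zero : fn 0 = 0 := rfl
@[simp] theorem fn_neg (a : Alg) : fn (-a) = -fn a := rfl
@[simp] theorem fn_sub (a b : Alg) : fn (a - b) = fn a - fn b := rfl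
@[simp] theorem fn_mul (a b : Alg) : fn (a * b) = fn a * fn b := rfl
@[simp] theorem fn_smul (c : ℂ) (a : Alg) : fn (c • a) = c • fn a := rfl

theorem fn_ext {a b : Alg} (h : ∀ z, fn a z = fn b z) : a = b := Subtype.ext (funext h)

/-- build an element -/
def mk (f : T → ℂ) (h : Bd f) : Alg := ⟨f, h⟩
@[simp] theorem fn_mk (f : T → ℂ) (h : Bd f) : fn (mk f h) = f := rfl

/-- sup norm -/
noncomputable def sN (a : Alg) : ℝ := ⨆ z, ‖fn a z‖
/-- variation -/
noncomputable def vN (a : Alg) : ℝ := ⨆ q, Vs (fn a) q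

theorem bdd1 (a : Alg) : BddAbove (Set.range fun z => ‖fn a z‖) := by
  obtain ⟨C, h1, _⟩ := fn_bd a
  exact ⟨C, by rintro _ ⟨z, rfl⟩; exact h1 z⟩

theorem bdd2 (a : Alg) : BddAbove (Set.range fun q => Vs (fn a) q) := by
  obtain ⟨C, _, h2⟩ := fn_bd a
  exact ⟨C, by rintro _ ⟨z, rfl⟩; exact h2 z⟩

theorem le_sN (a : Alg) (z : T) : ‖fn a z‖ ≤ sN a := le_ciSup (bdd1 a) z
theorem le_vN (a : Alg) (q) : Vs (fn a) q ≤ vN a := le_ciSup (bdd2 a) q
theorem sN_le {a : Alg} {C : ℝ} (h : ∀ z, ‖fn a z‖ ≤ C) : sN a ≤ C := ciSup_le h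
theorem vN_le {a : Alg} {C : ℝ} (h : ∀ q, Vs (fn a) q ≤ C) : vN a ≤ C := ciSup_le h
theorem sN_nonneg (a : Alg) : 0 ≤ sN a := (norm_nonneg _).trans (le_sN a ([], []))
theorem vN_nonneg (a : Alg) : 0 ≤ vN a := (Vs_nonneg _ _).trans (le_vN a ([], ∅))

/-- the norm -/
noncomputable def algNorm : AddGroupNorm Alg where
  toFun a := sN a + vN a
  map_zero' := by
    have h1 : sN (0 : Alg) ≤ 0 := sN_le fun z => by simp
    have h2 : vN (0 : Alg) ≤ 0 := vN_le fun q => by simp [Vs, dl]
    have h3 := sN_nonneg (0 : Alg)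
    have h4 := vN_nonneg (0 : Alg)
    linarith
  add_le' a b := by
    have h1 : sN (a + b) ≤ sN a + sN b := sN_le fun z =>
      (norm_add_le _ _).trans (add_le_add (le_sN a z) (le_sN b z))
    have h2 : vN (a + b) ≤ vN a + vN b := vN_le fun q =>
      (Vs_add _ _ _).trans (add_le_add (le_vN a q) (le_vN b q))
    linarith
  neg' a := by
    have h1 : sN (-a) = sN a := by simp [sN]
    have h2 : vN (-a) = vN a := by simp [vN, Vs_neg]
    rw [h1, h2]
  eq_zero_of_map_eq_zero' a h := by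
    apply fn_ext
    intro z
    have h1 := le_sN a z
    have h2 := vN_nonneg a
    have h3 : ‖fn a z‖ ≤ 0 := by linarith
    simpa using h3

noncomputable instance : NormedAddCommGroup Alg := algNorm.toNormedAddCommGroup

theorem norm_def (a : Alg) : ‖a‖ = sN a + vN a := rfl

theorem fn_le (a : Alg) (z : T) : ‖fn a z‖ ≤ ‖a‖ := by
  rw [norm_def]; linarith [le_sN a z, vN_nonneg a]

theorem Vs_le (a : Alg) (q) : Vs (fn a) q ≤ ‖a‖ := by
  rw [norm_def]; linarith [le_vN a q, sN_nonneg a]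

theorem norm_le {a : Alg} {C D : ℝ} (h1 : ∀ z, ‖fn a z‖ ≤ C) (h2 : ∀ q, Vs (fn a) q ≤ D) :
    ‖a‖ ≤ C + D := by
  rw [norm_def]; exact add_le_add (sN_le h1) (vN_le h2)

noncomputable instance : NonUnitalNormedCommRing Alg where
  __ := (inferInstance : NormedAddCommGroup Alg)
  __ := (inferInstance : NonUnitalCommRing Alg)
  norm_mul_le a b := by
    change sN (a * b) + vN (a * b) ≤ (sN a + vN a) * (sN b + vN b)
    have h1 : sN (a * b) ≤ sN a * sN b := sN_le fun z => by
      simp only [fn_mul, Pi.mul_apply, norm_mul]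
      exact mul_le_mul (le_sN a z) (le_sN b z) (norm_nonneg _) (sN_nonneg a)
    have h2 : vN (a * b) ≤ sN a * vN b + sN b * vN a := vN_le fun q => by
      refine (Vs_mul (le_sN a) (le_sN b) q).trans ?_
      exact add_le_add (mul_le_mul_of_nonneg_left (le_vN b q) (sN_nonneg a))
        (mul_le_mul_of_nonneg_left (le_vN a q) (sN_nonneg b))
    have h3 := mul_nonneg (vN_nonneg a) (vN_nonneg b)
    nlinarith

noncomputable instance : NormedSpace ℂ Alg where
  norm_smul_le c a := by
    change sN (c • a) + vN (c • a) ≤ ‖c‖ * (sN a + vN a)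
    have h1 : sN (c • a) ≤ ‖c‖ * sN a := sN_le fun z => by
      simp only [fn_smul, Pi.smul_apply, norm_smul]
      exact mul_le_mul_of_nonneg_left (le_sN a z) (norm_nonneg _)
    have h2 : vN (c • a) ≤ ‖c‖ * vN a := vN_le fun q => by
      rw [fn_smul, Vs_smul]
      exact mul_le_mul_of_nonneg_left (le_vN a q) (norm_nonneg _)
    rw [mul_add]
    exact add_le_add h1 h2

/-- evaluation as a bounded functional -/
noncomputable def ev (z : T) : Alg →L[ℂ] ℂ :=
  LinearMap.mkContinuous
    { toFun := fun a => fn a z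
      map_add' := fun _ _ => rfl
      map_smul' := fun _ _ => rfl } 1 (fun a => by rw [one_mul]; exact fn_le a z)

@[simp] theorem ev_apply (z : T) (a : Alg) : ev z a = fn a z := rfl

instance : CompleteSpace Alg := by
  apply Metric.complete_of_cauchySeq_tendsto
  intro u hu
  have h1 : ∀ z, ∃ l : ℂ, Tendsto (fun n => fn (u n) z) atTop (𝓝 l) := fun z => by
    have : CauchySeq (fun n => ev z (u n)) := hu.map (ev z).uniformContinuous
    exact cauchySeq_tendsto_of_complete this
  choose a ha using h1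
  have hcont : ∀ n q, Tendsto (fun m => Vs (fn (u n) - fn (u m)) q) atTop
      (𝓝 (Vs (fn (u n) - a) q)) := by
    intro n q
    unfold Vs
    refine tendsto_finsetSum _ fun x _ => ?_
    refine Tendsto.const_mul _ ?_
    unfold dl
    refine Tendsto.add ?_ ?_
    · exact ((tendsto_const_nhds.sub (ha _)).sub (tendsto_const_nhds.sub (ha _))).norm
    · exact ((tendsto_const_nhds.sub (ha _)).sub (tendsto_const_nhds.sub (ha _))).norm
  have hle : ∀ ε > 0, ∃ N, ∀ n ≥ N, (∀ z, ‖fn (u n) z - a z‖ ≤ ε) ∧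
      ∀ q, Vs (fn (u n) - a) q ≤ ε := by
    intro ε hε
    obtain ⟨N, hN⟩ := Metric.cauchySeq_iff.1 hu ε hε
    refine ⟨N, fun n hn => ⟨fun z => ?_, fun q => ?_⟩⟩
    · refine le_of_tendsto ((tendsto_const_nhds.sub (ha z)).norm) ?_
      filter_upwards [eventually_ge_atTop N] with m hm
      have h2 := hN n hn m hm
      rw [dist_eq_norm] at h2
      exact (fn_le (u n - u m) z).trans h2.le
    · refine le_of_tendsto (hcont n q) ?_
      filter_upwards [eventually_ge_atTop N] with m hm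
      have h2 := hN n hn m hm
      rw [dist_eq_norm] at h2
      exact (Vs_le (u n - u m) q).trans h2.le
  have hmem : Bd a := by
    obtain ⟨N, hN⟩ := hle 1 one_pos
    obtain ⟨h2, h3⟩ := hN N le_rfl
    have h4 : Bd (fn (u N) - a) := ⟨1, h2, h3⟩
    have h5 : a = fn (u N) + -(fn (u N) - a) := by ring
    rw [h5]
    exact BB.add_mem (fn_bd _) (by
      have h6 := BB.smul_mem (x := fn (u N) - a) h4 (r := (-1 : ℂ))
      simpa using h6)
  refine ⟨mk a hmem, ?_⟩
  rw [Metric.tendsto_atTop]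
  intro ε hε
  obtain ⟨N, hN⟩ := hle (ε / 3) (by positivity)
  refine ⟨N, fun n hn => ?_⟩
  rw [dist_eq_norm]
  have := norm_le (a := u n - mk a hmem) (hN n hn).1 (hN n hn).2
  linarith

end Pool.Agent.R302.TreeA
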