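import Pool.Agent.R302.TreeA

open Filter Topology

namespace Pool.Agent.R302.TreeB

open Pool.Agent.R302.TreeA

/-! ## binary words of given length -/

/-- words of length `m` -/
def lists : ℕ → Finset (List Bool)
  | 0 => {[]}
  | m + 1 => (lists m).image (fun l => true :: l) ∪ (lists m).image (fun l => false :: l)

theorem mem_lists {m : ℕ} {l : List Bool} : l ∈ lists m ↔ l.length = m := by
  induction m generalizing l with
  | zero => simp [lists]
  | succ m ih =>
    simp only [lists, Finset.mem_union, Finset.mem_image]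
    constructor
    · rintro (⟨p, hp, rfl⟩ | ⟨p, hp, rfl⟩) <;> simp [ih.1 hp]
    · intro h
      cases l with
      | nil => simp at h
      | cons b l =>
        have hl : l.length = m := by simpa using h
        cases b
        · right; exact ⟨l, ih.2 hl, rfl⟩
        · left; exact ⟨l, ih.2 hl, rfl⟩

theorem sum_lists_succ {E : Type*} [AddCommMonoid E] (m : ℕ) (f : List Bool → E) :
    ∑ l ∈ lists (m + 1), f l = ∑ l ∈ lists m, (f (true :: l) + f (false :: l)) := by
  rw [lists, Finset.sum_union, Finset.sum_image, Finset.sum_image, Finset.sum_add_distrib]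
  · intro x _ y _ h; simpa using h
  · intro x _ y _ h; simpa using h
  · rw [Finset.disjoint_left]
    intro l h1 h2
    simp only [Finset.mem_image] at h1 h2
    obtain ⟨p, _, rfl⟩ := h1
    obtain ⟨q, _, h⟩ := h2
    simp at h

theorem card_lists (m : ℕ) : (lists m).card = 2 ^ m := by
  induction m with
  | zero => rfl
  | succ m ih =>
    have h := sum_lists_succ m (fun _ => (1 : ℕ))
    simp only [Finset.sum_const, smul_eq_mul, mul_one] at h
    rw [h, ih, pow_succ]

/-- the mean over the `4^m` descendants of depth `2m`. -/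
noncomputable def F (a : T → ℂ) (m : ℕ) (z : T) : ℂ :=
  (1 / 4 : ℂ) ^ m * ∑ q ∈ lists m, ∑ p ∈ lists m, a (p ++ z.1, q ++ z.2)

theorem F_zero (a : T → ℂ) (z : T) : F a 0 z = a z := by
  simp [F, lists]

theorem F_succ (a : T → ℂ) (m : ℕ) (z : T) :
    F a (m + 1) z = (1 / 4 : ℂ) ^ m * ∑ q ∈ lists m, ∑ p ∈ lists m,
      (1 / 4 : ℂ) * (a (true :: (p ++ z.1), true :: (q ++ z.2))
        + a (false :: (p ++ z.1), true :: (q ++ z.2))
        + (a (true :: (p ++ z.1), false :: (q ++ z.2))
        + a (false :: (p ++ z.1), false :: (q ++ z.2)))) := by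
  unfold F
  rw [sum_lists_succ, pow_succ, mul_assoc]
  congr 1
  rw [Finset.mul_sum]
  refine Finset.sum_congr rfl fun q _ => ?_
  rw [sum_lists_succ, sum_lists_succ, ← Finset.sum_add_distrib, Finset.mul_sum]
  refine Finset.sum_congr rfl fun p _ => ?_
  simp only [List.cons_append]

theorem F_step (a : T → ℂ) (C : ℝ) (m : ℕ) (z : T)
    (h1 : ∀ q ∈ lists m, ∑ p ∈ lists m, dl a (p ++ z.1, q ++ z.2) ≤ C)
    (h2 : ∀ b, ∀ p ∈ lists m, ∑ q ∈ lists m, dl a (b :: (q ++ z.2), p ++ z.1) ≤ C) :
    ‖F a (m + 1) z - F a m z‖ ≤ (1 / 2) ^ m * C := by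
  rw [F_succ]
  unfold F
  rw [← mul_sub, norm_mul, ← Finset.sum_sub_distrib]
  simp_rw [← Finset.sum_sub_distrib]
  have hpt : ∀ X Y : List Bool, ‖(1 / 4 : ℂ) * (a (true :: X, true :: Y)
        + a (false :: X, true :: Y) + (a (true :: X, false :: Y) + a (false :: X, false :: Y)))
        - a (X, Y)‖ ≤ 1 / 4 * (dl a (true :: Y, X) + dl a (false :: Y, X)) + 1 / 2 * dl a (X, Y) := by
    intro X Y
    have e : (1 / 4 : ℂ) * (a (true :: X, true :: Y)
        + a (false :: X, true :: Y) + (a (true :: X, false :: Y) + a (false :: X, false :: Y)))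
        - a (X, Y) = -(1 / 4 : ℂ) * ((a (true :: Y, X) - a (true :: X, true :: Y))
          + (a (true :: Y, X) - a (false :: X, true :: Y))
          + ((a (false :: Y, X) - a (true :: X, false :: Y))
          + (a (false :: Y, X) - a (false :: X, false :: Y))))
          + -(1 / 2 : ℂ) * ((a (X, Y) - a (true :: Y, X)) + (a (X, Y) - a (false :: Y, X))) := by
      ring
    rw [e]
    refine (norm_add_le _ _).trans ?_
    rw [norm_mul, norm_mul]
    have n1 : ‖-(1 / 4 : ℂ)‖ = 1 / 4 := by simp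
    have n2 : ‖-(1 / 2 : ℂ)‖ = 1 / 2 := by simp
    rw [n1, n2]
    refine add_le_add (mul_le_mul_of_nonneg_left ?_ (by norm_num))
      (mul_le_mul_of_nonneg_left (norm_add_le _ _) (by norm_num))
    refine (norm_add_le _ _).trans (add_le_add (norm_add_le _ _) (norm_add_le _ _))
  have hsum : ‖∑ q ∈ lists m, ∑ p ∈ lists m, ((1 / 4 : ℂ) * (a (true :: (p ++ z.1), true :: (q ++ z.2))
        + a (false :: (p ++ z.1), true :: (q ++ z.2))
        + (a (true :: (p ++ z.1), false :: (q ++ z.2))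
        + a (false :: (p ++ z.1), false :: (q ++ z.2)))) - a (p ++ z.1, q ++ z.2))‖
      ≤ 2 ^ m * C := by
    calc _ ≤ ∑ q ∈ lists m, ∑ p ∈ lists m,
        (1 / 4 * (dl a (true :: (q ++ z.2), p ++ z.1) + dl a (false :: (q ++ z.2), p ++ z.1))
          + 1 / 2 * dl a (p ++ z.1, q ++ z.2)) := by
          refine (norm_sum_le _ _).trans (Finset.sum_le_sum fun q _ => ?_)
          refine (norm_sum_le _ _).trans (Finset.sum_le_sum fun p _ => ?_)
          exact hpt _ _
      _ = 1 / 4 * (∑ p ∈ lists m, ∑ q ∈ lists m, dl a (true :: (q ++ z.2), p ++ z.1)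
            + ∑ p ∈ lists m, ∑ q ∈ lists m, dl a (false :: (q ++ z.2), p ++ z.1))
          + 1 / 2 * ∑ q ∈ lists m, ∑ p ∈ lists m, dl a (p ++ z.1, q ++ z.2) := by
          simp only [Finset.sum_add_distrib, ← Finset.mul_sum]
          congr 2
          congr 1 <;> rw [Finset.sum_comm]
      _ ≤ 1 / 4 * (∑ _p ∈ lists m, C + ∑ _p ∈ lists m, C) + 1 / 2 * ∑ _q ∈ lists m, C := by
          gcongr with p hp p hp q hq
          · exact h2 true p hp
          · exact h2 false p hp
          · exact h1 q hq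
      _ = 2 ^ m * C := by
          simp only [Finset.sum_const, card_lists, nsmul_eq_mul]
          push_cast
          ring
  have n3 : ‖(1 / 4 : ℂ) ^ m‖ = (1 / 4) ^ m := by
    rw [norm_pow]; norm_num
  rw [n3]
  calc _ ≤ (1 / 4 : ℝ) ^ m * (2 ^ m * C) := by gcongr
    _ = (1 / 2) ^ m * C := by
        rw [← mul_assoc, ← mul_pow]; norm_num

/-- summing the steps -/
theorem F_diff (a : T → ℂ) (C : ℝ) (hC : 0 ≤ C) (z : T) (m n : ℕ)
    (h : ∀ k, ‖F a (k + 1) z - F a k z‖ ≤ (1 / 2) ^ k * C) :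
    ‖F a (m + n) z - F a m z‖ ≤ 2 * (1 / 2) ^ m * C := by
  have key : ‖F a (m + n) z - F a m z‖ ≤ 2 * (1 / 2) ^ m * C - 2 * (1 / 2) ^ (m + n) * C := by
    induction n with
    | zero => simp
    | succ n ih =>
      have e : F a (m + (n + 1)) z - F a m z
          = (F a (m + n + 1) z - F a (m + n) z) + (F a (m + n) z - F a m z) := by
        rw [← add_assoc]; ring
      rw [e]
      refine (norm_add_le _ _).trans ?_
      have := h (m + n)
      have e2 : 2 * (1 / 2 : ℝ) ^ (m + (n + 1)) * C = (1 / 2) ^ (m + n) * C := by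
        rw [← add_assoc, pow_succ]; ring
      rw [e2]
      have e3 : 2 * (1 / 2 : ℝ) ^ (m + n) * C = (1 / 2) ^ (m + n) * C + (1 / 2) ^ (m + n) * C := by
        ring
      linarith
  have : 0 ≤ 2 * (1 / 2 : ℝ) ^ (m + n) * C := by positivity
  linarith

/-- sums over words with a fixed suffix -/
theorem sum_append_le (f : List Bool → ℝ) (C : ℝ) (m : ℕ) (x : List Bool)
    (h : ∀ S : Finset (List Bool), (∀ s ∈ S, s.length = m + x.length) → ∑ s ∈ S, f s ≤ C) :
    ∑ p ∈ lists m, f (p ++ x) ≤ C := by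
  have h1 := h ((lists m).image (fun p => p ++ x)) (by
    intro s hs
    obtain ⟨p, hp, rfl⟩ := Finset.mem_image.1 hs
    simp [mem_lists.1 hp])
  rwa [Finset.sum_image (by
    intro p _ q _ hpq
    exact List.append_cancel_right hpq)] at h1

/-- Class bounds give step bounds. -/
theorem F_step_class (a : T → ℂ) (C : ℝ) (z : T)
    (h : ∀ (y : List Bool) (n : ℕ) (S : Finset (List Bool)),
      z.1.length + z.2.length ≤ n + y.length →
      (∀ s ∈ S, s.length = n) → ∑ s ∈ S, dl a (s, y) ≤ C) (m : ℕ) :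
    ‖F a (m + 1) z - F a m z‖ ≤ (1 / 2) ^ m * C := by
  refine F_step a C m z (fun q hq => ?_) (fun b p hp => ?_)
  · refine sum_append_le (fun s => dl a (s, q ++ z.2)) C m z.1 fun S hS => ?_
    refine h (q ++ z.2) _ S ?_ hS
    simp [mem_lists.1 hq]; omega
  · have h1 : ∑ q ∈ lists m, dl a (b :: (q ++ z.2), p ++ z.1) ≤ C := by
      have h2 := h (p ++ z.1) (m + z.2.length + 1) ((lists m).image (fun q => b :: (q ++ z.2)))
        (by simp [mem_lists.1 hp]; omega) (by
          intro s hs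
          obtain ⟨q, hq, rfl⟩ := Finset.mem_image.1 hs
          simp [mem_lists.1 hq])
      rwa [Finset.sum_image (by
        intro p _ q _ hpq
        have := (List.cons.inj hpq).2
        exact List.append_cancel_right this)] at h2
    exact h1

/-- The mean is bounded by the sup over the level. -/
theorem norm_F_le (a : T → ℂ) (m : ℕ) (z : T) (C : ℝ)
    (h : ∀ p ∈ lists m, ∀ q ∈ lists m, ‖a (p ++ z.1, q ++ z.2)‖ ≤ C) : ‖F a m z‖ ≤ C := by
  unfold F
  rw [norm_mul]
  have n3 : ‖(1 / 4 : ℂ) ^ m‖ = (1 / 4) ^ m := by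
    rw [norm_pow]; norm_num
  rw [n3]
  have h1 : ‖∑ q ∈ lists m, ∑ p ∈ lists m, a (p ++ z.1, q ++ z.2)‖ ≤ 2 ^ m * (2 ^ m * C) := by
    refine (norm_sum_le _ _).trans ?_
    have : ∀ q ∈ lists m, ‖∑ p ∈ lists m, a (p ++ z.1, q ++ z.2)‖ ≤ 2 ^ m * C := by
      intro q hq
      refine (norm_sum_le _ _).trans ((Finset.sum_le_sum fun p hp => h p hp q hq).trans ?_)
      simp [card_lists]
    refine (Finset.sum_le_sum this).trans ?_
    simp [card_lists]
  calc _ ≤ (1 / 4 : ℝ) ^ m * (2 ^ m * (2 ^ m * C)) := by gcongr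
    _ = C := by
        rw [← mul_assoc, ← mul_assoc, ← mul_pow, ← mul_pow]; norm_num

theorem F_const (c : ℂ) (m : ℕ) (z : T) : F (fun _ => c) m z = c := by
  unfold F
  simp only [Finset.sum_const, card_lists, nsmul_eq_mul]
  push_cast
  rw [← mul_assoc, ← mul_assoc, ← mul_pow, ← mul_pow]; norm_num

theorem F_sub (a b : T → ℂ) (m : ℕ) (z : T) : F (fun v => a v - b v) m z = F a m z - F b m z := by
  unfold F
  simp only [Finset.sum_sub_distrib]
  ring

end Pool.Agent.R302.TreeB
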