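import Pool.Agent.R302.TreeB
import Pool.Agent.R302.ComplIdealDef

open Filter Topology

namespace Pool.Agent.R302.TreeC

open Pool.Agent.R302.TreeA Pool.Agent.R302.TreeB

/-! ## Finitely supported functions are bounded -/

theorem bd_single (v : T) : Bd (Pi.single v (1 : ℂ)) := by
  classical
  refine ⟨1 + 4 * w v, fun z => ?_, fun q => ?_⟩
  · have h0 := w_pos v
    by_cases h : z = v
    · subst h; simp; linarith
    · simp [Pi.single_eq_of_ne h]; linarith
  · have hb : ∀ x ∈ q.2, w (x, q.1) * dl (Pi.single v (1 : ℂ)) (x, q.1)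
        ≤ (if x = v.1 then 2 * w v else 0) + (if x = v.2 then 2 * w v else 0) := by
      intro x _
      have hw := w_pos v
      have hn : ∀ u u' : T, ‖(Pi.single v (1 : ℂ) : T → ℂ) u - (Pi.single v (1 : ℂ) : T → ℂ) u'‖
          ≤ 1 := by
        intro u u'
        by_cases h1 : u = v <;> by_cases h2 : u' = v <;>
          simp [h1, h2]
      have hdl : dl (Pi.single v (1 : ℂ)) (x, q.1) ≤ 2 := by
        unfold dl
        have := hn (x, q.1) (ch true (x, q.1))
        have := hn (x, q.1) (ch false (x, q.1))
        linarith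
      by_cases h1 : (x, q.1) = v
      · subst h1
        simp only [if_true]
        have : 0 ≤ (if x = q.1 then 2 * w (x, q.1) else 0) := by
          split_ifs <;> linarith
        nlinarith [w_pos (x, q.1), dl_nonneg (Pi.single (x, q.1) (1 : ℂ)) (x, q.1)]
      · by_cases h2 : x = v.2 ∧ q.1 = v.1.tail ∧ v.1 ≠ []
        · obtain ⟨h2, h3, h4⟩ := h2
          have hwle : w (x, q.1) ≤ w v := by
            unfold w
            simp only [h2, h3]
            have : v.1.tail.length ≤ v.1.length := by simp
            have : (v.1.tail.length : ℝ) ≤ v.1.length := by exact_mod_cast this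
            linarith
          have h5 : 0 ≤ (if x = v.1 then 2 * w v else 0) := by
            split_ifs <;> linarith
          rw [if_pos h2]
          nlinarith [w_pos (x, q.1), dl_nonneg (Pi.single v (1 : ℂ)) (x, q.1)]
        · have h3 : ∀ b, ch b (x, q.1) ≠ v := by
            intro b hb
            apply h2
            rw [← hb]
            simp [ch]
          have h4 : dl (Pi.single v (1 : ℂ)) (x, q.1) = 0 := by
            unfold dl
            rw [Pi.single_eq_of_ne h1, Pi.single_eq_of_ne (h3 true), Pi.single_eq_of_ne (h3 false)]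
            simp
          rw [h4, mul_zero]
          split_ifs <;> linarith
    have hs : ∀ c : List Bool, ∑ x ∈ q.2, (if x = c then 2 * w v else 0) ≤ 2 * w v := by
      intro c
      rw [Finset.sum_ite_eq']
      have := w_pos v
      split_ifs <;> linarith
    unfold Vs
    refine (Finset.sum_le_sum hb).trans ?_
    rw [Finset.sum_add_distrib]
    linarith [hs v.1, hs v.2]

theorem eq_sum_single (f : T → ℂ) (S : Finset T) (h : ∀ z, z ∉ S → f z = 0) :
    f = ∑ v ∈ S, f v • (Pi.single v (1 : ℂ) : T → ℂ) := by
  classical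
  ext z
  rw [Finset.sum_apply]
  simp only [Pi.smul_apply, Pi.single_apply, smul_eq_mul, mul_ite, mul_one, mul_zero]
  rw [Finset.sum_ite_eq]
  split_ifs with h1
  · rfl
  · exact h z h1

theorem bd_finite (f : T → ℂ) (S : Finset T) (h : ∀ z, z ∉ S → f z = 0) : Bd f := by
  rw [eq_sum_single f S h]
  exact BB.sum_mem fun v _ => BB.smul_mem (r := f v) (bd_single v)

/-- finitely supported elements -/
def IsFin (a : Alg) : Prop := ∃ S : Finset T, ∀ z, z ∉ S → fn a z = 0

/-- the subalgebra of finitely supported elements -/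
def C00 : NonUnitalSubalgebra ℂ Alg where
  carrier := {a | IsFin a}
  zero_mem' := ⟨∅, fun z _ => rfl⟩
  add_mem' := by
    classical
    rintro a b ⟨S, hS⟩ ⟨S', hS'⟩
    refine ⟨S ∪ S', fun z hz => ?_⟩
    rw [Finset.mem_union, not_or] at hz
    simp [hS z hz.1, hS' z hz.2]
  mul_mem' := by
    rintro a b ⟨S, hS⟩ _
    exact ⟨S, fun z hz => by simp [hS z hz]⟩
  smul_mem' := by
    rintro c a ⟨S, hS⟩
    exact ⟨S, fun z hz => by simp [hS z hz]⟩

/-- the algebra of the counterexample -/
noncomputable def AA : NonUnitalSubalgebra ℂ Alg := C00.topologicalClosure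

theorem mem_AA {a : Alg} : a ∈ AA ↔ ∀ ε > 0, ∃ b : Alg, IsFin b ∧ ‖a - b‖ < ε := by
  change a ∈ closure (C00 : Set Alg) ↔ _
  rw [Metric.mem_closure_iff]
  constructor
  · intro h ε hε
    obtain ⟨b, hb, hab⟩ := h ε hε
    exact ⟨b, hb, by rwa [dist_eq_norm] at hab⟩
  · intro h ε hε
    obtain ⟨b, hb, hab⟩ := h ε hε
    exact ⟨b, hb, by rwa [dist_eq_norm]⟩

instance : CompleteSpace AA := by
  have : IsClosed (AA : Set Alg) := isClosed_closure
  exact this.completeSpace_coe

noncomputable instance : NonUnitalNormedCommRing AA := inferInstance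

end Pool.Agent.R302.TreeC
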