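import Pool.Agent.R302.TreeC

open Filter Topology

namespace Pool.Agent.R302.TreeD

open Pool.Agent.R302.TreeA Pool.Agent.R302.TreeB Pool.Agent.R302.TreeC

/-- cut-off -/
noncomputable def θ (s : ℝ) : ℝ := max 0 (min 1 (2 * s - 1))

theorem θ_nonneg (s : ℝ) : 0 ≤ θ s := le_max_left _ _
theorem θ_le_one (s : ℝ) : θ s ≤ 1 := max_le zero_le_one (min_le_left _ _)
theorem θ_zero {s : ℝ} (h : s ≤ 1 / 2) : θ s = 0 := by
  unfold θ
  apply max_eq_left
  exact (min_le_right _ _).trans (by linarith)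
theorem θ_one {s : ℝ} (h : 1 ≤ s) : θ s = 1 := by
  unfold θ
  rw [min_eq_left (by linarith)]
  exact max_eq_right zero_le_one
theorem θ_lip (s t : ℝ) : |θ s - θ t| ≤ 2 * |s - t| := by
  unfold θ
  have h1 : |max 0 (min 1 (2 * s - 1)) - max 0 (min 1 (2 * t - 1))|
      ≤ |min 1 (2 * s - 1) - min 1 (2 * t - 1)| := by
    have := abs_max_sub_max_le_max 0 (min 1 (2 * s - 1)) 0 (min 1 (2 * t - 1))
    simpa using this
  have h2 : |min 1 (2 * s - 1) - min 1 (2 * t - 1)| ≤ |(2 * s - 1) - (2 * t - 1)| := by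
    have := abs_min_sub_min_le_max 1 (2 * s - 1) 1 (2 * t - 1)
    simpa using this
  have h3 : |(2 * s - 1) - (2 * t - 1)| = 2 * |s - t| := by
    rw [show (2 * s - 1) - (2 * t - 1) = 2 * (s - t) by ring, abs_mul]
    norm_num
  linarith

theorem exists_tau (g : T → ℝ) (hg : ∀ z, 0 ≤ g z) (S : Finset T) {η : ℝ} (hη : 0 < η) :
    ∃ τ > 0, τ ≤ η ∧ ∀ z ∈ S, g z = 0 ∨ τ ≤ g z := by
  classical
  induction S using Finset.induction_on with
  | empty => exact ⟨η, hη, le_rfl, by simp⟩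
  | insert v S _ ih =>
    obtain ⟨τ, h1, h2, h3⟩ := ih
    rcases (hg v).eq_or_lt with h | h
    · refine ⟨τ, h1, h2, fun z hz => ?_⟩
      rcases Finset.mem_insert.1 hz with rfl | hz
      · left; exact h.symm
      · exact h3 z hz
    · refine ⟨min τ (g v), lt_min h1 h, (min_le_left _ _).trans h2, fun z hz => ?_⟩
      rcases Finset.mem_insert.1 hz with rfl | hz
      · right; exact min_le_right _ _
      · rcases h3 z hz with h4 | h4
        · left; exact h4
        · right; exact (min_le_left _ _).trans h4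

theorem key_pt (α : T → ℂ) (g : T → ℝ) {τ : ℝ} (hτ : 0 < τ) (hα : ∀ z, ‖α z‖ ≤ g z) (z c : T) :
    ‖α z * (1 - (θ (g z / τ) : ℂ)) - α c * (1 - (θ (g c / τ) : ℂ))‖
      ≤ 2 * ‖α z - α c‖ + 2 * |g z - g c| := by
  have e : α z * (1 - (θ (g z / τ) : ℂ)) - α c * (1 - (θ (g c / τ) : ℂ))
      = (α z - α c) * ((1 - θ (g z / τ) : ℝ) : ℂ)
        + α c * ((θ (g c / τ) - θ (g z / τ) : ℝ) : ℂ) := by
    push_cast; ring
  rw [e]
  have h1 : ‖(α z - α c) * ((1 - θ (g z / τ) : ℝ) : ℂ)‖ ≤ ‖α z - α c‖ := by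
    rw [norm_mul, Complex.norm_real, Real.norm_eq_abs, abs_of_nonneg (by linarith [θ_le_one (g z / τ)])]
    have := θ_nonneg (g z / τ)
    nlinarith [norm_nonneg (α z - α c)]
  have hlip : |θ (g c / τ) - θ (g z / τ)| ≤ 2 / τ * |g z - g c| := by
    refine (θ_lip _ _).trans (le_of_eq ?_)
    rw [← sub_div, abs_div, abs_of_pos hτ, abs_sub_comm]
    ring
  have h2 : ‖α c * ((θ (g c / τ) - θ (g z / τ) : ℝ) : ℂ)‖ ≤ ‖α z - α c‖ + 2 * |g z - g c| := by
    rw [norm_mul, Complex.norm_real, Real.norm_eq_abs]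
    by_cases hc : g c < τ
    · have h3 : ‖α c‖ ≤ τ := (hα c).trans hc.le
      calc ‖α c‖ * |θ (g c / τ) - θ (g z / τ)| ≤ τ * (2 / τ * |g z - g c|) :=
            mul_le_mul h3 hlip (abs_nonneg _) hτ.le
        _ = 2 * |g z - g c| := by field_simp
        _ ≤ _ := by linarith [norm_nonneg (α z - α c)]
    · push Not at hc
      have h4 : θ (g c / τ) = 1 := θ_one ((one_le_div hτ).2 hc)
      by_cases hz : g z < τ
      · have h5 : ‖α c‖ ≤ τ + ‖α z - α c‖ := by
          have := norm_sub_norm_le (α c) (α z)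
          rw [norm_sub_rev] at this
          linarith [hα z]
        have h6 : |θ (g c / τ) - θ (g z / τ)| ≤ 1 := by
          rw [h4, abs_le]
          constructor <;> linarith [θ_nonneg (g z / τ), θ_le_one (g z / τ)]
        calc ‖α c‖ * |θ (g c / τ) - θ (g z / τ)|
            ≤ (τ + ‖α z - α c‖) * |θ (g c / τ) - θ (g z / τ)| :=
              mul_le_mul_of_nonneg_right h5 (abs_nonneg _)
          _ = τ * |θ (g c / τ) - θ (g z / τ)| + ‖α z - α c‖ * |θ (g c / τ) - θ (g z / τ)| := by ring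
          _ ≤ τ * (2 / τ * |g z - g c|) + ‖α z - α c‖ * 1 := by gcongr
          _ = _ := by field_simp; ring
      · push Not at hz
        have h5 : θ (g z / τ) = 1 := θ_one ((one_le_div hτ).2 hz)
        rw [h4, h5]
        simp
        positivity
  refine (norm_add_le _ _).trans ?_
  linarith

theorem approx (F : Finset Alg) (hF : ∀ a ∈ F, a ∈ AA) {ε : ℝ} (hε : 0 < ε) :
    ∃ e : Alg, IsFin e ∧ ∀ a ∈ F, ‖a - a * e‖ ≤ ε := by
  classical
  set n : ℝ := (F.card : ℝ) with hn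
  have hn0 : 0 ≤ n := by positivity
  set δ : ℝ := ε / (8 * (n + 1)) with hδ
  have hδ0 : 0 < δ := by positivity
  have h1 : ∀ a ∈ F, ∃ b : Alg, IsFin b ∧ ‖a - b‖ < δ := fun a ha => mem_AA.1 (hF a ha) δ hδ0
  choose! b hb1 hb2 using h1
  choose! S hS using hb1
  set S₀ := F.biUnion S with hS₀
  set S₁ := S₀ ∪ (S₀.image (ch true) ∪ (S₀.image (ch false) ∪ S₀.image pr)) with hS₁
  set g : T → ℝ := fun z => ∑ a ∈ F, ‖fn a z‖ with hg
  have hg0 : ∀ z, 0 ≤ g z := fun z => Finset.sum_nonneg fun _ _ => norm_nonneg _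
  have hag : ∀ a ∈ F, ∀ z, ‖fn a z‖ ≤ g z := fun a ha z =>
    Finset.single_le_sum (f := fun a => ‖fn a z‖) (fun _ _ => norm_nonneg _) ha
  obtain ⟨τ, hτ0, hτε, hτ⟩ := exists_tau g hg0 S₁ (half_pos hε)
  -- the cut-off function has finite support
  have hfin : ∃ S₂ : Finset T, ∀ z, z ∉ S₂ → ((θ (g z / τ) : ℝ) : ℂ) = 0 := by
    have h2 : ∀ a ∈ F, ∃ b : Alg, IsFin b ∧ ‖a - b‖ < τ / (2 * (n + 1)) := fun a ha =>
      mem_AA.1 (hF a ha) _ (by positivity)
    choose! b' hb1' hb2' using h2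
    choose! S' hS' using hb1'
    refine ⟨F.biUnion S', fun z hz => ?_⟩
    have h3 : g z ≤ τ / 2 := by
      have h4 : g z ≤ ∑ a ∈ F, τ / (2 * (n + 1)) := by
        refine Finset.sum_le_sum fun a ha => ?_
        have h5 : fn (b' a) z = 0 := hS' a ha z fun h => hz (Finset.mem_biUnion.2 ⟨a, ha, h⟩)
        have h6 := fn_le (a - b' a) z
        rw [fn_sub, Pi.sub_apply, h5, sub_zero] at h6
        exact h6.trans (hb2' a ha).le
      refine h4.trans ?_
      rw [Finset.sum_const, nsmul_eq_mul, ← hn]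
      rw [← mul_div_assoc, div_le_div_iff₀ (by positivity) (by norm_num)]
      nlinarith
    have h5 : θ (g z / τ) = 0 := by
      apply θ_zero
      rw [div_le_iff₀ hτ0]
      linarith
    rw [h5]; simp
  obtain ⟨S₂, hS₂⟩ := hfin
  refine ⟨mk (fun z => ((θ (g z / τ) : ℝ) : ℂ)) (bd_finite _ S₂ hS₂), ⟨S₂, hS₂⟩, fun a ha => ?_⟩
  have hval : ∀ z, fn (a - a * mk (fun z => ((θ (g z / τ) : ℝ) : ℂ)) (bd_finite _ S₂ hS₂)) z
      = fn a z * (1 - ((θ (g z / τ) : ℝ) : ℂ)) := by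
    intro z
    simp only [fn_sub, fn_mul, fn_mk, Pi.sub_apply, Pi.mul_apply]
    ring
  have hzero : ∀ z ∈ S₁, fn a z * (1 - ((θ (g z / τ) : ℝ) : ℂ)) = 0 := by
    intro z hz
    rcases hτ z hz with h | h
    · have h6 := hag a ha z
      rw [h] at h6
      have : fn a z = 0 := by simpa using h6
      rw [this, zero_mul]
    · rw [θ_one ((one_le_div hτ0).2 h)]
      simp
  have hedge : ∀ (z c : T), (z ∈ S₀ → c ∈ S₁) → (c ∈ S₀ → z ∈ S₁) →
      ‖fn a z * (1 - ((θ (g z / τ) : ℝ) : ℂ)) - fn a c * (1 - ((θ (g c / τ) : ℝ) : ℂ))‖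
      ≤ 4 * ∑ a' ∈ F, ‖fn (a' - b a') z - fn (a' - b a') c‖ := by
    intro z c hzc hcz
    have hpos : 0 ≤ 4 * ∑ a' ∈ F, ‖fn (a' - b a') z - fn (a' - b a') c‖ := by positivity
    by_cases h : z ∈ S₀ ∨ c ∈ S₀
    · have h7 : z ∈ S₁ ∧ c ∈ S₁ := by
        rcases h with h | h
        · exact ⟨Finset.mem_union_left _ h, hzc h⟩
        · exact ⟨hcz h, Finset.mem_union_left _ h⟩
      rw [hzero z h7.1, hzero c h7.2]
      simpa using hpos
    · push Not at h
      have h8 : ∀ a' ∈ F, fn (a' - b a') z - fn (a' - b a') c = fn a' z - fn a' c := by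
        intro a' ha'
        have h9 : fn (b a') z = 0 := hS a' ha' z fun hh => h.1 (Finset.mem_biUnion.2 ⟨a', ha', hh⟩)
        have h10 : fn (b a') c = 0 := hS a' ha' c fun hh => h.2 (Finset.mem_biUnion.2 ⟨a', ha', hh⟩)
        simp [h9, h10]
      have h11 : ∑ a' ∈ F, ‖fn (a' - b a') z - fn (a' - b a') c‖
          = ∑ a' ∈ F, ‖fn a' z - fn a' c‖ :=
        Finset.sum_congr rfl fun a' ha' => by rw [h8 a' ha']
      rw [h11]
      refine (key_pt (fn a) g hτ0 (hag a ha) z c).trans ?_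
      have h12 : ‖fn a z - fn a c‖ ≤ ∑ a' ∈ F, ‖fn a' z - fn a' c‖ :=
        Finset.single_le_sum (f := fun a' => ‖fn a' z - fn a' c‖) (fun _ _ => norm_nonneg _) ha
      have h13 : |g z - g c| ≤ ∑ a' ∈ F, ‖fn a' z - fn a' c‖ := by
        rw [hg]
        simp only
        rw [← Finset.sum_sub_distrib]
        refine (Finset.abs_sum_le_sum_abs _ _).trans (Finset.sum_le_sum fun a' _ => ?_)
        exact abs_norm_sub_norm_le _ _
      linarith
  have hsup : ∀ z, ‖fn a z * (1 - ((θ (g z / τ) : ℝ) : ℂ))‖ ≤ ε / 2 := by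
    intro z
    by_cases h : τ ≤ g z
    · rw [θ_one ((one_le_div hτ0).2 h)]
      simp; linarith
    · push Not at h
      have h14 : ‖(1 - ((θ (g z / τ) : ℝ) : ℂ))‖ ≤ 1 := by
        rw [← Complex.ofReal_one, ← Complex.ofReal_sub, Complex.norm_real, Real.norm_eq_abs, abs_le]
        constructor <;> linarith [θ_nonneg (g z / τ), θ_le_one (g z / τ)]
      rw [norm_mul]
      calc _ ≤ ‖fn a z‖ * 1 := by gcongr
        _ ≤ ε / 2 := by linarith [hag a ha z]
  have hVs : ∀ q, Vs (fn (a - a * mk (fun z => ((θ (g z / τ) : ℝ) : ℂ)) (bd_finite _ S₂ hS₂))) q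
      ≤ ε / 2 := by
    intro q
    have h15 : ∀ x ∈ q.2, w (x, q.1) * dl (fn (a - a * mk (fun z => ((θ (g z / τ) : ℝ) : ℂ))
        (bd_finite _ S₂ hS₂))) (x, q.1) ≤ 4 * ∑ a' ∈ F, w (x, q.1) * dl (fn (a' - b a')) (x, q.1) := by
      intro x _
      rw [← Finset.mul_sum, mul_left_comm]
      refine mul_le_mul_of_nonneg_left ?_ (w_pos _).le
      unfold dl
      simp only [hval]
      rw [Finset.sum_add_distrib, mul_add]
      refine add_le_add (hedge _ _ (fun h => ?_) (fun h => ?_)) (hedge _ _ (fun h => ?_) (fun h => ?_))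
      · exact Finset.mem_union_right _ (Finset.mem_union_left _ (Finset.mem_image_of_mem _ h))
      · refine Finset.mem_union_right _ (Finset.mem_union_right _ (Finset.mem_union_right _ ?_))
        exact Finset.mem_image.2 ⟨_, h, rfl⟩
      · exact Finset.mem_union_right _ (Finset.mem_union_right _
          (Finset.mem_union_left _ (Finset.mem_image_of_mem _ h)))
      · refine Finset.mem_union_right _ (Finset.mem_union_right _ (Finset.mem_union_right _ ?_))
        exact Finset.mem_image.2 ⟨_, h, rfl⟩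
    unfold Vs
    refine (Finset.sum_le_sum h15).trans ?_
    rw [← Finset.mul_sum, Finset.sum_comm]
    have h16 : ∑ a' ∈ F, ∑ x ∈ q.2, w (x, q.1) * dl (fn (a' - b a')) (x, q.1) ≤ ∑ _a' ∈ F, δ :=
      Finset.sum_le_sum fun a' ha' => (Vs_le (a' - b a') q).trans (hb2 a' ha').le
    rw [Finset.sum_const, nsmul_eq_mul, ← hn] at h16
    have h17 : 4 * (n * δ) ≤ ε / 2 := by
      rw [hδ, ← mul_div_assoc, ← mul_div_assoc, div_le_div_iff₀ (by positivity) (by norm_num)]
      nlinarith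
    linarith
  have := norm_le (a := a - a * mk (fun z => ((θ (g z / τ) : ℝ) : ℂ)) (bd_finite _ S₂ hS₂))
    (fun z => by rw [hval]; exact hsup z) hVs
  linarith

end Pool.Agent.R302.TreeD
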