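import Pool.Agent.R302.TreeD
import Pool.Agent.R302.SemiE
import Pool.Agent.R302.SemiBddDef

open Filter Topology

namespace Pool.Agent.R302.TreeE

open Pool.Agent.R302.TreeA Pool.Agent.R302.TreeB Pool.Agent.R302.TreeC Pool.Agent.R302.TreeD
open Pool.Agent.R302

universe u'

/-- a finitely supported element of `AA` -/
def el (f : T → ℂ) (S : Finset T) (h : ∀ z, z ∉ S → f z = 0) : AA :=
  ⟨mk f (bd_finite f S h), C00.le_topologicalClosure ⟨S, h⟩⟩

/-- the point masses -/
def P (v : T) : AA :=
  el (Pi.single v 1) {v} (fun z hz => by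
    classical
    rw [Finset.mem_singleton] at hz
    exact Pi.single_eq_of_ne hz 1)

@[simp] theorem fn_P (v : T) : fn (P v : Alg) = Pi.single v 1 := rfl
@[simp] theorem fn_el (f : T → ℂ) (S : Finset T) (h : ∀ z, z ∉ S → f z = 0) :
    fn (el f S h : Alg) = f := rfl

theorem ext' {a b : AA} (h : ∀ z, fn (a : Alg) z = fn (b : Alg) z) : a = b :=
  Subtype.ext (fn_ext h)

theorem mul_P (a : AA) (v : T) : a * P v = fn (a : Alg) v • P v := by
  classical
  apply ext'
  intro z
  change fn (a : Alg) z * (Pi.single v (1 : ℂ) : T → ℂ) z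
    = fn (a : Alg) v * (Pi.single v (1 : ℂ) : T → ℂ) z
  by_cases h : z = v
  · subst h; rfl
  · rw [Pi.single_eq_of_ne h]; simp

theorem P_mul_P (v : T) : P v * P v = P v := by
  rw [mul_P]
  simp

theorem fn_sum {I : Type*} (S : Finset I) (f : I → AA) (z : T) :
    fn ((∑ i ∈ S, f i : AA) : Alg) z = ∑ i ∈ S, fn (f i : Alg) z := by
  classical
  induction S using Finset.induction_on with
  | empty => simp
  | insert i s hi ih => rw [Finset.sum_insert hi, Finset.sum_insert hi, ← ih]; rfl

theorem el_eq_sum (f : T → ℂ) (S : Finset T) (h : ∀ z, z ∉ S → f z = 0) :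
    el f S h = ∑ v ∈ S, f v • P v := by
  apply ext'
  intro z
  rw [fn_sum, fn_el]
  conv_lhs => rw [eq_sum_single f S h]
  rw [Finset.sum_apply]
  rfl

theorem asa : SemiDefs.IsApproxSemiAmenable.{0, u'} AA := by
  classical
  apply SemiE.asa_of_approx
  intro F ε hε
  obtain ⟨e, ⟨S, hS⟩, he⟩ := approx (F.image (fun a : AA => (a : Alg))) (by
    intro a ha
    obtain ⟨b, _, rfl⟩ := Finset.mem_image.1 ha
    exact b.2) hε
  have heA : e ∈ AA := C00.le_topologicalClosure ⟨S, hS⟩
  refine ⟨⟨e, heA⟩, T, S, P, fun a v => fn (a : Alg) v, fun v _ => P_mul_P v, ?_,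
    fun a v _ => mul_P a v, fun a ha => he a (Finset.mem_image_of_mem _ ha)⟩
  apply ext'
  intro z
  change fn e z * fn ((∑ v ∈ S, P v : AA) : Alg) z = fn e z
  rw [fn_sum]
  by_cases h : z ∈ S
  · have : ∑ v ∈ S, fn (P v : Alg) z = 1 := by
      rw [Finset.sum_eq_single z]
      · simp
      · intro b _ hb
        simp [Pi.single_eq_of_ne hb.symm]
      · intro hh; exact absurd h hh
    rw [this, mul_one]
  · rw [hS z h, zero_mul]

/-! ## Decay of evaluations -/

theorem eval_decay_fin (a : Alg) (ha : IsFin a) (v : T) : ‖fn a v‖ ≤ 2 * (‖a‖ / w v) := by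
  obtain ⟨S, hS⟩ := ha
  have hstep := F_step_class (fn a) (‖a‖ / w v) v (by
    intro y n S' hle hlen
    rw [le_div_iff₀ (w_pos v), Finset.sum_mul]
    refine le_trans ?_ (Vs_le a (y, S'))
    unfold Vs
    refine Finset.sum_le_sum fun s hs => ?_
    rw [mul_comm]
    refine mul_le_mul_of_nonneg_right ?_ (dl_nonneg _ _)
    unfold w
    simp only [hlen s hs]
    have : ((v.1.length + v.2.length : ℕ) : ℝ) ≤ ((n + y.length : ℕ) : ℝ) := by exact_mod_cast hle
    push_cast at this
    linarith)
  set n := (S.sup (fun z => z.1.length)) + 1 with hn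
  have h1 := F_diff (fn a) (‖a‖ / w v) (div_nonneg (norm_nonneg _) (w_pos v).le) v 0 n hstep
  have h2 : F (fn a) n v = 0 := by
    unfold F
    rw [Finset.sum_eq_zero, mul_zero]
    intro q _
    refine Finset.sum_eq_zero fun p hp => hS _ fun hmem => ?_
    have h3 := Finset.le_sup (f := fun z : T => z.1.length) hmem
    simp only [List.length_append, mem_lists.1 hp] at h3
    omega
  rw [zero_add, h2, F_zero, zero_sub, norm_neg] at h1
  simpa using h1

theorem eval_decay (a : AA) (v : T) : ‖fn (a : Alg) v‖ ≤ 2 / w v * ‖a‖ := by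
  refine le_of_forall_pos_le_add fun ε hε => ?_
  obtain ⟨b, hb, hab⟩ := mem_AA.1 a.2 (ε / 3) (by positivity)
  have h1 := eval_decay_fin b hb v
  have h2 := fn_le ((a : Alg) - b) v
  have h3 : ‖fn (a : Alg) v‖ ≤ ‖fn b v‖ + ‖fn ((a : Alg) - b) v‖ := by
    have : fn (a : Alg) v = fn b v + fn ((a : Alg) - b) v := by simp
    rw [this]; exact norm_add_le _ _
  have h4 : ‖b‖ ≤ ‖a‖ + ε / 3 := by
    have : ‖b‖ ≤ ‖(a : Alg)‖ + ‖(a : Alg) - b‖ := by
      have h5 : b = (a : Alg) - ((a : Alg) - b) := by abel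
      conv_lhs => rw [h5]
      exact norm_sub_le _ _
    have h6 : ‖(a : Alg)‖ = ‖a‖ := rfl
    linarith
  have h7 : 2 * (‖b‖ / w v) ≤ 2 * ((‖a‖ + ε / 3) / w v) := by
    have := w_pos v
    gcongr
  have h8 : 2 * ((‖a‖ + ε / 3) / w v) ≤ 2 / w v * ‖a‖ + 2 * (ε / 3) := by
    have h9 : ε / 3 / w v ≤ ε / 3 := div_le_self (by positivity) (one_le_w v)
    have : 2 * ((‖a‖ + ε / 3) / w v) = 2 / w v * ‖a‖ + 2 * (ε / 3 / w v) := by
      ring
    linarith
  linarith

/-- evaluation on `AA` -/
noncomputable def dlt (v : T) : AA →L[ℂ] ℂ :=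
  LinearMap.mkContinuous
    { toFun := fun a => fn (a : Alg) v
      map_add' := fun _ _ => rfl
      map_smul' := fun _ _ => rfl } (2 / w v) (fun a => eval_decay a v)

@[simp] theorem dlt_apply (v : T) (a : AA) : dlt v a = fn (a : Alg) v := rfl

theorem norm_dlt_le (v : T) : ‖dlt v‖ ≤ 2 / w v :=
  LinearMap.mkContinuous_norm_le _ (div_nonneg (by norm_num) (w_pos v).le) _

theorem norm_dlt_le_one (v : T) : ‖dlt v‖ ≤ 1 :=
  ContinuousLinearMap.opNorm_le_bound _ zero_le_one fun a => by
    rw [one_mul]; exact fn_le (a : Alg) v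

/-! ## Bumps -/

/-- the bump function -/
def bset (n : ℕ) (y : List Bool) : Finset T :=
  (lists n ×ˢ {y}) ∪ ({true :: y, false :: y} ×ˢ lists n)

theorem mem_bset {n : ℕ} {y : List Bool} {z : T} :
    z ∈ bset n y ↔ (z.1.length = n ∧ z.2 = y) ∨ ((z.1 = true :: y ∨ z.1 = false :: y)
      ∧ z.2.length = n) := by
  unfold bset
  rw [Finset.mem_union, Finset.mem_product, Finset.mem_product]
  simp only [mem_lists, Finset.mem_singleton, Finset.mem_insert]

/-- the bump function -/
noncomputable def bump (n : ℕ) (y : List Bool) : T → ℂ :=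
  fun z => if z ∈ bset n y then 1 else 0

theorem bump_zero (n : ℕ) (y : List Bool) (z : T) (h : z ∉ bset n y) : bump n y z = 0 := if_neg h

/-- the bump as an element -/
noncomputable def bumpE (n : ℕ) (y : List Bool) : AA := el (bump n y) (bset n y) (bump_zero n y)

theorem norm_bump_sub_le (n : ℕ) (y : List Bool) (z c : T) :
    ‖bump n y z - bump n y c‖ ≤ 1 := by
  unfold bump
  split_ifs <;> simp

theorem norm_bumpE_le (n : ℕ) (y : List Bool) :
    ‖bumpE n y‖ ≤ 13 * ((n : ℝ) + y.length + 1) := by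
  have hn : (0 : ℝ) ≤ n := by positivity
  have hy : (0 : ℝ) ≤ y.length := by positivity
  have h1 : ∀ z, ‖fn (bumpE n y : Alg) z‖ ≤ 1 := by
    intro z
    change ‖bump n y z‖ ≤ 1
    unfold bump
    split_ifs <;> simp
  set W : ℝ := (n : ℝ) + y.length + 2 with hW
  have h2 : ∀ q, Vs (fn (bumpE n y : Alg)) q ≤ 6 * W := by
    rintro ⟨y', S⟩
    have hpt : ∀ x ∈ S, w (x, y') * dl (bump n y) (x, y')
        ≤ (if x = true :: y then 2 * W else 0) + (if x = false :: y then 2 * W else 0)
          + (if x = y then 2 * W else 0) := by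
      intro x _
      have i1 : (0 : ℝ) ≤ (if x = true :: y then 2 * W else 0) := by split_ifs <;> linarith
      have i2 : (0 : ℝ) ≤ (if x = false :: y then 2 * W else 0) := by split_ifs <;> linarith
      have i3 : (0 : ℝ) ≤ (if x = y then 2 * W else 0) := by split_ifs <;> linarith
      have hdl2 : dl (bump n y) (x, y') ≤ 2 := by
        unfold dl
        have := norm_bump_sub_le n y (x, y') (ch true (x, y'))
        have := norm_bump_sub_le n y (x, y') (ch false (x, y'))
        linarith
      have hd0 := dl_nonneg (bump n y) (x, y')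
      have hw0 := w_pos (x, y')
      by_cases h0 : dl (bump n y) (x, y') = 0
      · rw [h0, mul_zero]; linarith
      -- some edge is a boundary edge
      have hex : ∃ b, bump n y (x, y') ≠ bump n y (ch b (x, y')) := by
        by_contra hcon
        push Not at hcon
        apply h0
        unfold dl
        rw [← hcon true, ← hcon false]; simp
      obtain ⟨b, hb⟩ := hex
      have hmem : ((x, y') ∈ bset n y ∧ ch b (x, y') ∉ bset n y) ∨
          ((x, y') ∉ bset n y ∧ ch b (x, y') ∈ bset n y) := by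
        by_cases m1 : (x, y') ∈ bset n y <;> by_cases m2 : ch b (x, y') ∈ bset n y
        · exfalso; apply hb; unfold bump; rw [if_pos m1, if_pos m2]
        · left; exact ⟨m1, m2⟩
        · right; exact ⟨m1, m2⟩
        · exfalso; apply hb; unfold bump; rw [if_neg m1, if_neg m2]
      rcases hmem with ⟨m1, m2⟩ | ⟨m1, m2⟩
      · rw [mem_bset] at m1 m2
        rcases m1 with ⟨k1, k2⟩ | ⟨k1, k2⟩
        · exfalso
          apply m2
          right
          simp only at k1 k2
          subst k2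
          refine ⟨?_, k1⟩
          cases b
          · right; rfl
          · left; rfl
        · simp only at k1 k2
          have hwW : w (x, y') ≤ W := by
            unfold w
            rcases k1 with rfl | rfl <;>
            · simp only [List.length_cons, k2]
              push_cast
              linarith
          have hprod : w (x, y') * dl (bump n y) (x, y') ≤ 2 * W := by nlinarith
          rcases k1 with k1 | k1
          · rw [show (if x = true :: y then 2 * W else 0) = 2 * W from if_pos k1]; linarith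
          · rw [show (if x = false :: y then 2 * W else 0) = 2 * W from if_pos k1]; linarith
      · rw [mem_bset] at m1 m2
        rcases m2 with ⟨k1, k2⟩ | ⟨k1, k2⟩
        · have k3 : x = y := k2
          have k4 : y'.length + 1 = n := by simpa [ch] using k1
          have hwW : w (x, y') ≤ W := by
            unfold w
            rw [k3]
            have : (y'.length : ℝ) + 1 = n := by exact_mod_cast k4
            simp only
            linarith
          have hprod : w (x, y') * dl (bump n y) (x, y') ≤ 2 * W := by nlinarith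
          rw [if_pos k3]; linarith
        · exfalso
          apply m1
          left
          have k3 : x.length = n := k2
          have k4 : y' = y := by
            rcases k1 with k1 | k1 <;> · simp only [ch, List.cons.injEq] at k1; exact k1.2
          exact ⟨k3, k4⟩
    have hs : ∀ c : List Bool, ∑ x ∈ S, (if x = c then 2 * W else 0) ≤ 2 * W := by
      intro c
      rw [Finset.sum_ite_eq']
      split_ifs <;> linarith
    change Vs (bump n y) (y', S) ≤ _
    unfold Vs
    refine (Finset.sum_le_sum hpt).trans ?_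
    rw [Finset.sum_add_distrib, Finset.sum_add_distrib]
    linarith [hs (true :: y), hs (false :: y), hs y]
  have h3 := norm_le (a := (bumpE n y : Alg)) h1 h2
  have h4 : ‖bumpE n y‖ = ‖(bumpE n y : Alg)‖ := rfl
  rw [h4]
  linarith

theorem dl_bump_mul (s : T → ℂ) (n : ℕ) (y x : List Bool) (hx : x.length = n) :
    dl (fun z => bump n y z * s z) (x, y) = dl s (x, y) := by
  have h1 : bump n y (x, y) = 1 := by
    have hm : (x, y) ∈ bset n y := mem_bset.2 (Or.inl ⟨hx, rfl⟩)
    unfold bump
    rw [if_pos hm]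
  have h2 : ∀ b, bump n y (ch b (x, y)) = 1 := by
    intro b
    have hm : ch b (x, y) ∈ bset n y := by
      rw [mem_bset]
      right
      refine ⟨?_, hx⟩
      cases b
      · right; rfl
      · left; rfl
    unfold bump
    rw [if_pos hm]
  unfold dl
  simp only [h1, h2, one_mul]

/-! ## The derivation without bounded approximate implementation -/

/-- the bimodule `AA*` with zero left action and `f · a = f(a ·)`. -/
noncomputable def MM : SemiDefs.BanachBimodule AA (AA →L[ℂ] ℂ) where
  l := 0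
  r := (ContinuousLinearMap.compL ℂ AA AA ℂ).flip.comp (ContinuousLinearMap.mul ℂ AA)
  mul_l a b f := rfl
  mul_r a b f := by
    ext x
    change f (a * b * x) = f (a * (b * x))
    rw [mul_assoc]
  l_r a b f := by simp

@[simp] theorem MM_r (a x : AA) (f : AA →L[ℂ] ℂ) : MM.r a f x = f (a * x) := rfl

theorem r_P (v : T) (f : AA →L[ℂ] ℂ) : MM.r (P v) f = f (P v) • dlt v := by
  ext x
  change f (P v * x) = f (P v) * fn (x : Alg) v
  rw [mul_comm, mul_P, map_smul, smul_eq_mul, mul_comm]

theorem r_el (f : T → ℂ) (S : Finset T) (h : ∀ z, z ∉ S → f z = 0) (φ : AA →L[ℂ] ℂ)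
    (ξ : (AA →L[ℂ] ℂ) →L[ℂ] ℂ) :
    ξ (MM.r (el f S h) φ) = φ (el (fun z => f z * ξ (dlt z)) S (fun z hz => by
      rw [h z hz, zero_mul])) := by
  rw [el_eq_sum, el_eq_sum, map_sum, map_sum, sum_apply, map_sum]
  refine Finset.sum_congr rfl fun v _ => ?_
  rw [map_smul, map_smul]
  change ξ (f v • MM.r (P v) φ) = _
  rw [r_P, map_smul, map_smul, smul_eq_mul, smul_eq_mul, smul_eq_mul]
  ring

theorem not_bdd : ¬ SemiBddDef.IsBddApproxSemiAmenable.{0, 0} AA := by
  classical
  intro h
  have hinc : IsBoundedLinearMap ℂ (fun a : AA => NormedSpace.inclusionInDoubleDual ℂ AA a) :=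
    IsLinearMap.with_bound ⟨fun a b => map_add _ a b, fun c a => map_smul _ c a⟩ 1
      (fun a => by
        rw [one_mul]
        exact NormedSpace.double_dual_bound ℂ AA a)
  obtain ⟨K, I, hp, hd, hn, ξs, ηs, hK, hlim⟩ := h (AA →L[ℂ] ℂ) (SemiC.ofCLM MM)
    (fun a => NormedSpace.inclusionInDoubleDual ℂ AA a) ⟨hinc, fun a b f => by
      change f (a * b) = (MM.r a f) b + (MM.l b f) a
      change f (a * b) = f (a * b) + 0
      rw [add_zero]⟩
  have hK' : ∀ (i : I) (a : AA) (f : AA →L[ℂ] ℂ), ‖ξs i (MM.r a f)‖ ≤ K * ‖a‖ * ‖f‖ := by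
    intro i a f
    have h1 := hK i a f
    have h2 : (SemiC.ofCLM MM).l a f = 0 := rfl
    rw [h2, map_zero, sub_zero] at h1
    exact h1
  have hlim' : ∀ (a : AA), ∀ ε > 0, ∀ᶠ i in atTop, ∀ f : AA →L[ℂ] ℂ,
      ‖f a - ξs i (MM.r a f)‖ ≤ ε * ‖f‖ := by
    intro a ε hε
    filter_upwards [hlim a ε hε] with i hi f
    have h1 := hi f
    have h2 : (SemiC.ofCLM MM).l a f = 0 := rfl
    rw [h2, map_zero, sub_zero] at h1
    exact h1
  set K₁ : ℝ := max K 0 with hK₁
  set C : ℝ := 13 * K₁ with hC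
  have hK₁0 : 0 ≤ K₁ := le_max_right _ _
  have hC0 : 0 ≤ C := by positivity
  obtain ⟨m, hm⟩ : ∃ m : ℕ, 2 * (1 / 2 : ℝ) ^ m * C ≤ 1 / 4 := by
    have h1 : Tendsto (fun m : ℕ => 2 * (1 / 2 : ℝ) ^ m * C) atTop (𝓝 (2 * 0 * C)) :=
      ((tendsto_pow_atTop_nhds_zero_of_lt_one (by norm_num) (by norm_num)).const_mul 2).mul_const C
    rw [mul_zero, zero_mul] at h1
    exact ((h1.eventually (gt_mem_nhds (by norm_num : (0 : ℝ) < 1 / 4))).exists).imp
      fun m hm => hm.le
  have hev : ∀ᶠ i in atTop, ∀ v ∈ lists m ×ˢ lists m, ∀ f : AA →L[ℂ] ℂ,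
      ‖f (P v) - ξs i (MM.r (P v) f)‖ ≤ 1 / 4 * ‖f‖ := by
    rw [Filter.eventually_all_finset]
    intro v _
    exact hlim' (P v) _ (by norm_num)
  obtain ⟨i, hi⟩ := hev.exists
  set ξ := ξs i with hξ
  set s : T → ℂ := fun v => ξ (dlt v) with hs
  have hs1 : ∀ v ∈ lists m ×ˢ lists m, ‖s v - 1‖ ≤ 1 / 4 := by
    intro v hv
    have h1 := hi v hv (dlt v)
    rw [r_P, map_smul] at h1
    have h2 : dlt v (P v) = 1 := by simp
    rw [h2, one_smul, norm_sub_rev] at h1
    refine h1.trans ?_
    have := norm_dlt_le_one v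
    linarith
  have hs2 : ∀ v, ‖s v‖ ≤ ‖ξ‖ * (2 / w v) := fun v =>
    (ξ.le_opNorm _).trans (mul_le_mul_of_nonneg_left (norm_dlt_le v) (norm_nonneg _))
  have hs3 : ∀ (n : ℕ) (y : List Bool) (S : Finset (List Bool)), (∀ x ∈ S, x.length = n) →
      ∑ x ∈ S, dl s (x, y) ≤ C := by
    intro n y S hS
    have hz : ∀ z, z ∉ bset n y → bump n y z * s z = 0 := fun z hz => by
      rw [bump_zero n y z hz, zero_mul]
    have h1 : ‖el (fun z => bump n y z * s z) (bset n y) hz‖ ≤ K₁ * ‖bumpE n y‖ := by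
      refine NormedSpace.norm_le_dual_bound ℂ _ (by positivity) fun f => ?_
      rw [← r_el (bump n y) (bset n y) (bump_zero n y) f ξ]
      refine (hK' i _ f).trans ?_
      change K * ‖bumpE n y‖ * ‖f‖ ≤ K₁ * ‖bumpE n y‖ * ‖f‖
      gcongr
      exact le_max_left _ _
    have h2 := Vs_le (el (fun z => bump n y z * s z) (bset n y) hz : Alg) (y, S)
    have h3 : Vs (fn (el (fun z => bump n y z * s z) (bset n y) hz : Alg)) (y, S)
        = ((n : ℝ) + y.length + 1) * ∑ x ∈ S, dl s (x, y) := by
      unfold Vs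
      rw [Finset.mul_sum]
      refine Finset.sum_congr rfl fun x hx => ?_
      rw [fn_el, dl_bump_mul s n y x (hS x hx)]
      unfold w
      simp only [hS x hx]
    rw [h3] at h2
    have h4 : ((n : ℝ) + y.length + 1) * ∑ x ∈ S, dl s (x, y)
        ≤ K₁ * (13 * ((n : ℝ) + y.length + 1)) :=
      h2.trans (h1.trans (mul_le_mul_of_nonneg_left (norm_bumpE_le n y) hK₁0))
    have h5 : (0 : ℝ) < (n : ℝ) + y.length + 1 := by positivity
    rw [hC]
    nlinarith
  have hstep := F_step_class s C ([], []) (fun y n S _ hS => hs3 n y S hS)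
  have hF1 : ‖F s m ([], []) - 1‖ ≤ 1 / 4 := by
    have h1 : F s m ([], []) - 1 = F (fun v => s v - 1) m ([], []) := by
      rw [F_sub s (fun _ => 1), F_const]
    rw [h1]
    refine norm_F_le _ m _ _ fun p hp q hq => ?_
    refine hs1 _ ?_
    simp [hp, hq]
  obtain ⟨n, hn'⟩ := exists_nat_gt (8 * ‖ξ‖)
  have hF2 := F_diff s C hC0 ([], []) m n hstep
  have hF3 : ‖F s (m + n) ([], [])‖ ≤ ‖ξ‖ * (2 / (n + 1)) := by
    refine norm_F_le _ _ _ _ fun p hp q hq => (hs2 _).trans ?_
    refine mul_le_mul_of_nonneg_left ?_ (norm_nonneg _)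
    refine div_le_div_of_nonneg_left (by norm_num) (by positivity) ?_
    unfold w
    simp only [List.append_nil, mem_lists.1 hp, mem_lists.1 hq]
    push_cast
    have : (0 : ℝ) ≤ m := by positivity
    have : (0 : ℝ) ≤ n := by positivity
    linarith
  have hF4 : ‖ξ‖ * (2 / (n + 1)) < 1 / 4 := by
    rw [← mul_div_assoc, div_lt_iff₀ (by positivity)]
    linarith
  have hF5 : (1 : ℝ) ≤ ‖F s (m + n) ([], [])‖ + ‖F s (m + n) ([], []) - F s m ([], [])‖
      + ‖F s m ([], []) - 1‖ := by
    have h1 : (1 : ℂ) = F s (m + n) ([], []) - (F s (m + n) ([], []) - F s m ([], []))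
        - (F s m ([], []) - 1) := by ring
    have h2 : ‖(1 : ℂ)‖ = 1 := norm_one
    calc (1 : ℝ) = ‖(1 : ℂ)‖ := h2.symm
      _ = ‖F s (m + n) ([], []) - (F s (m + n) ([], []) - F s m ([], []))
        - (F s m ([], []) - 1)‖ := by rw [← h1]
      _ ≤ _ := (norm_sub_le _ _).trans (add_le_add (norm_sub_le _ _) le_rfl)
  linarith

end Pool.Agent.R302.TreeE
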