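import Pool.Agent.R302.WienerK

open MeasureTheory AddCircle Finset
open scoped ENNReal ComplexConjugate

namespace Pool.Agent.R302.WTwo

/-- bounded sequences in the Wiener algebra -/
abbrev B0 : Type := lp (fun _ : ℕ => W) ⊤

noncomputable def mk (x : ℕ → W) (C : ℝ) (h : ∀ N, ‖x N‖ ≤ C) : B0 :=
  ⟨x, memℓp_infty ⟨C, by rintro _ ⟨N, rfl⟩; exact h N⟩⟩

lemma mk_apply (x : ℕ → W) (C : ℝ) (h : ∀ N, ‖x N‖ ≤ C) (N : ℕ) : (mk x C h : ℕ → W) N = x N := rfl

lemma ext0 {x y : B0} (h : ∀ N, (x : ℕ → W) N = (y : ℕ → W) N) : x = y :=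
  lp.ext (funext h)

/-- evaluation -/
noncomputable def ev (N : ℕ) : B0 →+* W where
  toFun x := (x : ℕ → W) N
  map_one' := by rw [lp.infty_coeFn_one]; rfl
  map_mul' x y := by rw [lp.infty_coeFn_mul]; rfl
  map_zero' := rfl
  map_add' x y := rfl

lemma ev_mk (x : ℕ → W) (C : ℝ) (h : ∀ N, ‖x N‖ ≤ C) (N : ℕ) : ev N (mk x C h) = x N := rfl

lemma ext1 {x y : B0} (h : ∀ N, ev N x = ev N y) : x = y := ext0 h

lemma norm_ev_le (x : B0) (N : ℕ) : ‖ev N x‖ ≤ ‖x‖ := lp.norm_apply_le_norm (by simp) x N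

lemma norm_le_of_ev {x : B0} {C : ℝ} (hC : 0 ≤ C) (h : ∀ N, ‖ev N x‖ ≤ C) : ‖x‖ ≤ C :=
  lp.norm_le_of_forall_le hC h

open Classical in
noncomputable def ind (S : Set ℕ) : B0 := mk (fun N => if N ∈ S then 1 else 0) 1 (fun N => by
  split_ifs
  · rw [norm_one]
  · rw [norm_zero]; exact zero_le_one)

open Classical in
lemma ev_ind (S : Set ℕ) (N : ℕ) : ev N (ind S) = if N ∈ S then 1 else 0 := rfl

/-- the filter of a character -/
def U (ψ : B0 →ₐ[ℂ] ℂ) : Filter ℕ where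
  sets := {S | ψ (ind S) = 1}
  univ_sets := by
    show ψ (ind Set.univ) = 1
    have : ind Set.univ = 1 := ext1 fun N => by rw [ev_ind, map_one]; simp
    rw [this, map_one]
  sets_of_superset := fun {S T} hS hST => by
    have hS' : ψ (ind S) = 1 := hS
    show ψ (ind T) = 1
    have : ind S = ind S * ind T := ext1 fun N => by
      rw [map_mul, ev_ind, ev_ind]
      by_cases h : N ∈ S
      · simp [h, hST h]
      · simp [h]
    have h2 : ψ (ind S) = ψ (ind S) * ψ (ind T) := by rw [← map_mul, ← this]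
    rw [hS', one_mul] at h2
    exact h2.symm
  inter_sets := fun {S T} hS hT => by
    have hS' : ψ (ind S) = 1 := hS
    have hT' : ψ (ind T) = 1 := hT
    show ψ (ind (S ∩ T)) = 1
    have : ind (S ∩ T) = ind S * ind T := ext1 fun N => by
      rw [map_mul, ev_ind, ev_ind, ev_ind]
      by_cases h : N ∈ S <;> by_cases h' : N ∈ T <;> simp [h, h']
    rw [this, map_mul, hS', hT', one_mul]

variable {ψ : B0 →ₐ[ℂ] ℂ}

lemma mem_U {S : Set ℕ} : S ∈ U ψ ↔ ψ (ind S) = 1 := Iff.rfl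

instance : (U ψ).NeBot := ⟨fun h => by
  have : (∅ : Set ℕ) ∈ U ψ := by rw [h]; exact Filter.mem_bot
  rw [mem_U] at this
  have h0 : ind (∅ : Set ℕ) = 0 := ext1 fun N => by rw [ev_ind, map_zero]; simp
  rw [h0, map_zero] at this
  exact zero_ne_one this⟩

lemma mem_or_compl (S : Set ℕ) : S ∈ U ψ ∨ Sᶜ ∈ U ψ := by
  have h1 : ψ (ind S) * ψ (ind S) = ψ (ind S) := by
    rw [← map_mul]
    congr 1
    exact ext1 fun N => by rw [map_mul, ev_ind]; split_ifs <;> simp
  have h2 : ind Sᶜ = 1 - ind S := ext1 fun N => by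
    rw [map_sub, map_one, ev_ind, ev_ind]
    by_cases h : N ∈ S <;> simp [h]
  have h3 : ψ (ind S) * (ψ (ind S) - 1) = 0 := by linear_combination h1
  rcases mul_eq_zero.mp h3 with h | h
  · right; rw [mem_U, h2, map_sub, map_one, h, sub_zero]
  · left; rw [mem_U]; exact sub_eq_zero.mp h

lemma psi_congr {x y : B0} {S : Set ℕ} (hS : S ∈ U ψ) (h : ∀ N ∈ S, ev N x = ev N y) :
    ψ x = ψ y := by
  have h1 : ind S * x = ind S * y := ext1 fun N => by
    rw [map_mul, map_mul, ev_ind]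
    split_ifs with h'
    · rw [h N h']
    · simp
  have h2 := congrArg ψ h1
  rw [map_mul, map_mul, mem_U.mp hS, one_mul, one_mul] at h2
  exact h2

lemma psi_norm_le (hψ : ∀ x, ‖ψ x‖ ≤ ‖x‖) {x : B0} {S : Set ℕ} (hS : S ∈ U ψ) {r : ℝ}
    (hr : 0 ≤ r) (h : ∀ N ∈ S, ‖ev N x‖ ≤ r) : ‖ψ x‖ ≤ r := by
  have h1 : ψ x = ψ (ind S * x) := by rw [map_mul, mem_U.mp hS, one_mul]
  rw [h1]
  refine (hψ _).trans (norm_le_of_ev hr fun N => ?_)
  rw [map_mul, ev_ind]
  split_ifs with h'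
  · rw [one_mul]; exact h N h'
  · rw [zero_mul, norm_zero]; exact hr

lemma scalar {c : ℕ → ℂ} {C : ℝ} (hC : ∀ N, ‖c N • (1 : W)‖ ≤ C) {κ : ℝ} (hκ : 0 < κ) :
    {N | ‖c N - ψ (mk (fun N => c N • (1 : W)) C hC)‖ < κ} ∈ U ψ := by
  classical
  rcases mem_or_compl (ψ := ψ) {N | ‖c N - ψ (mk (fun N => c N • (1 : W)) C hC)‖ < κ} with h | h
  · exact h
  exfalso
  set γ := ψ (mk (fun N => c N • (1 : W)) C hC) with hγ
  set T : Set ℕ := {N | ‖c N - γ‖ < κ}ᶜ with hT
  have hTκ : ∀ N ∈ T, κ ≤ ‖c N - γ‖ := fun N hN => by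
    have : ¬ ‖c N - γ‖ < κ := hN
    exact not_lt.mp this
  let d : B0 := mk (fun N => if N ∈ T then (c N - γ)⁻¹ • (1 : W) else 0) κ⁻¹ (fun N => by
    split_ifs with h'
    · refine (norm_smul_le _ _).trans ?_
      rw [norm_one, mul_one, norm_inv]
      exact inv_anti₀ hκ (hTκ N h')
    · rw [norm_zero]; positivity)
  have h1 : d * (mk (fun N => c N • (1 : W)) C hC - algebraMap ℂ B0 γ) = ind T := ext1 fun N => by
    have h2 : ev N (algebraMap ℂ B0 γ) = γ • (1 : W) := by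
      rw [Algebra.algebraMap_eq_smul_one]
      have h3 : ev N (γ • (1 : B0)) = γ • ev N 1 := rfl
      rw [h3, map_one]
    rw [map_mul, map_sub, h2, ev_mk, ev_ind]
    show (if N ∈ T then (c N - γ)⁻¹ • (1 : W) else 0) * (c N • (1 : W) - γ • (1 : W)) = _
    split_ifs with h'
    · have h3 : c N - γ ≠ 0 := by
        intro h0
        have := hTκ N h'
        rw [h0, norm_zero] at this
        linarith
      rw [← sub_smul, smul_mul_smul_comm, inv_mul_cancel₀ h3, one_smul, one_mul]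
    · rw [zero_mul]
  have h2 := congrArg ψ h1
  rw [map_mul, map_sub, AlgHom.commutes, ← hγ, mem_U.mp h] at h2
  simp at h2

lemma exists_enum (a : ℤ → ℂ) (M : ℕ) : ∀ S : Finset ℤ, S.card ≤ M →
    ∃ (k : Fin M → ℤ) (c : Fin M → ℂ), ∑ i ∈ S, a i • ex i = ∑ j, c j • ex (k j) ∧
      ∑ j, ‖c j‖ = ∑ i ∈ S, ‖a i‖ := by
  classical
  induction M with
  | zero =>
    intro S hS
    have : S = ∅ := Finset.card_eq_zero.mp (by omega)
    subst this
    exact ⟨fun j => j.elim0, fun j => j.elim0, by simp, by simp⟩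
  | succ M ih =>
    intro S hS
    rcases S.eq_empty_or_nonempty with rfl | ⟨i, hi⟩
    · exact ⟨fun _ => 0, fun _ => 0, by simp, by simp⟩
    · obtain ⟨k, c, h1, h2⟩ := ih (S.erase i) (by rw [Finset.card_erase_of_mem hi]; omega)
      refine ⟨Fin.cons i k, Fin.cons (a i) c, ?_, ?_⟩
      · rw [Fin.sum_univ_succ]
        simp only [Fin.cons_zero, Fin.cons_succ]
        rw [← h1, Finset.add_sum_erase S (fun i => a i • ex i) hi]
      · rw [Fin.sum_univ_succ]
        simp only [Fin.cons_zero, Fin.cons_succ]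
        rw [h2, Finset.add_sum_erase S (fun i => ‖a i‖) hi]

lemma level_finite (x : W) (m : ℕ) : {k : ℤ | 1 / ((m : ℝ) + 1) ≤ ‖co x k‖}.Finite := by
  have h1 := (co_summable x).tendsto_cofinite_zero
  have h2 := h1.eventually (gt_mem_nhds (show (0 : ℝ) < 1 / ((m : ℝ) + 1) by positivity))
  rw [Filter.eventually_cofinite] at h2
  refine h2.subset fun k hk => ?_
  have hk' : 1 / ((m : ℝ) + 1) ≤ ‖co x k‖ := hk
  show ¬ ‖co x k‖ < 1 / ((m : ℝ) + 1)
  exact not_lt.mpr hk'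

/-- level sets -/
noncomputable def lev (x : W) (m : ℕ) : Finset ℤ := (level_finite x m).toFinset

lemma mem_lev {x : W} {m : ℕ} {k : ℤ} : k ∈ lev x m ↔ 1 / ((m : ℝ) + 1) ≤ ‖co x k‖ := by
  unfold lev
  rw [Set.Finite.mem_toFinset]
  exact Iff.rfl

lemma lev_mono (x : W) {m m' : ℕ} (h : m ≤ m') : lev x m ⊆ lev x m' := by
  intro k hk
  rw [mem_lev] at hk ⊢
  refine le_trans ?_ hk
  have : (m : ℝ) ≤ m' := by exact_mod_cast h
  gcongr

lemma norm_part_le (x : W) (S : Finset ℤ) : ‖part x S‖ ≤ ‖x‖ := by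
  rw [norm_part, norm_def]
  exact (co_summable x).sum_le_tsum S (fun _ _ => norm_nonneg _)

lemma card_lev {x : W} (hx : ‖x‖ ≤ 1) (m : ℕ) : (lev x m).card ≤ m + 1 := by
  have h1 : (lev x m).card • (1 / ((m : ℝ) + 1)) ≤ ∑ k ∈ lev x m, ‖co x k‖ :=
    Finset.card_nsmul_le_sum _ _ _ fun k hk => mem_lev.mp hk
  rw [← norm_part] at h1
  have h2 := norm_part_le x (lev x m)
  rw [nsmul_eq_mul] at h1
  have h3 : ((lev x m).card : ℝ) * (1 / ((m : ℝ) + 1)) ≤ 1 := by linarith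
  rw [mul_one_div, div_le_one (by positivity)] at h3
  exact_mod_cast h3

lemma int_tail {x : W} (hx : ‖x‖ ≤ 1) (m : ℕ) :
    ∫ t, ‖toC (x - part x (lev x m)) t‖ ^ 2 ∂mu ≤ 1 / ((m : ℝ) + 1) := by
  rw [int_sq]
  have h1 : ∀ n, ‖co (x - part x (lev x m)) n‖ ^ 2 ≤ 1 / ((m : ℝ) + 1) * ‖co x n‖ := fun n => by
    rw [co_sub, co_part]
    split_ifs with h
    · rw [sub_self, norm_zero, zero_pow two_ne_zero]; positivity
    · rw [mem_lev, not_le] at h
      rw [sub_zero, sq]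
      exact mul_le_mul_of_nonneg_right h.le (norm_nonneg _)
  refine ((sq_summable _).tsum_le_tsum h1 ((co_summable x).mul_left _)).trans ?_
  rw [tsum_mul_left, ← norm_def]
  have h2 : (0 : ℝ) ≤ 1 / ((m : ℝ) + 1) := by positivity
  exact mul_le_of_le_one_right h2 hx

/-- The main estimate: a character cannot vanish at `F`. -/
theorem psi_ne_zero (hψ : ∀ x, ‖ψ x‖ ≤ ‖x‖) {δ : ℝ} (hδ : 1 / 2 < δ) (F : B0)
    (hF : ∀ N, ‖ev N F‖ ≤ 1) (hFδ : ∀ N t, δ ≤ ‖toC (ev N F) t‖) : ψ F ≠ 0 := by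
  classical
  set κ : ℝ := (2 * δ - 1) / 18 with hκdef
  have hκ : 0 < κ := by rw [hκdef]; linarith
  set p : ℕ → ℕ → W := fun m N => part (ev N F) (lev (ev N F) m) with hp
  have hp1 : ∀ m N, ‖p m N‖ ≤ 1 := fun m N => (norm_part_le _ _).trans (hF N)
  have hpmono : ∀ m m' N, m ≤ m' → ‖p m' N - p m N‖ = ‖p m' N‖ - ‖p m N‖ := fun m m' N h =>
    norm_part_sub _ (lev_mono _ h)
  -- choice of the level
  obtain ⟨m₀, hm₀⟩ : ∃ m₀, ∀ m' ≥ m₀, {N | ‖p m' N‖ ≤ ‖p m₀ N‖ + κ} ∈ U ψ := by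
    by_contra hcon
    push Not at hcon
    have hJ : ∀ J : ℕ, ∃ m, {N | J * κ ≤ ‖p m N‖} ∈ U ψ := by
      intro J
      induction J with
      | zero =>
        refine ⟨0, ?_⟩
        have : {N | ((0 : ℕ) : ℝ) * κ ≤ ‖p 0 N‖} = Set.univ := by
          ext N; simp
        rw [this]; exact Filter.univ_mem
      | succ J ih =>
        obtain ⟨m, hm⟩ := ih
        obtain ⟨m', _, hm''⟩ := hcon m
        have h1 := (mem_or_compl (ψ := ψ) {N | ‖p m' N‖ ≤ ‖p m N‖ + κ}).resolve_left hm''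
        refine ⟨m', Filter.mem_of_superset (Filter.inter_mem hm h1) ?_⟩
        rintro N ⟨h2, h3⟩
        have h2' : J * κ ≤ ‖p m N‖ := h2
        have h3' : ¬ (‖p m' N‖ ≤ ‖p m N‖ + κ) := h3
        show ((J + 1 : ℕ) : ℝ) * κ ≤ ‖p m' N‖
        push_cast
        linarith
    obtain ⟨J, hJ'⟩ := exists_nat_gt (1 / κ)
    obtain ⟨m, hm⟩ := hJ J
    obtain ⟨N, hN⟩ := Filter.nonempty_of_mem hm
    have hN' : J * κ ≤ ‖p m N‖ := hN
    have := hp1 m N
    rw [div_lt_iff₀ hκ] at hJ'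
    linarith
  set M : ℕ := m₀ + 1 with hM
  have henum : ∀ N, ∃ (k : Fin M → ℤ) (c : Fin M → ℂ), p m₀ N = ∑ j, c j • ex (k j) ∧
      ∑ j, ‖c j‖ = ‖p m₀ N‖ := fun N => by
    obtain ⟨k, c, h1, h2⟩ := exists_enum (co (ev N F)) M (lev (ev N F) m₀) (card_lev (hF N) m₀)
    exact ⟨k, c, h1, by rw [h2, hp, norm_part]⟩
  choose k c hkc hcn using henum
  have hc1 : ∀ N j, ‖c N j‖ ≤ 1 := fun N j => by
    have h1 : ‖c N j‖ ≤ ∑ j, ‖c N j‖ :=
      Finset.single_le_sum (f := fun j => ‖c N j‖) (fun _ _ => norm_nonneg _) (Finset.mem_univ j)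
    rw [hcn] at h1
    exact h1.trans (hp1 _ _)
  have hc1' : ∀ j N, ‖c N j • (1 : W)‖ ≤ 1 := fun j N => by
    refine (norm_smul_le _ _).trans ?_
    rw [norm_one, mul_one]; exact hc1 N j
  set E : Fin M → B0 := fun j => mk (fun N => ex (k N j)) 1 (fun N => (norm_ex _).le) with hE
  set E' : Fin M → B0 := fun j => mk (fun N => ex (-k N j)) 1 (fun N => (norm_ex _).le) with hE'
  set w : Fin M → ℂ := fun j => ψ (E j) with hw
  set cc : Fin M → B0 := fun j => mk (fun N => c N j • (1 : W)) 1 (hc1' j) with hcc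
  set γ : Fin M → ℂ := fun j => ψ (cc j) with hγ
  have hw1 : ∀ j, ‖w j‖ = 1 := fun j => by
    have h1 : ‖w j‖ ≤ 1 := (hψ _).trans (norm_le_of_ev zero_le_one fun N => (norm_ex _).le)
    have h2 : ‖ψ (E' j)‖ ≤ 1 := (hψ _).trans (norm_le_of_ev zero_le_one fun N => (norm_ex _).le)
    have h3 : w j * ψ (E' j) = 1 := by
      have : E j * E' j = 1 := ext1 fun N => by
        rw [map_mul, map_one]
        show ex (k N j) * ex (-k N j) = 1
        rw [← ex_add, add_neg_cancel, ex_zero]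
      rw [hw, ← map_mul, this, map_one]
    have h4 : ‖w j‖ * ‖ψ (E' j)‖ = 1 := by rw [← norm_mul, h3, norm_one]
    have h5 := norm_nonneg (w j)
    have h6 := norm_nonneg (ψ (E' j))
    nlinarith
  set P : B0 := ∑ j, cc j * E j with hP
  have hPev : ∀ N, ev N P = p m₀ N := fun N => by
    rw [hP, map_sum, hkc]
    refine Finset.sum_congr rfl fun j _ => ?_
    rw [map_mul]
    show (c N j • (1 : W)) * ex (k N j) = _
    rw [smul_mul_assoc, one_mul]
  have hψP : ψ P = ∑ j, γ j * w j := by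
    rw [hP, map_sum]
    exact Finset.sum_congr rfl fun j _ => by rw [map_mul]
  obtain ⟨L₀, η, hη, hkey⟩ := keyK M hκ
  -- relations
  have hrelU : {N | ∀ n ∈ box M L₀, ∀ n' ∈ box M L₀,
      ∑ j, (n j : ℤ) * k N j = ∑ j, (n' j : ℤ) * k N j → ∏ j, w j ^ n j = ∏ j, w j ^ n' j} ∈
      U ψ := by
    have h1 : ∀ n ∈ box M L₀, ∀ n' ∈ box M L₀, ∀ᶠ N in U ψ,
        (∑ j, (n j : ℤ) * k N j = ∑ j, (n' j : ℤ) * k N j →
          ∏ j, w j ^ n j = ∏ j, w j ^ n' j) := by
      intro n _ n' _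
      by_cases h : ∏ j, w j ^ n j = ∏ j, w j ^ n' j
      · exact Filter.Eventually.of_forall fun _ _ => h
      · have hpw : ∀ n : Fin M → ℕ, ψ (mk (fun N => ex (∑ j, (n j : ℤ) * k N j)) 1
            (fun N => (norm_ex _).le)) = ∏ j, w j ^ n j := fun n => by
          have : mk (fun N => ex (∑ j, (n j : ℤ) * k N j)) 1 (fun N => (norm_ex _).le) =
              ∏ j, E j ^ n j := ext1 fun N => by
            rw [ev_mk, ex_sum, map_prod]
            refine Finset.prod_congr rfl fun j _ => ?_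
            rw [map_pow]
            show _ = ex (k N j) ^ n j
            rw [ex_nsmul]
          rw [this, map_prod]
          exact Finset.prod_congr rfl fun j _ => by rw [map_pow]
        rcases mem_or_compl (ψ := ψ) {N | ∑ j, (n j : ℤ) * k N j = ∑ j, (n' j : ℤ) * k N j}
          with h2 | h2
        · exfalso
          apply h
          rw [← hpw n, ← hpw n']
          refine psi_congr h2 fun N hN => ?_
          have hN' : ∑ j, (n j : ℤ) * k N j = ∑ j, (n' j : ℤ) * k N j := hN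
          rw [ev_mk, ev_mk, hN']
        · filter_upwards [h2] with N hN hN'
          exact absurd hN' hN
    have h2 := (Filter.eventually_all_finset (l := U ψ) (box M L₀)).mpr fun n hn =>
      (Filter.eventually_all_finset (l := U ψ) (box M L₀)).mpr fun n' hn' => h1 n hn n' hn'
    exact h2
  -- coefficients
  have hMpos : (0 : ℝ) < M := by rw [hM]; positivity
  have hcoefU : {N | ∀ j, ‖c N j - γ j‖ < κ / M} ∈ U ψ := by
    have h1 : ∀ j, ∀ᶠ N in U ψ, ‖c N j - γ j‖ < κ / M := fun j =>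
      scalar (ψ := ψ) (hc1' j) (by positivity)
    exact Filter.eventually_all.mpr h1
  have hcdist : ∀ N, (∀ j, ‖c N j - γ j‖ < κ / M) → ∑ j, ‖c N j - γ j‖ ≤ κ := fun N h => by
    calc ∑ j, ‖c N j - γ j‖ ≤ ∑ _j : Fin M, κ / M := Finset.sum_le_sum fun j _ => (h j).le
      _ = κ := by
        rw [Finset.sum_const, Finset.card_univ, Fintype.card_fin, nsmul_eq_mul]
        field_simp
  -- lower bound for psi P
  have hlow : δ - 4 * κ ≤ ‖ψ P‖ := by
    obtain ⟨m', hm'⟩ := exists_nat_gt (max (m₀ : ℝ) (1 / η))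
    have hm'1 : m₀ ≤ m' := by
      have : (m₀ : ℝ) < m' := lt_of_le_of_lt (le_max_left _ _) hm'
      exact_mod_cast this.le
    have hm'2 : 1 / ((m' : ℝ) + 1) ≤ η := by
      have h1 : 1 / η < m' := lt_of_le_of_lt (le_max_right _ _) hm'
      rw [div_lt_iff₀ hη] at h1
      rw [div_le_iff₀ (by positivity)]
      nlinarith
    obtain ⟨N, ⟨hN1, hN2⟩, hN3⟩ :=
      Filter.nonempty_of_mem (Filter.inter_mem (Filter.inter_mem hrelU hcoefU) (hm₀ m' hm'1))
    have hN3' : ‖p m' N‖ ≤ ‖p m₀ N‖ + κ := hN3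
    obtain ⟨t, ht1, ht2⟩ := hkey (k N) w hw1
      (fun n n' h1 h2 h3 => hN1 n (mem_box.mpr h1) n' (mem_box.mpr h2) h3)
      (toC (ev N F - p m' N)) ((int_tail (hF N) m').trans hm'2)
    have h1 := hFδ N t
    have h2 : toC (ev N F) t = toC (p m₀ N) t + toC (p m' N - p m₀ N) t +
        toC (ev N F - p m' N) t := by
      rw [map_sub, map_sub]
      simp only [ContinuousMap.sub_apply]
      ring
    have h3 : ‖toC (p m' N - p m₀ N) t‖ ≤ κ := by
      refine (toC_norm_le _ t).trans ?_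
      rw [hpmono m₀ m' N hm'1]; linarith
    have h4 : toC (p m₀ N) t = ∑ j, c N j * fourier (k N j) t := by
      rw [hkc, map_sum, ContinuousMap.sum_apply]
      refine Finset.sum_congr rfl fun j _ => ?_
      rw [map_smul, toC_ex, ContinuousMap.smul_apply, smul_eq_mul]
    have h5 : ‖toC (p m₀ N) t - ψ P‖ ≤ 2 * κ := by
      rw [h4, hψP, ← Finset.sum_sub_distrib]
      have h6 : ∀ j, ‖c N j * fourier (k N j) t - γ j * w j‖ ≤
          ‖c N j‖ * κ + ‖c N j - γ j‖ := fun j => by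
        have h7 : c N j * fourier (k N j) t - γ j * w j =
            c N j * (fourier (k N j) t - w j) + (c N j - γ j) * w j := by ring
        rw [h7]
        refine (norm_add_le _ _).trans ?_
        rw [norm_mul, norm_mul, hw1, mul_one]
        have := mul_le_mul_of_nonneg_left (ht1 j) (norm_nonneg (c N j))
        linarith
      refine (norm_sum_le _ _).trans ((Finset.sum_le_sum fun j _ => h6 j).trans ?_)
      rw [Finset.sum_add_distrib, ← Finset.sum_mul, hcn]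
      have h8 := hcdist N hN2
      have h9 : ‖p m₀ N‖ * κ ≤ 1 * κ := mul_le_mul_of_nonneg_right (hp1 _ _) hκ.le
      linarith
    have h6 : ‖toC (ev N F) t‖ ≤ ‖ψ P‖ + ‖toC (p m₀ N) t - ψ P‖ + ‖toC (p m' N - p m₀ N) t‖ +
        ‖toC (ev N F - p m' N) t‖ := by
      rw [h2]
      refine (norm_add₃_le).trans ?_
      have : ‖toC (p m₀ N) t‖ ≤ ‖ψ P‖ + ‖toC (p m₀ N) t - ψ P‖ := by
        have h7 := norm_add_le (ψ P) (toC (p m₀ N) t - ψ P)
        rwa [add_sub_cancel] at h7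
      linarith
    linarith
  -- upper bound for the rest
  have hup : ‖ψ (F - P)‖ ≤ 1 - δ + 5 * κ := by
    have hnn : ∀ N ∈ {N | ∀ j, ‖c N j - γ j‖ < κ / M}, ‖ev N (F - P)‖ ≤ 1 - δ + 5 * κ := by
      intro N hN
      have hN' : ∀ j, ‖c N j - γ j‖ < κ / M := hN
      rw [map_sub, hPev, hp, norm_sub_part]
      have h1 : δ - 5 * κ ≤ ‖p m₀ N‖ := by
        rw [← hcn]
        have h2 : ‖ψ P‖ ≤ ∑ j, ‖c N j‖ + ∑ j, ‖c N j - γ j‖ := by
          rw [hψP, ← Finset.sum_add_distrib]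
          refine (norm_sum_le _ _).trans (Finset.sum_le_sum fun j _ => ?_)
          rw [norm_mul, hw1, mul_one]
          have h7 := norm_sub_le (c N j) (c N j - γ j)
          rwa [sub_sub_cancel] at h7
        have h3 := hcdist N hN'
        linarith
      have h2 := hF N
      have h3 : ‖part (ev N F) (lev (ev N F) m₀)‖ = ‖p m₀ N‖ := rfl
      rw [h3]
      linarith
    refine psi_norm_le hψ hcoefU ?_ hnn
    obtain ⟨N, hN⟩ := Filter.nonempty_of_mem hcoefU
    exact (norm_nonneg _).trans (hnn N hN)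
  intro h0
  have h1 : ψ P = -ψ (F - P) := by rw [map_sub, h0]; ring
  have h2 : ‖ψ P‖ = ‖ψ (F - P)‖ := by rw [h1, norm_neg]
  linarith

end Pool.Agent.R302.WTwo
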