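import Mathlib

open scoped ENNReal

namespace Pool.Agent.R302.Wiener

/-- `InF δ a b`: the power series `f(z) = ∑ a n z ^ n` has `∑ |a n| = 1` and `|f(z)| ≥ δ` on the
open unit disc (so `f` belongs to the class `F_δ`), and `b n` are the coefficients of the power
series of `1 / f` on the open unit disc. -/
def InF (δ : ℝ) (a b : ℕ → ℂ) : Prop :=
  HasSum (fun n => ‖a n‖) 1 ∧ (∀ z : ℂ, ‖z‖ < 1 → δ ≤ ‖∑' n, a n * z ^ n‖) ∧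
    ∀ z : ℂ, ‖z‖ < 1 → HasSum (fun n => b n * z ^ n) (∑' n, a n * z ^ n)⁻¹

/-- `C(δ)`, the supremum in `[0, ∞]` of `∑ |b n|` over all `f` in `F_δ`. -/
noncomputable def CC (δ : ℝ) : ℝ≥0∞ :=
  ⨆ (a : ℕ → ℂ) (b : ℕ → ℂ) (_ : InF δ a b), ∑' n, ‖b n‖ₑ

/-- `δ₀`, the infimum of the `δ` in `(0, 1]` with `C(δ) < ∞`. -/
noncomputable def delta0 : ℝ := sInf {δ : ℝ | 0 < δ ∧ δ ≤ 1 ∧ CC δ < ⊤}

end Pool.Agent.R302.Wiener
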