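import Pool.Agent.R302.WienerLow
import Pool.Agent.R302.WienerDiscDef

open Polynomial Finset
open scoped ENNReal

namespace Pool.Agent.R302.Wiener

lemma coeff_unique (c : ℕ → ℂ) (h : ∀ z : ℂ, ‖z‖ < 1 → HasSum (fun n => c n * z ^ n) 0) :
    ∀ n, c n = 0 := by
  let p : FormalMultilinearSeries ℂ ℂ ℂ := FormalMultilinearSeries.ofScalars ℂ c
  have hp : ∀ n (z : ℂ), p n (fun _ => z) = c n * z ^ n := fun n z => by
    simp [p, FormalMultilinearSeries.ofScalars]
  have hball : HasFPowerSeriesOnBall (0 : ℂ → ℂ) p 0 (1 / 2 : NNReal) := by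
    refine ⟨?_, by norm_num, ?_⟩
    · apply FormalMultilinearSeries.le_radius_of_summable
      have h1 := (h (1 / 2) (by norm_num)).summable.norm
      refine h1.congr fun n => ?_
      rw [norm_mul, norm_pow]
      have h2 : ‖p n‖ = ‖c n‖ := by
        simp [p]
      rw [h2]
      norm_num
    · intro y hy
      have hy' : ‖y‖ < 1 := by
        rw [Metric.mem_eball, edist_zero_right] at hy
        have h3 : ‖y‖ₑ < ((1 / 2 : NNReal) : ℝ≥0∞) := hy
        rw [enorm_eq_nnnorm] at h3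
        have h4 : ‖y‖₊ < (1 / 2 : NNReal) := by exact_mod_cast h3
        have h5 : ‖y‖ < 1 / 2 := by exact_mod_cast h4
        linarith
      simpa [hp] using h y hy'
  have hz := hball.hasFPowerSeriesAt.eq_zero
  intro n
  have h1 := hp n 1
  rw [hz] at h1
  simpa using h1.symm

lemma conv_eq {a b : ℕ → ℂ} (ha : Summable fun n => ‖a n‖)
    (hne : ∀ z : ℂ, ‖z‖ < 1 → ∑' n, a n * z ^ n ≠ 0)
    (hb : ∀ z : ℂ, ‖z‖ < 1 → HasSum (fun n => b n * z ^ n) (∑' n, a n * z ^ n)⁻¹) (n : ℕ) :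
    ∑ kl ∈ antidiagonal n, a kl.1 * b kl.2 = if n = 0 then 1 else 0 := by
  have key := coeff_unique (fun n => ∑ kl ∈ antidiagonal n, a kl.1 * b kl.2 -
    if n = 0 then 1 else 0) (fun z hz => by
      have h1 : Summable fun n => ‖a n * z ^ n‖ := by
        refine Summable.of_nonneg_of_le (fun _ => norm_nonneg _) (fun n => ?_) ha
        rw [norm_mul, norm_pow]
        exact mul_le_of_le_one_right (norm_nonneg _) (pow_le_one₀ (norm_nonneg _) hz.le)
      have h2 := (hb z hz).summable.norm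
      have h3 := tsum_mul_tsum_eq_tsum_sum_antidiagonal_of_summable_norm h1 h2
      rw [(hb z hz).tsum_eq, mul_inv_cancel₀ (hne z hz)] at h3
      have h4 := (summable_norm_sum_mul_antidiagonal_of_summable_norm h1 h2).of_norm.hasSum
      rw [← h3] at h4
      have h5 : HasSum (fun n : ℕ => (if n = 0 then (1 : ℂ) else 0) * z ^ n) 1 := by
        have := hasSum_single (f := fun n : ℕ => (if n = 0 then (1 : ℂ) else 0) * z ^ n) 0
          (fun n hn => by simp [hn])
        simpa using this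
      have h6 := h4.sub h5
      rw [sub_self] at h6
      have heq : (fun n : ℕ => (∑ kl ∈ antidiagonal n, a kl.1 * b kl.2 -
          if n = 0 then 1 else 0) * z ^ n) =
          fun n => ∑ kl ∈ antidiagonal n, a kl.1 * z ^ kl.1 * (b kl.2 * z ^ kl.2) -
            (if n = 0 then (1 : ℂ) else 0) * z ^ n := by
        funext n
        rw [sub_mul, Finset.sum_mul]
        congr 1
        refine Finset.sum_congr rfl fun kl hkl => ?_
        have := Finset.HasAntidiagonal.mem_antidiagonal.mp hkl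
        rw [← this, pow_add]; ring
      show HasSum (fun n : ℕ => (∑ kl ∈ antidiagonal n, a kl.1 * b kl.2 -
          if n = 0 then 1 else 0) * z ^ n) 0
      rw [heq]
      exact h6)
  have := key n
  exact sub_eq_zero.mp this

/-- the lower estimate in abstract form -/
lemma lower_aux {n : ℕ} {x τ : ℝ} (hx0 : 0 ≤ x) (g : ℂ[X]) (c : ℕ → ℂ)
    (hg : pn g = 1) (hc : ∀ i, ‖c i‖ ≤ 1) (hk : ∀ k ≤ n, 1 - τ ≤ (Lam c (g ^ k)).re)
    (b : ℕ → ℂ) (hbs : Summable fun i => ‖b i‖)
    (hb : ∀ m, ∑ kl ∈ antidiagonal m, (1 - C (x : ℂ) * g).coeff kl.1 * b kl.2 =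
      if m = 0 then 1 else 0) :
    (1 - τ) * ∑ k ∈ range n, x ^ k ≤ (1 + x ^ n) * ∑' i, ‖b i‖ := by
  set S : ℂ[X] := ∑ k ∈ range n, (C (x : ℂ) * g) ^ k with hS
  set h : ℂ[X] := 1 - (C (x : ℂ) * g) ^ n with hh
  have hSh : S * (1 - C (x : ℂ) * g) = h := by
    have := geom_sum_mul (C (x : ℂ) * g) n
    rw [hS, hh]
    linear_combination -this
  -- coefficients of S
  have hcoef : ∀ m, S.coeff m = ∑ kl ∈ antidiagonal m, h.coeff kl.1 * b kl.2 := by
    have h1 : PowerSeries.mk b * ((1 - C (x : ℂ) * g : ℂ[X]) : PowerSeries ℂ) = 1 := by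
      rw [mul_comm]
      ext m
      rw [PowerSeries.coeff_mul, PowerSeries.coeff_one]
      simp only [Polynomial.coeff_coe, PowerSeries.coeff_mk]
      exact hb m
    have h2 : (S : PowerSeries ℂ) = (h : PowerSeries ℂ) * PowerSeries.mk b := by
      rw [← hSh, Polynomial.coe_mul, mul_assoc, mul_comm _ (PowerSeries.mk b), h1, mul_one]
    intro m
    have h3 := congrArg (PowerSeries.coeff m) h2
    rw [PowerSeries.coeff_mul] at h3
    simpa using h3
  have hpnS : pn S ≤ pn h * ∑' i, ‖b i‖ := by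
    have := conv_tsum_le (summable_coeff h) hbs
    unfold pn
    simp only [hcoef]
    exact this
  have hpnh : pn h ≤ 1 + x ^ n := by
    have h1 : h = 1 + C (-(x : ℂ) ^ n) * g ^ n := by
      rw [hh, mul_pow, ← C_pow]
      simp only [map_neg, map_pow]
      ring
    rw [h1]
    refine (pn_add_le _ _).trans ?_
    rw [pn_one, pn_C_mul, norm_neg, norm_pow, Complex.norm_real, Real.norm_of_nonneg hx0]
    have := pn_pow_le g hg.le n
    have h2 : 0 ≤ x ^ n := by positivity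
    nlinarith
  have hre : (1 - τ) * ∑ k ∈ range n, x ^ k ≤ (Lam c S).re := by
    rw [hS, map_sum, Complex.re_sum, Finset.mul_sum]
    refine Finset.sum_le_sum fun k hk' => ?_
    rw [mul_pow, ← C_pow, ← smul_eq_C_mul, map_smul, smul_eq_mul]
    have h1 : ((x : ℂ) ^ k * Lam c (g ^ k)).re = x ^ k * (Lam c (g ^ k)).re := by
      rw [← Complex.ofReal_pow, Complex.re_ofReal_mul]
    rw [h1, mul_comm]
    exact mul_le_mul_of_nonneg_left (hk k (Finset.mem_range.mp hk').le) (by positivity)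
  have hb0 : 0 ≤ ∑' i, ‖b i‖ := tsum_nonneg fun _ => norm_nonneg _
  calc (1 - τ) * ∑ k ∈ range n, x ^ k ≤ (Lam c S).re := hre
    _ ≤ ‖Lam c S‖ := Complex.re_le_norm _
    _ ≤ pn S := norm_Lam_le c hc S
    _ ≤ pn h * ∑' i, ‖b i‖ := hpnS
    _ ≤ _ := mul_le_mul_of_nonneg_right hpnh hb0

lemma tri_le (F : ℕ → ℕ → ℝ) (hF : ∀ k j, 0 ≤ F k j) (N : ℕ) :
    ∑ n ∈ range N, ∑ k ∈ range n, F k (n - 1 - k) ≤ ∑ k ∈ range N, ∑ j ∈ range N, F k j := by
  rw [Finset.sum_comm' (s' := fun k => Finset.Ico (k + 1) N) (t' := range N)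
    (by intro x y; simp only [mem_range, Finset.mem_Ico]; omega)]
  refine Finset.sum_le_sum fun k _ => ?_
  rw [Finset.sum_Ico_eq_sum_range]
  have h1 : ∀ i, F k (k + 1 + i - 1 - k) = F k i := fun i => by
    congr 1; omega
  simp only [h1]
  exact Finset.sum_le_sum_of_subset_of_nonneg (Finset.range_subset_range.mpr (by omega))
    fun _ _ _ => hF _ _

/-- upper bound -/
lemma CC_le {δ : ℝ} (hδ : 1 / 2 < δ) : CC δ ≤ ENNReal.ofReal (1 / (2 * δ - 1)) := by
  refine iSup_le fun a => iSup_le fun b => iSup_le fun ⟨ha, hf, hb⟩ => ?_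
  have hne : ∀ z : ℂ, ‖z‖ < 1 → ∑' n, a n * z ^ n ≠ 0 := fun z hz h0 => by
    have := hf z hz
    rw [h0, norm_zero] at this
    linarith
  have hconv := conv_eq ha.summable hne hb
  have ha0 : δ ≤ ‖a 0‖ := by
    have h1 := hf 0 (by simp)
    have h2 : ∑' n, a n * (0 : ℂ) ^ n = a 0 := by
      rw [tsum_eq_single 0 (fun n hn => by simp [hn])]; simp
    rwa [h2] at h1
  have htail : ∀ N, ∑ k ∈ range N, ‖a (k + 1)‖ ≤ 1 - ‖a 0‖ := fun N => by
    have h1 := ha.summable.sum_le_tsum (range (N + 1)) (fun _ _ => norm_nonneg _)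
    rw [ha.tsum_eq, Finset.sum_range_succ'] at h1
    linarith
  have hrec : ∀ n, ‖a 0‖ * ‖b n‖ ≤ (if n = 0 then 1 else 0) +
      ∑ k ∈ range n, ‖a (k + 1)‖ * ‖b (n - 1 - k)‖ := fun n => by
    have h1 := hconv n
    rw [Finset.Nat.sum_antidiagonal_eq_sum_range_succ (fun i j => a i * b j),
      Finset.sum_range_succ'] at h1
    have h2 : a 0 * b n = (if n = 0 then 1 else 0) -
        ∑ k ∈ range n, a (k + 1) * b (n - (k + 1)) := by
      rw [← h1]; simp
    rw [← norm_mul, h2]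
    refine (norm_sub_le _ _).trans ?_
    refine add_le_add ?_ ?_
    · split_ifs <;> simp
    · refine (norm_sum_le _ _).trans (Finset.sum_le_sum fun k _ => ?_)
      rw [norm_mul]
      have : n - (k + 1) = n - 1 - k := by omega
      rw [this]
  have hpart : ∀ N, ∑ n ∈ range N, ‖b n‖ ≤ 1 / (2 * δ - 1) := fun N => by
    have h1 : ∑ n ∈ range N, ‖a 0‖ * ‖b n‖ ≤
        ∑ n ∈ range N, ((if n = 0 then (1 : ℝ) else 0) +
          ∑ k ∈ range n, ‖a (k + 1)‖ * ‖b (n - 1 - k)‖) :=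
      Finset.sum_le_sum fun n _ => hrec n
    rw [← Finset.mul_sum, Finset.sum_add_distrib] at h1
    have h2 : ∑ n ∈ range N, (if n = 0 then (1 : ℝ) else 0) ≤ 1 := by
      rw [Finset.sum_ite_eq' (range N) 0 (fun _ => (1 : ℝ))]
      split_ifs <;> norm_num
    have h3 : ∑ n ∈ range N, ∑ k ∈ range n, ‖a (k + 1)‖ * ‖b (n - 1 - k)‖ ≤
        (∑ k ∈ range N, ‖a (k + 1)‖) * ∑ j ∈ range N, ‖b j‖ := by
      rw [Finset.sum_mul_sum]
      exact tri_le (fun k j => ‖a (k + 1)‖ * ‖b j‖) (fun _ _ => by positivity) N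
    have h4 := htail N
    have h5 : 0 ≤ ∑ n ∈ range N, ‖b n‖ := Finset.sum_nonneg fun _ _ => norm_nonneg _
    have h6 : (2 * δ - 1) * ∑ n ∈ range N, ‖b n‖ ≤ 1 := by
      have h7 : (∑ k ∈ range N, ‖a (k + 1)‖) * ∑ j ∈ range N, ‖b j‖ ≤
          (1 - ‖a 0‖) * ∑ j ∈ range N, ‖b j‖ := mul_le_mul_of_nonneg_right h4 h5
      nlinarith
    rw [le_div_iff₀ (by linarith)]
    linarith
  have hsum : Summable fun n => ‖b n‖ := by
    refine summable_of_sum_range_le (fun _ => norm_nonneg _) hpart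
  have h8 : ∑' n, ‖b n‖ₑ = ENNReal.ofReal (∑' n, ‖b n‖) := by
    rw [ENNReal.ofReal_tsum_of_nonneg (fun _ => norm_nonneg _) hsum]
    exact tsum_congr fun n => by rw [ofReal_norm]
  rw [h8]
  exact ENNReal.ofReal_le_ofReal (hsum.tsum_le_of_sum_range_le hpart)

lemma tsum_coeff_eq_eval (p : ℂ[X]) (z : ℂ) : ∑' n, p.coeff n * z ^ n = p.eval z := by
  rw [Polynomial.eval_eq_sum, Polynomial.sum_def]
  exact tsum_eq_sum fun i hi => by rw [Polynomial.notMem_support_iff.mp hi, zero_mul]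

lemma pn_one_sub {x : ℝ} (hx : 0 ≤ x) (g : ℂ[X]) (h0 : g.coeff 0 = 0) :
    pn (1 - C (x : ℂ) * g) = 1 + x * pn g := by
  have h1 : ∀ i, ‖(1 - C (x : ℂ) * g).coeff i‖ = (if i = 0 then 1 else 0) + x * ‖g.coeff i‖ := by
    intro i
    rw [coeff_sub, coeff_one, coeff_C_mul]
    by_cases hi : i = 0
    · subst hi; simp [h0]
    · simp [hi, abs_of_nonneg hx]
  unfold pn
  simp only [h1]
  have h2 : Summable fun i : ℕ => (if i = 0 then (1 : ℝ) else 0) :=
    summable_of_ne_finset_zero (s := {0}) fun i hi => by simp at hi; simp [hi]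
  rw [h2.tsum_add ((summable_coeff g).mul_left x), tsum_mul_left, tsum_ite_eq]

lemma CC_ge_aux {δ x : ℝ} (hδ0 : 0 < δ) (hx0 : 0 ≤ x) (hx1 : x < 1) (hδ : δ < 1 / (1 + x))
    (n : ℕ) {τ : ℝ} (hτ : 0 < τ) :
    ENNReal.ofReal ((1 + x) * ((1 - τ) * ∑ k ∈ range n, x ^ k) / (1 + x ^ n)) ≤ CC δ := by
  have hx2 : 0 < 1 + x := by linarith
  set ε : ℝ := 1 - δ * (1 + x) with hε
  have hεpos : 0 < ε := by
    rw [lt_div_iff₀ hx2] at hδ; linarith
  have hε1 : ε < 1 := by
    have : 0 < δ * (1 + x) := by positivity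
    linarith
  obtain ⟨g, c, hg0, hgn, hgs, hc, hk⟩ := exists_g n hεpos hτ
  set α : ℝ := 1 / (1 + x) with hα
  have hα0 : 0 < α := by positivity
  set f : ℂ[X] := C (α : ℂ) * (1 - C (x : ℂ) * g) with hf
  have hfn : pn f = 1 := by
    rw [hf, pn_C_mul, pn_one_sub hx0 g hg0, hgn, Complex.norm_real, Real.norm_of_nonneg hα0.le, hα]
    field_simp
  have hfe : ∀ z : ℂ, ‖z‖ ≤ 1 → δ ≤ ‖f.eval z‖ := by
    intro z hz
    have h1 := hgs z hz
    have h2 : f.eval z = (α : ℂ) * (1 - (x : ℂ) * g.eval z) := by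
      rw [hf]; simp
    rw [h2, norm_mul, Complex.norm_real, Real.norm_of_nonneg hα0.le]
    have h3 : 1 - x * ε ≤ ‖1 - (x : ℂ) * g.eval z‖ := by
      have h4 := norm_sub_norm_le (1 : ℂ) ((x : ℂ) * g.eval z)
      rw [norm_one, norm_mul, Complex.norm_real, Real.norm_of_nonneg hx0] at h4
      have h5 : x * ‖g.eval z‖ ≤ x * ε := mul_le_mul_of_nonneg_left h1 hx0
      linarith
    have h6 : δ ≤ α * (1 - x * ε) := by
      rw [hα, one_div, le_inv_mul_iff₀ hx2]
      have h7 : x * ε ≤ 1 * ε := mul_le_mul_of_nonneg_right hx1.le hεpos.le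
      rw [hε] at h7 ⊢
      linarith
    exact h6.trans (mul_le_mul_of_nonneg_left h3 hα0.le)
  -- the reciprocal
  have hdiff : DifferentiableOn ℂ (fun z => (f.eval z)⁻¹) (Metric.closedBall 0 ((1 : NNReal) : ℝ)) := by
    intro z hz
    have hz' : ‖z‖ ≤ 1 := by simpa using hz
    refine (f.differentiable z).differentiableWithinAt.inv ?_
    intro h0
    have := hfe z hz'
    rw [h0, norm_zero] at this
    linarith
  have hps := hdiff.hasFPowerSeriesOnBall (by norm_num)
  set q := cauchyPowerSeries (fun z => (f.eval z)⁻¹) 0 ((1 : NNReal) : ℝ) with hq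
  set b : ℕ → ℂ := fun n => q.coeff n with hb
  have hbsum : ∀ z : ℂ, ‖z‖ < 1 → HasSum (fun n => b n * z ^ n) (f.eval z)⁻¹ := by
    intro z hz
    have h1 := hps.hasSum (y := z) (by
      rw [Metric.mem_eball, edist_zero_right, enorm_eq_nnnorm]
      have : ‖z‖₊ < 1 := by exact_mod_cast hz
      exact_mod_cast this)
    rw [zero_add] at h1
    have h2 : ∀ n, q n (fun _ => z) = b n * z ^ n := fun n => by
      rw [FormalMultilinearSeries.apply_eq_pow_smul_coeff, smul_eq_mul, mul_comm]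
    simpa only [h2] using h1
  have hInF : InF δ f.coeff b := by
    refine ⟨?_, ?_, ?_⟩
    · have := (summable_coeff f).hasSum
      have h1 : ∑' i, ‖f.coeff i‖ = 1 := hfn
      rwa [h1] at this
    · intro z hz
      rw [tsum_coeff_eq_eval]
      exact hfe z hz.le
    · intro z hz
      rw [tsum_coeff_eq_eval]
      exact hbsum z hz
  have hle : ∑' n, ‖b n‖ₑ ≤ CC δ :=
    le_iSup_of_le f.coeff (le_iSup_of_le b (le_iSup_of_le hInF le_rfl))
  refine le_trans ?_ hle
  by_cases htop : ∑' n, ‖b n‖ₑ = ⊤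
  · rw [htop]; exact le_top
  have hbs : Summable fun n => ‖b n‖ := by
    have h1 : Summable fun n => ‖b n‖₊ := by
      rw [← ENNReal.tsum_coe_ne_top_iff_summable]
      exact htop
    simpa using NNReal.summable_coe.mpr h1
  have hconv := conv_eq hInF.1.summable (fun z hz h0 => by
    have := hInF.2.1 z hz
    rw [h0, norm_zero] at this
    linarith) hInF.2.2
  have hlow := lower_aux (n := n) (x := x) (τ := τ) hx0 g c hgn hc hk (fun i => (α : ℂ) * b i)
    (by
      have := hbs.mul_left α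
      refine this.congr fun i => ?_
      rw [norm_mul, Complex.norm_real, Real.norm_of_nonneg hα0.le])
    (by
      intro m
      rw [← hconv m]
      refine Finset.sum_congr rfl fun kl _ => ?_
      rw [hf, coeff_C_mul]; ring)
  have h8 : ∑' n, ‖b n‖ₑ = ENNReal.ofReal (∑' n, ‖b n‖) := by
    rw [ENNReal.ofReal_tsum_of_nonneg (fun _ => norm_nonneg _) hbs]
    exact tsum_congr fun n => by rw [ofReal_norm]
  rw [h8]
  refine ENNReal.ofReal_le_ofReal ?_
  have h9 : ∑' i, ‖(α : ℂ) * b i‖ = α * ∑' i, ‖b i‖ := by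
    rw [← tsum_mul_left]
    exact tsum_congr fun i => by rw [norm_mul, Complex.norm_real, Real.norm_of_nonneg hα0.le]
  rw [h9] at hlow
  have hxn : 0 ≤ x ^ n := by positivity
  rw [div_le_iff₀ (by linarith)]
  have h10 : (1 + x) * α = 1 := by rw [hα]; field_simp
  calc (1 + x) * ((1 - τ) * ∑ k ∈ range n, x ^ k) ≤ (1 + x) * ((1 + x ^ n) * (α * ∑' i, ‖b i‖)) :=
        mul_le_mul_of_nonneg_left hlow hx2.le
    _ = ((1 + x) * α) * ((∑' i, ‖b i‖) * (1 + x ^ n)) := by ring
    _ = _ := by rw [h10, one_mul]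

lemma CC_ge {δ x : ℝ} (hδ0 : 0 < δ) (hx0 : 0 ≤ x) (hx1 : x < 1) (hδ : δ < 1 / (1 + x)) :
    ENNReal.ofReal ((1 + x) / (1 - x)) ≤ CC δ := by
  have hlim : Filter.Tendsto (fun n : ℕ => ENNReal.ofReal ((1 + x) * ((1 - 1 / ((n : ℝ) + 1)) *
      ∑ k ∈ range n, x ^ k) / (1 + x ^ n))) Filter.atTop
      (nhds (ENNReal.ofReal ((1 + x) * ((1 - 0) * (1 - x)⁻¹) / (1 + 0)))) := by
    refine ENNReal.tendsto_ofReal ?_
    refine Filter.Tendsto.div ?_ ?_ (by norm_num)
    · refine Filter.Tendsto.const_mul _ ?_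
      refine Filter.Tendsto.mul ?_ ?_
      · exact tendsto_const_nhds.sub tendsto_one_div_add_atTop_nhds_zero_nat
      · exact (hasSum_geometric_of_lt_one hx0 hx1).tendsto_sum_nat
    · exact tendsto_const_nhds.add (tendsto_pow_atTop_nhds_zero_of_lt_one hx0 hx1)
  have h1 : (1 + x) * ((1 - 0) * (1 - x)⁻¹) / (1 + 0) = (1 + x) / (1 - x) := by
    rw [sub_zero, one_mul, add_zero, div_one, div_eq_mul_inv]
  rw [h1] at hlim
  exact le_of_tendsto' hlim fun n => CC_ge_aux hδ0 hx0 hx1 hδ n (by positivity)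

lemma CC_top {δ : ℝ} (hδ0 : 0 < δ) (hδ : δ ≤ 1 / 2) : CC δ = ⊤ := by
  rw [eq_top_iff]
  have hlim : Filter.Tendsto (fun n : ℕ => ENNReal.ofReal ((n : ℝ) + 1)) Filter.atTop (nhds ⊤) := by
    refine ENNReal.tendsto_ofReal_atTop.comp ?_
    exact Filter.tendsto_atTop_add_const_right _ _ tendsto_natCast_atTop_atTop
  refine le_of_tendsto' hlim fun n => ?_
  have hn : (0 : ℝ) ≤ n := Nat.cast_nonneg n
  set x : ℝ := n / (n + 1) with hx
  have hx0 : 0 ≤ x := by positivity
  have hx1 : x < 1 := by rw [hx, div_lt_one (by positivity)]; linarith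
  have h1 := CC_ge hδ0 hx0 hx1 (by
    rw [lt_div_iff₀ (by linarith)]
    nlinarith)
  refine le_trans (ENNReal.ofReal_le_ofReal ?_) h1
  have h2 : 1 - x = 1 / (n + 1) := by rw [hx]; field_simp; ring
  rw [h2, div_div_eq_mul_div, div_one]
  nlinarith

lemma CC_eq {δ : ℝ} (hδ : 1 / 2 < δ) (hδ1 : δ ≤ 1) :
    CC δ = ENNReal.ofReal (1 / (2 * δ - 1)) := by
  refine le_antisymm (CC_le hδ) ?_
  rcases hδ1.eq_or_lt with rfl | hlt
  · -- the constant function one
    have hInF : InF 1 (fun n => if n = 0 then 1 else 0) (fun n => if n = 0 then 1 else 0) := by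
      have h0 : ∀ z : ℂ, HasSum (fun n : ℕ => (if n = 0 then (1 : ℂ) else 0) * z ^ n) 1 := by
        intro z
        have := hasSum_single (f := fun n : ℕ => (if n = 0 then (1 : ℂ) else 0) * z ^ n) 0
          (fun n hn => by simp [hn])
        simpa using this
      refine ⟨?_, ?_, ?_⟩
      · have := hasSum_single (f := fun n : ℕ => ‖(if n = 0 then (1 : ℂ) else 0)‖) 0
          (fun n hn => by simp [hn])
        simpa using this
      · intro z _
        rw [(h0 z).tsum_eq]; simp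
      · intro z _
        rw [(h0 z).tsum_eq]
        simpa using h0 z
    have hle : ∑' n : ℕ, ‖(if n = 0 then (1 : ℂ) else 0)‖ₑ ≤ CC 1 :=
      le_iSup_of_le _ (le_iSup_of_le _ (le_iSup_of_le hInF le_rfl))
    refine le_trans ?_ hle
    rw [tsum_eq_single 0 (fun n hn => by simp [hn])]
    norm_num
  · -- approach from the admissible side
    have hδ0 : 0 < δ := by linarith
    -- x ↑ 1 / δ - 1
    set y : ℝ := 1 / δ - 1 with hy
    have hy0 : 0 < y := by
      rw [hy, sub_pos, lt_div_iff₀ hδ0]; linarith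
    have hy1 : y < 1 := by
      have : 1 / δ < 2 := by rw [div_lt_iff₀ hδ0]; linarith
      linarith
    have hlim : Filter.Tendsto (fun x : ℝ => ENNReal.ofReal ((1 + x) / (1 - x)))
        (nhdsWithin y (Set.Iio y)) (nhds (ENNReal.ofReal ((1 + y) / (1 - y)))) := by
      refine ENNReal.tendsto_ofReal ?_
      have : ContinuousAt (fun x : ℝ => (1 + x) / (1 - x)) y := by
        refine ContinuousAt.div (by fun_prop) (by fun_prop) (by linarith)
      exact this.tendsto.mono_left nhdsWithin_le_nhds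
    have h1 : (1 + y) / (1 - y) = 1 / (2 * δ - 1) := by
      have h3 : 1 + y = 1 / δ := by rw [hy]; ring
      have h4 : 1 - y = (2 * δ - 1) / δ := by rw [hy]; field_simp; ring
      rw [h3, h4]
      have : 2 * δ - 1 ≠ 0 := by linarith
      field_simp
    rw [h1] at hlim
    refine le_of_tendsto hlim ?_
    have h2 : Set.Ioo 0 y ∈ nhdsWithin y (Set.Iio y) := Ioo_mem_nhdsLT hy0
    filter_upwards [h2] with x hx
    refine CC_ge hδ0 hx.1.le (hx.2.trans hy1) ?_
    have : 1 + x < 1 / δ := by have := hx.2; rw [hy] at this; linarith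
    rw [lt_div_iff₀ (by linarith [hx.1])]
    rw [lt_div_iff₀ hδ0] at this
    linarith

theorem delta0_eq : delta0 = 1 / 2 := by
  have hset : {δ : ℝ | 0 < δ ∧ δ ≤ 1 ∧ CC δ < ⊤} = Set.Ioc (1 / 2) 1 := by
    ext δ
    simp only [Set.mem_ofPred_eq, Set.mem_Ioc]
    constructor
    · rintro ⟨h1, h2, h3⟩
      refine ⟨?_, h2⟩
      by_contra hcon
      push Not at hcon
      rw [CC_top h1 hcon] at h3
      exact lt_irrefl _ h3
    · rintro ⟨h1, h2⟩
      refine ⟨by linarith, h2, ?_⟩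
      rw [CC_eq h1 h2]
      exact ENNReal.ofReal_lt_top
  rw [delta0, hset]
  exact csInf_Ioc (by norm_num)

end Pool.Agent.R302.Wiener
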