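import Pool.Agent.R302.WienerW

open MeasureTheory AddCircle Finset
open scoped ENNReal ComplexConjugate

namespace Pool.Agent.R302.WTwo

lemma integrable_real {f : TT → ℝ} (hf : Continuous f) : Integrable f mu :=
  hf.integrable_of_hasCompactSupport (HasCompactSupport.of_compactSpace _)

lemma int_sq (x : W) : ∫ t, ‖toC x t‖ ^ 2 ∂mu = ∑' n, ‖co x n‖ ^ 2 := by
  have h := tsum_sq_fourierCoeff (ContinuousMap.toLp (E := ℂ) 2 haarAddCircle ℂ (toC x))
  have h1 : ∀ n, fourierCoeff (ContinuousMap.toLp (E := ℂ) 2 haarAddCircle ℂ (toC x)) n = co x n :=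
    fun n => fourierCoeff_toLp (toC x) n
  simp only [h1] at h
  rw [h]
  refine integral_congr_ae ?_
  filter_upwards [ContinuousMap.coeFn_toLp (p := 2) (𝕜 := ℂ) haarAddCircle (toC x)] with t ht
  rw [ht]

lemma sq_summable (x : W) : Summable fun n => ‖co x n‖ ^ 2 := by
  refine Summable.of_nonneg_of_le (fun _ => by positivity) (fun n => ?_)
    ((co_summable x).mul_left ‖x‖)
  have h1 : ‖co x n‖ ≤ ‖x‖ := (co_summable x).le_tsum n (fun _ _ => norm_nonneg _)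
  rw [sq]
  exact mul_le_mul_of_nonneg_right h1 (norm_nonneg _)

lemma ex_nsmul (i : ℕ) (k : ℤ) : ex k ^ i = ex (i * k) := by
  induction i with
  | zero => simp [ex_zero]
  | succ i ih => rw [pow_succ, ih, ← ex_add]; congr 1; push_cast; ring

lemma ex_sum {ι : Type*} (s : Finset ι) (f : ι → ℤ) : ex (∑ i ∈ s, f i) = ∏ i ∈ s, ex (f i) := by
  classical
  induction s using Finset.induction_on with
  | empty => simp [ex_zero]
  | insert a s ha ih => rw [Finset.sum_insert ha, Finset.prod_insert ha, ex_add, ih]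

lemma pow_expand (c : ℂ) (k : ℤ) (L : ℕ) :
    ((1 / 2 : ℂ) • ((1 : W) + c • ex k)) ^ L =
      ∑ i ∈ range (L + 1), (((L.choose i : ℝ) / 2 ^ L : ℝ) * c ^ i : ℂ) • ex (i * k) := by
  rw [smul_pow, add_comm, add_pow, Finset.smul_sum]
  refine Finset.sum_congr rfl fun i _ => ?_
  rw [one_pow, mul_one, smul_pow, ex_nsmul]
  have h1 : ((L.choose i : ℕ) : W) = ((L.choose i : ℕ) : ℂ) • (1 : W) := by
    rw [← Algebra.algebraMap_eq_smul_one, map_natCast]
  rw [h1, smul_mul_smul_comm, mul_one, smul_smul]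
  congr 1
  push_cast
  rw [one_div, inv_pow]
  ring

/-- the box of exponents -/
def box (m L : ℕ) : Finset (Fin m → ℕ) := Fintype.piFinset fun _ => range (L + 1)

lemma mem_box {m L : ℕ} {n : Fin m → ℕ} : n ∈ box m L ↔ ∀ j, n j ≤ L := by
  simp [box, Fintype.mem_piFinset]

lemma card_box (m L : ℕ) : (box m L).card = (L + 1) ^ m := by
  simp [box]

/-- coefficient -/
noncomputable def bb (m L : ℕ) (n : Fin m → ℕ) : ℝ := ∏ j, ((L.choose (n j) : ℝ) / 2 ^ L)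

lemma bb_nonneg (m L : ℕ) (n : Fin m → ℕ) : 0 ≤ bb m L n :=
  Finset.prod_nonneg fun _ _ => by positivity

lemma sum_bb (m L : ℕ) : ∑ n ∈ box m L, bb m L n = 1 := by
  unfold bb box
  rw [← Finset.prod_univ_sum (fun _ => range (L + 1)) (fun _ i => ((L.choose i : ℝ) / 2 ^ L))]
  have h : ∑ i ∈ range (L + 1), ((L.choose i : ℝ) / 2 ^ L) = 1 := by
    rw [← Finset.sum_div, div_eq_one_iff_eq (by positivity)]
    have := Nat.sum_range_choose L
    exact_mod_cast this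
  simp [h]

/-- the peaking element -/
noncomputable def GG {m : ℕ} (L : ℕ) (k : Fin m → ℤ) (w : Fin m → ℂ) : W :=
  ∏ j, ((1 / 2 : ℂ) • ((1 : W) + conj (w j) • ex (k j))) ^ L

lemma GG_expand {m : ℕ} (L : ℕ) (k : Fin m → ℤ) (w : Fin m → ℂ) :
    GG L k w = ∑ n ∈ box m L, ((bb m L n : ℝ) * conj (∏ j, w j ^ n j) : ℂ) •
      ex (∑ j, (n j : ℤ) * k j) := by
  unfold GG
  simp only [pow_expand]
  rw [Finset.prod_univ_sum]
  refine Finset.sum_congr rfl fun n _ => ?_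
  rw [ex_sum, map_prod, bb]
  push_cast
  rw [← Finset.prod_mul_distrib, Finset.prod_smul]
  simp only [map_pow]

lemma I_lower {m L : ℕ} (k : Fin m → ℤ) (w : Fin m → ℂ) (hw : ∀ j, ‖w j‖ = 1)
    (hrel : ∀ n n' : Fin m → ℕ, (∀ j, n j ≤ L) → (∀ j, n' j ≤ L) →
      ∑ j, (n j : ℤ) * k j = ∑ j, (n' j : ℤ) * k j → ∏ j, w j ^ n j = ∏ j, w j ^ n' j) :
    1 / ((L : ℝ) + 1) ^ m ≤ ∫ t, ‖toC (GG L k w) t‖ ^ 2 ∂mu := by
  classical
  rw [int_sq]
  set V : Finset ℤ := (box m L).image fun n => ∑ j, (n j : ℤ) * k j with hV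
  set γ : ℤ → ℝ := fun ν => ∑ n ∈ (box m L).filter (fun n => ∑ j, (n j : ℤ) * k j = ν), bb m L n
    with hγ
  have hco : ∀ ν, ‖co (GG L k w) ν‖ = γ ν := by
    intro ν
    rw [GG_expand, co_sum]
    have h1 : ∀ n ∈ box m L, co (((bb m L n : ℝ) * conj (∏ j, w j ^ n j) : ℂ) •
        ex (∑ j, (n j : ℤ) * k j)) ν = if ∑ j, (n j : ℤ) * k j = ν then
          ((bb m L n : ℝ) * conj (∏ j, w j ^ n j) : ℂ) else 0 := fun n _ => by
      rw [co_smul, co_ex]
      by_cases h : ν = ∑ j, (n j : ℤ) * k j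
      · rw [if_pos h, if_pos h.symm, mul_one]
      · rw [if_neg h, if_neg (Ne.symm h), mul_zero]
    rw [Finset.sum_congr rfl h1, ← Finset.sum_filter]
    rcases ((box m L).filter (fun n => ∑ j, (n j : ℤ) * k j = ν)).eq_empty_or_nonempty with he | hne
    · simp only [hγ]
      rw [he]; simp
    · obtain ⟨n₀, hn₀⟩ := hne
      have hn₀' := Finset.mem_filter.mp hn₀
      have h2 : ∀ n ∈ (box m L).filter (fun n => ∑ j, (n j : ℤ) * k j = ν),
          ((bb m L n : ℝ) * conj (∏ j, w j ^ n j) : ℂ) =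
            conj (∏ j, w j ^ n₀ j) * (bb m L n : ℝ) := fun n hn => by
        have hn' := Finset.mem_filter.mp hn
        rw [hrel n n₀ (mem_box.mp hn'.1) (mem_box.mp hn₀'.1) (hn'.2.trans hn₀'.2.symm)]
        ring
      rw [Finset.sum_congr rfl h2, ← Finset.mul_sum, norm_mul, Complex.norm_conj, norm_prod]
      have h3 : ∏ j, ‖w j ^ n₀ j‖ = 1 := by
        simp [norm_pow, hw]
      rw [h3, one_mul, ← Complex.ofReal_sum, Complex.norm_real, Real.norm_of_nonneg]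
      exact Finset.sum_nonneg fun n _ => bb_nonneg m L n
  have hsum : ∑ ν ∈ V, γ ν = 1 := by
    rw [← sum_bb m L]
    exact Finset.sum_fiberwise_of_maps_to (fun n hn => Finset.mem_image_of_mem _ hn) _
  have hcs : (∑ ν ∈ V, γ ν) ^ 2 ≤ V.card * ∑ ν ∈ V, γ ν ^ 2 := sq_sum_le_card_mul_sum_sq
  rw [hsum, one_pow] at hcs
  have hcard : (V.card : ℝ) ≤ ((L : ℝ) + 1) ^ m := by
    have := Finset.card_image_le (s := box m L) (f := fun n => ∑ j, (n j : ℤ) * k j)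
    rw [card_box] at this
    exact_mod_cast this
  have hle : ∑ ν ∈ V, γ ν ^ 2 ≤ ∑' n, ‖co (GG L k w) n‖ ^ 2 := by
    have := (sq_summable (GG L k w)).sum_le_tsum V (fun _ _ => by positivity)
    simpa only [hco] using this
  rw [div_le_iff₀ (by positivity)]
  have h0 : 0 ≤ ∑ ν ∈ V, γ ν ^ 2 := Finset.sum_nonneg fun _ _ => by positivity
  calc (1 : ℝ) ≤ V.card * ∑ ν ∈ V, γ ν ^ 2 := hcs
    _ ≤ ((L : ℝ) + 1) ^ m * ∑ ν ∈ V, γ ν ^ 2 := mul_le_mul_of_nonneg_right hcard h0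
    _ ≤ ((L : ℝ) + 1) ^ m * ∑' n, ‖co (GG L k w) n‖ ^ 2 := by gcongr
    _ = _ := mul_comm _ _

/-- the peaking function -/
noncomputable def phi (k : ℤ) (w : ℂ) (t : TT) : ℝ := ‖(1 + conj w * fourier k t) / 2‖ ^ 2

noncomputable def Phi {m : ℕ} (k : Fin m → ℤ) (w : Fin m → ℂ) (t : TT) : ℝ := ∏ j, phi (k j) (w j) t

lemma phi_cont (k : ℤ) (w : ℂ) : Continuous (phi k w) := by
  unfold phi
  fun_prop

lemma Phi_cont {m : ℕ} (k : Fin m → ℤ) (w : Fin m → ℂ) : Continuous (Phi k w) :=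
  continuous_finsetProd _ fun j _ => phi_cont (k j) (w j)

lemma toC_GG {m : ℕ} (L : ℕ) (k : Fin m → ℤ) (w : Fin m → ℂ) (t : TT) :
    ‖toC (GG L k w) t‖ ^ 2 = Phi k w t ^ L := by
  have h1 : toC (GG L k w) t = ∏ j, ((1 + conj (w j) * fourier (k j) t) / 2) ^ L := by
    unfold GG
    rw [map_prod, ContinuousMap.prod_apply]
    refine Finset.prod_congr rfl fun j _ => ?_
    rw [map_pow, map_smul, map_add, map_one, map_smul, toC_ex]
    simp only [ContinuousMap.pow_apply, ContinuousMap.smul_apply, ContinuousMap.add_apply,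
      ContinuousMap.one_apply, smul_eq_mul]
    ring
  rw [h1, norm_prod, ← Finset.prod_pow, Phi, ← Finset.prod_pow]
  refine Finset.prod_congr rfl fun j _ => ?_
  rw [phi, norm_pow, ← pow_mul, ← pow_mul, mul_comm L 2]

lemma phi_eq (k : ℤ) {w : ℂ} (hw : ‖w‖ = 1) (t : TT) :
    ‖fourier k t - w‖ ^ 2 = 4 * (1 - phi k w t) := by
  have he : ‖(fourier k : C(TT, ℂ)) t‖ = 1 := by rw [fourier_apply, Circle.norm_coe]
  set e := (fourier k : C(TT, ℂ)) t with hedef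
  have hww : w * conj w = 1 := by
    rw [Complex.mul_conj, Complex.normSq_eq_norm_sq, hw]; simp
  have h1 : ‖e - w‖ = ‖conj w * e - 1‖ := by
    have : conj w * e - 1 = conj w * (e - w) := by
      rw [mul_sub, mul_comm (conj w) w, hww]
    rw [this, norm_mul, Complex.norm_conj, hw, one_mul]
  have h2 := parallelogram_law_with_norm ℝ (1 : ℂ) (conj w * e)
  have h3 : ‖conj w * e‖ = 1 := by rw [norm_mul, Complex.norm_conj, hw, he, one_mul]
  rw [h3, norm_one] at h2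
  rw [h1, phi, norm_div, norm_sub_rev]
  have h4 : ‖(2 : ℂ)‖ = 2 := by simp
  rw [h4]
  rw [div_pow]
  nlinarith

lemma phi_mem {k : ℤ} {w : ℂ} (hw : ‖w‖ = 1) (t : TT) : 0 ≤ phi k w t ∧ phi k w t ≤ 1 := by
  refine ⟨by unfold phi; positivity, ?_⟩
  have := phi_eq k hw t
  have h1 := sq_nonneg ‖fourier k t - w‖
  linarith

lemma Phi_mem {m : ℕ} {k : Fin m → ℤ} {w : Fin m → ℂ} (hw : ∀ j, ‖w j‖ = 1) (t : TT) :
    0 ≤ Phi k w t ∧ Phi k w t ≤ 1 :=
  ⟨Finset.prod_nonneg fun j _ => (phi_mem (hw j) t).1,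
    Finset.prod_le_one (fun j _ => (phi_mem (hw j) t).1) fun j _ => (phi_mem (hw j) t).2⟩

lemma Phi_le {m : ℕ} {k : Fin m → ℤ} {w : Fin m → ℂ} (hw : ∀ j, ‖w j‖ = 1) (t : TT) (j : Fin m) :
    Phi k w t ≤ phi (k j) (w j) t := by
  unfold Phi
  rw [← Finset.mul_prod_erase univ _ (Finset.mem_univ j)]
  have h1 : ∏ i ∈ univ.erase j, phi (k i) (w i) t ≤ 1 :=
    Finset.prod_le_one (fun i _ => (phi_mem (hw i) t).1) fun i _ => (phi_mem (hw i) t).2
  have h2 := (phi_mem (k := k j) (hw j) t).1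
  nlinarith

/-- The key averaging lemma. -/
theorem keyK (m : ℕ) {κ : ℝ} (hκ : 0 < κ) : ∃ (L₀ : ℕ) (η : ℝ), 0 < η ∧
    ∀ (k : Fin m → ℤ) (w : Fin m → ℂ), (∀ j, ‖w j‖ = 1) →
    (∀ n n' : Fin m → ℕ, (∀ j, n j ≤ L₀) → (∀ j, n' j ≤ L₀) →
      ∑ j, (n j : ℤ) * k j = ∑ j, (n' j : ℤ) * k j → ∏ j, w j ^ n j = ∏ j, w j ^ n' j) →
    ∀ R : C(TT, ℂ), ∫ t, ‖R t‖ ^ 2 ∂mu ≤ η →
      ∃ t : TT, (∀ j, ‖fourier (k j) t - w j‖ ≤ κ) ∧ ‖R t‖ ≤ κ := by
  set θ : ℝ := min (1 / 2) (κ ^ 2 / (8 * m + 8)) with hθ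
  have hθ0 : 0 < θ := by
    rw [hθ]; apply lt_min (by norm_num); positivity
  have hθ1 : θ ≤ 1 / 2 := min_le_left _ _
  have hθ2 : θ ≤ κ ^ 2 / (8 * m + 8) := min_le_right _ _
  obtain ⟨L₀, hL₀⟩ : ∃ L₀ : ℕ, ((L₀ : ℝ) + 1) ^ m * (1 - θ) ^ L₀ < 1 := by
    have h1 := tendsto_pow_const_mul_const_pow_of_abs_lt_one m (r := 1 - θ)
      (by rw [abs_of_nonneg (by linarith)]; linarith)
    have h2 := (Filter.tendsto_add_atTop_iff_nat 1).mpr h1
    have h3 := h2.eventually (gt_mem_nhds (show (0 : ℝ) < 1 - θ by linarith))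
    obtain ⟨L, hL⟩ := h3.exists
    refine ⟨L, ?_⟩
    rw [pow_succ, ← mul_assoc] at hL
    push_cast at hL
    have h4 : (0 : ℝ) < 1 - θ := by linarith
    by_contra hcon
    push Not at hcon
    nlinarith
  refine ⟨L₀, κ ^ 2 / (4 * ((L₀ : ℝ) + 1) ^ m), by positivity, ?_⟩
  intro k w hw hrel R hR
  by_contra hcon
  push Not at hcon
  set I : ℕ → ℝ := fun L => ∫ t, Phi k w t ^ L ∂mu with hI
  have hIlow : ∀ L ≤ L₀, 1 / ((L : ℝ) + 1) ^ m ≤ I L := fun L hL => by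
    have := I_lower (L := L) k w hw (fun n n' h1 h2 h3 =>
      hrel n n' (fun j => (h1 j).trans hL) (fun j => (h2 j).trans hL) h3)
    simpa only [toC_GG] using this
  have hI0 : I 0 = 1 := by simp [hI]
  obtain ⟨L, hL, hLI⟩ : ∃ L < L₀, (1 - θ) * I L ≤ I (L + 1) := by
    by_contra hc
    push Not at hc
    have h1 : ∀ L ≤ L₀, I L ≤ (1 - θ) ^ L := by
      intro L
      induction L with
      | zero => intro _; rw [hI0, pow_zero]
      | succ L ih =>
        intro hL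
        have h2 := ih (by omega)
        have h3 := hc L (by omega)
        rw [pow_succ]
        nlinarith
    have h4 := h1 L₀ le_rfl
    have h5 := hIlow L₀ le_rfl
    have h6 : 1 ≤ ((L₀ : ℝ) + 1) ^ m * (1 - θ) ^ L₀ := by
      have h7 : 1 / ((L₀ : ℝ) + 1) ^ m ≤ (1 - θ) ^ L₀ := h5.trans h4
      rw [div_le_iff₀ (by positivity)] at h7
      linarith
    linarith
  have hILpos : 1 / ((L₀ : ℝ) + 1) ^ m ≤ I L := by
    refine le_trans ?_ (hIlow L hL.le)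
    have : (L : ℝ) ≤ L₀ := by exact_mod_cast hL.le
    gcongr
  have hpt : ∀ t, κ ^ 2 * Phi k w t ^ L ≤
      4 * m * (Phi k w t ^ L - Phi k w t ^ (L + 1)) + ‖R t‖ ^ 2 := by
    intro t
    obtain ⟨hP0, hP1⟩ := Phi_mem (k := k) hw t
    have hPL0 : 0 ≤ Phi k w t ^ L := by positivity
    have hPL1 : Phi k w t ^ L ≤ 1 := pow_le_one₀ hP0 hP1
    have h8 : κ ^ 2 ≤ 4 * m * (1 - Phi k w t) + ‖R t‖ ^ 2 := by
      by_cases hall : ∀ j, ‖fourier (k j) t - w j‖ ≤ κ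
      · have h9 := hcon t hall
        have h10 : 0 ≤ 4 * (m : ℝ) * (1 - Phi k w t) := by
          have : 0 ≤ 1 - Phi k w t := by linarith
          positivity
        nlinarith
      · push Not at hall
        obtain ⟨j, hj⟩ := hall
        have h9 := phi_eq (k j) (hw j) t
        have h10 := Phi_le (k := k) hw t j
        have h11 : (1 : ℝ) ≤ m := by
          have : 0 < m := Nat.pos_of_ne_zero (by rintro rfl; exact j.elim0)
          exact_mod_cast this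
        have h12 : κ ^ 2 ≤ 4 * (1 - phi (k j) (w j) t) := by
          rw [← h9]
          have := norm_nonneg (fourier (k j) t - w j)
          nlinarith
        have h13 : 0 ≤ 1 - Phi k w t := by linarith
        nlinarith [sq_nonneg ‖R t‖]
    calc κ ^ 2 * Phi k w t ^ L ≤ (4 * m * (1 - Phi k w t) + ‖R t‖ ^ 2) * Phi k w t ^ L :=
          mul_le_mul_of_nonneg_right h8 hPL0
      _ = 4 * m * (Phi k w t ^ L - Phi k w t ^ (L + 1)) + ‖R t‖ ^ 2 * Phi k w t ^ L := by ring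
      _ ≤ 4 * m * (Phi k w t ^ L - Phi k w t ^ (L + 1)) + ‖R t‖ ^ 2 := by
        have := mul_le_of_le_one_right (sq_nonneg ‖R t‖) hPL1
        linarith
  have hc1 : Continuous fun t => Phi k w t ^ L := (Phi_cont k w).pow L
  have hc2 : Continuous fun t => Phi k w t ^ (L + 1) := (Phi_cont k w).pow (L + 1)
  have hc3 : Continuous fun t => ‖R t‖ ^ 2 := R.continuous.norm.pow 2
  have hint : κ ^ 2 * I L ≤ 4 * m * (I L - I (L + 1)) + ∫ t, ‖R t‖ ^ 2 ∂mu := by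
    have h1 : ∫ t, κ ^ 2 * Phi k w t ^ L ∂mu ≤
        ∫ t, (4 * m * (Phi k w t ^ L - Phi k w t ^ (L + 1)) + ‖R t‖ ^ 2) ∂mu :=
      integral_mono (integrable_real (continuous_const.mul hc1))
        (integrable_real ((continuous_const.mul (hc1.sub hc2)).add hc3)) hpt
    have e1 : ∫ t, (4 * m * (Phi k w t ^ L - Phi k w t ^ (L + 1)) + ‖R t‖ ^ 2) ∂mu =
        ∫ t, 4 * m * (Phi k w t ^ L - Phi k w t ^ (L + 1)) ∂mu + ∫ t, ‖R t‖ ^ 2 ∂mu :=
      integral_add (integrable_real (f := fun t => 4 * m * (Phi k w t ^ L - Phi k w t ^ (L + 1)))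
        (continuous_const.mul (hc1.sub hc2))) (integrable_real hc3)
    have e2 : ∫ t, (Phi k w t ^ L - Phi k w t ^ (L + 1)) ∂mu = I L - I (L + 1) :=
      integral_sub (integrable_real hc1) (integrable_real hc2)
    rw [e1, integral_const_mul, integral_const_mul, e2] at h1
    exact h1
  have hIL0 : 0 < I L := lt_of_lt_of_le (by positivity) hILpos
  have h1 : 4 * (m : ℝ) * (I L - I (L + 1)) ≤ κ ^ 2 / 2 * I L := by
    have h2 : I L - I (L + 1) ≤ θ * I L := by linarith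
    have h3 : 4 * (m : ℝ) * θ ≤ κ ^ 2 / 2 := by
      have h4 : 4 * (m : ℝ) * θ ≤ 4 * m * (κ ^ 2 / (8 * m + 8)) := by gcongr
      refine h4.trans ?_
      rw [← mul_div_assoc, div_le_div_iff₀ (by positivity) (by norm_num)]
      nlinarith [sq_nonneg κ]
    calc 4 * (m : ℝ) * (I L - I (L + 1)) ≤ 4 * m * (θ * I L) := by gcongr
      _ = (4 * m * θ) * I L := by ring
      _ ≤ _ := mul_le_mul_of_nonneg_right h3 hIL0.le
  have h5 : κ ^ 2 / 2 * I L ≤ κ ^ 2 / (4 * ((L₀ : ℝ) + 1) ^ m) := by linarith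
  have h6 : κ ^ 2 / 2 * (1 / ((L₀ : ℝ) + 1) ^ m) ≤ κ ^ 2 / 2 * I L := by gcongr
  have h7 : κ ^ 2 / 2 * (1 / ((L₀ : ℝ) + 1) ^ m) = 2 * (κ ^ 2 / (4 * ((L₀ : ℝ) + 1) ^ m)) := by
    field_simp; norm_num
  have h8 : 0 < κ ^ 2 / (4 * ((L₀ : ℝ) + 1) ^ m) := by positivity
  linarith

end Pool.Agent.R302.WTwo
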