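import Mathlib

open Polynomial Finset

namespace Pool.Agent.R302.Wiener

/-- the sum of the moduli of the coefficients -/
noncomputable def pn (p : ℂ[X]) : ℝ := ∑' i, ‖p.coeff i‖

lemma summable_coeff (p : ℂ[X]) : Summable fun i => ‖p.coeff i‖ :=
  summable_of_ne_finset_zero (s := p.support) fun i hi => by
    rw [Polynomial.notMem_support_iff.mp hi, norm_zero]

lemma pn_eq (p : ℂ[X]) : pn p = ∑ i ∈ p.support, ‖p.coeff i‖ :=
  tsum_eq_sum fun i hi => by rw [Polynomial.notMem_support_iff.mp hi, norm_zero]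

lemma pn_nonneg (p : ℂ[X]) : 0 ≤ pn p := tsum_nonneg fun _ => norm_nonneg _

lemma pn_zero : pn 0 = 0 := by simp [pn]

lemma pn_add_le (p q : ℂ[X]) : pn (p + q) ≤ pn p + pn q := by
  unfold pn
  rw [← (summable_coeff p).tsum_add (summable_coeff q)]
  exact (summable_coeff _).tsum_le_tsum
    (fun i => by rw [coeff_add]; exact norm_add_le _ _) ((summable_coeff p).add (summable_coeff q))

lemma pn_C_mul (c : ℂ) (p : ℂ[X]) : pn (C c * p) = ‖c‖ * pn p := by
  unfold pn
  rw [← tsum_mul_left]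
  exact tsum_congr fun i => by rw [coeff_C_mul, norm_mul]

lemma pn_sum_le {ι : Type*} (s : Finset ι) (f : ι → ℂ[X]) : pn (∑ i ∈ s, f i) ≤ ∑ i ∈ s, pn (f i) := by
  classical
  induction s using Finset.induction_on with
  | empty => simp [pn_zero]
  | insert a s ha ih =>
    rw [sum_insert ha, sum_insert ha]
    exact (pn_add_le _ _).trans (by linarith)

lemma conv_tsum_le {a b : ℕ → ℂ} (ha : Summable fun i => ‖a i‖) (hb : Summable fun i => ‖b i‖) :
    ∑' n, ‖∑ kl ∈ antidiagonal n, a kl.1 * b kl.2‖ ≤ (∑' i, ‖a i‖) * ∑' i, ‖b i‖ := by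
  have ha' : Summable fun i => ‖(‖a i‖ : ℝ)‖ := by simpa using ha
  have hb' : Summable fun i => ‖(‖b i‖ : ℝ)‖ := by simpa using hb
  rw [tsum_mul_tsum_eq_tsum_sum_antidiagonal_of_summable_norm ha' hb']
  refine (summable_norm_sum_mul_antidiagonal_of_summable_norm ha hb).tsum_le_tsum
    (fun n => ?_) ?_
  · refine (norm_sum_le _ _).trans ?_
    exact Finset.sum_le_sum fun i _ => by rw [norm_mul]
  · have := (summable_norm_sum_mul_antidiagonal_of_summable_norm ha' hb')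
    exact this.of_norm

lemma pn_mul_le (p q : ℂ[X]) : pn (p * q) ≤ pn p * pn q := by
  have := conv_tsum_le (summable_coeff p) (summable_coeff q)
  unfold pn
  simp only [coeff_mul]
  exact this

lemma pn_monomial (i : ℕ) (c : ℂ) : pn (monomial i c) = ‖c‖ := by
  unfold pn
  rw [tsum_eq_single i]
  · simp
  · intro j hj
    rw [coeff_monomial, if_neg (Ne.symm hj), norm_zero]

lemma pn_one : pn 1 = 1 := by
  have := pn_monomial 0 1
  simpa using this

lemma pn_pow_le (p : ℂ[X]) (hp : pn p ≤ 1) (k : ℕ) : pn (p ^ k) ≤ 1 := by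
  induction k with
  | zero => rw [pow_zero, pn_one]
  | succ k ih =>
    rw [pow_succ]
    refine (pn_mul_le _ _).trans ?_
    have h1 := pn_nonneg (p ^ k)
    have h2 := pn_nonneg p
    nlinarith

lemma pn_expand_le (L : ℕ) (p : ℂ[X]) : pn (expand ℂ L p) ≤ pn p := by
  have h : expand ℂ L p = ∑ i ∈ p.support, monomial (i * L) (p.coeff i) := by
    conv_lhs => rw [p.as_sum_support]
    rw [map_sum]
    exact Finset.sum_congr rfl fun i _ => by rw [expand_monomial]
  rw [h, pn_eq p]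
  refine (pn_sum_le _ _).trans ?_
  exact Finset.sum_le_sum fun i _ => by rw [pn_monomial]

/-- pairing with a sequence -/
noncomputable def Lam (c : ℕ → ℂ) : ℂ[X] →ₗ[ℂ] ℂ :=
  Polynomial.lsum fun i => (c i) • (LinearMap.id : ℂ →ₗ[ℂ] ℂ)

lemma Lam_eq (c : ℕ → ℂ) (p : ℂ[X]) : Lam c p = ∑ i ∈ p.support, c i * p.coeff i := by
  simp [Lam, Polynomial.lsum_apply, Polynomial.sum_def]

lemma Lam_monomial (c : ℕ → ℂ) (i : ℕ) (a : ℂ) : Lam c (monomial i a) = c i * a := by
  simp [Lam, Polynomial.lsum_apply]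

lemma norm_Lam_le (c : ℕ → ℂ) (hc : ∀ i, ‖c i‖ ≤ 1) (p : ℂ[X]) : ‖Lam c p‖ ≤ pn p := by
  rw [Lam_eq, pn_eq]
  refine (norm_sum_le _ _).trans (Finset.sum_le_sum fun i _ => ?_)
  rw [norm_mul]
  have := hc i
  nlinarith [norm_nonneg (p.coeff i)]

lemma Lam_mul_expand (c σ : ℕ → ℂ) (L : ℕ) (P Q : ℂ[X]) (hP : P.natDegree < L) :
    Lam (fun m => c (m % L) * σ (m / L)) (P * expand ℂ L Q) = Lam c P * Lam σ Q := by
  have hL : 0 < L := by omega
  conv_lhs => rw [P.as_sum_range' L hP, Q.as_sum_support]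
  conv_rhs => rw [P.as_sum_range' L hP, Q.as_sum_support]
  simp only [map_sum, expand_monomial, Finset.sum_mul_sum, monomial_mul_monomial, Lam_monomial]
  refine Finset.sum_congr rfl fun i hi => Finset.sum_congr rfl fun j _ => ?_
  have hi' := Finset.mem_range.mp hi
  have h1 : (i + j * L) % L = i := by
    rw [Nat.add_mul_mod_self_right, Nat.mod_eq_of_lt hi']
  have h2 : (i + j * L) / L = j := by
    rw [Nat.add_mul_div_right _ _ hL, Nat.div_eq_of_lt hi', zero_add]
  rw [h1, h2]; ring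

/-- Rudin-Shapiro polynomials -/
lemma rudin_shapiro (m : ℕ) : ∃ P Q : ℂ[X],
    (∀ i < 2 ^ m, P.coeff i = 1 ∨ P.coeff i = -1) ∧ (∀ i, 2 ^ m ≤ i → P.coeff i = 0) ∧
    (∀ i < 2 ^ m, Q.coeff i = 1 ∨ Q.coeff i = -1) ∧ (∀ i, 2 ^ m ≤ i → Q.coeff i = 0) ∧
    ∀ z : ℂ, ‖z‖ ≤ 1 → ‖P.eval z‖ ^ 2 + ‖Q.eval z‖ ^ 2 ≤ 2 ^ (m + 1) := by
  induction m with
  | zero =>
    refine ⟨1, 1, ?_, ?_, ?_, ?_, ?_⟩
    · intro i hi
      have : i = 0 := by simpa using hi
      subst this; left; simp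
    · intro i hi
      rw [coeff_one, if_neg (by simp at hi; omega)]
    · intro i hi
      have : i = 0 := by simpa using hi
      subst this; left; simp
    · intro i hi
      rw [coeff_one, if_neg (by simp at hi; omega)]
    · intro z _
      simp; norm_num
  | succ m ih =>
    obtain ⟨P, Q, hP, hP0, hQ, hQ0, h⟩ := ih
    have hpow : (2 : ℕ) ^ (m + 1) = 2 ^ m + 2 ^ m := by ring
    refine ⟨P + X ^ (2 ^ m) * Q, P - X ^ (2 ^ m) * Q, ?_, ?_, ?_, ?_, ?_⟩
    · intro i hi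
      rw [coeff_add, coeff_X_pow_mul']
      by_cases h1 : 2 ^ m ≤ i
      · rw [if_pos h1, hP0 i h1, zero_add]
        exact hQ _ (by omega)
      · rw [if_neg h1, add_zero]
        exact hP i (by omega)
    · intro i hi
      rw [coeff_add, coeff_X_pow_mul', if_pos (by omega), hP0 i (by omega), hQ0 _ (by omega),
        add_zero]
    · intro i hi
      rw [coeff_sub, coeff_X_pow_mul']
      by_cases h1 : 2 ^ m ≤ i
      · rw [if_pos h1, hP0 i h1, zero_sub]
        rcases hQ (i - 2 ^ m) (by omega) with h2 | h2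
        · right; rw [h2]
        · left; rw [h2, neg_neg]
      · rw [if_neg h1, sub_zero]
        exact hP i (by omega)
    · intro i hi
      rw [coeff_sub, coeff_X_pow_mul', if_pos (by omega), hP0 i (by omega), hQ0 _ (by omega),
        sub_zero]
    · intro z hz
      have h1 := h z hz
      rw [eval_add, eval_sub, eval_mul, eval_pow, eval_X]
      have h2 := parallelogram_law_with_norm ℝ (P.eval z) (z ^ (2 ^ m) * Q.eval z)
      have h3 : ‖z ^ (2 ^ m) * Q.eval z‖ ≤ ‖Q.eval z‖ := by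
        rw [norm_mul, norm_pow]
        have : ‖z‖ ^ (2 ^ m) ≤ 1 := pow_le_one₀ (norm_nonneg _) hz
        nlinarith [norm_nonneg (Q.eval z)]
      have h4 : ‖z ^ (2 ^ m) * Q.eval z‖ ^ 2 ≤ ‖Q.eval z‖ ^ 2 := by
        gcongr
      have h5 : (2 : ℝ) ^ (m + 1 + 1) = 2 * 2 ^ (m + 1) := by ring
      rw [h5]
      nlinarith

lemma exists_phi {ε : ℝ} (hε : 0 < ε) : ∃ φ : ℂ[X], φ.coeff 0 = 0 ∧ pn φ ≤ 1 ∧
    (∀ z : ℂ, ‖z‖ ≤ 1 → ‖φ.eval z‖ ≤ ε) ∧
    ∃ σ : ℕ → ℂ, σ 0 = 1 ∧ (∀ i, ‖σ i‖ ≤ 1) ∧ Lam σ φ = 1 := by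
  obtain ⟨m, hm⟩ : ∃ m : ℕ, 2 / ε ^ 2 < 2 ^ m := pow_unbounded_of_one_lt _ (by norm_num)
  obtain ⟨P, Q, hP, hP0, -, -, h⟩ := rudin_shapiro m
  have hD : (0 : ℝ) < 2 ^ m := by positivity
  have hsupp : ∀ i, P.coeff i ≠ 0 → i < 2 ^ m := fun i hi => by
    by_contra hcon
    exact hi (hP0 i (by omega))
  have hPn : ∀ i < 2 ^ m, ‖P.coeff i‖ = 1 := fun i hi => by
    rcases hP i hi with h1 | h1 <;> rw [h1] <;> simp
  have hPsq : ∀ i < 2 ^ m, P.coeff i * P.coeff i = 1 := fun i hi => by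
    rcases hP i hi with h1 | h1 <;> rw [h1] <;> norm_num
  have hPdeg : P.natDegree < 2 ^ m := by
    by_contra hcon
    push Not at hcon
    have h1 := hP0 _ hcon
    have h2 : P = 0 := by
      rwa [← leadingCoeff_eq_zero, leadingCoeff]
    have h3 := hPn 0 (by positivity)
    rw [h2] at h3
    simp at h3
  have hPpn : pn P = 2 ^ m := by
    unfold pn
    rw [tsum_eq_sum (s := Finset.range (2 ^ m))]
    · rw [Finset.sum_congr rfl (fun i hi => hPn i (Finset.mem_range.mp hi))]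
      simp
    · intro i hi
      rw [hP0 i (by simpa using hi), norm_zero]
  refine ⟨C ((2 : ℂ) ^ m)⁻¹ * (X * P), ?_, ?_, ?_, fun i => Nat.casesOn i 1 fun j => P.coeff j,
    rfl, ?_, ?_⟩
  · simp
  · rw [pn_C_mul]
    have h1 : pn (X * P) ≤ 2 ^ m := by
      refine (pn_mul_le _ _).trans ?_
      have : pn X = 1 := by
        have := pn_monomial 1 1
        simpa [monomial_one_one_eq_X] using this
      rw [this, one_mul, hPpn]
    rw [norm_inv, norm_pow, Complex.norm_ofNat]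
    rw [inv_mul_le_iff₀ hD, mul_one]
    exact h1
  · intro z hz
    rw [eval_mul, eval_C, eval_mul, eval_X, norm_mul, norm_mul, norm_inv, norm_pow,
      Complex.norm_ofNat, inv_mul_le_iff₀ hD]
    have h1 := h z hz
    have h2 : ‖P.eval z‖ ^ 2 ≤ 2 ^ (m + 1) := by nlinarith [sq_nonneg ‖Q.eval z‖]
    have h3 : (2 : ℝ) ^ (m + 1) ≤ (2 ^ m * ε) ^ 2 := by
      have : 2 < 2 ^ m * ε ^ 2 := by
        rwa [div_lt_iff₀ (by positivity)] at hm
      have h4 : (2 : ℝ) ^ (m + 1) = 2 ^ m * 2 := by ring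
      rw [h4, mul_pow]
      nlinarith
    have h4 : ‖P.eval z‖ ≤ 2 ^ m * ε := by
      refine le_of_sq_le_sq ?_ (by positivity)
      linarith
    calc ‖z‖ * ‖P.eval z‖ ≤ 1 * ‖P.eval z‖ := by gcongr
      _ ≤ _ := by rw [one_mul]; exact h4
  · intro i
    cases i with
    | zero => simp
    | succ j =>
      show ‖P.coeff j‖ ≤ 1
      by_cases hj : j < 2 ^ m
      · rw [hPn j hj]
      · rw [hP0 j (by omega)]; simp
  · have h1 : C ((2 : ℂ) ^ m)⁻¹ * (X * P) =
        ∑ i ∈ Finset.range (2 ^ m), monomial (i + 1) (((2 : ℂ) ^ m)⁻¹ * P.coeff i) := by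
      conv_lhs => rw [P.as_sum_range' (2 ^ m) hPdeg]
      rw [Finset.mul_sum, Finset.mul_sum]
      refine Finset.sum_congr rfl fun i _ => ?_
      rw [X_mul_monomial, C_mul_monomial]
    rw [h1, map_sum]
    simp only [Lam_monomial]
    have h2 : ∀ i ∈ Finset.range (2 ^ m), P.coeff i * (((2 : ℂ) ^ m)⁻¹ * P.coeff i) =
        ((2 : ℂ) ^ m)⁻¹ := fun i hi => by
      have := hPsq i (Finset.mem_range.mp hi)
      calc P.coeff i * (((2 : ℂ) ^ m)⁻¹ * P.coeff i) =
          ((2 : ℂ) ^ m)⁻¹ * (P.coeff i * P.coeff i) := by ring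
        _ = _ := by rw [this, mul_one]
    have h3 : ∑ x ∈ Finset.range (2 ^ m), P.coeff x * (((2 : ℂ) ^ m)⁻¹ * P.coeff x) = 1 := by
      rw [Finset.sum_congr rfl h2]
      simp
    exact h3

lemma desc_identity (N j : ℕ) :
    (N + 1).descFactorial (j + 1) = N.descFactorial (j + 1) + (j + 1) * N.descFactorial j := by
  rw [Nat.succ_descFactorial_succ, Nat.descFactorial_succ]
  by_cases h : j ≤ N
  · have : N + 1 = (N - j) + (j + 1) := by omega
    rw [this, add_mul]
  · rw [Nat.descFactorial_eq_zero_iff_lt.mpr (by omega)]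
    simp

lemma copies {n : ℕ} {ε : ℝ} (φ : ℂ[X]) (h0 : φ.coeff 0 = 0) (hφ : pn φ ≤ 1)
    (hsup : ∀ z : ℂ, ‖z‖ ≤ 1 → ‖φ.eval z‖ ≤ ε) (σ : ℕ → ℂ) (hσ0 : σ 0 = 1)
    (hσ : ∀ i, ‖σ i‖ ≤ 1) (hσφ : Lam σ φ = 1) (N : ℕ) :
    ∃ (G : ℂ[X]) (c : ℕ → ℂ), G.coeff 0 = 0 ∧ pn G ≤ N ∧
      (∀ z : ℂ, ‖z‖ ≤ 1 → ‖G.eval z‖ ≤ N * ε) ∧ c 0 = 1 ∧ (∀ i, ‖c i‖ ≤ 1) ∧
      ∀ k ≤ n, ‖Lam c (G ^ k) - (N.descFactorial k : ℂ)‖ ≤
        (N : ℝ) ^ k - (N.descFactorial k : ℝ) := by
  induction N with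
  | zero =>
    refine ⟨0, fun _ => 1, by simp, by simp [pn_zero], by simp, rfl, by simp, ?_⟩
    intro k _
    cases k with
    | zero =>
      have : Lam (fun _ => (1 : ℂ)) ((0 : ℂ[X]) ^ 0) = 1 := by
        rw [pow_zero, ← monomial_zero_one, Lam_monomial, mul_one]
      rw [this]; simp
    | succ k => simp
  | succ N ih =>
    obtain ⟨G, c, hG0, hGn, hGs, hc0, hc, hT⟩ := ih
    set L := n * G.natDegree + 1 with hL
    have hLpos : 0 < L := by omega
    set c' : ℕ → ℂ := fun m => c (m % L) * σ (m / L) with hc'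
    refine ⟨G + expand ℂ L φ, c', ?_, ?_, ?_, ?_, ?_, ?_⟩
    · rw [coeff_add, hG0, coeff_expand hLpos]
      simp [h0]
    · refine (pn_add_le _ _).trans ?_
      have := pn_expand_le L φ
      push_cast
      linarith
    · intro z hz
      rw [eval_add, expand_eval]
      have h1 := hGs z hz
      have h2 := hsup (z ^ L) (by rw [norm_pow]; exact pow_le_one₀ (norm_nonneg _) hz)
      refine (norm_add_le _ _).trans ?_
      push_cast
      linarith
    · simp only [hc', Nat.zero_mod, Nat.zero_div, hc0, hσ0, mul_one]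
    · intro i
      simp only [hc']
      rw [norm_mul]
      have h1 := hc (i % L)
      have h2 := hσ (i / L)
      have h3 := norm_nonneg (c (i % L))
      have h4 := norm_nonneg (σ (i / L))
      nlinarith
    · intro k hk
      have hdeg : ∀ r ≤ n, (G ^ r).natDegree < L := fun r hr => by
        have h1 : (G ^ r).natDegree ≤ r * G.natDegree := natDegree_pow_le
        have h2 : r * G.natDegree ≤ n * G.natDegree := Nat.mul_le_mul_right _ hr
        omega
      have hα : ∀ s, ‖Lam σ (φ ^ s)‖ ≤ 1 := fun s =>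
        (norm_Lam_le σ hσ _).trans (pn_pow_le φ hφ s)
      have hTle : ∀ r ≤ n, ‖Lam c (G ^ r)‖ ≤ (N : ℝ) ^ r := fun r hr => by
        have h1 := hT r hr
        calc ‖Lam c (G ^ r)‖ = ‖(Lam c (G ^ r) - (N.descFactorial r : ℂ)) +
              (N.descFactorial r : ℂ)‖ := by congr 1; ring
          _ ≤ ‖Lam c (G ^ r) - (N.descFactorial r : ℂ)‖ + ‖(N.descFactorial r : ℂ)‖ :=
            norm_add_le _ _
          _ ≤ _ := by rw [Complex.norm_natCast]; linarith
      have hexp : Lam c' ((G + expand ℂ L φ) ^ k) =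
          ∑ r ∈ Finset.range (k + 1), (k.choose r : ℂ) * (Lam c (G ^ r) * Lam σ (φ ^ (k - r))) := by
        rw [add_pow, map_sum]
        refine Finset.sum_congr rfl fun r hr => ?_
        have hr' : r ≤ n := by have := Finset.mem_range.mp hr; omega
        have h1 : G ^ r * expand ℂ L φ ^ (k - r) * (k.choose r : ℂ[X]) =
            (k.choose r : ℂ) • (G ^ r * expand ℂ L (φ ^ (k - r))) := by
          rw [map_pow, smul_eq_C_mul]
          simp only [map_natCast]
          ring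
        rw [h1, map_smul, smul_eq_mul, hc', Lam_mul_expand c σ L _ _ (hdeg r hr')]
      rw [hexp]
      cases k with
      | zero =>
        have h1 : Lam c ((G : ℂ[X]) ^ 0) = 1 := by
          rw [pow_zero, ← monomial_zero_one, Lam_monomial, mul_one, hc0]
        have h2 : Lam σ ((φ : ℂ[X]) ^ 0) = 1 := by
          rw [pow_zero, ← monomial_zero_one, Lam_monomial, mul_one, hσ0]
        rw [pow_zero] at h1 h2
        simp [h1, h2]
      | succ j =>
        rw [Finset.sum_range_succ, Finset.sum_range_succ]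
        have h2 : Lam σ ((φ : ℂ[X]) ^ 0) = 1 := by
          rw [pow_zero, ← monomial_zero_one, Lam_monomial, mul_one, hσ0]
        have e1 : j + 1 - (j + 1) = 0 := by omega
        have e2 : j + 1 - j = 1 := by omega
        rw [e1, e2, h2, pow_one, hσφ, Nat.choose_self, Nat.choose_succ_self_right, desc_identity]
        have hpow : ((N + 1 : ℕ) : ℝ) ^ (j + 1) =
            ∑ r ∈ Finset.range j, ((j + 1).choose r : ℝ) * (N : ℝ) ^ r +
              (j + 1 : ℝ) * (N : ℝ) ^ j + (N : ℝ) ^ (j + 1) := by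
          push_cast
          rw [add_pow, Finset.sum_range_succ, Finset.sum_range_succ]
          simp only [one_pow, mul_one, Nat.choose_self, Nat.choose_succ_self_right]
          push_cast
          rw [Finset.sum_congr rfl fun r _ => mul_comm ((N : ℝ) ^ r) _]
          ring
        rw [hpow]
        have hb1 : ‖∑ r ∈ Finset.range j, ((j + 1).choose r : ℂ) *
            (Lam c (G ^ r) * Lam σ (φ ^ (j + 1 - r)))‖ ≤
            ∑ r ∈ Finset.range j, ((j + 1).choose r : ℝ) * (N : ℝ) ^ r := by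
          refine (norm_sum_le _ _).trans (Finset.sum_le_sum fun r hr => ?_)
          rw [norm_mul, norm_mul, Complex.norm_natCast]
          have h3 := hTle r (by have := Finset.mem_range.mp hr; omega)
          have h4 := hα (j + 1 - r)
          refine mul_le_mul_of_nonneg_left ?_ (Nat.cast_nonneg _)
          calc ‖Lam c (G ^ r)‖ * ‖Lam σ (φ ^ (j + 1 - r))‖ ≤ (N : ℝ) ^ r * 1 := by
                apply mul_le_mul h3 h4 (norm_nonneg _) (by positivity)
            _ = _ := mul_one _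
        have hb2 := hT j (by omega)
        have hb3 := hT (j + 1) hk
        have hsplit : ∑ r ∈ Finset.range j, ((j + 1).choose r : ℂ) *
              (Lam c (G ^ r) * Lam σ (φ ^ (j + 1 - r))) +
            ((j + 1 : ℕ) : ℂ) * (Lam c (G ^ j) * 1) +
            ((1 : ℕ) : ℂ) * (Lam c (G ^ (j + 1)) * 1) -
            ((N.descFactorial (j + 1) + (j + 1) * N.descFactorial j : ℕ) : ℂ) =
            ∑ r ∈ Finset.range j, ((j + 1).choose r : ℂ) *
              (Lam c (G ^ r) * Lam σ (φ ^ (j + 1 - r))) +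
            ((j + 1 : ℕ) : ℂ) * (Lam c (G ^ j) - (N.descFactorial j : ℂ)) +
            (Lam c (G ^ (j + 1)) - (N.descFactorial (j + 1) : ℂ)) := by
          push_cast; ring
        rw [hsplit]
        refine (norm_add₃_le).trans ?_
        rw [norm_mul, Complex.norm_natCast]
        have hb4 : ((j + 1 : ℕ) : ℝ) * ‖Lam c (G ^ j) - (N.descFactorial j : ℂ)‖ ≤
            ((j + 1 : ℕ) : ℝ) * ((N : ℝ) ^ j - (N.descFactorial j : ℝ)) :=
          mul_le_mul_of_nonneg_left hb2 (Nat.cast_nonneg _)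
        push_cast at hb4 ⊢
        linarith

/-- The key construction. -/
theorem exists_g (n : ℕ) {ε τ : ℝ} (hε : 0 < ε) (hτ : 0 < τ) :
    ∃ (g : ℂ[X]) (c : ℕ → ℂ), g.coeff 0 = 0 ∧ pn g = 1 ∧
      (∀ z : ℂ, ‖z‖ ≤ 1 → ‖g.eval z‖ ≤ ε) ∧ (∀ i, ‖c i‖ ≤ 1) ∧
      ∀ k ≤ n, 1 - τ ≤ (Lam c (g ^ k)).re := by
  obtain ⟨φ, h0, hφ, hsup, σ, hσ0, hσ, hσφ⟩ := exists_phi hε
  obtain ⟨N, hN⟩ := exists_nat_gt (max (2 * n * n / τ) (n + 1 : ℝ))
  have hN1 : 2 * n * n / τ < N := lt_of_le_of_lt (le_max_left _ _) hN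
  have hN2 : (n : ℝ) + 1 < N := lt_of_le_of_lt (le_max_right _ _) hN
  have hN0 : (0 : ℝ) < N := by have : (0 : ℝ) ≤ n := Nat.cast_nonneg n; linarith
  have hnN : n + 1 < N := by exact_mod_cast hN2
  obtain ⟨G, c, hG0, hGn, hGs, hc0, hc, hT⟩ :=
    copies (n := n + 1) φ h0 hφ hsup σ hσ0 hσ hσφ N
  have hNC : (N : ℂ) ≠ 0 := by exact_mod_cast hN0.ne'
  have hpow : ∀ k, (C (N : ℂ)⁻¹ * G) ^ k = C ((N : ℂ)⁻¹ ^ k) * G ^ k := fun k => by
    rw [mul_pow, ← C_pow]
  have hLam : ∀ k, Lam c ((C (N : ℂ)⁻¹ * G) ^ k) = (N : ℂ)⁻¹ ^ k * Lam c (G ^ k) := fun k => by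
    rw [hpow, ← smul_eq_C_mul, map_smul, smul_eq_mul]
  have hpnle : pn (C (N : ℂ)⁻¹ * G) ≤ 1 := by
    rw [pn_C_mul, norm_inv, Complex.norm_natCast, inv_mul_le_iff₀ hN0, mul_one]
    exact hGn
  refine ⟨C (N : ℂ)⁻¹ * G, c, ?_, ?_, ?_, hc, ?_⟩
  · rw [coeff_C_mul, hG0, mul_zero]
  · refine le_antisymm hpnle ?_
    have h1 := hT 1 (by omega)
    rw [Nat.descFactorial_one, pow_one, pow_one, sub_self] at h1
    have h2 : Lam c G = N := by
      have := norm_le_zero_iff.mp h1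
      exact sub_eq_zero.mp this
    have h3 := hLam 1
    rw [pow_one, pow_one, pow_one, h2, inv_mul_cancel₀ hNC] at h3
    have h4 := norm_Lam_le c hc (C (N : ℂ)⁻¹ * G)
    rwa [h3, norm_one] at h4
  · intro z hz
    rw [eval_mul, eval_C, norm_mul, norm_inv, Complex.norm_natCast, inv_mul_le_iff₀ hN0]
    exact hGs z hz
  · intro k hk
    rw [hLam]
    have h1 := hT k (by omega)
    have h2 : ((N : ℂ)⁻¹ ^ k * Lam c (G ^ k)).re = ((N : ℝ)⁻¹) ^ k * (Lam c (G ^ k)).re := by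
      have : ((N : ℂ)⁻¹ ^ k) = (((N : ℝ)⁻¹ ^ k : ℝ) : ℂ) := by push_cast; rfl
      rw [this, Complex.re_ofReal_mul]
    rw [h2]
    have h3 : (N.descFactorial k : ℝ) - ((N : ℝ) ^ k - (N.descFactorial k : ℝ)) ≤
        (Lam c (G ^ k)).re := by
      have h4 := (abs_le.mp ((Complex.abs_re_le_norm _).trans h1)).1
      rw [Complex.sub_re, Complex.natCast_re] at h4
      linarith
    have h5 : (1 - (n : ℝ) * n / N) * (N : ℝ) ^ k ≤ (N.descFactorial k : ℝ) := by
      have h6 : (N + 1 - k) ^ k ≤ N.descFactorial k := Nat.pow_sub_le_descFactorial N k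
      have h7 : ((N : ℝ) - n) ^ k ≤ (N.descFactorial k : ℝ) := by
        have h8 : ((N : ℝ) - n) ≤ ((N + 1 - k : ℕ) : ℝ) := by
          have h9 : N - n ≤ N + 1 - k := by omega
          have h10 : ((N - n : ℕ) : ℝ) = (N : ℝ) - n := by
            rw [Nat.cast_sub (by omega)]
          rw [← h10]
          exact_mod_cast h9
        calc ((N : ℝ) - n) ^ k ≤ ((N + 1 - k : ℕ) : ℝ) ^ k := by
              apply pow_le_pow_left₀ _ h8
              linarith
          _ ≤ _ := by exact_mod_cast h6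
      have h11 : (1 - (n : ℝ) * n / N) ≤ (1 - (n : ℝ) / N) ^ k := by
        have h12 : (-2 : ℝ) ≤ -((n : ℝ) / N) := by
          have : (n : ℝ) / N ≤ 1 := by rw [div_le_one hN0]; linarith
          linarith
        have h13 := one_add_mul_le_pow h12 k
        have h14 : (k : ℝ) * ((n : ℝ) / N) ≤ n * n / N := by
          rw [← mul_div_assoc]
          have : (k : ℝ) ≤ n := by exact_mod_cast hk
          gcongr
        have h15 : (1 + -((n : ℝ) / N)) = 1 - (n : ℝ) / N := by ring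
        rw [h15] at h13
        linarith
      calc (1 - (n : ℝ) * n / N) * (N : ℝ) ^ k ≤ (1 - (n : ℝ) / N) ^ k * (N : ℝ) ^ k := by
            gcongr
        _ = ((N : ℝ) - n) ^ k := by
            rw [← mul_pow]; congr 1; field_simp
        _ ≤ _ := h7
    have h16 : (1 - τ) * (N : ℝ) ^ k ≤ (Lam c (G ^ k)).re := by
      have h17 : 2 * ((n : ℝ) * n / N) ≤ τ := by
        rw [div_lt_iff₀ hτ] at hN1
        rw [← mul_div_assoc, div_le_iff₀ hN0]
        nlinarith
      have h18 : (0 : ℝ) < (N : ℝ) ^ k := by positivity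
      nlinarith
    rw [inv_pow, ← div_eq_inv_mul, le_div_iff₀ (by positivity)]
    exact h16

end Pool.Agent.R302.Wiener
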