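import Mathlib

open scoped ENNReal

namespace Pool.Agent.R302.WTwo

/-- `InW δ a b`: the sequences `a`, `b` on the integers are absolutely summable, `∑ |a n| = 1`, the
function `f(z) = ∑ a n z ^ n` (sum over all integers `n`) satisfies `|f(z)| ≥ δ` on the unit circle,
and `∑ b n z ^ n` is the absolutely convergent Fourier series of `1 / f`. -/
def InW (δ : ℝ) (a b : ℤ → ℂ) : Prop :=
  HasSum (fun n => ‖a n‖) 1 ∧ Summable (fun n => ‖b n‖) ∧
    (∀ z : ℂ, ‖z‖ = 1 → δ ≤ ‖∑' n : ℤ, a n * z ^ n‖) ∧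
    ∀ z : ℂ, ‖z‖ = 1 → (∑' n : ℤ, a n * z ^ n) * (∑' n : ℤ, b n * z ^ n) = 1

/-- The supremum in `[0, ∞]` of `∑ |b n|`, the norm of `1 / f`, over all `f` in the unit sphere of
the Wiener algebra of the circle with `|f| ≥ δ`. -/
noncomputable def CW (δ : ℝ) : ℝ≥0∞ :=
  ⨆ (a : ℤ → ℂ) (b : ℤ → ℂ) (_ : InW δ a b), ∑' n, ‖b n‖ₑ

/-- The critical constant of the Wiener algebra of the circle. -/
noncomputable def deltaW : ℝ := sInf {δ : ℝ | 0 < δ ∧ δ ≤ 1 ∧ CW δ < ⊤}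

end Pool.Agent.R302.WTwo
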