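import Pool.Agent.R302.WienerB
import Pool.Agent.R302.WienerTwoDef
import Pool.Agent.R302.WienerDisc

open MeasureTheory AddCircle Finset
open scoped ENNReal ComplexConjugate

namespace Pool.Agent.R302.WTwo

/-- the completion of the algebra of bounded sequences -/
abbrev BB : Type := UniformSpace.Completion B0

lemma norm_iota (x : B0) : ‖(x : BB)‖ = ‖x‖ := UniformSpace.Completion.norm_coe x

instance : NormOneClass BB := ⟨by
  have : (1 : BB) = ((1 : B0) : BB) := rfl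
  rw [this, norm_iota, norm_one]⟩

/-- the embedding as an algebra homomorphism -/
noncomputable def iota : B0 →ₐ[ℂ] BB :=
  { UniformSpace.Completion.coeRingHom with
    commutes' := fun _ => rfl }

lemma iota_apply (x : B0) : iota x = (x : BB) := rfl

/-- Uniform bounds for inverses in the Wiener algebra. -/
theorem uniform_bound {δ : ℝ} (hδ : 1 / 2 < δ) : ∃ K : ℝ, ∀ x y : W, ‖x‖ ≤ 1 →
    (∀ t, δ ≤ ‖toC x t‖) → x * y = 1 → ‖y‖ ≤ K := by
  by_contra hcon
  push Not at hcon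
  have h1 : ∀ N : ℕ, ∃ x y : W, ‖x‖ ≤ 1 ∧ (∀ t, δ ≤ ‖toC x t‖) ∧ x * y = 1 ∧ (N : ℝ) < ‖y‖ :=
    fun N => hcon N
  choose x y hx hxδ hxy hy using h1
  let F : B0 := mk x 1 hx
  by_cases hu : IsUnit (iota F)
  · obtain ⟨u, hu⟩ := hu
    obtain ⟨R, hR⟩ : ∃ R : B0, ‖(R : BB) - ↑u⁻¹‖ < 1 / 2 := by
      have h2 := (UniformSpace.Completion.denseRange_coe (α := B0)).exists_dist_lt
        (x := ((u⁻¹ : BBˣ) : BB)) (ε := 1 / 2) (by norm_num)
      obtain ⟨R, hR⟩ := h2
      exact ⟨R, by rwa [dist_comm, dist_eq_norm] at hR⟩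
    have hFR : ‖F * R - 1‖ ≤ 1 / 2 := by
      rw [← norm_iota]
      have h3 : ((F * R - 1 : B0) : BB) = iota F * ((R : BB) - ↑u⁻¹) := by
        have h4 : iota F * ((u⁻¹ : BBˣ) : BB) = 1 := by rw [← hu]; exact u.mul_inv
        rw [mul_sub, h4, ← iota_apply, map_sub, map_mul, map_one, ← iota_apply]
      rw [h3]
      refine (norm_mul_le _ _).trans ?_
      have h5 : ‖iota F‖ ≤ 1 := by
        rw [iota_apply, norm_iota]
        exact norm_le_of_ev zero_le_one hx
      have h6 := norm_nonneg ((R : BB) - ↑u⁻¹)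
      nlinarith
    obtain ⟨N, hN⟩ := exists_nat_gt (2 * ‖R‖)
    have h7 : ‖x N * ev N R - 1‖ ≤ 1 / 2 := by
      have h8 := (norm_ev_le (F * R - 1) N).trans hFR
      rwa [map_sub, map_mul, map_one] at h8
    have h9 : y N = ev N R - y N * (x N * ev N R - 1) := by
      have : y N * (x N * ev N R - 1) = (x N * y N) * ev N R - y N := by ring
      rw [this, hxy, one_mul]; ring
    have h10 : ‖y N‖ ≤ ‖R‖ + ‖y N‖ * (1 / 2) := by
      calc ‖y N‖ = ‖ev N R - y N * (x N * ev N R - 1)‖ := by rw [← h9]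
        _ ≤ ‖ev N R‖ + ‖y N * (x N * ev N R - 1)‖ := norm_sub_le _ _
        _ ≤ ‖R‖ + ‖y N‖ * (1 / 2) := by
          refine add_le_add (norm_ev_le R N) ((norm_mul_le _ _).trans ?_)
          exact mul_le_mul_of_nonneg_left h7 (norm_nonneg _)
    have h11 := hy N
    linarith
  · obtain ⟨χ, hχ⟩ := WeakDual.CharacterSpace.exists_apply_eq_zero hu
    let ψ : B0 →ₐ[ℂ] ℂ := (WeakDual.CharacterSpace.toAlgHom χ).comp iota
    have hψ : ∀ x, ‖ψ x‖ ≤ ‖x‖ := fun x => by
      rw [← norm_iota]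
      exact AlgHom.norm_apply_le_self (WeakDual.CharacterSpace.toAlgHom χ) (x : BB)
    exact psi_ne_zero hψ hδ F hx hxδ hχ

/-- the element with given coefficients -/
lemma exists_elt {a : ℤ → ℂ} (ha : Summable fun n => ‖a n‖) : ∃ x : W, ∀ n, co x n = a n := by
  have h1 : Summable fun n => a n • (fourier n : C(TT, ℂ)) := by
    refine Summable.of_norm (ha.congr fun n => ?_)
    rw [norm_smul, fourier_norm, mul_one]
  have h2 : ∀ n, fourierCoeff (∑' k, a k • (fourier k : C(TT, ℂ)) : C(TT, ℂ)) n = a n := fun n => by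
    have h3 := h1.hasSum.mapL (pairL 1 n)
    rw [pairL_apply, mul_one] at h3
    have h4 : ∀ k, pairL 1 n (a k • fourier k) = if k = n then a n else 0 := fun k => by
      rw [map_smul, pairL_apply, mul_one, coeff_fourier, smul_eq_mul]
      by_cases h : k = n
      · subst h; simp
      · rw [if_neg (Ne.symm h), if_neg h, mul_zero]
    simp only [h4] at h3
    exact h3.unique (hasSum_ite_eq n (a n))
  refine ⟨⟨∑' k, a k • (fourier k : C(TT, ℂ)), ?_⟩, h2⟩
  show Summable fun n => ‖fourierCoeff (∑' k, a k • (fourier k : C(TT, ℂ)) : C(TT, ℂ)) n‖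
  simpa only [h2] using ha

lemma toC_eq_tsum (x : W) (t : TT) :
    toC x t = ∑' n : ℤ, co x n * ((toCircle t : Circle) : ℂ) ^ n := by
  rw [← (co_hasSum x t).tsum_eq]
  refine tsum_congr fun n => ?_
  rw [fourier_apply, toCircle_zsmul, Circle.coe_zpow]

lemma CW_lt_top {δ : ℝ} (hδ : 1 / 2 < δ) : CW δ < ⊤ := by
  obtain ⟨K, hK⟩ := uniform_bound hδ
  have h1 : CW δ ≤ ENNReal.ofReal K := by
    refine iSup_le fun a => iSup_le fun b => iSup_le fun ⟨ha, hb, hf, hab⟩ => ?_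
    obtain ⟨x, hx⟩ := exists_elt ha.summable
    obtain ⟨y, hy⟩ := exists_elt hb
    have hxn : ‖x‖ ≤ 1 := by
      rw [norm_def]; simp only [hx]; exact ha.tsum_eq.le
    have hxy : x * y = 1 := by
      apply toC_injective
      ext t
      rw [map_mul, ContinuousMap.mul_apply, toC_eq_tsum, toC_eq_tsum, map_one]
      simp only [hx, hy]
      rw [hab _ (Circle.norm_coe _)]
      rfl
    have hyn := hK x y hxn (fun t => by
      rw [toC_eq_tsum]
      simp only [hx]
      exact hf _ (Circle.norm_coe _)) hxy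
    have h8 : ∑' n, ‖b n‖ₑ = ENNReal.ofReal (∑' n, ‖b n‖) := by
      rw [ENNReal.ofReal_tsum_of_nonneg (fun _ => norm_nonneg _) hb]
      exact tsum_congr fun n => by rw [ofReal_norm]
    rw [h8]
    refine ENNReal.ofReal_le_ofReal ?_
    rw [norm_def] at hyn
    simpa only [hy] using hyn
  exact lt_of_le_of_lt h1 ENNReal.ofReal_lt_top

open Polynomial in
open Pool.Agent.R302.Wiener in
/-- Neumann bound for a formal reciprocal -/
lemma recip_bound {a b : ℕ → ℂ} (ha : HasSum (fun n => ‖a n‖) 1) (h0 : 1 / 2 < ‖a 0‖)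
    (hconv : ∀ n, ∑ kl ∈ antidiagonal n, a kl.1 * b kl.2 = if n = 0 then 1 else 0) :
    Summable fun n => ‖b n‖ := by
  have htail : ∀ N, ∑ k ∈ range N, ‖a (k + 1)‖ ≤ 1 - ‖a 0‖ := fun N => by
    have h1 := ha.summable.sum_le_tsum (range (N + 1)) (fun _ _ => norm_nonneg _)
    rw [ha.tsum_eq, Finset.sum_range_succ'] at h1
    linarith
  have hrec : ∀ n, ‖a 0‖ * ‖b n‖ ≤ (if n = 0 then 1 else 0) +
      ∑ k ∈ range n, ‖a (k + 1)‖ * ‖b (n - 1 - k)‖ := fun n => by
    have h1 := hconv n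
    rw [Finset.Nat.sum_antidiagonal_eq_sum_range_succ (fun i j => a i * b j),
      Finset.sum_range_succ'] at h1
    have h2 : a 0 * b n = (if n = 0 then 1 else 0) -
        ∑ k ∈ range n, a (k + 1) * b (n - (k + 1)) := by
      rw [← h1]; simp
    rw [← norm_mul, h2]
    refine (norm_sub_le _ _).trans ?_
    refine add_le_add ?_ ?_
    · split_ifs <;> simp
    · refine (norm_sum_le _ _).trans (Finset.sum_le_sum fun k _ => ?_)
      rw [norm_mul]
      have : n - (k + 1) = n - 1 - k := by omega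
      rw [this]
  have hpart : ∀ N, ∑ n ∈ range N, ‖b n‖ ≤ 1 / (2 * ‖a 0‖ - 1) := fun N => by
    have h1 : ∑ n ∈ range N, ‖a 0‖ * ‖b n‖ ≤
        ∑ n ∈ range N, ((if n = 0 then (1 : ℝ) else 0) +
          ∑ k ∈ range n, ‖a (k + 1)‖ * ‖b (n - 1 - k)‖) :=
      Finset.sum_le_sum fun n _ => hrec n
    rw [← Finset.mul_sum, Finset.sum_add_distrib] at h1
    have h2 : ∑ n ∈ range N, (if n = 0 then (1 : ℝ) else 0) ≤ 1 := by
      rw [Finset.sum_ite_eq' (range N) 0 (fun _ => (1 : ℝ))]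
      split_ifs <;> norm_num
    have h3 : ∑ n ∈ range N, ∑ k ∈ range n, ‖a (k + 1)‖ * ‖b (n - 1 - k)‖ ≤
        (∑ k ∈ range N, ‖a (k + 1)‖) * ∑ j ∈ range N, ‖b j‖ := by
      rw [Finset.sum_mul_sum]
      exact tri_le (fun k j => ‖a (k + 1)‖ * ‖b j‖) (fun _ _ => by positivity) N
    have h4 := htail N
    have h5 : 0 ≤ ∑ n ∈ range N, ‖b n‖ := Finset.sum_nonneg fun _ _ => norm_nonneg _
    have h6 : (2 * ‖a 0‖ - 1) * ∑ n ∈ range N, ‖b n‖ ≤ 1 := by
      have h7 : (∑ k ∈ range N, ‖a (k + 1)‖) * ∑ j ∈ range N, ‖b j‖ ≤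
          (1 - ‖a 0‖) * ∑ j ∈ range N, ‖b j‖ := mul_le_mul_of_nonneg_right h4 h5
      nlinarith
    rw [le_div_iff₀ (by linarith)]
    linarith
  exact summable_of_sum_range_le (fun _ => norm_nonneg _) hpart

open Polynomial in
open Pool.Agent.R302.Wiener in
/-- polynomials with large reciprocals -/
lemma family {δ x : ℝ} (hδ0 : 0 < δ) (hx0 : 0 ≤ x) (hx1 : x < 1) (hδ : δ < 1 / (1 + x))
    (n : ℕ) {τ : ℝ} (hτ : 0 < τ) : ∃ a b : ℕ → ℂ, HasSum (fun n => ‖a n‖) 1 ∧
      Summable (fun n => ‖b n‖) ∧ (∀ z : ℂ, ‖z‖ ≤ 1 → δ ≤ ‖∑' n, a n * z ^ n‖) ∧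
      (∀ z : ℂ, ‖z‖ ≤ 1 → (∑' n, a n * z ^ n) * (∑' n, b n * z ^ n) = 1) ∧
      (1 + x) * ((1 - τ) * ∑ k ∈ range n, x ^ k) / (1 + x ^ n) ≤ ∑' n, ‖b n‖ := by
  have hx2 : 0 < 1 + x := by linarith
  set ε : ℝ := 1 - δ * (1 + x) with hε
  have hεpos : 0 < ε := by
    rw [lt_div_iff₀ hx2] at hδ; linarith
  have hε1 : ε < 1 := by
    have : 0 < δ * (1 + x) := by positivity
    linarith
  obtain ⟨g, c, hg0, hgn, hgs, hc, hk⟩ := exists_g n hεpos hτ
  set α : ℝ := 1 / (1 + x) with hα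
  have hα0 : 0 < α := by positivity
  have hα1 : 1 / 2 < α := by
    rw [hα, div_lt_div_iff₀ (by norm_num) hx2]; linarith
  set f : ℂ[X] := C (α : ℂ) * (1 - C (x : ℂ) * g) with hf
  have hfn : pn f = 1 := by
    rw [hf, pn_C_mul, pn_one_sub hx0 g hg0, hgn, Complex.norm_real, Real.norm_of_nonneg hα0.le, hα]
    field_simp
  have hf0 : f.coeff 0 = α := by
    rw [hf, coeff_C_mul, coeff_sub, coeff_one_zero, coeff_C_mul, hg0]; ring
  have hfe : ∀ z : ℂ, ‖z‖ ≤ 1 → δ ≤ ‖f.eval z‖ := by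
    intro z hz
    have h1 := hgs z hz
    have h2 : f.eval z = (α : ℂ) * (1 - (x : ℂ) * g.eval z) := by
      rw [hf]; simp
    rw [h2, norm_mul, Complex.norm_real, Real.norm_of_nonneg hα0.le]
    have h3 : 1 - x * ε ≤ ‖1 - (x : ℂ) * g.eval z‖ := by
      have h4 := norm_sub_norm_le (1 : ℂ) ((x : ℂ) * g.eval z)
      rw [norm_one, norm_mul, Complex.norm_real, Real.norm_of_nonneg hx0] at h4
      have h5 : x * ‖g.eval z‖ ≤ x * ε := mul_le_mul_of_nonneg_left h1 hx0
      linarith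
    have h6 : δ ≤ α * (1 - x * ε) := by
      rw [hα, one_div, le_inv_mul_iff₀ hx2]
      have h7 : x * ε ≤ 1 * ε := mul_le_mul_of_nonneg_right hx1.le hεpos.le
      rw [hε] at h7 ⊢
      linarith
    exact h6.trans (mul_le_mul_of_nonneg_left h3 hα0.le)
  have hasum : HasSum (fun n => ‖f.coeff n‖) 1 := by
    have h1 : ∑' i, ‖f.coeff i‖ = 1 := hfn
    rw [← h1]
    exact (summable_coeff f).hasSum
  set b : ℕ → ℂ := fun m => PowerSeries.coeff m ((f : PowerSeries ℂ)⁻¹) with hb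
  have hconv : ∀ m, ∑ kl ∈ antidiagonal m, f.coeff kl.1 * b kl.2 = if m = 0 then 1 else 0 := by
    intro m
    have h1 : (f : PowerSeries ℂ) * (f : PowerSeries ℂ)⁻¹ = 1 := by
      refine PowerSeries.mul_inv_cancel _ ?_
      rw [Polynomial.constantCoeff_coe, hf0]
      exact_mod_cast hα0.ne'
    have h2 := congrArg (PowerSeries.coeff m) h1
    rw [PowerSeries.coeff_mul, PowerSeries.coeff_one] at h2
    simpa only [Polynomial.coeff_coe] using h2
  have hbs : Summable fun n => ‖b n‖ := recip_bound hasum (by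
    rw [hf0, Complex.norm_real, Real.norm_of_nonneg hα0.le]; exact hα1) hconv
  refine ⟨f.coeff, b, hasum, hbs, ?_, ?_, ?_⟩
  · intro z hz
    rw [tsum_coeff_eq_eval]
    exact hfe z hz
  · intro z hz
    have hle : ∀ (s : ℕ → ℂ), (Summable fun n => ‖s n‖) → Summable fun n => ‖s n * z ^ n‖ := by
      intro s hs
      refine Summable.of_nonneg_of_le (fun _ => norm_nonneg _) (fun n => ?_) hs
      rw [norm_mul, norm_pow]
      exact mul_le_of_le_one_right (norm_nonneg _) (pow_le_one₀ (norm_nonneg _) hz)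
    rw [tsum_mul_tsum_eq_tsum_sum_antidiagonal_of_summable_norm (hle _ hasum.summable) (hle _ hbs)]
    have h5 : ∀ m : ℕ, ∑ kl ∈ antidiagonal m, f.coeff kl.1 * z ^ kl.1 * (b kl.2 * z ^ kl.2) =
        if m = 0 then 1 else 0 := fun m => by
      have h6 : ∑ kl ∈ antidiagonal m, f.coeff kl.1 * z ^ kl.1 * (b kl.2 * z ^ kl.2) =
          (∑ kl ∈ antidiagonal m, f.coeff kl.1 * b kl.2) * z ^ m := by
        rw [Finset.sum_mul]
        refine Finset.sum_congr rfl fun kl hkl => ?_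
        have := Finset.HasAntidiagonal.mem_antidiagonal.mp hkl
        rw [← this, pow_add]; ring
      rw [h6, hconv]
      by_cases hm : m = 0
      · subst hm; simp
      · simp [hm]
    simp only [h5]
    rw [tsum_ite_eq]
  · have hlow := lower_aux (n := n) (x := x) (τ := τ) hx0 g c hgn hc hk (fun i => (α : ℂ) * b i)
      (by
        have := hbs.mul_left α
        refine this.congr fun i => ?_
        rw [norm_mul, Complex.norm_real, Real.norm_of_nonneg hα0.le])
      (by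
        intro m
        rw [← hconv m]
        refine Finset.sum_congr rfl fun kl _ => ?_
        rw [hf, coeff_C_mul]; ring)
    have h9 : ∑' i, ‖(α : ℂ) * b i‖ = α * ∑' i, ‖b i‖ := by
      rw [← tsum_mul_left]
      exact tsum_congr fun i => by rw [norm_mul, Complex.norm_real, Real.norm_of_nonneg hα0.le]
    rw [h9] at hlow
    have hxn : 0 ≤ x ^ n := by positivity
    rw [div_le_iff₀ (by linarith)]
    have h10 : (1 + x) * α = 1 := by rw [hα]; field_simp
    calc (1 + x) * ((1 - τ) * ∑ k ∈ range n, x ^ k)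
        ≤ (1 + x) * ((1 + x ^ n) * (α * ∑' i, ‖b i‖)) :=
          mul_le_mul_of_nonneg_left hlow hx2.le
      _ = ((1 + x) * α) * ((∑' i, ‖b i‖) * (1 + x ^ n)) := by ring
      _ = _ := by rw [h10, one_mul]

/-- extension by zero from the naturals to the integers -/
noncomputable def ez (a : ℕ → ℂ) : ℤ → ℂ := Function.extend (Nat.cast : ℕ → ℤ) a 0

lemma ez_mul (a : ℕ → ℂ) (z : ℂ) : (fun n : ℤ => ez a n * z ^ n) = ez (fun n => a n * z ^ n) := by
  funext n
  unfold ez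
  by_cases h : ∃ m : ℕ, (m : ℤ) = n
  · obtain ⟨m, rfl⟩ := h
    rw [Nat.cast_injective.extend_apply, Nat.cast_injective.extend_apply, zpow_natCast]
  · rw [Function.extend_apply' _ _ _ h, Function.extend_apply' _ _ _ h]
    simp

lemma ez_tsum (a : ℕ → ℂ) : ∑' n : ℤ, ez a n = ∑' n, a n :=
  tsum_extend_zero Nat.cast_injective a

lemma ez_norm (a : ℕ → ℂ) : (fun n : ℤ => ‖ez a n‖) =
    Function.extend (Nat.cast : ℕ → ℤ) (fun n => ‖a n‖) 0 := by
  funext n
  unfold ez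
  by_cases h : ∃ m : ℕ, (m : ℤ) = n
  · obtain ⟨m, rfl⟩ := h
    rw [Nat.cast_injective.extend_apply, Nat.cast_injective.extend_apply]
  · rw [Function.extend_apply' _ _ _ h, Function.extend_apply' _ _ _ h]
    simp

lemma CW_ge {δ x : ℝ} (hδ0 : 0 < δ) (hx0 : 0 ≤ x) (hx1 : x < 1) (hδ : δ < 1 / (1 + x)) :
    ENNReal.ofReal ((1 + x) / (1 - x)) ≤ CW δ := by
  have hlim : Filter.Tendsto (fun n : ℕ => ENNReal.ofReal ((1 + x) * ((1 - 1 / ((n : ℝ) + 1)) *
      ∑ k ∈ range n, x ^ k) / (1 + x ^ n))) Filter.atTop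
      (nhds (ENNReal.ofReal ((1 + x) * ((1 - 0) * (1 - x)⁻¹) / (1 + 0)))) := by
    refine ENNReal.tendsto_ofReal ?_
    refine Filter.Tendsto.div ?_ ?_ (by norm_num)
    · refine Filter.Tendsto.const_mul _ ?_
      refine Filter.Tendsto.mul ?_ ?_
      · exact tendsto_const_nhds.sub tendsto_one_div_add_atTop_nhds_zero_nat
      · exact (hasSum_geometric_of_lt_one hx0 hx1).tendsto_sum_nat
    · exact tendsto_const_nhds.add (tendsto_pow_atTop_nhds_zero_of_lt_one hx0 hx1)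
  have h1 : (1 + x) * ((1 - 0) * (1 - x)⁻¹) / (1 + 0) = (1 + x) / (1 - x) := by
    rw [sub_zero, one_mul, add_zero, div_one, div_eq_mul_inv]
  rw [h1] at hlim
  refine le_of_tendsto' hlim fun n => ?_
  obtain ⟨a, b, ha, hb, hf, hab, hv⟩ := family hδ0 hx0 hx1 hδ n
    (show (0 : ℝ) < 1 / ((n : ℝ) + 1) by positivity)
  have hbn : Summable fun n : ℤ => ‖ez b n‖ := by
    rw [ez_norm]
    exact (Nat.cast_injective.summable_iff (fun x hx => by
      rw [Function.extend_apply' _ _ _ (fun h => hx h)]; rfl)).mp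
      (by
        have : (Function.extend (Nat.cast : ℕ → ℤ) (fun n => ‖b n‖) 0) ∘ (Nat.cast : ℕ → ℤ) =
            fun n => ‖b n‖ := by
          funext m; exact Nat.cast_injective.extend_apply _ _ _
        rw [this]; exact hb)
  have hin : InW δ (ez a) (ez b) := by
    refine ⟨?_, hbn, ?_, ?_⟩
    · rw [ez_norm]
      exact (hasSum_extend_zero Nat.cast_injective).mpr ha
    · intro z hz
      rw [ez_mul, ez_tsum]
      exact hf z hz.le
    · intro z hz
      rw [ez_mul, ez_mul, ez_tsum, ez_tsum]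
      exact hab z hz.le
  have hle : ∑' n, ‖ez b n‖ₑ ≤ CW δ :=
    le_iSup_of_le _ (le_iSup_of_le _ (le_iSup_of_le hin le_rfl))
  refine le_trans ?_ hle
  have h8 : ∑' n, ‖ez b n‖ₑ = ENNReal.ofReal (∑' n, ‖ez b n‖) := by
    rw [ENNReal.ofReal_tsum_of_nonneg (fun _ => norm_nonneg _) hbn]
    exact tsum_congr fun n => by rw [ofReal_norm]
  rw [h8, ez_norm, tsum_extend_zero Nat.cast_injective]
  exact ENNReal.ofReal_le_ofReal hv

lemma CW_top {δ : ℝ} (hδ0 : 0 < δ) (hδ : δ ≤ 1 / 2) : CW δ = ⊤ := by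
  rw [eq_top_iff]
  have hlim : Filter.Tendsto (fun n : ℕ => ENNReal.ofReal ((n : ℝ) + 1)) Filter.atTop (nhds ⊤) := by
    refine ENNReal.tendsto_ofReal_atTop.comp ?_
    exact Filter.tendsto_atTop_add_const_right _ _ tendsto_natCast_atTop_atTop
  refine le_of_tendsto' hlim fun n => ?_
  have hn : (0 : ℝ) ≤ n := Nat.cast_nonneg n
  set x : ℝ := n / (n + 1) with hx
  have hx0 : 0 ≤ x := by positivity
  have hx1 : x < 1 := by rw [hx, div_lt_one (by positivity)]; linarith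
  have h1 := CW_ge hδ0 hx0 hx1 (by
    rw [lt_div_iff₀ (by linarith)]
    nlinarith)
  refine le_trans (ENNReal.ofReal_le_ofReal ?_) h1
  have h2 : 1 - x = 1 / (n + 1) := by rw [hx]; field_simp; ring
  rw [h2, div_div_eq_mul_div, div_one]
  nlinarith

theorem deltaW_eq : deltaW = 1 / 2 := by
  have hset : {δ : ℝ | 0 < δ ∧ δ ≤ 1 ∧ CW δ < ⊤} = Set.Ioc (1 / 2) 1 := by
    ext δ
    simp only [Set.mem_ofPred_eq, Set.mem_Ioc]
    constructor
    · rintro ⟨h1, h2, h3⟩
      refine ⟨?_, h2⟩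
      by_contra hcon
      push Not at hcon
      rw [CW_top h1 hcon] at h3
      exact lt_irrefl _ h3
    · rintro ⟨h1, h2⟩
      exact ⟨by linarith, h2, CW_lt_top h1⟩
  rw [deltaW, hset]
  exact csInf_Ioc (by norm_num)

end Pool.Agent.R302.WTwo
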