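import Mathlib

open MeasureTheory AddCircle
open scoped ENNReal ComplexConjugate

namespace Pool.Agent.R302.WTwo

/-- the circle as additive group of reals modulo one -/
abbrev TT : Type := AddCircle (1 : ℝ)

/-- Haar probability measure -/
noncomputable abbrev mu : Measure TT := haarAddCircle

lemma integrable_cont (f : C(TT, ℂ)) : Integrable f mu :=
  f.continuous.integrable_of_hasCompactSupport (HasCompactSupport.of_compactSpace _)

lemma coeff_add (f g : C(TT, ℂ)) (n : ℤ) :
    fourierCoeff (f + g) n = fourierCoeff f n + fourierCoeff g n := by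
  have := congrFun (fourierCoeff.add (integrable_cont f) (integrable_cont g)) n
  simpa using this

lemma coeff_smul (c : ℂ) (f : C(TT, ℂ)) (n : ℤ) :
    fourierCoeff (c • f) n = c * fourierCoeff f n := by
  have := fourierCoeff.const_smul (T := 1) (f : TT → ℂ) c n
  simpa using this

lemma coeff_neg (f : C(TT, ℂ)) (n : ℤ) :
    fourierCoeff (-f) n = -fourierCoeff f n := by
  have := coeff_smul (-1) f n
  simpa using this

lemma coeff_zero (n : ℤ) : fourierCoeff (0 : C(TT, ℂ)) n = 0 := by
  have := coeff_smul 0 0 n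
  simpa using this

lemma coeff_fourier (k n : ℤ) : fourierCoeff (fourier k : C(TT, ℂ)) n = if n = k then 1 else 0 := by
  rw [fourierCoeff_fourier]
  by_cases h : n = k
  · subst h; simp
  · simp [h]

lemma norm_coeff_le (f : C(TT, ℂ)) (n : ℤ) : ‖fourierCoeff f n‖ ≤ ‖f‖ := by
  unfold fourierCoeff
  refine (norm_integral_le_of_norm_le_const (C := ‖f‖) ?_).trans ?_
  · refine Filter.Eventually.of_forall fun t => ?_
    rw [norm_smul]
    have h1 : ‖(fourier (-n) : C(TT, ℂ)) t‖ = 1 := by
      rw [fourier_apply, Circle.norm_coe]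
    rw [h1, one_mul]
    exact f.norm_coe_le_norm t
  · simp

/-- pairing `h ↦ (h g)^(n)` as a continuous functional -/
noncomputable def pairL (g : C(TT, ℂ)) (n : ℤ) : C(TT, ℂ) →L[ℂ] ℂ :=
  LinearMap.mkContinuous
    { toFun := fun h => fourierCoeff (h * g : C(TT, ℂ)) n
      map_add' := fun x y => by rw [add_mul]; exact coeff_add _ _ n
      map_smul' := fun c x => by
        rw [smul_mul_assoc]; exact coeff_smul _ _ n } ‖g‖ (fun h => by
      refine (norm_coeff_le _ n).trans ?_
      rw [mul_comm ‖g‖]
      exact norm_mul_le _ _)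

lemma pairL_apply (g h : C(TT, ℂ)) (n : ℤ) : pairL g n h = fourierCoeff (h * g : C(TT, ℂ)) n := rfl

lemma coeff_fourier_mul (g : C(TT, ℂ)) (k n : ℤ) :
    fourierCoeff (fourier k * g : C(TT, ℂ)) n = fourierCoeff g (n - k) := by
  unfold fourierCoeff
  refine integral_congr_ae (Filter.Eventually.of_forall fun t => ?_)
  simp only [smul_eq_mul, ContinuousMap.mul_apply]
  rw [← mul_assoc, ← fourier_add, neg_sub, neg_add_eq_sub]

lemma coeff_mul {f : C(TT, ℂ)} (hf : Summable fun n => ‖fourierCoeff f n‖) (g : C(TT, ℂ)) (n : ℤ) :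
    HasSum (fun k => fourierCoeff f k * fourierCoeff g (n - k)) (fourierCoeff (f * g : C(TT, ℂ)) n) := by
  have h1 := (hasSum_fourier_series_of_summable hf.of_norm).mapL (pairL g n)
  rw [pairL_apply] at h1
  have h2 : ∀ k, pairL g n (fourierCoeff f k • fourier k) =
      fourierCoeff f k * fourierCoeff g (n - k) := fun k => by
    rw [map_smul, pairL_apply, coeff_fourier_mul, smul_eq_mul]
  simpa only [h2] using h1

/-- the norm in `[0, ∞]` -/
noncomputable def en (f : C(TT, ℂ)) : ℝ≥0∞ := ∑' n, ‖fourierCoeff f n‖ₑ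

lemma summable_iff (f : C(TT, ℂ)) : (Summable fun n => ‖fourierCoeff f n‖) ↔ en f ≠ ⊤ := by
  unfold en
  have h1 : (Summable fun n => ‖fourierCoeff f n‖) ↔ Summable fun n => ‖fourierCoeff f n‖₊ := by
    rw [← NNReal.summable_coe]; simp
  rw [h1, ← ENNReal.tsum_coe_ne_top_iff_summable]
  rfl

lemma en_mul_le {f : C(TT, ℂ)} (hf : Summable fun n => ‖fourierCoeff f n‖) (g : C(TT, ℂ)) :
    en (f * g) ≤ en f * en g := by
  unfold en
  calc ∑' n, ‖fourierCoeff (f * g : C(TT, ℂ)) n‖ₑ
      ≤ ∑' n, ∑' k, ‖fourierCoeff f k‖ₑ * ‖fourierCoeff g (n - k)‖ₑ := by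
        refine ENNReal.tsum_le_tsum fun n => ?_
        rw [← (coeff_mul hf g n).tsum_eq]
        refine enorm_tsum_le_tsum_enorm.trans ?_
        exact ENNReal.tsum_le_tsum fun k => by rw [enorm_mul]
    _ = ∑' k, ∑' n, ‖fourierCoeff f k‖ₑ * ‖fourierCoeff g (n - k)‖ₑ := ENNReal.tsum_comm
    _ = ∑' k, ‖fourierCoeff f k‖ₑ * ∑' n, ‖fourierCoeff g n‖ₑ := by
        refine tsum_congr fun k => ?_
        rw [ENNReal.tsum_mul_left]
        congr 1
        exact (Equiv.subRight k).tsum_eq (fun n => ‖fourierCoeff g n‖ₑ)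
    _ = _ := ENNReal.tsum_mul_right

/-- The Wiener algebra as a subalgebra of the continuous functions. -/
noncomputable def WS : Subalgebra ℂ C(TT, ℂ) where
  carrier := {f | Summable fun n => ‖fourierCoeff f n‖}
  mul_mem' := fun {f g} hf hg => by
    have hf' : Summable fun n => ‖fourierCoeff f n‖ := hf
    have hg' : Summable fun n => ‖fourierCoeff g n‖ := hg
    show Summable fun n => ‖fourierCoeff (f * g : C(TT, ℂ)) n‖
    rw [summable_iff]
    refine ne_top_of_le_ne_top ?_ (en_mul_le hf' g)
    exact ENNReal.mul_ne_top ((summable_iff f).mp hf') ((summable_iff g).mp hg')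
  add_mem' := fun {f g} hf hg => by
    have hf' : Summable fun n => ‖fourierCoeff f n‖ := hf
    have hg' : Summable fun n => ‖fourierCoeff g n‖ := hg
    refine Summable.of_nonneg_of_le (fun _ => norm_nonneg _) (fun n => ?_) (hf'.add hg')
    rw [show fourierCoeff (⇑(f + g)) n = fourierCoeff f n + fourierCoeff g n from coeff_add f g n]
    exact norm_add_le _ _
  algebraMap_mem' := fun r => by
    show Summable fun n => ‖fourierCoeff (algebraMap ℂ C(TT, ℂ) r) n‖
    have h1 : algebraMap ℂ C(TT, ℂ) r = r • (fourier 0 : C(TT, ℂ)) := by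
      ext t
      rw [ContinuousMap.smul_apply, fourier_zero]
      simp
    rw [h1]
    refine summable_of_ne_finset_zero (s := {0}) fun n hn => ?_
    rw [show fourierCoeff (⇑(r • (fourier 0 : C(TT, ℂ)))) n =
      r * fourierCoeff (fourier 0 : C(TT, ℂ)) n from coeff_smul _ _ n, coeff_fourier,
      if_neg (by simpa using hn)]
    simp

/-- The Wiener algebra of absolutely convergent Fourier series. -/
def W : Type := WS

noncomputable instance : CommRing W := inferInstanceAs (CommRing WS)
noncomputable instance : Algebra ℂ W := inferInstanceAs (Algebra ℂ WS)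

/-- the underlying continuous function -/
noncomputable def toC : W →ₐ[ℂ] C(TT, ℂ) := WS.val

lemma toC_injective : Function.Injective toC := Subtype.val_injective

lemma toC_summable (x : W) : Summable fun n => ‖fourierCoeff (toC x) n‖ := x.2

/-- Fourier coefficients -/
noncomputable def co (x : W) (n : ℤ) : ℂ := fourierCoeff (toC x) n

lemma co_summable (x : W) : Summable fun n => ‖co x n‖ := toC_summable x

lemma co_add (x y : W) (n : ℤ) : co (x + y) n = co x n + co y n := by
  unfold co; rw [map_add]; exact coeff_add _ _ n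

lemma co_smul (c : ℂ) (x : W) (n : ℤ) : co (c • x) n = c * co x n := by
  unfold co; rw [map_smul]; exact coeff_smul _ _ n

lemma co_neg (x : W) (n : ℤ) : co (-x) n = -co x n := by
  unfold co; rw [map_neg]; exact coeff_neg _ n

lemma co_sub (x y : W) (n : ℤ) : co (x - y) n = co x n - co y n := by
  rw [sub_eq_add_neg, co_add, co_neg]; ring

lemma co_zero (n : ℤ) : co (0 : W) n = 0 := by
  unfold co; rw [map_zero]; exact coeff_zero n

lemma co_hasSum (x : W) (t : TT) : HasSum (fun n => co x n * fourier n t) (toC x t) := by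
  have := has_pointwise_sum_fourier_series_of_summable (toC_summable x).of_norm t
  simpa [co] using this

lemma ext_co {x y : W} (h : ∀ n, co x n = co y n) : x = y := by
  apply toC_injective
  ext t
  refine (co_hasSum x t).unique ?_
  simpa [h] using co_hasSum y t

lemma co_mul_summable (x y : W) (n : ℤ) :
    HasSum (fun k => co x k * co y (n - k)) (co (x * y) n) := by
  unfold co
  rw [map_mul]
  exact coeff_mul (toC_summable x) _ n

/-- the norm -/
noncomputable def wn (x : W) : ℝ := ∑' n, ‖co x n‖

lemma wn_nonneg (x : W) : 0 ≤ wn x := tsum_nonneg fun _ => norm_nonneg _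

lemma ofReal_wn (x : W) : ENNReal.ofReal (wn x) = en (toC x) := by
  unfold wn en
  rw [ENNReal.ofReal_tsum_of_nonneg (fun _ => norm_nonneg _) (co_summable x)]
  exact tsum_congr fun n => by rw [ofReal_norm]; rfl

lemma wn_mul_le (x y : W) : wn (x * y) ≤ wn x * wn y := by
  have h := en_mul_le (toC_summable x) (toC y)
  rw [← map_mul, ← ofReal_wn, ← ofReal_wn, ← ofReal_wn,
    ← ENNReal.ofReal_mul (wn_nonneg x)] at h
  exact (ENNReal.ofReal_le_ofReal_iff (mul_nonneg (wn_nonneg x) (wn_nonneg y))).mp h

/-- the norm as a ring norm -/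
noncomputable def rn : RingNorm W where
  toFun := wn
  map_zero' := by unfold wn; simp [co_zero]
  add_le' := fun x y => by
    unfold wn
    rw [← (co_summable x).tsum_add (co_summable y)]
    exact (co_summable _).tsum_le_tsum (fun n => by rw [co_add]; exact norm_add_le _ _)
      ((co_summable x).add (co_summable y))
  neg' := fun x => by unfold wn; exact tsum_congr fun n => by rw [co_neg, norm_neg]
  mul_le' := wn_mul_le
  eq_zero_of_map_eq_zero' := fun x hx => by
    have hx' : wn x = 0 := hx
    apply ext_co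
    intro n
    have h1 := (co_summable x).le_tsum n (fun _ _ => norm_nonneg _)
    have h2 : ‖co x n‖ ≤ 0 := by
      have : ‖co x n‖ ≤ wn x := h1
      linarith
    rw [norm_le_zero_iff.mp h2, co_zero]

noncomputable instance : NormedCommRing W :=
  { rn.toNormedRing with mul_comm := mul_comm }

lemma norm_def (x : W) : ‖x‖ = ∑' n, ‖co x n‖ := rfl

noncomputable instance : NormedAlgebra ℂ W where
  norm_smul_le := fun c x => by
    rw [norm_def, norm_def, ← tsum_mul_left]
    exact le_of_eq (tsum_congr fun n => by rw [co_smul, norm_mul])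

/-- the exponentials -/
noncomputable def ex (k : ℤ) : W := ⟨fourier k, by
  show Summable fun n => ‖fourierCoeff (fourier k : C(TT, ℂ)) n‖
  refine summable_of_ne_finset_zero (s := {k}) fun n hn => ?_
  rw [coeff_fourier, if_neg (by simpa using hn), norm_zero]⟩

lemma toC_ex (k : ℤ) : toC (ex k) = fourier k := rfl

lemma co_ex (k n : ℤ) : co (ex k) n = if n = k then 1 else 0 := coeff_fourier k n

lemma norm_ex (k : ℤ) : ‖ex k‖ = 1 := by
  rw [norm_def]
  rw [tsum_eq_single k (fun n hn => by rw [co_ex, if_neg hn, norm_zero])]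
  rw [co_ex, if_pos rfl, norm_one]

lemma ex_zero : ex 0 = 1 := by
  apply toC_injective
  ext t
  rw [toC_ex, fourier_zero, map_one]
  rfl

lemma ex_add (k l : ℤ) : ex (k + l) = ex k * ex l := by
  apply toC_injective
  ext t
  rw [map_mul, toC_ex, toC_ex, toC_ex, fourier_add]
  rfl

instance : NormOneClass W := ⟨by rw [← ex_zero, norm_ex]⟩

/-- partial sums of the Fourier series -/
noncomputable def part (x : W) (S : Finset ℤ) : W := ∑ k ∈ S, co x k • ex k

lemma co_sum {ι : Type*} (s : Finset ι) (f : ι → W) (n : ℤ) :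
    co (∑ i ∈ s, f i) n = ∑ i ∈ s, co (f i) n := by
  classical
  induction s using Finset.induction_on with
  | empty => simp [co_zero]
  | insert a s ha ih => rw [Finset.sum_insert ha, Finset.sum_insert ha, co_add, ih]

lemma co_part (x : W) (S : Finset ℤ) (n : ℤ) : co (part x S) n = if n ∈ S then co x n else 0 := by
  classical
  rw [part, co_sum]
  have : ∀ k ∈ S, co (co x k • ex k) n = if n = k then co x k else 0 := fun k _ => by
    rw [co_smul, co_ex]; split_ifs <;> simp
  rw [Finset.sum_congr rfl this, Finset.sum_ite_eq]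

lemma norm_part (x : W) (S : Finset ℤ) : ‖part x S‖ = ∑ k ∈ S, ‖co x k‖ := by
  rw [norm_def, tsum_eq_sum (s := S) (fun n hn => by rw [co_part, if_neg hn, norm_zero])]
  exact Finset.sum_congr rfl fun n hn => by rw [co_part, if_pos hn]

lemma norm_sub_part (x : W) (S : Finset ℤ) : ‖x - part x S‖ = ‖x‖ - ‖part x S‖ := by
  rw [eq_sub_iff_add_eq, norm_def, norm_def (part x S), norm_def x,
    ← (co_summable _).tsum_add (co_summable _)]
  refine tsum_congr fun n => ?_
  rw [co_sub, co_part]
  split_ifs <;> simp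

lemma norm_part_sub {S S' : Finset ℤ} (x : W) (h : S ⊆ S') :
    ‖part x S' - part x S‖ = ‖part x S'‖ - ‖part x S‖ := by
  rw [eq_sub_iff_add_eq, norm_def, norm_def (part x S), norm_def (part x S'),
    ← (co_summable _).tsum_add (co_summable _)]
  refine tsum_congr fun n => ?_
  rw [co_sub, co_part, co_part]
  by_cases h1 : n ∈ S
  · simp [h1, h h1]
  · simp [h1]

lemma toC_norm_le (x : W) (t : TT) : ‖toC x t‖ ≤ ‖x‖ := by
  rw [← (co_hasSum x t).tsum_eq, norm_def]
  have h1 : ∀ n, ‖co x n * fourier n t‖ = ‖co x n‖ := fun n => by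
    rw [norm_mul, fourier_apply, Circle.norm_coe, mul_one]
  refine (norm_tsum_le_tsum_norm ?_).trans (le_of_eq (tsum_congr h1))
  exact (co_summable x).congr fun n => (h1 n).symm

end Pool.Agent.R302.WTwo
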